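import Pool.Agent.Work.MP_7596a5_pr.FinGam

/-!
# E1: the elements of the triangle group moving the base vertex at most one edge length

The height `NN g` of an element of the group lies in `{1, cc} ∪ (cc, ∞)`: with
`m = ((2 - ρ) NN g - ρ) / 2 ∈ ℤ[ρ]` (a congruence modulo 2) all conjugates of `m` are at most
those of `1 - ρ`, a unit, so `m = 0` or `m = 1 - ρ`.  Among the seven heights with respect to the
neighbours of `p0` one is then smaller than `cc`.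
-/

namespace Pool.Agent.K7

open scoped ComplexConjugate

namespace Enum

/-- a polynomial of degree at most two vanishing at the three roots is zero -/
theorem three_roots {x y z : ℝ} (h1 : x + y * rho + z * rho ^ 2 = 0)
    (h2 : x + y * rr2 + z * rr2 ^ 2 = 0) (h3 : x + y * rr3 + z * rr3 ^ 2 = 0) :
    x = 0 ∧ y = 0 ∧ z = 0 := by
  have e1 : (7 : ℝ) * z = 0 := by
    linear_combination (rr2 - rr3) * h1 - (rho - rr3) * h2 + (rho - rr2) * h3 - z * vdm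
  have e2 : (7 : ℝ) * y = 0 := by
    linear_combination (-(rr2 ^ 2 - rr3 ^ 2)) * h1 + (rho ^ 2 - rr3 ^ 2) * h2
      - (rho ^ 2 - rr2 ^ 2) * h3 - y * vdm
  have e3 : (7 : ℝ) * x = 0 := by
    linear_combination (rr2 * rr3 * (rr2 - rr3)) * h1 - (rho * rr3 * (rho - rr3)) * h2
      + (rho * rr2 * (rho - rr2)) * h3 - x * vdm
  refine ⟨by linarith, by linarith, by linarith⟩

theorem three_roots_int {x y z : ℤ} (h : ∀ r : ℝ, (r = rho ∨ r = rr2 ∨ r = rr3) →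
    (x : ℝ) + y * r + z * r ^ 2 = 0) : x = 0 ∧ y = 0 ∧ z = 0 := by
  have := three_roots (h rho (Or.inl rfl)) (h rr2 (Or.inr (Or.inl rfl)))
    (h rr3 (Or.inr (Or.inr rfl)))
  exact ⟨by exact_mod_cast this.1, by exact_mod_cast this.2.1, by exact_mod_cast this.2.2⟩

/-- the norm form -/
def nf (a b c : ℤ) : ℤ := a ^ 3 - a ^ 2 * b + 5 * a ^ 2 * c - 2 * a * b ^ 2 - a * b * c
  + 6 * a * c ^ 2 + b ^ 3 - b ^ 2 * c - 2 * b * c ^ 2 + c ^ 3

theorem nf_mod_two (a b c : ZMod 2) (h : a ^ 3 - a ^ 2 * b + 5 * a ^ 2 * c - 2 * a * b ^ 2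
    - a * b * c + 6 * a * c ^ 2 + b ^ 3 - b ^ 2 * c - 2 * b * c ^ 2 + c ^ 3 = 0) :
    a = 0 ∧ b = 0 ∧ c = 0 := by
  revert a b c
  decide

theorem nf_even {a b c : ℤ} (h : nf a b c = 0) : 2 ∣ a ∧ 2 ∣ b ∧ 2 ∣ c := by
  have h1 : ((nf a b c : ℤ) : ZMod 2) = 0 := by rw [h]; simp
  unfold nf at h1
  push_cast at h1
  obtain ⟨ha, hb, hc⟩ := nf_mod_two _ _ _ h1
  exact ⟨(ZMod.intCast_zmod_eq_zero_iff_dvd a 2).1 ha, (ZMod.intCast_zmod_eq_zero_iff_dvd b 2).1 hb,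
    (ZMod.intCast_zmod_eq_zero_iff_dvd c 2).1 hc⟩

theorem nf_zero (n : ℕ) : ∀ a b c : ℤ, a.natAbs + b.natAbs + c.natAbs ≤ n → nf a b c = 0 →
    a = 0 ∧ b = 0 ∧ c = 0 := by
  induction n with
  | zero =>
    intro a b c h _
    omega
  | succ n ih =>
    intro a b c h h0
    obtain ⟨⟨a', rfl⟩, ⟨b', rfl⟩, ⟨c', rfl⟩⟩ := nf_even h0
    have h1 : nf (2 * a') (2 * b') (2 * c') = 8 * nf a' b' c' := by
      unfold nf; ring
    rw [h1] at h0
    have h2 : nf a' b' c' = 0 := by omega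
    by_cases hz : a' = 0 ∧ b' = 0 ∧ c' = 0
    · obtain ⟨rfl, rfl, rfl⟩ := hz
      simp
    · obtain ⟨ha, hb, hc⟩ := ih a' b' c' (by omega) h2
      exact absurd ⟨ha, hb, hc⟩ hz

theorem prod_conj (a b c : ℝ) : (a + b * rho + c * rho ^ 2) * (a + b * rr2 + c * rr2 ^ 2) *
    (a + b * rr3 + c * rr3 ^ 2) = a ^ 3 - a ^ 2 * b + 5 * a ^ 2 * c - 2 * a * b ^ 2 - a * b * c
    + 6 * a * c ^ 2 + b ^ 3 - b ^ 2 * c - 2 * b * c ^ 2 + c ^ 3 := by
  have s1 : rho + rr2 + rr3 = -1 := by unfold rr2 rr3; ring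
  have s3 : rho * rr2 * rr3 = 1 := by
    unfold rr2 rr3
    linear_combination (1 - rho ^ 2) * rho_cubic
  have s2 : rho * rr2 + rho * rr3 + rr2 * rr3 = -2 := by
    unfold rr2 rr3
    linear_combination (-rho) * rho_cubic
  have key : ∀ x y z e1 e2 e3 : ℝ, x + y + z = e1 → x * y + x * z + y * z = e2 → x * y * z = e3 →
      (a + b * x + c * x ^ 2) * (a + b * y + c * y ^ 2) * (a + b * z + c * z ^ 2) =
      a ^ 3 + a ^ 2 * b * e1 + a ^ 2 * c * (e1 ^ 2 - 2 * e2) + a * b ^ 2 * e2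
      + a * b * c * (e1 * e2 - 3 * e3) + a * c ^ 2 * (e2 ^ 2 - 2 * e1 * e3) + b ^ 3 * e3
      + b ^ 2 * c * (e1 * e3) + b * c ^ 2 * (e2 * e3) + c ^ 3 * e3 ^ 2 := by
    intro x y z e1 e2 e3 h1 h2 h3
    subst h1 h2 h3
    ring
  rw [key _ _ _ _ _ _ s1 s2 s3]
  ring

theorem Ltc.prod {x y z : ℝ} (h : Ltc x y z) : ∃ n : ℤ, x * y * z = n ∧ (n = 0 → x = 0) := by
  obtain ⟨a, b, c, rfl, rfl, rfl⟩ := h
  refine ⟨nf a b c, ?_, ?_⟩
  · rw [prod_conj]
    unfold nf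
    push_cast
    ring
  · intro h
    obtain ⟨rfl, rfl, rfl⟩ := nf_zero _ a b c le_rfl h
    simp

theorem norm_one_sub : (rho - 1) * (1 - rr2) * (1 - rr3) = 1 := by
  unfold rr2 rr3
  linear_combination (-rho ^ 2 + rho + 1) * rho_cubic

/-- the congruence modulo 2 -/
theorem mod_two (A B C p q t : ZMod 2)
    (h1 : (2 * A * C + B ^ 2 - 2 * B * C + 3 * C ^ 2) + 2 * (p - t) - 2 = 0)
    (h2 : (A ^ 2 + 2 * B * C - C ^ 2) + 2 * (2 * A * C + B ^ 2 - 2 * B * C + 3 * C ^ 2)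
      + 2 * (q - p - 2 * t) + 1 = 0)
    (h3 : (2 * A * B + 4 * B * C - C ^ 2) - (2 * A * C + B ^ 2 - 2 * B * C + 3 * C ^ 2)
      + 2 * (2 * t - q) = 0) : A - 1 = 0 ∧ B = 0 ∧ C = 0 := by
  revert A B C p q t
  decide

theorem mod_two_int {A B C p q t : ℤ}
    (h1 : (2 * A * C + B ^ 2 - 2 * B * C + 3 * C ^ 2) + 2 * (p - t) - 2 = 0)
    (h2 : (A ^ 2 + 2 * B * C - C ^ 2) + 2 * (2 * A * C + B ^ 2 - 2 * B * C + 3 * C ^ 2)
      + 2 * (q - p - 2 * t) + 1 = 0)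
    (h3 : (2 * A * B + 4 * B * C - C ^ 2) - (2 * A * C + B ^ 2 - 2 * B * C + 3 * C ^ 2)
      + 2 * (2 * t - q) = 0) : ∃ A' B' C' : ℤ, A = 2 * A' + 1 ∧ B = 2 * B' ∧ C = 2 * C' := by
  have g1 := congrArg (fun n : ℤ => (n : ZMod 2)) h1
  have g2 := congrArg (fun n : ℤ => (n : ZMod 2)) h2
  have g3 := congrArg (fun n : ℤ => (n : ZMod 2)) h3
  push_cast at g1 g2 g3
  obtain ⟨u1, u2, u3⟩ := mod_two _ _ _ _ _ _ g1 g2 g3
  have v1 : ((A - 1 : ℤ) : ZMod 2) = 0 := by push_cast; exact u1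
  obtain ⟨A', hA⟩ := (ZMod.intCast_zmod_eq_zero_iff_dvd (A - 1) 2).1 v1
  obtain ⟨B', hB⟩ := (ZMod.intCast_zmod_eq_zero_iff_dvd B 2).1 u2
  obtain ⟨C', hC⟩ := (ZMod.intCast_zmod_eq_zero_iff_dvd C 2).1 u3
  refine ⟨A', B', C', by push_cast at hA; linarith, by push_cast at hB; linarith,
    by push_cast at hC; linarith⟩

/-- the form in terms of the coordinate sum -/
theorem Qf_eq (r : ℝ) (v : E) : Qf r v = r * (v 0 + v 1 + v 2) ^ 2 +
    2 * (1 - r) * (v 0 ^ 2 + v 1 ^ 2 + v 2 ^ 2) := by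
  unfold Qf; ring

theorem half_triple {v v2 v3 : E} (hv : ∀ i, Ltc (v i) (v2 i) (v3 i)) (h1 : Qf rho v = 2 - rho)
    (h2 : Qf rr2 v2 = 2 - rr2) (h3 : Qf rr3 v3 = 2 - rr3) :
    Ltc ((v 0 + v 1 + v 2 - 1) / 2) ((v2 0 + v2 1 + v2 2 - 1) / 2)
      ((v3 0 + v3 1 + v3 2 - 1) / 2) := by
  have hs := ((hv 0).add (hv 1)).add (hv 2)
  have hw := (((hv 0).mul (hv 0)).add ((hv 1).mul (hv 1))).add ((hv 2).mul (hv 2))
  obtain ⟨A, B, C, s1, s2, s3⟩ := hs
  obtain ⟨p, q, t, w1, w2, w3⟩ := hw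
  have key : ∀ r s w : ℝ, r ^ 3 = 1 + 2 * r - r ^ 2 → s = A + B * r + C * r ^ 2 →
      w = p + q * r + t * r ^ 2 → r * s ^ 2 + 2 * (1 - r) * w = 2 - r →
      (((2 * A * C + B ^ 2 - 2 * B * C + 3 * C ^ 2) + 2 * (p - t) - 2 : ℤ) : ℝ) +
      (((A ^ 2 + 2 * B * C - C ^ 2) + 2 * (2 * A * C + B ^ 2 - 2 * B * C + 3 * C ^ 2)
      + 2 * (q - p - 2 * t) + 1 : ℤ) : ℝ) * r +
      (((2 * A * B + 4 * B * C - C ^ 2) - (2 * A * C + B ^ 2 - 2 * B * C + 3 * C ^ 2)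
      + 2 * (2 * t - q) : ℤ) : ℝ) * r ^ 2 = 0 := by
    intro r s w hr hs hw h
    subst hs hw
    push_cast
    linear_combination h - ((2 * (A : ℝ) * C + (B : ℝ) ^ 2) + 2 * (B : ℝ) * C * (r - 1)
      + (C : ℝ) ^ 2 * (r ^ 2 - r + 3) - 2 * (t : ℝ)) * hr
  have e1 := key rho _ _ rho_cubic s1 w1 (by rw [← h1, Qf_eq]; ring)
  have e2 := key rr2 _ _ rr2_cubic s2 w2 (by rw [← h2, Qf_eq]; ring)
  have e3 := key rr3 _ _ rr3_cubic s3 w3 (by rw [← h3, Qf_eq]; ring)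
  obtain ⟨z1, z2, z3⟩ := three_roots e1 e2 e3
  obtain ⟨A', B', C', rfl, rfl, rfl⟩ := mod_two_int (by exact_mod_cast z1)
    (by exact_mod_cast z2) (by exact_mod_cast z3)
  refine ⟨A', B', C', ?_, ?_, ?_⟩
  · rw [s1]; push_cast; ring
  · rw [s2]; push_cast; ring
  · rw [s3]; push_cast; ring

theorem Qf_cs {r : ℝ} (h1 : -2 < r) (h2 : r < 0) {v : E} (hv : Qf r v = 2 - r) :
    |(r * (v 0 + v 1 + v 2) + 2 * (1 - r) * v 0 - r) / 2| ≤ 1 - r := by
  have h : ((2 - r) * v 0 + r * (v 1 + v 2)) ^ 2 ≤ (2 - r) ^ 2 := by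
    have e : (2 - r) * Qf r v - ((2 - r) * v 0 + r * (v 1 + v 2)) ^ 2 =
        4 * (1 - r) * (v 1 ^ 2 + v 2 ^ 2 + r * (v 1 * v 2)) := by
      unfold Qf; ring
    have h3 : 0 ≤ v 1 ^ 2 + v 2 ^ 2 + r * (v 1 * v 2) := by
      nlinarith [sq_nonneg (v 1 - v 2), sq_nonneg (v 1 + v 2), sq_nonneg (v 1), sq_nonneg (v 2)]
    have h4 : 0 ≤ 4 * (1 - r) * (v 1 ^ 2 + v 2 ^ 2 + r * (v 1 * v 2)) :=
      mul_nonneg (by linarith) h3
    rw [hv] at e
    nlinarith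
  have h5 := abs_le_of_sq_le_sq h (by linarith)
  rw [abs_le] at h5 ⊢
  constructor <;> nlinarith [h5.1, h5.2]

/-- the heights at most `cc` -/
theorem height {g : M3} (hg : g ∈ Gam) (h : NN g ≤ cc) : NN g = 1 ∨ NN g = cc := by
  obtain ⟨g2, g3, hL, hQ2, hQ3⟩ := Gam_conj hg
  have hlor := isLor_of_mem_Gam hg
  set v : E := pos g with hv
  set v2 : E := g2.mulVec p0 with hv2
  set v3 : E := g3.mulVec p0 with hv3
  have hp : ∀ (M : M3) (i : Fin 3), M.mulVec p0 i = M i 0 := by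
    intro M i
    rw [mulVec3]
    fin_cases i <;> simp [p0]
  have hvL : ∀ i, Ltc (v i) (v2 i) (v3 i) := by
    intro i
    have := hL i 0
    rw [← hp g i, ← hp g2 i, ← hp g3 i] at this
    exact this
  have hQp : ∀ r : ℝ, Qf r p0 = 2 - r := by
    intro r
    simp [Qf, p0]
  have h2 : Qf rr2 v2 = 2 - rr2 := by rw [hv2, hQ2, hQp]
  have h3 : Qf rr3 v3 = 2 - rr3 := by rw [hv3, hQ3, hQp]
  have h1 : Qf rho v = 2 - rho := by
    have e := hlor.pos_self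
    rw [Bf_explicit] at e
    have e' : Qf rho v = (2 - rho) * (v 0 * v 0 + v 1 * v 1 + v 2 * v 2
        + cc * (v 0 * v 1 + v 1 * v 0 + v 0 * v 2 + v 2 * v 0 + v 1 * v 2 + v 2 * v 1)) := by
      unfold Qf
      linear_combination (-2 * (v 0 * v 1 + v 0 * v 2 + v 1 * v 2)) * cc_mul
    rw [e', e, mul_one]
  have hu := half_triple hvL h1 h2 h3
  have hm := (Ltc.root.mul hu).add ((Ltc.one.add (Ltc.neg_one.mul Ltc.root)).mul (hvL 0))
  obtain ⟨n, hn, hn0⟩ := Ltc.prod hm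
  set m1 := rho * ((v 0 + v 1 + v 2 - 1) / 2) + (1 + -1 * rho) * v 0 with hm1
  set m2 := rr2 * ((v2 0 + v2 1 + v2 2 - 1) / 2) + (1 + -1 * rr2) * v2 0 with hm2
  set m3 := rr3 * ((v3 0 + v3 1 + v3 2 - 1) / 2) + (1 + -1 * rr3) * v3 0 with hm3
  have b2 : |m2| ≤ 1 - rr2 := by
    have := Qf_cs (by linarith [rr2_bounds.1]) rr2_bounds.2 h2
    have e : m2 = (rr2 * (v2 0 + v2 1 + v2 2) + 2 * (1 - rr2) * v2 0 - rr2) / 2 := by
      rw [hm2]; ring
    rw [e]; exact this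
  have b3 : |m3| ≤ 1 - rr3 := by
    have := Qf_cs (by linarith [rr3_bounds.1]) rr3_bounds.2 h3
    have e : m3 = (rr3 * (v3 0 + v3 1 + v3 2) + 2 * (1 - rr3) * v3 0 - rr3) / 2 := by
      rw [hm3]; ring
    rw [e]; exact this
  have hN : NN g = v 0 + cc * (v 1 + v 2) := rfl
  have e1 : m1 = ((2 - rho) * NN g - rho) / 2 := by
    rw [hN, hm1]
    linear_combination (-(v 1 + v 2) / 2) * cc_mul
  have hN1 := hlor.one_le_NN
  have hr := two_sub_rho_pos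
  have hm1le : m1 ≤ 0 := by
    rw [e1]
    have : (2 - rho) * NN g ≤ (2 - rho) * cc := mul_le_mul_of_nonneg_left h hr.le
    linarith [cc_mul]
  have hm1ge : 1 - rho ≤ m1 := by
    rw [e1]
    nlinarith
  have hr1 := one_lt_rho
  have hr2 := rr2_bounds
  have hr3 := rr3_bounds
  have hone := norm_one_sub
  have habs : |(n : ℝ)| ≤ |m1| * ((1 - rr2) * (1 - rr3)) := by
    rw [← hn, abs_mul, abs_mul, mul_assoc]
    refine mul_le_mul_of_nonneg_left ?_ (abs_nonneg _)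
    exact mul_le_mul b2 b3 (abs_nonneg _) (by linarith)
  have hm1abs : |m1| = -m1 := abs_of_nonpos hm1le
  have hpos23 : 0 < (1 - rr2) * (1 - rr3) := mul_pos (by linarith) (by linarith)
  rw [hm1abs] at habs
  by_cases hz : n = 0
  · right
    have := hn0 hz
    rw [e1] at this
    have h5 : (2 - rho) * NN g = (2 - rho) * cc := by linarith [cc_mul]
    exact mul_left_cancel₀ hr.ne' h5
  · left
    have h5 : (1 : ℝ) ≤ |(n : ℝ)| := by
      have := Int.one_le_abs hz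
      exact_mod_cast this
    have h6 : (rho - 1) * ((1 - rr2) * (1 - rr3)) ≤ -m1 * ((1 - rr2) * (1 - rr3)) := by
      linarith
    have h7 : rho - 1 ≤ -m1 := le_of_mul_le_mul_right h6 hpos23
    have h8 : m1 = 1 - rho := le_antisymm (by linarith) hm1ge
    rw [e1] at h8
    have h9 : (2 - rho) * NN g = (2 - rho) * 1 := by linarith
    exact mul_left_cancel₀ hr.ne' h9

theorem pos_eq_p0 {g : M3} (hg : IsLor g) (h : NN g = 1) : pos g = p0 := by
  have h1 := hg.pos_self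
  rw [Bf_self] at h1
  have hZ : Zf (pos g) = 1 := h
  rw [hZ] at h1
  have hW : Wf (pos g) = 0 := by
    rw [← norm_eq_zero]
    have : ‖Wf (pos g)‖ ^ 2 = 0 := by linarith
    exact pow_eq_zero_iff (two_ne_zero) |>.1 this
  exact ext_WZ (by rw [hW, Wf_p0]) (by rw [hZ, Zf_p0])

theorem pow_sum (j : ℕ) (hj : om ^ j ≠ 1) : ∑ k : Fin 7, (om ^ (k : ℕ)) ^ j = 0 := by
  have h1 : ∀ k : Fin 7, (om ^ (k : ℕ)) ^ j = (om ^ j) ^ (k : ℕ) := by
    intro k; rw [← pow_mul, ← pow_mul, mul_comm]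
  rw [Finset.sum_congr rfl (fun k _ => h1 k), Fin.sum_univ_eq_sum_range (fun k => (om ^ j) ^ k) 7,
    geom_sum_eq hj, ← pow_mul, mul_comm, pow_mul, om_pow_seven, one_pow, sub_self, zero_div]

theorem om_sq_ne : om ^ 2 ≠ 1 := by
  intro h
  apply om_ne_one
  have : om ^ 7 = om * (om ^ 2) ^ 3 := by ring
  rw [om_pow_seven, h] at this
  simpa using this.symm

theorem om_cube_ne : om ^ 3 ≠ 1 := by
  intro h
  apply om_ne_one
  have : om ^ 7 = om * (om ^ 3) ^ 2 := by ring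
  rw [om_pow_seven, h] at this
  simpa using this.symm

/-- one of seven equidistributed directions is close -/
theorem close (a : ℂ) (ha : ‖a‖ = 1) : ∃ k : Fin 7, rho / 2 < (a * conj (om ^ (k : ℕ))).re := by
  by_contra hcon
  push Not at hcon
  set x : Fin 7 → ℝ := fun k => (a * conj (om ^ (k : ℕ))).re with hx
  have hxc : ∀ k, ((x k : ℝ) : ℂ) = (a * conj (om ^ (k : ℕ)) + conj a * om ^ (k : ℕ)) / 2 := by
    intro k
    have := Complex.re_eq_add_conj (a * conj (om ^ (k : ℕ)))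
    rw [hx]
    simp only
    rw [this, map_mul, Complex.conj_conj]
  have hu : ∀ k : Fin 7, om ^ (k : ℕ) * conj (om ^ (k : ℕ)) = 1 := by
    intro k
    rw [Complex.mul_conj, Complex.normSq_eq_norm_sq, norm_pow, norm_om]
    simp
  have haa : a * conj a = 1 := by
    rw [Complex.mul_conj, Complex.normSq_eq_norm_sq, ha]
    simp
  have hcs : ∀ j : ℕ, om ^ j ≠ 1 → ∑ k : Fin 7, (conj (om ^ (k : ℕ))) ^ j = 0 := by
    intro j hj
    have := congrArg (starRingEnd ℂ) (pow_sum j hj)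
    rw [map_sum, map_zero] at this
    rw [← this]
    exact Finset.sum_congr rfl (fun k _ => (map_pow _ _ _).symm)
  have s1 : ∑ k, x k = 0 := by
    have : ((∑ k, x k : ℝ) : ℂ) = 0 := by
      push_cast
      rw [Finset.sum_congr rfl (fun k _ => hxc k), ← Finset.sum_div, Finset.sum_add_distrib,
        ← Finset.mul_sum, ← Finset.mul_sum]
      have e1 := hcs 1 (by rw [pow_one]; exact om_ne_one)
      have e2 := pow_sum 1 (by rw [pow_one]; exact om_ne_one)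
      simp only [pow_one] at e1 e2
      rw [e1, e2]
      simp
    exact_mod_cast this
  have s2 : ∑ k, x k ^ 2 = 7 / 2 := by
    have : ((∑ k, x k ^ 2 : ℝ) : ℂ) = ((7 / 2 : ℝ) : ℂ) := by
      push_cast
      have e0 : ∀ k : Fin 7, ((x k : ℝ) : ℂ) ^ 2 = a ^ 2 / 4 * (conj (om ^ (k : ℕ))) ^ 2 +
          conj a ^ 2 / 4 * (om ^ (k : ℕ)) ^ 2 + 1 / 2 := by
        intro k
        rw [hxc k]
        linear_combination (1 / 2 : ℂ) * (om ^ (k : ℕ) * conj (om ^ (k : ℕ))) * haa +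
          (1 / 2 : ℂ) * hu k
      rw [Finset.sum_congr rfl (fun k _ => e0 k), Finset.sum_add_distrib, Finset.sum_add_distrib,
        ← Finset.mul_sum, ← Finset.mul_sum, hcs 2 om_sq_ne, pow_sum 2 om_sq_ne]
      simp
      norm_num
    exact_mod_cast this
  have s3 : ∑ k, x k ^ 3 = 0 := by
    have : ((∑ k, x k ^ 3 : ℝ) : ℂ) = 0 := by
      push_cast
      have e0 : ∀ k : Fin 7, ((x k : ℝ) : ℂ) ^ 3 = a ^ 3 / 8 * (conj (om ^ (k : ℕ))) ^ 3 +
          conj a ^ 3 / 8 * (om ^ (k : ℕ)) ^ 3 + 3 * a / 8 * (conj (om ^ (k : ℕ))) ^ 1 +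
          3 * conj a / 8 * (om ^ (k : ℕ)) ^ 1 := by
        intro k
        rw [hxc k]
        linear_combination (3 / 8 : ℂ) * (a * conj (om ^ (k : ℕ)) + conj a * om ^ (k : ℕ)) *
          (om ^ (k : ℕ) * conj (om ^ (k : ℕ))) * haa +
          (3 / 8 : ℂ) * (a * conj (om ^ (k : ℕ)) + conj a * om ^ (k : ℕ)) * hu k
      rw [Finset.sum_congr rfl (fun k _ => e0 k), Finset.sum_add_distrib, Finset.sum_add_distrib,
        Finset.sum_add_distrib, ← Finset.mul_sum, ← Finset.mul_sum, ← Finset.mul_sum,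
        ← Finset.mul_sum, hcs 3 om_cube_ne, pow_sum 3 om_cube_ne,
        hcs 1 (by rw [pow_one]; exact om_ne_one), pow_sum 1 (by rw [pow_one]; exact om_ne_one)]
      simp
    exact_mod_cast this
  have hr := one_lt_rho
  have hr2 := rho_lt
  set c : ℝ := 1 / rho with hc
  have hrc : rho * c = 1 := by rw [hc]; field_simp
  have hc1 : 0.8 < c := by
    rw [hc, lt_div_iff₀ (by linarith)]
    linarith
  have hnn : 0 ≤ ∑ k, (rho / 2 - x k) * (x k + c) ^ 2 :=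
    Finset.sum_nonneg (fun k _ => mul_nonneg (sub_nonneg.2 (hcon k)) (sq_nonneg _))
  have hexp : ∑ k, (rho / 2 - x k) * (x k + c) ^ 2 =
      -(∑ k, x k ^ 3) + (rho / 2 - 2 * c) * ∑ k, x k ^ 2 + (rho * c - c ^ 2) * ∑ k, x k +
      7 * (rho / 2 * c ^ 2) := by
    have e0 : ∀ k : Fin 7, (rho / 2 - x k) * (x k + c) ^ 2 =
        -(x k ^ 3) + (rho / 2 - 2 * c) * x k ^ 2 + (rho * c - c ^ 2) * x k +
        rho / 2 * c ^ 2 := by
      intro k; ring
    rw [Finset.sum_congr rfl (fun k _ => e0 k), Finset.sum_add_distrib, Finset.sum_add_distrib,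
      Finset.sum_add_distrib, Finset.sum_neg_distrib, ← Finset.mul_sum, ← Finset.mul_sum]
    simp
  rw [hexp, s1, s2, s3] at hnn
  have : rho / 2 * c ^ 2 = c / 2 := by
    have : rho / 2 * c ^ 2 = (rho * c) * (c / 2) := by ring
    rw [this, hrc, one_mul]
  rw [this] at hnn
  nlinarith

end Enum

open Enum in
theorem enum7 {g : M3} (hg : g ∈ Gam) (h : NN g ≤ cc) :
    pos g = p0 ∨ ∃ k : Fin 7, pos g = pos (Am k) := by
  have hlor := isLor_of_mem_Gam hg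
  rcases height hg h with h1 | h1
  · exact Or.inl (pos_eq_p0 hlor h1)
  right
  have hs := sh_pos
  have hs2 := sh_sq
  have hc := cc_gt
  have hW : ‖Wf (pos g)‖ = sh := by
    have h2 := hlor.pos_self
    rw [Bf_self] at h2
    have hZ : Zf (pos g) = cc := h1
    rw [hZ] at h2
    have : ‖Wf (pos g)‖ ^ 2 = sh ^ 2 := by rw [hs2]; linarith
    exact (pow_left_inj₀ (norm_nonneg _) hs.le two_ne_zero).1 this
  obtain ⟨k, hk⟩ := close (Wf (pos g) / (sh : ℂ)) (by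
    rw [norm_div, hW, Complex.norm_real, Real.norm_of_nonneg hs.le, div_self hs.ne'])
  refine ⟨k, ?_⟩
  obtain ⟨f, hf, hf1, hf2⟩ := exists_inv_Gam (Am_mem k)
  have hflor := isLor_of_mem_Gam hf
  have hfg : f * g ∈ Gam := Gam.mul_mem hf hg
  have hpf : f.mulVec (pos (Am k)) = p0 := by
    rw [← pos_mul, hf1, pos_one]
  have hNN : NN (f * g) = Bf (pos (Am k)) (pos g) := by
    have e1 : NN (f * g) = Zf (f.mulVec (pos g)) := by rw [← pos_mul]; rfl
    rw [e1, ← Bf_p0_left, ← hpf, hflor.form]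
  have hre : (Wf (pos (Am k)) * conj (Wf (pos g))).re =
      sh ^ 2 * (Wf (pos g) / (sh : ℂ) * conj (om ^ (k : ℕ))).re := by
    have e2 : (Wf (pos (Am k)) * conj (Wf (pos g))).re =
        (Wf (pos g) * conj (Wf (pos (Am k)))).re := by
      simp only [Complex.mul_re, Complex.conj_re, Complex.conj_im]
      ring
    rw [e2, Wf_Am, map_mul, Complex.conj_ofReal]
    have e3 : Wf (pos g) * (conj (om ^ (k : ℕ)) * (sh : ℂ)) =
        ((sh ^ 2 : ℝ) : ℂ) * (Wf (pos g) / (sh : ℂ) * conj (om ^ (k : ℕ))) := by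
      have : (sh : ℂ) ≠ 0 := by exact_mod_cast hs.ne'
      push_cast
      field_simp
    rw [e3, Complex.re_ofReal_mul]
  have hlt : NN (f * g) < cc := by
    rw [hNN]
    unfold Bf
    rw [hre, Zf_Am]
    have hZ : Zf (pos g) = cc := h1
    rw [hZ]
    have h5 : sh ^ 2 * (rho / 2) < sh ^ 2 * (Wf (pos g) / (sh : ℂ) * conj (om ^ (k : ℕ))).re :=
      mul_lt_mul_of_pos_left hk (by positivity)
    have h6 : sh ^ 2 * (rho / 2) = cc ^ 2 - cc := by
      rw [hs2]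
      linear_combination (cc - 1) / 2 * rho_cc
    nlinarith
  rcases height hfg hlt.le with h7 | h7
  · have h8 := pos_eq_p0 (isLor_of_mem_Gam hfg) h7
    rw [pos_mul] at h8
    have h9 : pos g = (Am k).mulVec (f.mulVec (pos g)) := by
      rw [Matrix.mulVec_mulVec, hf2, Matrix.one_mulVec]
    rw [h9, h8]
    rfl
  · linarith

end Pool.Agent.K7
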