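import Pool.Agent.Work.MP_7596a5_pr.Basic

/-!
# Harmonic functions from a stationary measure, the stopped average `TT`
-/

namespace Pool.Agent.K7

open MeasureTheory
open scoped ComplexConjugate

theorem continuous_Zf : Continuous Zf := by
  unfold Zf
  fun_prop

theorem continuous_Wf : Continuous Wf := by
  unfold Wf
  fun_prop

theorem continuous_nn : Continuous nn := by
  unfold nn vec
  apply continuous_pi
  intro i
  fin_cases i
  · simp only [Fin.zero_eta, Matrix.cons_val_zero]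
    fun_prop
  · simp only [Fin.mk_one, Matrix.cons_val_one]
    fun_prop
  · simp only [Fin.reduceFinMk, Matrix.cons_val]
    fun_prop

theorem continuous_mulVec_nn (g : M3) : Continuous fun ζ => g.mulVec (nn ζ) :=
  Continuous.matrix_mulVec continuous_const continuous_nn

theorem continuous_lam (g : M3) : Continuous (lam g) :=
  continuous_Zf.comp (continuous_mulVec_nn g)

theorem measurable_act (g : M3) : Measurable (act g) := by
  unfold act
  apply Measurable.div
  · exact (continuous_Wf.comp (continuous_mulVec_nn g)).measurable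
  · exact (Complex.continuous_ofReal.comp (continuous_Zf.comp (continuous_mulVec_nn g))).measurable

section Stat

variable {ν : Measure ℂ}

/-- `(g h)_* ν (B) = h_* ν (g^{-1} B)` for arbitrary `g` and Lorentz `h` -/
theorem Stat.real_preimage_mul (h : Stat ν) (g : M3) {x : M3} (hx : IsLor x) (B : Set ℂ) :
    ν.real ((act (g * x)) ⁻¹' B) = ν.real ((act x) ⁻¹' ((act g) ⁻¹' B)) := by
  apply measureReal_congr
  filter_upwards [h.circ] with ζ hζ
  have : act (g * x) ζ = act g (act x ζ) := act_mul g (hx.lam_pos hζ).ne'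
  change (act (g * x) ζ ∈ B) = (act g (act x ζ) ∈ B)
  rw [this]

theorem Stat.fB_harm (h : Stat ν) {B : Set ℂ} (hB : MeasurableSet B) (g : M3) :
    fB ν B g = (1 / 7) * ∑ k : Fin 7, fB ν B (g * Am k) := by
  unfold fB
  rw [h.stat _ (measurable_act g hB)]
  congr 1
  apply Finset.sum_congr rfl
  intro k _
  rw [h.real_preimage_mul g (isLor_Am k)]

theorem Rm_mul_Am (k : Fin 7) : Rm * Am k = Am (k + 1) := by
  unfold Am
  rw [← mul_assoc, ← pow_succ']
  congr 1
  have h7 := Rm_pow_seven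
  have : ((k + 1 : Fin 7) : ℕ) = ((k : ℕ) + 1) % 7 := Fin.val_add k 1
  rw [this]
  conv_lhs => rw [← Nat.div_add_mod ((k : ℕ) + 1) 7, pow_add, pow_mul, h7, one_pow, one_mul]

/-- rotation invariance, one step -/
theorem Stat.rot_one (h : Stat ν) {B : Set ℂ} (hB : MeasurableSet B) :
    ν.real ((act Rm) ⁻¹' B) = ν.real B := by
  rw [h.stat _ (measurable_act Rm hB), h.stat _ hB]
  congr 1
  have : ∀ k : Fin 7, ν.real ((act (Am k)) ⁻¹' ((act Rm) ⁻¹' B))
      = ν.real ((act (Am (k + 1))) ⁻¹' B) := by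
    intro k
    rw [← h.real_preimage_mul Rm (isLor_Am k), Rm_mul_Am]
  rw [Finset.sum_congr rfl fun k _ => this k]
  exact Equiv.sum_comp (Equiv.addRight (1 : Fin 7)) fun k => ν.real ((act (Am k)) ⁻¹' B)

theorem act_Rm (ζ : ℂ) : act Rm ζ = om * ζ := by
  have := act_Rm_pow 1 ζ
  rwa [pow_one, pow_one] at this

theorem Stat.rot (h : Stat ν) {B : Set ℂ} (hB : MeasurableSet B) (n : ℕ) :
    ν.real ((fun ζ => om ^ n * ζ) ⁻¹' B) = ν.real B := by
  induction n with
  | zero => simp
  | succ n ih =>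
    have h1 : (fun ζ => om ^ (n + 1) * ζ) ⁻¹' B = (act Rm) ⁻¹' ((fun ζ => om ^ n * ζ) ⁻¹' B) := by
      ext ζ
      simp only [Set.mem_preimage, act_Rm]
      rw [pow_succ, mul_assoc]
    rw [h1, h.rot_one, ih]
    exact (measurable_const_mul _) hB

theorem Stat.fB_Rm (h : Stat ν) {B : Set ℂ} (hB : MeasurableSet B) (g : M3) :
    fB ν B (g * Rm) = fB ν B g := by
  unfold fB
  rw [h.real_preimage_mul g isLor_Rm, h.rot_one (measurable_act g hB)]

theorem fB_nonneg (B : Set ℂ) (g : M3) : 0 ≤ fB ν B g := measureReal_nonneg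

theorem Stat.fB_le_one (h : Stat ν) (B : Set ℂ) (g : M3) : fB ν B g ≤ 1 := by
  have := h.prob
  exact measureReal_le_one

theorem fB_one (B : Set ℂ) : fB ν B 1 = ν.real B := by
  unfold fB
  congr 1
  ext ζ
  simp [act_one]

theorem sum_om_pow : ∑ k : Fin 7, om ^ (k : ℕ) = 0 := by
  rw [Fin.sum_univ_eq_sum_range (fun k => om ^ k) 7]
  have := geom_sum_eq om_ne_one 7
  rw [this, om_pow_seven]
  simp

/-- a rotated copy of any boundary point lies in any closed half circle -/
theorem exists_rot (w : ℂ) (ζ : ℂ) : ∃ k : Fin 7, (w * conj (om ^ (k : ℕ) * ζ)).re ≤ 0 := by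
  by_contra hcon
  push Not at hcon
  have h1 : ∑ k : Fin 7, (w * conj (om ^ (k : ℕ) * ζ)).re = 0 := by
    rw [← Complex.re_sum]
    have : ∑ k : Fin 7, w * conj (om ^ (k : ℕ) * ζ) = w * conj ((∑ k : Fin 7, om ^ (k : ℕ)) * ζ) := by
      rw [Finset.sum_mul, map_sum, Finset.mul_sum]
    rw [this, sum_om_pow]
    simp
  have h2 : 0 < ∑ k : Fin 7, (w * conj (om ^ (k : ℕ) * ζ)).re :=
    Finset.sum_pos (fun k _ => hcon k) Finset.univ_nonempty
  linarith

/-- a set which contains a rotated copy of each boundary point has mass at least `1/7` -/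
theorem Stat.seventh_le (h : Stat ν) {B : Set ℂ} (hB : MeasurableSet B)
    (hcov : ∀ ζ : ℂ, ‖ζ‖ = 1 → ∃ k : Fin 7, om ^ (k : ℕ) * ζ ∈ B) : 1 / 7 ≤ ν.real B := by
  have := h.prob
  have h1 : (1 : ℝ) ≤ ∑ k : Fin 7, ν.real ((fun ζ => om ^ (k : ℕ) * ζ) ⁻¹' B) := by
    have h2 : ν.real (⋃ k : Fin 7, (fun ζ => om ^ (k : ℕ) * ζ) ⁻¹' B) = 1 := by
      have : (⋃ k : Fin 7, (fun ζ => om ^ (k : ℕ) * ζ) ⁻¹' B) =ᵐ[ν] Set.univ := by
        filter_upwards [h.circ] with ζ hζ
        obtain ⟨k, hk⟩ := hcov ζ hζ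
        change (ζ ∈ ⋃ k : Fin 7, (fun ζ => om ^ (k : ℕ) * ζ) ⁻¹' B) = (ζ ∈ Set.univ)
        rw [eq_iff_iff]
        exact ⟨fun _ => trivial, fun _ => Set.mem_iUnion.2 ⟨k, hk⟩⟩
      rw [measureReal_congr this]
      simp
    rw [← h2]
    exact measureReal_iUnion_fintype_le _
  have h3 : ∑ k : Fin 7, ν.real ((fun ζ => om ^ (k : ℕ) * ζ) ⁻¹' B) = 7 * ν.real B := by
    have h4 : ∀ k : Fin 7, ν.real ((fun ζ => om ^ (k : ℕ) * ζ) ⁻¹' B) = ν.real B :=
      fun k => h.rot hB (k : ℕ)
    simp [h4]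
  rw [h3] at h1
  linarith

end Stat

/-! ### the stopped average -/

section TT

variable (S : M3 → Prop)

theorem TT_zero (f : M3 → ℝ) (g : M3) : TT S 0 f g = f g := rfl

theorem TT_succ_of (n : ℕ) (f : M3 → ℝ) {g : M3} (h : S g) : TT S (n + 1) f g = f g := by
  simp [TT, h]

theorem TT_succ_not (n : ℕ) (f : M3 → ℝ) {g : M3} (h : ¬ S g) :
    TT S (n + 1) f g = (1 / 7) * ∑ k : Fin 7, TT S n f (g * Am k) := by
  simp [TT, h]

theorem TT_of_harm (f : M3 → ℝ) (hf : ∀ g, f g = (1 / 7) * ∑ k : Fin 7, f (g * Am k))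
    (n : ℕ) (g : M3) : TT S n f g = f g := by
  induction n generalizing g with
  | zero => rfl
  | succ n ih =>
    by_cases hS : S g
    · exact TT_succ_of S n f hS
    · rw [TT_succ_not S n f hS, hf g]
      congr 1
      exact Finset.sum_congr rfl fun k _ => ih _

/-- monotonicity along a property preserved by the steps -/
theorem TT_mono {P : M3 → Prop} (hP : ∀ g, P g → ¬ S g → ∀ k, P (g * Am k)) {f f' : M3 → ℝ}
    (hf : ∀ g, P g → f g ≤ f' g) (n : ℕ) {g : M3} (hg : P g) : TT S n f g ≤ TT S n f' g := by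
  induction n generalizing g with
  | zero => exact hf g hg
  | succ n ih =>
    by_cases hS : S g
    · rw [TT_succ_of S n f hS, TT_succ_of S n f' hS]
      exact hf g hg
    · rw [TT_succ_not S n f hS, TT_succ_not S n f' hS]
      apply mul_le_mul_of_nonneg_left _ (by norm_num)
      exact Finset.sum_le_sum fun k _ => ih (hP g hg hS k)

theorem TT_add (f f' : M3 → ℝ) (n : ℕ) (g : M3) :
    TT S n (fun x => f x + f' x) g = TT S n f g + TT S n f' g := by
  induction n generalizing g with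
  | zero => rfl
  | succ n ih =>
    by_cases hS : S g
    · rw [TT_succ_of S n _ hS, TT_succ_of S n _ hS, TT_succ_of S n _ hS]
    · rw [TT_succ_not S n _ hS, TT_succ_not S n _ hS, TT_succ_not S n _ hS,
        Finset.sum_congr rfl fun k _ => ih _, Finset.sum_add_distrib, mul_add]

theorem TT_smul (a : ℝ) (f : M3 → ℝ) (n : ℕ) (g : M3) :
    TT S n (fun x => a * f x) g = a * TT S n f g := by
  induction n generalizing g with
  | zero => rfl
  | succ n ih =>
    by_cases hS : S g
    · rw [TT_succ_of S n _ hS, TT_succ_of S n _ hS]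
    · rw [TT_succ_not S n _ hS, TT_succ_not S n _ hS,
        Finset.sum_congr rfl fun k _ => ih _, ← Finset.mul_sum]
      ring

theorem TT_sum {ι : Type*} (s : Finset ι) (f : ι → M3 → ℝ) (n : ℕ) (g : M3) :
    TT S n (fun x => ∑ i ∈ s, f i x) g = ∑ i ∈ s, TT S n (f i) g := by
  induction n generalizing g with
  | zero => rfl
  | succ n ih =>
    by_cases hS : S g
    · rw [TT_succ_of S n _ hS, Finset.sum_congr rfl fun i _ => TT_succ_of S n (f i) hS]
    · rw [TT_succ_not S n _ hS, Finset.sum_congr rfl fun k _ => ih _, Finset.sum_comm,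
        Finset.mul_sum]
      exact Finset.sum_congr rfl fun i _ => (TT_succ_not S n (f i) hS).symm

theorem TT_const (a : ℝ) (n : ℕ) (g : M3) : TT S n (fun _ => a) g = a := by
  apply TT_of_harm
  intro g
  simp

theorem TT_nonneg {f : M3 → ℝ} (hf : ∀ g, 0 ≤ f g) (n : ℕ) (g : M3) : 0 ≤ TT S n f g := by
  have := TT_mono S (P := fun _ => True) (fun _ _ _ _ => trivial) (f := fun _ => 0) (f' := f)
    (fun g _ => hf g) n (g := g) trivial
  rwa [TT_const] at this

end TT

end Pool.Agent.K7
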