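import Pool.Agent.Work.MP_7596a5_pr.Frames
import Pool.Agent.Work.MP_7596a5_pr.Harm
import Pool.Agent.Work.MP_7596a5_pr.Enum

/-!
# E2: the degree-7 circle packing exists
-/

namespace Pool.Agent.K7

open scoped ComplexConjugate

/-- vertices of the {3,7} tiling: the orbit of `p0` -/
abbrev VV : Type := {v : E // ∃ g ∈ Gam, v = pos g}

/-- adjacency: distance equal to the edge length -/
def GG : SimpleGraph VV where
  Adj v w := Bf v.1 w.1 = cc
  symm := ⟨fun v w h => by rw [Bf_comm]; exact h⟩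
  loopless := ⟨fun v h => by
    obtain ⟨g, hg, hv⟩ := v.2
    rw [hv, (isLor_of_mem_Gam hg).pos_self] at h
    linarith [cc_gt]⟩

noncomputable def C1 : ℝ := Real.sqrt ((cc + 1) / 2)
noncomputable def S1 : ℝ := Real.sqrt ((cc - 1) / 2)
noncomputable def cV (v : VV) : ℂ := Wf v.1 / ((Zf v.1 + C1 : ℝ) : ℂ)
noncomputable def rV (v : VV) : ℝ := S1 / (Zf v.1 + C1)

namespace Ex

/-- the vertex of a group element -/
def vx (g : M3) (hg : g ∈ Gam) : VV := ⟨pos g, g, hg, rfl⟩

theorem vx_val (g : M3) (hg : g ∈ Gam) : (vx g hg).1 = pos g := rfl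

theorem exists_vx (v : VV) : ∃ g, ∃ hg : g ∈ Gam, v = vx g hg := by
  obtain ⟨v, g, hg, h⟩ := v
  exact ⟨g, hg, Subtype.ext h⟩

theorem adj_iff (v w : VV) : GG.Adj v w ↔ Bf v.1 w.1 = cc := Iff.rfl

theorem Bf_transport {g g' h : M3} (hg : g ∈ Gam) (hgh : g * h = 1) :
    Bf (pos g) (pos g') = NN (h * g') := by
  have e1 : pos g' = g.mulVec (pos (h * g')) := by
    rw [← pos_mul, ← mul_assoc, hgh, one_mul]
  have e2 : pos g = g.mulVec p0 := rfl
  rw [e1, e2, (isLor_of_mem_Gam hg).form, Bf_p0_left]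
  rfl

theorem pos_cancel {g a b : M3} (hg : g ∈ Gam) (h : pos (g * a) = pos (g * b)) :
    pos a = pos b := by
  obtain ⟨i, hi, h1, h2⟩ := exists_inv_Gam hg
  have e : ∀ c : M3, pos c = i.mulVec (pos (g * c)) := by
    intro c
    rw [← pos_mul, ← mul_assoc, h1, one_mul]
  rw [e a, e b, h]

theorem cc_le_of_ne {v w : VV} (hne : v ≠ w) : cc ≤ Bf v.1 w.1 := by
  obtain ⟨g, hg, rfl⟩ := exists_vx v
  obtain ⟨g', hg', rfl⟩ := exists_vx w
  obtain ⟨i, hi, h1, h2⟩ := exists_inv_Gam hg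
  rw [vx_val, vx_val, Bf_transport hg h2]
  by_contra hlt
  push Not at hlt
  have hm : i * g' ∈ Gam := Gam.mul_mem hi hg'
  have e1 : pos g' = g.mulVec (pos (i * g')) := by
    rw [← pos_mul, ← mul_assoc, h2, one_mul]
  rcases enum7 hm hlt.le with h | ⟨k, h⟩
  · apply hne
    apply Subtype.ext
    rw [vx_val, vx_val, e1, h]
    rfl
  · have : NN (i * g') = cc := by
      unfold NN
      rw [h, Zf_Am]
    linarith

theorem adj_vx {g : M3} (hg : g ∈ Gam) (w : VV) :
    GG.Adj (vx g hg) w ↔ ∃ k : Fin 7, vx (g * Am k) (Gam.mul_mem hg (Am_mem k)) = w := by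
  constructor
  · intro h
    obtain ⟨g', hg', rfl⟩ := exists_vx w
    obtain ⟨i, hi, h1, h2⟩ := exists_inv_Gam hg
    rw [adj_iff, vx_val, vx_val, Bf_transport hg h2] at h
    have hm : i * g' ∈ Gam := Gam.mul_mem hi hg'
    have e1 : pos g' = g.mulVec (pos (i * g')) := by
      rw [← pos_mul, ← mul_assoc, h2, one_mul]
    rcases enum7 hm h.le with h' | ⟨k, h'⟩
    · exfalso
      unfold NN at h
      rw [h', Zf_p0] at h
      linarith [cc_gt]
    · refine ⟨k, ?_⟩
      apply Subtype.ext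
      rw [vx_val, vx_val, e1, h', pos_mul]
  · rintro ⟨k, rfl⟩
    exact (isLor_of_mem_Gam hg).Bf_step k

theorem pos_Am_inj {k l : Fin 7} (h : pos (Am k) = pos (Am l)) : k = l := by
  have h1 : Wf (pos (Am k)) = Wf (pos (Am l)) := by rw [h]
  rw [Wf_Am, Wf_Am] at h1
  have h2 : om ^ (k : ℕ) = om ^ (l : ℕ) := by
    have h3 : (sh : ℂ) ≠ 0 := by exact_mod_cast sh_pos.ne'
    exact mul_right_cancel₀ h3 h1
  have : Fact (Nat.Prime 7) := ⟨by norm_num⟩
  have ho : orderOf om = 7 := orderOf_eq_prime om_pow_seven om_ne_one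
  have h4 := pow_injOn_Iio_orderOf (x := om) (by rw [ho]; exact k.isLt) (by rw [ho]; exact l.isLt) h2
  exact Fin.ext h4

theorem Bf_Am_succ (k : Fin 7) : Bf (pos (Am k)) (pos (Am (k + 1))) = cc := by
  rw [← Rm_mul_Am, pos_mul]
  unfold Bf
  rw [Zf_Rm, Wf_Rm, Zf_Am]
  have h1 : (Wf (pos (Am k)) * conj (om * Wf (pos (Am k)))).re = ‖Wf (pos (Am k))‖ ^ 2 * om.re := by
    rw [map_mul, mul_comm (conj om), ← mul_assoc, Complex.mul_conj, Complex.normSq_eq_norm_sq,
      Complex.re_ofReal_mul, Complex.conj_re]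
  have h2 : ‖Wf (pos (Am k))‖ ^ 2 = cc ^ 2 - 1 := by
    have := (isLor_Am k).pos_self
    rw [Bf_self, Zf_Am] at this
    linarith
  rw [h1, h2, om_re]
  linear_combination (-(cc - 1) / 2) * rho_cc

theorem conn_step {y : M3} (hy : y ∈ Gam) : ∀ (x : M3) (hx : x ∈ Gam),
    GG.Reachable (vx x hx) (vx (x * y) (Gam.mul_mem hx hy)) := by
  have key : ∀ y ∈ Gam, ∀ (x : M3) (hx : x ∈ Gam) (hxy : x * y ∈ Gam),
      GG.Reachable (vx x hx) (vx (x * y) hxy) := by
    intro y hy
    unfold Gam at hy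
    induction hy using Submonoid.closure_induction with
    | mem z hz =>
      intro x hx hxy
      rcases hz with rfl | rfl
      · have : vx x hx = vx (x * Rm) hxy := by
          apply Subtype.ext
          rw [vx_val, vx_val, pos_mul]
          unfold pos
          rw [Frm.Rm_p0]
        rw [← this]
      · apply SimpleGraph.Adj.reachable
        rw [adj_iff, vx_val, vx_val]
        have := (isLor_of_mem_Gam hx).Bf_step 0
        have e : Am 0 = Hm := by
          unfold Am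
          simp
        rwa [e] at this
    | one =>
      intro x hx hxy
      have : vx x hx = vx (x * 1) hxy := by
        apply Subtype.ext
        rw [vx_val, vx_val, mul_one]
      rw [← this]
    | mul a b ha hb iha ihb =>
      intro x hx hxy
      have hxa : x * a ∈ Gam := Gam.mul_mem hx ha
      have h1 := iha x hx hxa
      have h2 := ihb (x * a) hxa (Gam.mul_mem hxa hb)
      have e : vx (x * (a * b)) hxy = vx (x * a * b) (Gam.mul_mem hxa hb) := by
        apply Subtype.ext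
        rw [vx_val, vx_val, mul_assoc]
      rw [e]
      exact h1.trans h2
  exact fun x hx => key y hy x hx _

theorem connected : GG.Connected := by
  have : Nonempty VV := ⟨vx 1 Gam.one_mem⟩
  refine ⟨?_⟩
  have h0 : ∀ v : VV, GG.Reachable (vx 1 Gam.one_mem) v := by
    intro v
    obtain ⟨g, hg, rfl⟩ := exists_vx v
    have h1 := conn_step hg 1 Gam.one_mem
    have e : vx (1 * g) (Gam.mul_mem Gam.one_mem hg) = vx g hg := by
      apply Subtype.ext
      rw [vx_val, vx_val, one_mul]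
    rwa [e] at h1
  intro v w
  exact (h0 v).symm.trans (h0 w)

theorem C1_sq : C1 ^ 2 = (cc + 1) / 2 := by
  unfold C1
  exact Real.sq_sqrt (by linarith [cc_gt])

theorem S1_sq : S1 ^ 2 = (cc - 1) / 2 := by
  unfold S1
  exact Real.sq_sqrt (by linarith [cc_gt])

theorem C1_pos : 0 < C1 := Real.sqrt_pos.2 (by linarith [cc_gt])

theorem S1_pos : 0 < S1 := Real.sqrt_pos.2 (by linarith [cc_gt])

theorem S1_lt : S1 < C1 := Real.sqrt_lt_sqrt (by linarith [cc_gt]) (by linarith)

theorem vv_self (v : VV) : Bf v.1 v.1 = 1 ∧ 0 < Zf v.1 := by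
  obtain ⟨g, hg, rfl⟩ := exists_vx v
  exact ⟨(isLor_of_mem_Gam hg).pos_self, (isLor_of_mem_Gam hg).fut⟩

theorem D_pos (v : VV) : 0 < Zf v.1 + C1 := by
  have := (vv_self v).2
  have := C1_pos
  linarith

theorem nsq (v : VV) : ‖Wf v.1‖ ^ 2 = Zf v.1 ^ 2 - 1 := by
  have := (vv_self v).1
  rw [Bf_self] at this
  linarith

theorem norm_cV (v : VV) : ‖cV v‖ = ‖Wf v.1‖ / (Zf v.1 + C1) := by
  unfold cV
  rw [norm_div, Complex.norm_real, Real.norm_of_nonneg (D_pos v).le]

theorem dist_sq (v w : VV) : ‖cV v - cV w‖ ^ 2 = (rV v + rV w) ^ 2 +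
    2 * (Bf v.1 w.1 - cc) / ((Zf v.1 + C1) * (Zf w.1 + C1)) := by
  have hv := D_pos v
  have hw := D_pos w
  have h1 : ‖cV v - cV w‖ ^ 2 = ‖cV v‖ ^ 2 + ‖cV w‖ ^ 2 - 2 * (cV v * conj (cV w)).re := by
    rw [← Complex.normSq_eq_norm_sq, ← Complex.normSq_eq_norm_sq, ← Complex.normSq_eq_norm_sq,
      Complex.normSq_sub]
  have h2 : (cV v * conj (cV w)).re = (Zf v.1 * Zf w.1 - Bf v.1 w.1) /
      ((Zf v.1 + C1) * (Zf w.1 + C1)) := by
    have e : cV v * conj (cV w) = (((1 / ((Zf v.1 + C1) * (Zf w.1 + C1)) : ℝ)) : ℂ) *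
        (Wf v.1 * conj (Wf w.1)) := by
      unfold cV
      rw [map_div₀, Complex.conj_ofReal]
      push_cast
      field_simp
    rw [e, Complex.re_ofReal_mul]
    unfold Bf
    field_simp
    ring
  rw [h1, h2, norm_cV, norm_cV, div_pow, div_pow, nsq, nsq]
  unfold rV
  have h3 := C1_sq
  have h4 := S1_sq
  have h5 : C1 ^ 2 - S1 ^ 2 = 1 := by rw [h3, h4]; ring
  have h6 : cc = C1 ^ 2 + S1 ^ 2 := by rw [h3, h4]; ring
  rw [h6]
  generalize Zf v.1 = Z at *
  generalize Zf w.1 = Z' at *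
  field_simp
  linear_combination (Z ^ 2 + Z' ^ 2 + 2 * Z * C1 + 2 * Z' * C1 + 2 * C1 ^ 2) * h5

end Ex

theorem countable_VV : Countable VV := by
  have h : (Gam : Set M3).Countable := by
    have h1 : (Gam : Set M3) = ⋃ n : ℕ, {g : M3 | g ∈ Gam ∧ NN g ≤ (n : ℝ)} := by
      ext g
      simp only [SetLike.mem_coe, Set.mem_iUnion, Set.mem_ofPred_eq, exists_and_left]
      exact ⟨fun hg => ⟨hg, exists_nat_ge _⟩, fun hg => hg.1⟩
    rw [h1]
    exact Set.countable_iUnion fun n => (finite_Gam n).countable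
  have h2 : {v : E | ∃ g ∈ Gam, v = pos g} = pos '' (Gam : Set M3) := by
    ext v
    simp only [Set.mem_ofPred_eq, Set.mem_image, SetLike.mem_coe]
    exact ⟨fun ⟨g, hg, h⟩ => ⟨g, hg, h.symm⟩, fun ⟨g, hg, h⟩ => ⟨g, hg, h.symm⟩⟩
  have h3 : {v : E | ∃ g ∈ Gam, v = pos g}.Countable := by
    rw [h2]
    exact h.image pos
  exact h3.to_subtype

theorem exists_packing : IsPacking7 GG cV rV ∧ ∃ α : VV, cV α = 0 := by
  refine ⟨?_, ?_⟩
  · refine ⟨Ex.connected, ?_, ?_, ?_, ?_, ?_, ?_⟩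
    · intro v
      obtain ⟨g, hg, rfl⟩ := Ex.exists_vx v
      refine ⟨fun i : Fin 7 => Ex.vx (g * Am i) (Gam.mul_mem hg (Am_mem i)), ?_, ?_, ?_⟩
      · intro i j hij
        apply Ex.pos_Am_inj
        apply Ex.pos_cancel hg
        exact congrArg Subtype.val hij
      · intro w
        exact Ex.adj_vx hg w
      · intro i
        rw [Ex.adj_iff, Ex.vx_val, Ex.vx_val, pos_mul, pos_mul, (isLor_of_mem_Gam hg).form]
        exact Ex.Bf_Am_succ i
    · intro v
      exact div_pos Ex.S1_pos (Ex.D_pos v)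
    · intro v
      have h1 := norm_Wf_lt (Ex.vv_self v).1 (Ex.vv_self v).2
      have h2 := Ex.S1_lt
      rw [Ex.norm_cV]
      unfold rV
      rw [← add_div, div_lt_one (Ex.D_pos v)]
      linarith
    · intro v w h
      have h1 := Ex.dist_sq v w
      rw [Ex.adj_iff] at h
      rw [h, sub_self, mul_zero, zero_div, add_zero] at h1
      have h2 : 0 ≤ rV v + rV w := by
        have := div_pos Ex.S1_pos (Ex.D_pos v)
        have := div_pos Ex.S1_pos (Ex.D_pos w)
        unfold rV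
        linarith
      exact (pow_left_inj₀ (norm_nonneg _) h2 two_ne_zero).1 h1
    · intro v w h
      have h1 := Ex.dist_sq v w
      have h3 := Ex.cc_le_of_ne h
      have h4 : 0 ≤ 2 * (Bf v.1 w.1 - cc) / ((Zf v.1 + C1) * (Zf w.1 + C1)) := by
        have := Ex.D_pos v
        have := Ex.D_pos w
        apply div_nonneg
        · linarith
        · positivity
      have h2 : 0 ≤ rV v + rV w := by
        have := div_pos Ex.S1_pos (Ex.D_pos v)
        have := div_pos Ex.S1_pos (Ex.D_pos w)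
        unfold rV
        linarith
      have h5 : (rV v + rV w) ^ 2 ≤ ‖cV v - cV w‖ ^ 2 := by
        rw [h1]
        linarith
      exact (pow_le_pow_iff_left₀ h2 (norm_nonneg _) two_ne_zero).1 h5
    · refine ⟨C1 / S1, ?_⟩
      intro v
      have h1 := Ex.D_pos v
      have h2 := Ex.S1_pos
      have h3 := Ex.C1_sq
      have h4 := Ex.S1_sq
      have h5 : C1 ^ 2 - S1 ^ 2 = 1 := by rw [h3, h4]; ring
      rw [Ex.norm_cV, div_pow, Ex.nsq]
      unfold rV
      field_simp
      linear_combination -h5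
  · refine ⟨Ex.vx 1 Gam.one_mem, ?_⟩
    unfold cV
    rw [Ex.vx_val, pos_one, Wf_p0, zero_div]

end Pool.Agent.K7
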