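import Pool.Agent.Work.MP_7596a5_pr.Defs

/-!
# Basic facts: the numbers `ρ, c`, the form, the Lorentz matrices, the boundary action
-/

namespace Pool.Agent.K7

open MeasureTheory
open scoped ComplexConjugate

/-! ### the numbers -/

theorem one_lt_rho : 1 < rho := by
  unfold rho
  have h : Real.cos (Real.pi / 3) < Real.cos (2 * Real.pi / 7) := by
    apply Real.cos_lt_cos_of_nonneg_of_le_pi
    · positivity
    · linarith [Real.pi_pos]
    · linarith [Real.pi_pos]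
  rw [Real.cos_pi_div_three] at h
  linarith

theorem rho_lt_two : rho < 2 := by
  unfold rho
  have h : Real.cos (2 * Real.pi / 7) < Real.cos 0 := by
    apply Real.cos_lt_cos_of_nonneg_of_le_pi le_rfl
    · linarith [Real.pi_pos]
    · positivity
  rw [Real.cos_zero] at h
  linarith

theorem rho_cubic : rho ^ 3 = 1 + 2 * rho - rho ^ 2 := by
  set x := Real.cos (2 * Real.pi / 7) with hx
  have h4 : Real.cos (4 * (2 * Real.pi / 7)) = Real.cos (3 * (2 * Real.pi / 7)) := by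
    rw [← Real.cos_neg (3 * (2 * Real.pi / 7)), ← Real.cos_add_two_pi (-(3 * (2 * Real.pi / 7)))]
    congr 1
    ring
  have e3 : Real.cos (3 * (2 * Real.pi / 7)) = 4 * x ^ 3 - 3 * x := Real.cos_three_mul _
  have e4 : Real.cos (4 * (2 * Real.pi / 7)) = 8 * x ^ 4 - 8 * x ^ 2 + 1 := by
    have : 4 * (2 * Real.pi / 7) = 2 * (2 * (2 * Real.pi / 7)) := by ring
    rw [this, Real.cos_two_mul, Real.cos_two_mul, ← hx]
    ring
  rw [e3, e4] at h4
  have hr : rho = 2 * x := rfl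
  have h1 : x ≠ 1 := by
    have := rho_lt_two
    rw [hr] at this
    intro h
    rw [h] at this
    linarith
  have hf : (x - 1) * (8 * x ^ 3 + 4 * x ^ 2 - 4 * x - 1) = 0 := by linear_combination h4
  rcases mul_eq_zero.1 hf with h | h
  · exact absurd (by linarith) h1
  · rw [hr]
    linear_combination h

theorem rho_gt : 1.2469 < rho := by
  by_contra h
  push Not at h
  have h1 := one_lt_rho
  have h3 := rho_cubic
  nlinarith [mul_nonneg (sub_nonneg.2 h) (sub_nonneg.2 h1.le), sq_nonneg (rho - 1),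
    mul_nonneg (mul_nonneg (sub_nonneg.2 h) (sub_nonneg.2 h1.le)) (sub_nonneg.2 h1.le)]

theorem rho_lt : rho < 1.2470 := by
  by_contra h
  push Not at h
  have h1 := one_lt_rho
  have h3 := rho_cubic
  nlinarith [mul_nonneg (sub_nonneg.2 h) (sub_nonneg.2 h1.le), sq_nonneg (rho - 1),
    mul_nonneg (mul_nonneg (sub_nonneg.2 h) (sub_nonneg.2 h1.le)) (sub_nonneg.2 h1.le)]

theorem two_sub_rho_pos : 0 < 2 - rho := by linarith [rho_lt_two]

/-- the relation between `ρ` and `c` -/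
theorem cc_mul : cc * (2 - rho) = rho := by
  unfold cc
  field_simp [two_sub_rho_pos.ne']

theorem rho_cc : rho * (1 + cc) = 2 * cc := by linear_combination -cc_mul

theorem cc_gt : 1.655 < cc := by
  unfold cc
  rw [lt_div_iff₀ two_sub_rho_pos]
  linarith [rho_gt]

theorem cc_lt : cc < 1.657 := by
  unfold cc
  rw [div_lt_iff₀ two_sub_rho_pos]
  linarith [rho_lt]

theorem cc_pos : 0 < cc := by linarith [cc_gt]

theorem sh_sq : sh ^ 2 = cc ^ 2 - 1 := by
  unfold sh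
  rw [Real.sq_sqrt]
  nlinarith [cc_gt]

theorem sh_pos : 0 < sh := by
  unfold sh
  apply Real.sqrt_pos.2
  nlinarith [cc_gt]

theorem om_re : om.re = rho / 2 := by
  unfold om rho
  rw [Complex.exp_ofReal_mul_I_re]
  ring

theorem om_im : om.im = Real.sin (2 * Real.pi / 7) := by
  unfold om
  rw [Complex.exp_ofReal_mul_I_im]

theorem om_im_pos : 0 < om.im := by
  rw [om_im]
  apply Real.sin_pos_of_pos_of_lt_pi
  · positivity
  · linarith [Real.pi_pos]

theorem norm_om : ‖om‖ = 1 := by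
  unfold om
  exact Complex.norm_exp_ofReal_mul_I _

theorem om_im_sq : om.im ^ 2 = 1 - rho ^ 2 / 4 := by
  have h : om.re ^ 2 + om.im ^ 2 = 1 := by
    have := Complex.sq_norm om
    rw [norm_om, Complex.normSq_apply] at this
    linarith
  rw [om_re] at h
  linarith

theorem om_pow_seven : om ^ 7 = 1 := by
  unfold om
  rw [← Complex.exp_nat_mul]
  have : ((7 : ℕ) : ℂ) * (((2 * Real.pi / 7 : ℝ) : ℂ) * Complex.I) = 2 * Real.pi * Complex.I := by
    push_cast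
    ring
  rw [this, Complex.exp_two_pi_mul_I]

theorem om_ne_one : om ≠ 1 := by
  intro h
  have := om_im_pos
  rw [h] at this
  simp at this

theorem om_sq : om ^ 2 = rho * om - 1 := by
  apply Complex.ext
  · simp only [pow_two, Complex.mul_re, Complex.sub_re, Complex.ofReal_re, Complex.ofReal_im,
      Complex.one_re, om_re, zero_mul, sub_zero]
    have := om_im_sq
    nlinarith
  · simp only [pow_two, Complex.mul_im, Complex.sub_im, Complex.ofReal_re, Complex.ofReal_im,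
      Complex.one_im, om_re, zero_mul, sub_zero, add_zero]
    ring

/-! ### the functionals -/

theorem Zf_add (u v : E) : Zf (u + v) = Zf u + Zf v := by simp [Zf]; ring
theorem Zf_sub (u v : E) : Zf (u - v) = Zf u - Zf v := by simp [Zf]; ring
theorem Zf_smul (a : ℝ) (v : E) : Zf (a • v) = a * Zf v := by simp [Zf]; ring
theorem Zf_zero : Zf 0 = 0 := by simp [Zf]
theorem Wf_add (u v : E) : Wf (u + v) = Wf u + Wf v := by simp [Wf]; ring
theorem Wf_sub (u v : E) : Wf (u - v) = Wf u - Wf v := by simp [Wf]; ring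
theorem Wf_smul (a : ℝ) (v : E) : Wf (a • v) = a * Wf v := by simp [Wf]; ring
theorem Wf_zero : Wf 0 = 0 := by simp [Wf]

theorem Wf_re (v : E) : (Wf v).re = sh * (v 1 + rho / 2 * v 2) := by
  simp [Wf, om_re]

theorem Wf_im (v : E) : (Wf v).im = sh * (om.im * v 2) := by
  simp [Wf]

@[simp] theorem vec_zero_apply (w : ℂ) (z : ℝ) : vec w z 0 =
    z - cc * ((w.re / sh - w.im / (sh * om.im) * om.re) + w.im / (sh * om.im)) := rfl
@[simp] theorem vec_one_apply (w : ℂ) (z : ℝ) : vec w z 1 =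
    w.re / sh - w.im / (sh * om.im) * om.re := rfl
@[simp] theorem vec_two_apply (w : ℂ) (z : ℝ) : vec w z 2 = w.im / (sh * om.im) := rfl

theorem Zf_vec (w : ℂ) (z : ℝ) : Zf (vec w z) = z := by
  simp [Zf]

theorem Wf_vec (w : ℂ) (z : ℝ) : Wf (vec w z) = w := by
  have h1 := sh_pos.ne'
  have h2 := om_im_pos.ne'
  apply Complex.ext
  · rw [Wf_re]
    simp only [vec_one_apply, vec_two_apply, om_re]
    field_simp
    ring
  · rw [Wf_im]
    simp only [vec_two_apply]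
    field_simp

theorem vec_eta (v : E) : vec (Wf v) (Zf v) = v := by
  have h1 := sh_pos.ne'
  have h2 := om_im_pos.ne'
  have e2 : vec (Wf v) (Zf v) 2 = v 2 := by
    simp only [vec_two_apply, Wf_im]
    field_simp
  have e1 : vec (Wf v) (Zf v) 1 = v 1 := by
    simp only [vec_one_apply, Wf_im, Wf_re, om_re]
    field_simp
    ring
  have e0 : vec (Wf v) (Zf v) 0 = v 0 := by
    have h : vec (Wf v) (Zf v) 0 + cc * (vec (Wf v) (Zf v) 1 + vec (Wf v) (Zf v) 2) = Zf v :=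
      Zf_vec (Wf v) (Zf v)
    rw [e1, e2] at h
    have h' : Zf v = v 0 + cc * (v 1 + v 2) := rfl
    linarith
  funext i
  fin_cases i
  · exact e0
  · exact e1
  · exact e2

theorem ext_WZ {u v : E} (hW : Wf u = Wf v) (hZ : Zf u = Zf v) : u = v := by
  rw [← vec_eta u, ← vec_eta v, hW, hZ]

theorem Zf_nn (ζ : ℂ) : Zf (nn ζ) = 1 := Zf_vec ζ 1
theorem Wf_nn (ζ : ℂ) : Wf (nn ζ) = ζ := Wf_vec ζ 1
theorem Zf_p0 : Zf p0 = 1 := by simp [Zf, p0]
theorem Wf_p0 : Wf p0 = 0 := by simp [Wf, p0]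
theorem nn_zero : nn 0 = p0 := ext_WZ (by rw [Wf_nn, Wf_p0]) (by rw [Zf_nn, Zf_p0])

/-! ### the form -/

theorem Bf_explicit (u v : E) : Bf u v = u 0 * v 0 + u 1 * v 1 + u 2 * v 2
    + cc * (u 0 * v 1 + u 1 * v 0 + u 0 * v 2 + u 2 * v 0 + u 1 * v 2 + u 2 * v 1) := by
  have hs := sh_sq
  have hi := om_im_sq
  have hc : cc ^ 2 * (2 - rho) = 2 * cc - rho := by
    linear_combination cc * cc_mul + rho_cc
  have hre : (Wf u * conj (Wf v)).re = (Wf u).re * (Wf v).re + (Wf u).im * (Wf v).im := by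
    simp [Complex.mul_re]
  unfold Bf
  rw [hre, Wf_re, Wf_re, Wf_im, Wf_im]
  unfold Zf
  have e : sh * (u 1 + rho / 2 * u 2) * (sh * (v 1 + rho / 2 * v 2))
      + sh * (om.im * u 2) * (sh * (om.im * v 2))
      = sh ^ 2 * ((u 1 + rho / 2 * u 2) * (v 1 + rho / 2 * v 2) + om.im ^ 2 * (u 2 * v 2)) := by
    ring
  rw [e, hs, hi]
  linear_combination (u 1 * v 2 + u 2 * v 1) / 2 * hc

theorem Bf_comm (u v : E) : Bf u v = Bf v u := by
  rw [Bf_explicit, Bf_explicit]; ring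
theorem Bf_add_left (u v w : E) : Bf (u + v) w = Bf u w + Bf v w := by
  simp only [Bf_explicit, Pi.add_apply]; ring
theorem Bf_add_right (u v w : E) : Bf u (v + w) = Bf u v + Bf u w := by
  simp only [Bf_explicit, Pi.add_apply]; ring
theorem Bf_sub_left (u v w : E) : Bf (u - v) w = Bf u w - Bf v w := by
  simp only [Bf_explicit, Pi.sub_apply]; ring
theorem Bf_sub_right (u v w : E) : Bf u (v - w) = Bf u v - Bf u w := by
  simp only [Bf_explicit, Pi.sub_apply]; ring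
theorem Bf_smul_left (a : ℝ) (u v : E) : Bf (a • u) v = a * Bf u v := by
  simp only [Bf_explicit, Pi.smul_apply, smul_eq_mul]; ring
theorem Bf_smul_right (a : ℝ) (u v : E) : Bf u (a • v) = a * Bf u v := by
  simp only [Bf_explicit, Pi.smul_apply, smul_eq_mul]; ring

theorem Bf_self (v : E) : Bf v v = Zf v ^ 2 - ‖Wf v‖ ^ 2 := by
  unfold Bf
  rw [Complex.mul_conj, Complex.ofReal_re, Complex.normSq_eq_norm_sq]
  ring

theorem Bf_p0_left (v : E) : Bf p0 v = Zf v := by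
  unfold Bf
  rw [Zf_p0, Wf_p0]
  simp

theorem Bf_p0_right (v : E) : Bf v p0 = Zf v := by rw [Bf_comm, Bf_p0_left]

theorem Bf_nn_nn {ζ ξ : ℂ} (hζ : ‖ζ‖ = 1) (hξ : ‖ξ‖ = 1) :
    Bf (nn ζ) (nn ξ) = ‖ζ - ξ‖ ^ 2 / 2 := by
  unfold Bf
  rw [Zf_nn, Zf_nn, Wf_nn, Wf_nn]
  have h : ‖ζ - ξ‖ ^ 2 = ‖ζ‖ ^ 2 + ‖ξ‖ ^ 2 - 2 * (ζ * conj ξ).re := by
    rw [← Complex.normSq_eq_norm_sq, ← Complex.normSq_eq_norm_sq, ← Complex.normSq_eq_norm_sq,
      Complex.normSq_sub]
  rw [h, hζ, hξ]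
  ring

theorem Bf_nn_self {ζ : ℂ} (hζ : ‖ζ‖ = 1) : Bf (nn ζ) (nn ζ) = 0 := by
  rw [Bf_nn_nn hζ hζ]; simp

/-- `|Re(W_u conj W_v)| ≤ ‖W_u‖ ‖W_v‖` in the form used below -/
theorem Bf_ge (u v : E) : Zf u * Zf v - ‖Wf u‖ * ‖Wf v‖ ≤ Bf u v := by
  unfold Bf
  have h1 : (Wf u * conj (Wf v)).re ≤ ‖Wf u * conj (Wf v)‖ := Complex.re_le_norm _
  rw [norm_mul, Complex.norm_conj] at h1
  linarith

theorem Bf_le (u v : E) : Bf u v ≤ Zf u * Zf v + ‖Wf u‖ * ‖Wf v‖ := by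
  unfold Bf
  have h1 : -(Wf u * conj (Wf v)).re ≤ ‖Wf u * conj (Wf v)‖ := by
    have := Complex.abs_re_le_norm (Wf u * conj (Wf v))
    exact (neg_le_abs _).trans this
  rw [norm_mul, Complex.norm_conj] at h1
  linarith

/-! ### timelike vectors -/

theorem norm_Wf_lt {p : E} (h : Bf p p = 1) (hZ : 0 < Zf p) : ‖Wf p‖ < Zf p := by
  rw [Bf_self] at h
  nlinarith [norm_nonneg (Wf p)]

theorem one_le_Zf {p : E} (h : Bf p p = 1) (hZ : 0 < Zf p) : 1 ≤ Zf p := by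
  rw [Bf_self] at h
  nlinarith [norm_nonneg (Wf p), sq_nonneg ‖Wf p‖]

theorem Bf_null_pos {p v : E} (h : Bf p p = 1) (hZ : 0 < Zf p) (hv : Bf v v = 0) (hvZ : 0 < Zf v) :
    Zf v / (2 * Zf p) ≤ Bf p v ∧ Bf p v ≤ 2 * Zf p * Zf v := by
  have hW := norm_Wf_lt h hZ
  have hWv : ‖Wf v‖ = Zf v := by
    rw [Bf_self] at hv
    have : ‖Wf v‖ ^ 2 = Zf v ^ 2 := by linarith
    exact (pow_left_inj₀ (norm_nonneg _) hvZ.le two_ne_zero).1 this
  have h1 := Bf_ge p v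
  have h2 := Bf_le p v
  rw [hWv] at h1 h2
  rw [Bf_self] at h
  constructor
  · rw [div_le_iff₀ (by positivity)]
    have h3 : (Zf p - ‖Wf p‖) * (Zf p + ‖Wf p‖) = 1 := by linarith
    have h4 : 1 ≤ (Zf p - ‖Wf p‖) * (2 * Zf p) := by
      rw [← h3]
      exact mul_le_mul_of_nonneg_left (by linarith) (by linarith)
    have h5 : Zf v * (Zf p - ‖Wf p‖) ≤ Bf p v := by linarith
    calc Zf v ≤ Zf v * ((Zf p - ‖Wf p‖) * (2 * Zf p)) := by
          nlinarith
      _ = (Zf v * (Zf p - ‖Wf p‖)) * (2 * Zf p) := by ring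
      _ ≤ Bf p v * (2 * Zf p) := by
          apply mul_le_mul_of_nonneg_right h5
          positivity
  · nlinarith

/-- two future timelike unit vectors have product at least one -/
theorem one_le_Bf {p q : E} (hp : Bf p p = 1) (hpZ : 0 < Zf p) (hq : Bf q q = 1)
    (hqZ : 0 < Zf q) : 1 ≤ Bf p q := by
  have h1 := Bf_ge p q
  have hWp := norm_Wf_lt hp hpZ
  have hWq := norm_Wf_lt hq hqZ
  rw [Bf_self] at hp hq
  have h2 : 1 ≤ Zf p * Zf q - ‖Wf p‖ * ‖Wf q‖ := by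
    have h3 : (1 + ‖Wf p‖ * ‖Wf q‖) ^ 2 ≤ (Zf p * Zf q) ^ 2 := by
      have e : (Zf p * Zf q) ^ 2 = (1 + ‖Wf p‖ ^ 2) * (1 + ‖Wf q‖ ^ 2) := by
        rw [mul_pow]
        rw [show Zf p ^ 2 = 1 + ‖Wf p‖ ^ 2 by linarith, show Zf q ^ 2 = 1 + ‖Wf q‖ ^ 2 by linarith]
      rw [e]
      nlinarith [sq_nonneg (‖Wf p‖ - ‖Wf q‖)]
    have h4 := abs_le_of_sq_le_sq h3 (by positivity)
    have h5 := (abs_le.1 h4).2
    linarith
  linarith

/-! ### Lorentz matrices -/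

theorem pos_mul (g h : M3) : pos (g * h) = g.mulVec (pos h) := by
  unfold pos; rw [Matrix.mulVec_mulVec]

theorem pos_one : pos 1 = p0 := by unfold pos; rw [Matrix.one_mulVec]

theorem IsLor.pos_self {g : M3} (hg : IsLor g) : Bf (pos g) (pos g) = 1 := by
  unfold pos
  rw [hg.form, Bf_p0_left, Zf_p0]

theorem IsLor.one_le_NN {g : M3} (hg : IsLor g) : 1 ≤ NN g := one_le_Zf hg.pos_self hg.fut

/-- a null vector with `Zf > 0` is mapped to one with `Zf > 0` -/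
theorem IsLor.null_pos {g : M3} (hg : IsLor g) {v : E} (hv : Bf v v = 0) (hZ : 0 < Zf v) :
    0 < Zf (g.mulVec v) := by
  have h1 : Bf (pos g) (g.mulVec v) = Zf v := by
    unfold pos; rw [hg.form, Bf_p0_left]
  have h2 : Bf (g.mulVec v) (g.mulVec v) = 0 := by rw [hg.form, hv]
  have h3 := Bf_le (pos g) (g.mulVec v)
  have hW := norm_Wf_lt hg.pos_self hg.fut
  have h4 : ‖Wf (g.mulVec v)‖ = |Zf (g.mulVec v)| := by
    rw [Bf_self] at h2
    have : ‖Wf (g.mulVec v)‖ ^ 2 = |Zf (g.mulVec v)| ^ 2 := by rw [sq_abs]; linarith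
    exact (pow_left_inj₀ (norm_nonneg _) (abs_nonneg _) two_ne_zero).1 this
  by_contra hcon
  push Not at hcon
  rw [h4, abs_of_nonpos hcon, h1] at h3
  nlinarith

/-- a future timelike vector is mapped to a future timelike vector -/
theorem IsLor.time_pos {g : M3} (hg : IsLor g) {v : E} (hv : Bf v v = 1) (hZ : 0 < Zf v) :
    0 < Zf (g.mulVec v) := by
  have h1 : Bf (pos g) (g.mulVec v) = Zf v := by
    unfold pos; rw [hg.form, Bf_p0_left]
  have h2 : Bf (g.mulVec v) (g.mulVec v) = 1 := by rw [hg.form, hv]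
  have h3 := Bf_le (pos g) (g.mulVec v)
  have hW := norm_Wf_lt hg.pos_self hg.fut
  have h4 : ‖Wf (g.mulVec v)‖ ≤ |Zf (g.mulVec v)| := by
    rw [Bf_self] at h2
    apply abs_le_of_sq_le_sq' _ (abs_nonneg _) |>.2
    rw [sq_abs]; linarith
  by_contra hcon
  push Not at hcon
  rw [abs_of_nonpos hcon] at h4
  rw [h1] at h3
  have h5 : ‖Wf (pos g)‖ * ‖Wf (g.mulVec v)‖ ≤ Zf (pos g) * -Zf (g.mulVec v) :=
    mul_le_mul hW.le h4 (norm_nonneg _) hg.fut.le
  linarith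

theorem IsLor.one : IsLor (1 : M3) where
  form u v := by rw [Matrix.one_mulVec, Matrix.one_mulVec]
  fut := by unfold NN; rw [pos_one, Zf_p0]; exact one_pos

theorem IsLor.mul {g h : M3} (hg : IsLor g) (hh : IsLor h) : IsLor (g * h) where
  form u v := by
    rw [← Matrix.mulVec_mulVec, ← Matrix.mulVec_mulVec, hg.form, hh.form]
  fut := by
    unfold NN
    rw [pos_mul]
    exact hg.time_pos hh.pos_self hh.fut

theorem mulVec3 (M : M3) (v : E) : M.mulVec v =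
    ![M 0 0 * v 0 + M 0 1 * v 1 + M 0 2 * v 2, M 1 0 * v 0 + M 1 1 * v 1 + M 1 2 * v 2,
      M 2 0 * v 0 + M 2 1 * v 1 + M 2 2 * v 2] := by
  funext i
  fin_cases i <;> simp [Matrix.mulVec, dotProduct, Fin.sum_univ_three]

theorem Rm_mulVec (v : E) : Rm.mulVec v = ![v 0 + rho * v 2, -v 2, v 1 + rho * v 2] := by
  rw [mulVec3]
  funext i
  fin_cases i <;> simp [Rm]

theorem Hm_mulVec (v : E) : Hm.mulVec v = ![v 1 + rho * v 2, v 0 + rho * v 2, -v 2] := by
  rw [mulVec3]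
  funext i
  fin_cases i <;> simp [Hm]

theorem isLor_Rm : IsLor Rm where
  form u v := by
    rw [Rm_mulVec, Rm_mulVec, Bf_explicit, Bf_explicit]
    simp only [Matrix.cons_val_zero, Matrix.cons_val_one, Matrix.cons_val_two, Matrix.tail_cons,
      Matrix.head_cons]
    linear_combination (2 * rho * (u 2 * v 2) + (u 0 * v 2 + u 2 * v 0) + (u 1 * v 2 + u 2 * v 1))
      * rho_cc
  fut := by
    unfold NN pos
    rw [Rm_mulVec]
    simp [Zf, p0]

theorem isLor_Hm : IsLor Hm where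
  form u v := by
    rw [Hm_mulVec, Hm_mulVec, Bf_explicit, Bf_explicit]
    simp only [Matrix.cons_val_zero, Matrix.cons_val_one, Matrix.cons_val_two, Matrix.tail_cons,
      Matrix.head_cons]
    linear_combination (2 * rho * (u 2 * v 2) + (u 0 * v 2 + u 2 * v 0) + (u 1 * v 2 + u 2 * v 1))
      * rho_cc
  fut := by
    unfold NN pos
    rw [Hm_mulVec]
    simp [Zf, p0]
    exact cc_pos

theorem IsLor.pow {g : M3} (hg : IsLor g) (n : ℕ) : IsLor (g ^ n) := by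
  induction n with
  | zero => rw [pow_zero]; exact IsLor.one
  | succ n ih => rw [pow_succ]; exact ih.mul hg

theorem isLor_Am (k : Fin 7) : IsLor (Am k) := (isLor_Rm.pow k).mul isLor_Hm

theorem isLor_of_mem_Gam {g : M3} (hg : g ∈ Gam) : IsLor g := by
  unfold Gam at hg
  induction hg using Submonoid.closure_induction with
  | mem x hx =>
    rcases hx with rfl | rfl
    · exact isLor_Rm
    · exact isLor_Hm
  | one => exact IsLor.one
  | mul x y _ _ hx hy => exact hx.mul hy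

theorem Rm_mem : Rm ∈ Gam := Submonoid.subset_closure (by simp)
theorem Hm_mem : Hm ∈ Gam := Submonoid.subset_closure (by simp)
theorem Am_mem (k : Fin 7) : Am k ∈ Gam := Gam.mul_mem (Gam.pow_mem Rm_mem _) Hm_mem

theorem Hm_sq : Hm * Hm = 1 := by
  ext i j
  fin_cases i <;> fin_cases j <;> simp [Hm, Matrix.mul_apply, Fin.sum_univ_three]

/-- the rotation in terms of `Wf`, `Zf` -/
theorem Zf_Rm (v : E) : Zf (Rm.mulVec v) = Zf v := by
  rw [Rm_mulVec]
  simp [Zf]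
  linear_combination v 2 * rho_cc

theorem Wf_Rm (v : E) : Wf (Rm.mulVec v) = om * Wf v := by
  rw [Rm_mulVec]
  unfold Wf
  simp
  linear_combination -(sh : ℂ) * (v 2 : ℂ) * om_sq

theorem Zf_Rm_pow (n : ℕ) (v : E) : Zf ((Rm ^ n).mulVec v) = Zf v := by
  induction n generalizing v with
  | zero => rw [pow_zero, Matrix.one_mulVec]
  | succ n ih => rw [pow_succ, ← Matrix.mulVec_mulVec, ih, Zf_Rm]

theorem Wf_Rm_pow (n : ℕ) (v : E) : Wf ((Rm ^ n).mulVec v) = om ^ n * Wf v := by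
  induction n generalizing v with
  | zero => rw [pow_zero, Matrix.one_mulVec, pow_zero, one_mul]
  | succ n ih => rw [pow_succ, ← Matrix.mulVec_mulVec, ih, Wf_Rm, pow_succ]; ring

theorem mulVec_inj {A B : M3} (h : ∀ v, A.mulVec v = B.mulVec v) : A = B := by
  ext i j
  have := congrFun (h (Pi.single j 1)) i
  simpa using this

theorem Rm_pow_seven : Rm ^ 7 = 1 := by
  apply mulVec_inj
  intro v
  apply ext_WZ
  · rw [Wf_Rm_pow, om_pow_seven, one_mul, Matrix.one_mulVec]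
  · rw [Zf_Rm_pow, Matrix.one_mulVec]

/-! ### the neighbours of `p0` -/

theorem Zf_Am (k : Fin 7) : Zf (pos (Am k)) = cc := by
  unfold Am
  rw [pos_mul, Zf_Rm_pow]
  unfold pos
  rw [Hm_mulVec]
  simp [Zf, p0]

theorem Wf_Am (k : Fin 7) : Wf (pos (Am k)) = om ^ (k : ℕ) * sh := by
  unfold Am
  rw [pos_mul, Wf_Rm_pow]
  unfold pos
  rw [Hm_mulVec]
  simp [Wf, p0]

/-! ### the boundary action -/

theorem IsLor.lam_pos {g : M3} (hg : IsLor g) {ζ : ℂ} (hζ : ‖ζ‖ = 1) : 0 < lam g ζ :=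
  hg.null_pos (Bf_nn_self hζ) (by rw [Zf_nn]; exact one_pos)

theorem norm_Wf_null {v : E} (hv : Bf v v = 0) (hZ : 0 < Zf v) : ‖Wf v‖ = Zf v := by
  rw [Bf_self] at hv
  have : ‖Wf v‖ ^ 2 = Zf v ^ 2 := by linarith
  exact (pow_left_inj₀ (norm_nonneg _) hZ.le two_ne_zero).1 this

theorem IsLor.norm_act {g : M3} (hg : IsLor g) {ζ : ℂ} (hζ : ‖ζ‖ = 1) : ‖act g ζ‖ = 1 := by
  have h1 : 0 < Zf (g.mulVec (nn ζ)) := hg.lam_pos hζ
  have h2 : Bf (g.mulVec (nn ζ)) (g.mulVec (nn ζ)) = 0 := by rw [hg.form, Bf_nn_self hζ]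
  have h3 := norm_Wf_null h2 h1
  unfold act
  rw [norm_div, h3, Complex.norm_real, Real.norm_of_nonneg h1.le]
  exact div_self h1.ne'

theorem mulVec_nn {g : M3} {ζ : ℂ} (h : lam g ζ ≠ 0) : g.mulVec (nn ζ) = lam g ζ • nn (act g ζ) := by
  apply ext_WZ
  · rw [Wf_smul, Wf_nn]
    unfold act lam
    rw [mul_div_cancel₀]
    exact_mod_cast h
  · rw [Zf_smul, Zf_nn, mul_one]
    rfl

/-- cocycle and composition rules; `g` is arbitrary -/
theorem act_mul (g : M3) {h : M3} {ζ : ℂ} (hh : lam h ζ ≠ 0) :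
    act (g * h) ζ = act g (act h ζ) := by
  have h1 : (g * h).mulVec (nn ζ) = lam h ζ • g.mulVec (nn (act h ζ)) := by
    rw [← Matrix.mulVec_mulVec, mulVec_nn hh, Matrix.mulVec_smul]
  unfold act
  rw [h1, Wf_smul, Zf_smul]
  push_cast
  rw [mul_div_mul_left]
  · rfl
  · exact_mod_cast hh

theorem lam_mul (g : M3) {h : M3} {ζ : ℂ} (hh : lam h ζ ≠ 0) :
    lam (g * h) ζ = lam g (act h ζ) * lam h ζ := by
  have h1 : (g * h).mulVec (nn ζ) = lam h ζ • g.mulVec (nn (act h ζ)) := by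
    rw [← Matrix.mulVec_mulVec, mulVec_nn hh, Matrix.mulVec_smul]
  show Zf ((g * h).mulVec (nn ζ)) = Zf (g.mulVec (nn (act h ζ))) * lam h ζ
  rw [h1, Zf_smul]
  ring

theorem act_one (ζ : ℂ) : act 1 ζ = ζ := by
  unfold act
  rw [Matrix.one_mulVec, Wf_nn, Zf_nn]
  simp

theorem act_Rm_pow (n : ℕ) (ζ : ℂ) : act (Rm ^ n) ζ = om ^ n * ζ := by
  unfold act
  rw [Wf_Rm_pow, Zf_Rm_pow, Wf_nn, Zf_nn]
  simp

theorem lam_Rm_pow (n : ℕ) (ζ : ℂ) : lam (Rm ^ n) ζ = 1 := by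
  unfold lam
  rw [Zf_Rm_pow, Zf_nn]

/-- the chord formula -/
theorem IsLor.chord {g : M3} (hg : IsLor g) {ζ ξ : ℂ} (hζ : ‖ζ‖ = 1) (hξ : ‖ξ‖ = 1) :
    ‖act g ζ - act g ξ‖ ^ 2 * (lam g ζ * lam g ξ) = ‖ζ - ξ‖ ^ 2 := by
  have h1 := hg.form (nn ζ) (nn ξ)
  rw [mulVec_nn (hg.lam_pos hζ).ne', mulVec_nn (hg.lam_pos hξ).ne', Bf_smul_left, Bf_smul_right,
    Bf_nn_nn (hg.norm_act hζ) (hg.norm_act hξ), Bf_nn_nn hζ hξ] at h1
  linarith

/-- the Poisson kernel at the image point -/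
theorem IsLor.Bf_pos_nn {g : M3} (hg : IsLor g) {ζ : ℂ} (hζ : ‖ζ‖ = 1) :
    Bf (pos g) (nn (act g ζ)) * lam g ζ = 1 := by
  have h1 := hg.form p0 (nn ζ)
  rw [mulVec_nn (hg.lam_pos hζ).ne', Bf_smul_right, Bf_p0_left, Zf_nn] at h1
  unfold pos
  linarith

theorem IsLor.lam_le {g : M3} (hg : IsLor g) {ζ : ℂ} (hζ : ‖ζ‖ = 1) : lam g ζ ≤ 2 * NN g := by
  have h1 := hg.Bf_pos_nn hζ
  have h2 := (Bf_null_pos hg.pos_self hg.fut (Bf_nn_self (hg.norm_act hζ))
    (by rw [Zf_nn]; exact one_pos)).1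
  rw [Zf_nn, div_le_iff₀ (by have := hg.fut; unfold NN at this; positivity)] at h2
  have h3 := hg.lam_pos hζ
  unfold NN
  nlinarith

theorem IsLor.one_div_le_lam {g : M3} (hg : IsLor g) {ζ : ℂ} (hζ : ‖ζ‖ = 1) :
    1 / (2 * NN g) ≤ lam g ζ := by
  have h1 := hg.Bf_pos_nn hζ
  have h2 := (Bf_null_pos hg.pos_self hg.fut (Bf_nn_self (hg.norm_act hζ))
    (by rw [Zf_nn]; exact one_pos)).2
  rw [Zf_nn, mul_one] at h2
  have h3 := hg.lam_pos hζ
  have h4 := hg.fut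
  rw [div_le_iff₀ (by positivity)]
  unfold NN
  nlinarith

/-- a future unit timelike vector and a boundary point -/
theorem Bf_nn_bounds {p : E} (hp : Bf p p = 1) (hZ : 0 < Zf p) {ζ : ℂ} (hζ : ‖ζ‖ = 1) :
    1 / (2 * Zf p) ≤ Bf p (nn ζ) ∧ Bf p (nn ζ) ≤ 2 * Zf p := by
  have := Bf_null_pos hp hZ (Bf_nn_self hζ) (by rw [Zf_nn]; exact one_pos)
  rw [Zf_nn, mul_one] at this
  exact this

theorem Bf_nn_pos {p : E} (hp : Bf p p = 1) (hZ : 0 < Zf p) {ζ : ℂ} (hζ : ‖ζ‖ = 1) :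
    0 < Bf p (nn ζ) := lt_of_lt_of_le (by positivity) (Bf_nn_bounds hp hZ hζ).1

/-- the product with a boundary point in terms of the direction -/
theorem Bf_nn_dir {p : E} (hp : Bf p p = 1) (hZ : 0 < Zf p) {ζ : ℂ} (hζ : ‖ζ‖ = 1) :
    ‖Wf p‖ * ‖ζ - dir p‖ ^ 2 / 2 ≤ Bf p (nn ζ) := by
  rcases eq_or_ne (Wf p) 0 with h | h
  · rw [h, norm_zero]
    have := (Bf_nn_bounds hp hZ hζ).1
    have h2 : 0 ≤ 1 / (2 * Zf p) := by positivity
    linarith
  · have hn : (0 : ℝ) < ‖Wf p‖ := norm_pos_iff.2 h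
    have hd : ‖dir p‖ = 1 := by
      unfold dir
      rw [norm_div, Complex.norm_real, norm_norm, div_self hn.ne']
    have h1 : ‖ζ - dir p‖ ^ 2 = 2 - 2 * (dir p * conj ζ).re := by
      rw [norm_sub_rev, ← Complex.normSq_eq_norm_sq, Complex.normSq_sub,
        Complex.normSq_eq_norm_sq, Complex.normSq_eq_norm_sq, hd, hζ]
      ring
    have h2 : ‖Wf p‖ * (dir p * conj ζ).re = (Wf p * conj ζ).re := by
      have h3 : (‖Wf p‖ : ℂ) * dir p = Wf p := by
        unfold dir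
        rw [mul_div_cancel₀]
        exact_mod_cast hn.ne'
      have : Wf p * conj ζ = (‖Wf p‖ : ℂ) * (dir p * conj ζ) := by
        rw [← mul_assoc, h3]
      rw [this, Complex.re_ofReal_mul]
    unfold Bf
    rw [Zf_nn, Wf_nn, mul_one]
    have hW := norm_Wf_lt hp hZ
    nlinarith

/-- step of the walk -/
theorem IsLor.Bf_step {g : M3} (hg : IsLor g) (k : Fin 7) :
    Bf (pos g) (pos (g * Am k)) = cc := by
  rw [pos_mul]
  unfold pos
  rw [hg.form, Bf_p0_left]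
  exact Zf_Am k

/-- product with a boundary point after one step -/
theorem Bf_Am_nn (k : Fin 7) (ζ : ℂ) :
    Bf (pos (Am k)) (nn ζ) = cc - sh * (om ^ (k : ℕ) * conj ζ).re := by
  unfold Bf
  rw [Zf_Am, Wf_Am, Zf_nn, Wf_nn, mul_one]
  congr 1
  rw [mul_comm (om ^ (k : ℕ)) (sh : ℂ), mul_assoc, Complex.re_ofReal_mul]

/-! ### inverses -/

/-- the form is nondegenerate -/
theorem Bf_nondeg {v : E} (h : ∀ u, Bf v u = 0) : v = 0 := by
  have hZ : Zf v = 0 := by rw [← Bf_p0_right]; exact h p0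
  have hW : Wf v = 0 := by
    have h1 := h (vec (Wf v) 0)
    unfold Bf at h1
    rw [Wf_vec, Zf_vec, Complex.mul_conj, Complex.ofReal_re, mul_zero, zero_sub, neg_eq_zero,
      Complex.normSq_eq_zero] at h1
    exact h1
  exact ext_WZ (by rw [hW, Wf_zero]) (by rw [hZ, Zf_zero])

/-- Lorentz matrices are invertible, the inverse is Lorentz -/
theorem IsLor.exists_inv {g : M3} (hg : IsLor g) : ∃ h : M3, IsLor h ∧ h * g = 1 ∧ g * h = 1 := by
  have hinj : Function.Injective g.mulVec := by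
    intro u v huv
    have h0 : g.mulVec (u - v) = 0 := by rw [Matrix.mulVec_sub, huv, sub_self]
    have h1 : u - v = 0 := by
      apply Bf_nondeg
      intro w
      rw [← hg.form, h0]
      simp [Bf_explicit]
    exact sub_eq_zero.1 h1
  have hu : IsUnit g := Matrix.mulVec_injective_iff_isUnit.1 hinj
  have h1 : g⁻¹ * g = 1 := Matrix.nonsing_inv_mul g ((Matrix.isUnit_iff_isUnit_det g).1 hu)
  have h2 : g * g⁻¹ = 1 := Matrix.mul_nonsing_inv g ((Matrix.isUnit_iff_isUnit_det g).1 hu)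
  refine ⟨g⁻¹, ⟨?_, ?_⟩, h1, h2⟩
  · intro u v
    rw [← hg.form (g⁻¹.mulVec u), Matrix.mulVec_mulVec, Matrix.mulVec_mulVec, h2,
      Matrix.one_mulVec, Matrix.one_mulVec]
  · unfold NN pos
    rw [← Bf_p0_left, ← hg.form, Matrix.mulVec_mulVec, h2, Matrix.one_mulVec, Bf_p0_right]
    exact hg.fut

/-- every boundary point is `act g ξ` -/
theorem IsLor.exists_act {g : M3} (hg : IsLor g) {ζ : ℂ} (hζ : ‖ζ‖ = 1) :
    ∃ ξ : ℂ, ‖ξ‖ = 1 ∧ act g ξ = ζ := by
  obtain ⟨h, hh, _, h2⟩ := hg.exists_inv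
  refine ⟨act h ζ, hh.norm_act hζ, ?_⟩
  rw [← act_mul g (hh.lam_pos hζ).ne', h2, act_one]

/-- injectivity of the boundary action -/
theorem IsLor.act_inj {g : M3} (hg : IsLor g) {ζ ξ : ℂ} (hζ : ‖ζ‖ = 1) (hξ : ‖ξ‖ = 1)
    (h : act g ζ = act g ξ) : ζ = ξ := by
  have h1 := hg.chord hζ hξ
  rw [h, sub_self, norm_zero] at h1
  have h2 : ‖ζ - ξ‖ = 0 := by
    have : ‖ζ - ξ‖ ^ 2 = 0 := by rw [← h1]; ring
    exact pow_eq_zero_iff two_ne_zero |>.1 this
  exact sub_eq_zero.1 (norm_eq_zero.1 h2)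

/-- `Bf (pos (g x)) (nn (act g ξ)) * lam g ξ = Bf (pos x) (nn ξ)` -/
theorem IsLor.Bf_pos_mul {g : M3} (hg : IsLor g) (x : M3) {ξ : ℂ} (hξ : ‖ξ‖ = 1) :
    Bf (pos (g * x)) (nn (act g ξ)) * lam g ξ = Bf (pos x) (nn ξ) := by
  have h1 := hg.form (pos x) (nn ξ)
  rw [mulVec_nn (hg.lam_pos hξ).ne', Bf_smul_right] at h1
  rw [pos_mul]
  linarith

end Pool.Agent.K7
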