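import Pool.Agent.Work.MP_7596a5_pr.CertData

/-!
# Growth of positive harmonic functions along `h^N`, `h = A_3 A_4`
-/

namespace Pool.Agent.K7

namespace C

/-! ### real interpretation of the integer data -/

noncomputable def ev (x : ZR) : ℝ := x.1 + x.2.1 * rho + x.2.2 * rho ^ 2

theorem ev_zadd (x y : ZR) : ev (zadd x y) = ev x + ev y := by
  unfold ev zadd
  push_cast
  ring

theorem ev_zsub (x y : ZR) : ev (zsub x y) = ev x - ev y := by
  unfold ev zsub
  push_cast
  ring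

theorem ev_zrho (x : ZR) : ev (zrho x) = rho * ev x := by
  unfold ev zrho
  push_cast
  linear_combination (-(x.2.2 : ℝ)) * rho_cubic

theorem ev_zmul (x y : ZR) : ev (zmul x y) = ev x * ev y := by
  have h1 := ev_zrho x
  have h2 := ev_zrho (zrho x)
  have h3 : ev (zmul x y) = y.1 * ev x + y.2.1 * ev (zrho x) + y.2.2 * ev (zrho (zrho x)) := by
    unfold zmul ev
    push_cast
    ring
  rw [h3, h2, h1]
  unfold ev
  ring

/-- matrix of a flag: the three columns -/
noncomputable def toM (F : Flag) : M3 :=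
  !![ev F.1.1, ev F.2.1.1, ev F.2.2.1; ev F.1.2.1, ev F.2.1.2.1, ev F.2.2.2.1;
    ev F.1.2.2, ev F.2.1.2.2, ev F.2.2.2.2]

theorem toM_rot (F : Flag) : toM (rot F) = toM F * Rm := by
  ext i j
  fin_cases i <;> fin_cases j <;>
    simp [toM, rot, Rm, Matrix.mul_apply, Fin.sum_univ_three, flip, csub, crho, cadd, ev_zsub,
      ev_zrho, ev_zadd] <;> ring

theorem toM_half (F : Flag) : toM (half F) = toM F * Hm := by
  ext i j
  fin_cases i <;> fin_cases j <;>
    simp [toM, half, Hm, Matrix.mul_apply, Fin.sum_univ_three, flip, csub, crho, cadd, ev_zsub,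
      ev_zrho, ev_zadd] <;> ring

theorem toM_rotn (n : ℕ) (F : Flag) : toM (rotn n F) = toM F * Rm ^ n := by
  induction n generalizing F with
  | zero => rw [rotn, pow_zero, mul_one]
  | succ n ih => rw [rotn, ih, toM_rot, pow_succ', mul_assoc]

theorem ev_lin1 (v : Col) (a b c : ZR) :
    ev (lin1 v a b c) = ev a * ev v.1 + ev b * ev v.2.1 + ev c * ev v.2.2 := by
  unfold lin1
  rw [ev_zadd, ev_zadd, ev_zmul, ev_zmul, ev_zmul, add_assoc]

theorem toM_fmul (M F : Flag) : toM (fmul M F) = toM M * toM F := by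
  ext i j
  fin_cases i <;> fin_cases j <;>
    simp [toM, fmul, lin, Matrix.mul_apply, Fin.sum_univ_three, ev_lin1]

theorem toM_idF : toM idF = 1 := by
  ext i j
  fin_cases i <;> fin_cases j <;> simp [toM, idF, ev]

theorem ieq_eq {x y : Int} (h : ieq x y = true) : x = y := by
  cases x <;> cases y
  · rw [Nat.eq_of_beq_eq_true h]
  · simp [ieq] at h
  · simp [ieq] at h
  · rw [Nat.eq_of_beq_eq_true h]

theorem blt_lt {a b : ℕ} (h : Nat.blt a b = true) : a < b := by
  rw [Nat.blt_eq] at h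
  exact h

theorem zeq_eq {x y : ZR} (h : zeq x y = true) : x = y := by
  simp only [zeq, Bool.and_eq_true] at h
  exact Prod.ext (ieq_eq h.1.1) (Prod.ext (ieq_eq h.1.2) (ieq_eq h.2))

theorem ceq_eq {x y : Col} (h : ceq x y = true) : x = y := by
  simp only [ceq, Bool.and_eq_true] at h
  exact Prod.ext (zeq_eq h.1.1) (Prod.ext (zeq_eq h.1.2) (zeq_eq h.2))

theorem feq_eq {x y : Flag} (h : feq x y = true) : x = y := by
  simp only [feq, Bool.and_eq_true] at h
  exact Prod.ext (ceq_eq h.1.1) (Prod.ext (ceq_eq h.1.2) (ceq_eq h.2))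

end C

open C

/-- the hyperbolic element `A_3 A_4` -/
noncomputable def hm : M3 := Am 3 * Am 4

theorem toM_hF : toM hF = hm := by
  unfold hF hm Am
  rw [toM_half, toM_rotn, toM_half, toM_rotn, toM_idF, one_mul, ← mul_assoc]
  rfl

/-- its inverse -/
noncomputable def hinv : M3 := Hm * Rm ^ 3 * Hm * Rm ^ 4

theorem hinv_mul : hinv * hm = 1 := by
  unfold hinv hm Am
  have h3 : ((3 : Fin 7) : ℕ) = 3 := rfl
  have h4 : ((4 : Fin 7) : ℕ) = 4 := rfl
  rw [h3, h4]
  calc Hm * Rm ^ 3 * Hm * Rm ^ 4 * (Rm ^ 3 * Hm * (Rm ^ 4 * Hm))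
      = Hm * Rm ^ 3 * Hm * (Rm ^ 4 * Rm ^ 3) * Hm * (Rm ^ 4 * Hm) := by
        simp only [mul_assoc]
    _ = Hm * Rm ^ 3 * (Hm * Hm) * (Rm ^ 4 * Hm) := by
        rw [← pow_add, show 4 + 3 = 7 from rfl, Rm_pow_seven, mul_one]
        simp only [mul_assoc]
    _ = Hm * (Rm ^ 3 * Rm ^ 4) * Hm := by
        rw [Hm_sq, mul_one]
        simp only [mul_assoc]
    _ = 1 := by
        rw [← pow_add, show 3 + 4 = 7 from rfl, Rm_pow_seven, mul_one, Hm_sq]

/-! ### positive harmonic functions -/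

/-- nonnegative, harmonic, rotation invariant -/
structure PosHarm (f : M3 → ℝ) : Prop where
  nonneg : ∀ g, 0 ≤ f g
  harm : ∀ g, f g = (1 / 7) * ∑ k : Fin 7, f (g * Am k)
  rotinv : ∀ g, f (g * Rm) = f g

namespace PosHarm

variable {f : M3 → ℝ} (hf : PosHarm f)

include hf

theorem rot_pow (g : M3) (n : ℕ) : f (g * Rm ^ n) = f g := by
  induction n with
  | zero => rw [pow_zero, mul_one]
  | succ n ih => rw [pow_succ, ← mul_assoc, hf.rotinv, ih]

theorem step_le (g : M3) (k : Fin 7) : f (g * Am k) ≤ 7 * f g := by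
  have h1 := hf.harm g
  have h2 : f (g * Am k) ≤ ∑ k : Fin 7, f (g * Am k) :=
    Finset.single_le_sum (f := fun k => f (g * Am k)) (fun k _ => hf.nonneg _) (Finset.mem_univ k)
  linarith

theorem le_step (g : M3) (k : Fin 7) : f g ≤ 7 * f (g * Am k) := by
  have h1 := hf.step_le (g * Am k) 0
  have h2 : g * Am k * Am 0 = g * Rm ^ (k : ℕ) := by
    have h0 : Am 0 = Hm := by
      unfold Am
      rw [show ((0 : Fin 7) : ℕ) = 0 from rfl, pow_zero, one_mul]
    rw [h0]
    unfold Am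
    rw [mul_assoc, mul_assoc, Hm_sq, mul_one]
  rw [h2, hf.rot_pow] at h1
  exact h1

end PosHarm

/-! ### the rows of the certificate -/

/-- the group elements of the certificate -/
noncomputable def XX (i : ℕ) : M3 := toM (dF (getRow i))

/-- the weights of the certificate -/
noncomputable def vv (i : ℕ) : ℝ := (dval (getRow i) : ℝ)

theorem checkAll_get {l : List ℕ} {i : ℕ} (h : checkAll l i = true) {j : ℕ} (hj : j < l.length) :
    checkRow (i + j) (l.getD j 0) = true := by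
  induction l generalizing i j with
  | nil => simp at hj
  | cons r rs ih =>
    simp only [checkAll, Bool.and_eq_true] at h
    cases j with
    | zero => simpa using h.1
    | succ j =>
      have h1 := ih h.2 (j := j) (by simpa using hj)
      have h2 : i + (j + 1) = i + 1 + j := by omega
      rw [h2]
      simpa using h1

theorem row_ok {i : ℕ} (hi : i < 520) : checkRow i (getRow i) = true := by
  have h := checkAll_get data_ok (j := i) (by rw [data_length]; exact hi)
  rwa [zero_add] at h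

theorem XX_zero : XX 0 = 1 := by
  have h := row_ok (i := 0) (by norm_num)
  simp only [checkRow, Bool.and_eq_true, if_true] at h
  unfold XX
  rw [feq_eq h.2, toM_idF]

theorem vv_pos {i : ℕ} (hi : i < 520) : 0 < vv i := by
  have h := row_ok hi
  simp only [checkRow, Bool.and_eq_true] at h
  have h1 : 0 < dval (getRow i) := blt_lt h.1.2
  unfold vv
  exact_mod_cast h1

theorem vv_le (i : ℕ) : vv i ≤ 2 ^ 30 := by
  unfold vv dval
  have : getRow i % 2 ^ 30 ≤ 2 ^ 30 := (Nat.mod_lt _ (by norm_num)).le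
  exact_mod_cast this

/-- target level of a pointer with code `n` from level `t` -/
def nxt (t : ℕ) : ℕ → ℕ
  | 0 => t + 1
  | 1 => t
  | _ => t - 1

theorem ptr_ok {F : Flag} {p : ℕ × ℕ × ℕ × ℕ} (h : checkPtr F p = true) : p.2.2.2 < 520 ∧
    ((p.2.1 = 0 ∧ hm * (toM F * Rm ^ p.1 * Hm) = XX p.2.2.2 * Rm ^ p.2.2.1) ∨
     (p.2.1 = 1 ∧ toM F * Rm ^ p.1 * Hm = XX p.2.2.2 * Rm ^ p.2.2.1) ∨
     (2 ≤ p.2.1 ∧ toM F * Rm ^ p.1 * Hm = hm * (XX p.2.2.2 * Rm ^ p.2.2.1))) := by
  obtain ⟨k, n, l, j⟩ := p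
  simp only [checkPtr, Bool.and_eq_true] at h
  obtain ⟨h1, h2⟩ := h
  refine ⟨blt_lt h1, ?_⟩
  match n with
  | 0 =>
    left
    have h3 := congrArg toM (feq_eq h2)
    rw [toM_fmul, toM_half, toM_rotn, toM_rotn, toM_hF] at h3
    exact ⟨rfl, h3⟩
  | 1 =>
    right; left
    have h3 := congrArg toM (feq_eq h2)
    rw [toM_half, toM_rotn, toM_rotn] at h3
    exact ⟨rfl, h3⟩
  | m + 2 =>
    right; right
    have h3 := congrArg toM (feq_eq h2)
    rw [toM_fmul, toM_half, toM_rotn, toM_rotn, toM_hF] at h3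
    exact ⟨by simp, h3⟩

theorem sum_ptrs_le {φ : ℕ → ℝ} (hφ : ∀ k, 0 ≤ φ k) (ps : List (ℕ × ℕ × ℕ × ℕ)) (m : ℕ)
    (h : increasing ps m = true) : (ps.map fun p => φ p.1).sum ≤ ∑ k ∈ Finset.Ico m 7, φ k := by
  induction ps generalizing m with
  | nil =>
    simp only [List.map_nil, List.sum_nil]
    exact Finset.sum_nonneg fun k _ => hφ k
  | cons p ps ih =>
    simp only [increasing, Bool.and_eq_true, Nat.ble_eq] at h
    obtain ⟨⟨h1, h2⟩, h3⟩ := h
    have h4 := ih _ h3
    rw [List.map_cons, List.sum_cons]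
    have h5 : ∑ k ∈ Finset.Ico p.1 7, φ k = φ p.1 + ∑ k ∈ Finset.Ico (p.1 + 1) 7, φ k :=
      Finset.sum_eq_sum_Ico_succ_bot (by omega) φ
    have h6 : ∑ k ∈ Finset.Ico p.1 7, φ k ≤ ∑ k ∈ Finset.Ico m 7, φ k :=
      Finset.sum_le_sum_of_subset_of_nonneg (Finset.Ico_subset_Ico_left h1) fun k _ _ => hφ k
    linarith

theorem length_ptrs_le (ps : List (ℕ × ℕ × ℕ × ℕ)) (m : ℕ)
    (h : increasing ps m = true) : ps.length ≤ 7 := by
  have h1 := sum_ptrs_le (φ := fun _ => 1) (fun _ => zero_le_one) ps m h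
  simp only [List.map_const', List.sum_replicate, Finset.sum_const, Nat.card_Ico,
    nsmul_eq_mul, mul_one] at h1
  have h2 : ps.length ≤ 7 - m := by exact_mod_cast h1
  omega

theorem list_sum_le {ι : Type*} (l : List ι) {f g : ι → ℝ} (h : ∀ p ∈ l, f p ≤ g p) :
    (l.map f).sum ≤ (l.map g).sum := by
  induction l with
  | nil => simp
  | cons a l ih =>
    rw [List.map_cons, List.map_cons, List.sum_cons, List.sum_cons]
    have h1 := h a (by simp)
    have h2 := ih fun p hp => h p (by simp [hp])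
    linarith

theorem list_sum_mul {ι : Type*} (l : List ι) (f : ι → ℝ) (a : ℝ) :
    (l.map fun p => a * f p).sum = a * (l.map f).sum := by
  induction l with
  | nil => simp
  | cons p l ih => rw [List.map_cons, List.map_cons, List.sum_cons, List.sum_cons, ih]; ring

theorem list_sum_sub {ι : Type*} (l : List ι) (f g : ι → ℝ) :
    (l.map fun p => f p - g p).sum = (l.map f).sum - (l.map g).sum := by
  induction l with
  | nil => simp
  | cons p l ih =>
    rw [List.map_cons, List.map_cons, List.map_cons, List.sum_cons, List.sum_cons, List.sum_cons,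
      ih]
    ring

theorem sumPtr_eq (ps : List (ℕ × ℕ × ℕ × ℕ)) :
    (sumPtr ps : ℝ) = (ps.map fun p => (wt p.2.1 : ℝ) * vv p.2.2.2).sum := by
  induction ps with
  | nil => simp [sumPtr]
  | cons p ps ih =>
    rw [List.map_cons, List.sum_cons, ← ih]
    simp only [sumPtr, vv]
    push_cast
    rfl

/-- the values on the levels -/
noncomputable def Fv (f : M3 → ℝ) (N t i : ℕ) : ℝ := f (hm ^ N * hinv ^ t * XX i)

theorem ptr_mat {t : ℕ} (ht : 1 ≤ t) {F : Flag} {p : ℕ × ℕ × ℕ × ℕ} (h : checkPtr F p = true) :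
    hinv ^ nxt t p.2.1 * (XX p.2.2.2 * Rm ^ p.2.2.1) = hinv ^ t * (toM F * Rm ^ p.1 * Hm) := by
  obtain ⟨_, h6⟩ := ptr_ok h
  obtain ⟨k, n, l, j⟩ := p
  simp only at h6 ⊢
  rcases h6 with ⟨h7, h8⟩ | ⟨h7, h8⟩ | ⟨h7, h8⟩
  · rw [h7, ← h8]
    show hinv ^ (t + 1) * _ = _
    rw [pow_succ, mul_assoc, ← mul_assoc hinv, hinv_mul, one_mul]
  · rw [h7, ← h8]
    rfl
  · rw [h8]
    obtain ⟨m, rfl⟩ : ∃ m, n = m + 2 := ⟨n - 2, by omega⟩
    obtain ⟨s, rfl⟩ : ∃ s, t = s + 1 := ⟨t - 1, by omega⟩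
    show hinv ^ (s + 1 - 1) * _ = _
    rw [Nat.add_sub_cancel, pow_succ, mul_assoc (hinv ^ s), ← mul_assoc hinv, hinv_mul, one_mul]

theorem PosHarm.row_super {f : M3 → ℝ} (hf : PosHarm f) (N : ℕ) {t i : ℕ} (ht : 1 ≤ t)
    (hi : i < 520) :
    ((dptrs (getRow i)).map fun p => Fv f N (nxt t p.2.1) p.2.2.2).sum ≤ 7 * Fv f N t i := by
  have h := row_ok hi
  simp only [checkRow, Bool.and_eq_true] at h
  obtain ⟨⟨⟨⟨h1, h2⟩, h3⟩, h4⟩, h5⟩ := h
  have e1 : ∀ p ∈ dptrs (getRow i), Fv f N (nxt t p.2.1) p.2.2.2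
      ≤ f (hm ^ N * hinv ^ t * XX i * (Rm ^ p.1 * Hm)) := by
    intro p hp
    have h6 := ptr_mat ht (List.all_eq_true.1 h1 p hp)
    apply le_of_eq
    unfold Fv
    rw [← hf.rot_pow (hm ^ N * hinv ^ nxt t p.2.1 * XX p.2.2.2) p.2.2.1, mul_assoc, mul_assoc, h6]
    simp only [mul_assoc]
    rfl
  refine (list_sum_le _ e1).trans ?_
  refine (sum_ptrs_le (φ := fun k => f (hm ^ N * hinv ^ t * XX i * (Rm ^ k * Hm)))
    (fun k => hf.nonneg _) _ _ h2).trans ?_
  have h7 := hf.harm (hm ^ N * hinv ^ t * XX i)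
  have h8 : ∑ k ∈ Finset.Ico 0 7, f (hm ^ N * hinv ^ t * XX i * (Rm ^ k * Hm))
      = ∑ k : Fin 7, f (hm ^ N * hinv ^ t * XX i * Am k) := by
    rw [← Finset.range_eq_Ico]
    exact (Fin.sum_univ_eq_sum_range (fun k => f (hm ^ N * hinv ^ t * XX i * (Rm ^ k * Hm))) 7).symm
  rw [h8]
  unfold Fv
  linarith

/-- the comparison function is strictly subharmonic -/
theorem row_sub {t i : ℕ} (ht : 1 ≤ t) (hi : i < 520) :
    7 * ((50 / 421 : ℝ) ^ t * vv i) <
      ((dptrs (getRow i)).map fun p => (50 / 421 : ℝ) ^ nxt t p.2.1 * vv p.2.2.2).sum := by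
  have h := row_ok hi
  simp only [checkRow, Bool.and_eq_true] at h
  obtain ⟨⟨⟨⟨h1, h2⟩, h3⟩, h4⟩, h5⟩ := h
  have h6 : (147350 : ℝ) * vv i < sumPtr (dptrs (getRow i)) := by
    have := blt_lt h3
    unfold vv
    exact_mod_cast this
  have h7 : ((dptrs (getRow i)).map fun p => (50 / 421 : ℝ) ^ nxt t p.2.1 * vv p.2.2.2).sum
      = (50 / 421 : ℝ) ^ t / 21050 * sumPtr (dptrs (getRow i)) := by
    rw [sumPtr_eq, ← list_sum_mul]
    congr 1
    apply List.map_congr_left
    intro p _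
    have h8 : (50 / 421 : ℝ) ^ nxt t p.2.1 = (50 / 421 : ℝ) ^ t / 21050 * wt p.2.1 := by
      match p.2.1 with
      | 0 =>
        show (50 / 421 : ℝ) ^ (t + 1) = _ / 21050 * ((2500 : ℕ) : ℝ)
        rw [pow_succ]
        push_cast
        ring
      | 1 =>
        show (50 / 421 : ℝ) ^ t = _ / 21050 * ((21050 : ℕ) : ℝ)
        push_cast
        ring
      | m + 2 =>
        show (50 / 421 : ℝ) ^ (t - 1) = _ / 21050 * ((177241 : ℕ) : ℝ)
        obtain ⟨s, rfl⟩ : ∃ s, t = s + 1 := ⟨t - 1, by omega⟩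
        rw [Nat.add_sub_cancel, pow_succ]
        push_cast
        ring
    rw [h8]
    ring
  rw [h7]
  have h9 : (0 : ℝ) < (50 / 421 : ℝ) ^ t := by positivity
  have h10 := mul_lt_mul_of_pos_left h6 h9
  linarith

/-- the comparison principle -/
theorem PosHarm.comparison {f : M3 → ℝ} (hf : PosHarm f) (N : ℕ) {θ : ℝ} (hθ : 0 < θ)
    (h0 : ∀ i < 520, θ * vv i ≤ Fv f N 0 i) (t i : ℕ) (hi : i < 520) :
    θ * ((50 / 421 : ℝ) ^ t * vv i) ≤ Fv f N t i := by
  by_contra hcon
  push Not at hcon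
  set d : ℕ × ℕ → ℝ := fun q => θ * ((50 / 421 : ℝ) ^ q.1 * vv q.2) - Fv f N q.1 q.2 with hd
  set a := d (t, i) with ha
  have ha0 : 0 < a := by
    rw [ha, hd]
    simp only
    linarith
  -- beyond level T the values are below a
  obtain ⟨T0, hT0⟩ : ∃ T0 : ℕ, ∀ s, T0 ≤ s → θ * ((50 / 421 : ℝ) ^ s * 2 ^ 30) < a := by
    have h1 : Filter.Tendsto (fun s : ℕ => θ * ((50 / 421 : ℝ) ^ s * 2 ^ 30)) Filter.atTop
        (nhds (θ * (0 * 2 ^ 30))) :=
      ((tendsto_pow_atTop_nhds_zero_of_lt_one (by norm_num) (by norm_num)).mul_const _).const_mul _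
    rw [zero_mul, mul_zero] at h1
    exact Filter.eventually_atTop.1 (h1.eventually_lt_const ha0)
  set T := max T0 t with hT
  have hfin : (Finset.range (T + 1) ×ˢ Finset.range 520).Nonempty :=
    ⟨(t, i), by simp [hi, hT]⟩
  obtain ⟨q, hq, hmax⟩ := Finset.exists_max_image _ d hfin
  have haq : a ≤ d q := hmax (t, i) (by simp [hi, hT])
  have hall : ∀ s j, j < 520 → d (s, j) ≤ d q := by
    intro s j hj
    by_cases hs : s ≤ T
    · exact hmax (s, j) (by simp [hj]; omega)
    · push Not at hs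
      have h1 := hT0 s (by omega)
      have h2 : θ * ((50 / 421 : ℝ) ^ s * vv j) ≤ θ * ((50 / 421 : ℝ) ^ s * 2 ^ 30) := by
        apply mul_le_mul_of_nonneg_left _ hθ.le
        exact mul_le_mul_of_nonneg_left (vv_le j) (by positivity)
      have h3 : 0 ≤ Fv f N s j := hf.nonneg _
      rw [hd] at haq ⊢
      simp only at haq ⊢
      linarith
  obtain ⟨s, j⟩ := q
  have hj : j < 520 := by
    have := (Finset.mem_product.1 hq).2
    simpa using this
  have hs : 1 ≤ s := by
    by_contra hs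
    have hs0 : s = 0 := by omega
    have h1 := h0 j hj
    rw [hs0, hd] at haq
    simp only [pow_zero, one_mul] at haq
    linarith
  have h1 := hf.row_super N hs hj
  have h2 := row_sub hs hj
  have h3 := row_ok hj
  simp only [checkRow, Bool.and_eq_true] at h3
  obtain ⟨⟨⟨⟨h3, h4⟩, _⟩, _⟩, _⟩ := h3
  have h5 : ((dptrs (getRow j)).map fun p => d (nxt s p.2.1, p.2.2.2)).sum
      ≤ ((dptrs (getRow j)).map fun _ => d (s, j)).sum := by
    apply list_sum_le
    intro p hp
    exact hall _ _ (ptr_ok (List.all_eq_true.1 h3 p hp)).1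
  have h6 : ((dptrs (getRow j)).map fun _ => d (s, j)).sum ≤ 7 * d (s, j) := by
    rw [List.map_const', List.sum_replicate, nsmul_eq_mul]
    apply mul_le_mul_of_nonneg_right _ (ha0.le.trans haq)
    exact_mod_cast length_ptrs_le _ _ h4
  have h7 : ((dptrs (getRow j)).map fun p => d (nxt s p.2.1, p.2.2.2)).sum
      = θ * ((dptrs (getRow j)).map fun p => (50 / 421 : ℝ) ^ nxt s p.2.1 * vv p.2.2.2).sum
        - ((dptrs (getRow j)).map fun p => Fv f N (nxt s p.2.1) p.2.2.2).sum := by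
    rw [← list_sum_mul, ← list_sum_sub]
  have h8 := mul_lt_mul_of_pos_left h2 hθ
  have h9 : d (s, j) = θ * ((50 / 421 : ℝ) ^ s * vv j) - Fv f N s j := rfl
  rw [h7] at h5
  rw [h9] at h6
  linarith

/-- Harnack along the rows -/
theorem PosHarm.harnack_row {f : M3 → ℝ} (hf : PosHarm f) (i : ℕ) (hi : i < 520) (g : M3) :
    f g ≤ 343 ^ i * f (g * XX i) := by
  induction i using Nat.strong_induction_on generalizing g with
  | _ i ih =>
    rcases Nat.eq_zero_or_pos i with h0 | h0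
    · rw [h0, XX_zero, mul_one, pow_zero, one_mul]
    · have h := row_ok hi
      simp only [checkRow, Bool.and_eq_true] at h
      obtain ⟨⟨⟨⟨h1, h2⟩, _⟩, _⟩, h5⟩ := h
      rw [if_neg (by omega)] at h5
      obtain ⟨p, hp, hpi⟩ : ∃ p ∈ dptrs (getRow i), p.2.2.2 < i := by
        clear h1 h2
        generalize dptrs (getRow i) = ps at h5
        induction ps with
        | nil => simp [hasParent] at h5
        | cons p ps ihp =>
          simp only [hasParent, Bool.or_eq_true, Nat.blt_eq] at h5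
          rcases h5 with h5 | h5
          · exact ⟨p, by simp, h5⟩
          · obtain ⟨q, hq, hqi⟩ := ihp h5
            exact ⟨q, by simp [hq], hqi⟩
      have hk : p.1 < 7 := by
        have : ∀ (ps : List (ℕ × ℕ × ℕ × ℕ)) (m : ℕ), increasing ps m = true → p ∈ ps → p.1 < 7 := by
          intro ps
          induction ps with
          | nil => simp
          | cons r ps ihr =>
            intro m hm hmem
            simp only [increasing, Bool.and_eq_true, Nat.ble_eq] at hm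
            rcases List.mem_cons.1 hmem with rfl | h'
            · omega
            · exact ihr _ hm.2 h'
        exact this _ _ h2 hp
      obtain ⟨hj, h6⟩ := ptr_ok (List.all_eq_true.1 h1 p hp)
      -- one step
      have hstep : f (g * (XX i * Rm ^ p.1 * Hm)) ≤ 7 * f (g * XX i) := by
        have h7 := hf.step_le (g * XX i) ⟨p.1, hk⟩
        have h8 : g * XX i * Am ⟨p.1, hk⟩ = g * (XX i * Rm ^ p.1 * Hm) := by
          unfold Am
          simp only [mul_assoc]
        rwa [h8] at h7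
      have hih := ih p.2.2.2 hpi hj
      have hpow : (343 : ℝ) ^ p.2.2.2 * 343 ≤ 343 ^ i := by
        rw [← pow_succ]
        exact pow_le_pow_right₀ (by norm_num) (by omega)
      have hXn : 0 ≤ f (g * XX i) := hf.nonneg _
      have hP : (0 : ℝ) < 343 ^ p.2.2.2 := by positivity
      have hmain : f g ≤ 49 * (343 ^ p.2.2.2 * f (g * (XX i * Rm ^ p.1 * Hm))) := by
        rcases h6 with ⟨_, h8⟩ | ⟨_, h8⟩ | ⟨_, h8⟩
        · -- X_i A_k = hinv X_j R^l
          have h9 : XX i * Rm ^ p.1 * Hm = hinv * (XX p.2.2.2 * Rm ^ p.2.2.1) := by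
            have : toM (dF (getRow i)) = XX i := rfl
            rw [this] at h8
            rw [← h8, ← mul_assoc, hinv_mul, one_mul]
          have h9' : g * (hinv * (XX p.2.2.2 * Rm ^ p.2.2.1)) = g * hinv * XX p.2.2.2 * Rm ^ p.2.2.1 := by
            simp only [mul_assoc]
          rw [h9, h9', hf.rot_pow]
          have h10 := hih (g * hinv)
          have h11 : f g ≤ 49 * f (g * hinv) := by
            have h12 := hf.step_le (g * hinv) 3
            have h13 := hf.step_le (g * hinv * Am 3) 4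
            have h14 : g * hinv * Am 3 * Am 4 = g := by
              rw [mul_assoc, mul_assoc, show Am 3 * Am 4 = hm from rfl, hinv_mul, mul_one]
            rw [h14] at h13
            linarith
          linarith
        · have : toM (dF (getRow i)) = XX i := rfl
          rw [this] at h8
          have h9' : g * (XX p.2.2.2 * Rm ^ p.2.2.1) = g * XX p.2.2.2 * Rm ^ p.2.2.1 := by
            simp only [mul_assoc]
          rw [h8, h9', hf.rot_pow]
          have h10 := hih g
          have h11 : 0 ≤ f (g * XX p.2.2.2) := hf.nonneg _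
          nlinarith
        · have : toM (dF (getRow i)) = XX i := rfl
          rw [this] at h8
          have h9' : g * (hm * (XX p.2.2.2 * Rm ^ p.2.2.1)) = g * hm * XX p.2.2.2 * Rm ^ p.2.2.1 := by
            simp only [mul_assoc]
          rw [h8, h9', hf.rot_pow]
          have h10 := hih (g * hm)
          have h11 : f g ≤ 49 * f (g * hm) := by
            have h12 := hf.le_step g 3
            have h13 := hf.le_step (g * Am 3) 4
            have h14 : g * Am 3 * Am 4 = g * hm := mul_assoc _ _ _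
            rw [h14] at h13
            linarith
          linarith
      calc f g ≤ 49 * (343 ^ p.2.2.2 * f (g * (XX i * Rm ^ p.1 * Hm))) := hmain
        _ ≤ 49 * (343 ^ p.2.2.2 * (7 * f (g * XX i))) := by
            apply mul_le_mul_of_nonneg_left _ (by norm_num)
            exact mul_le_mul_of_nonneg_left hstep hP.le
        _ = (343 ^ p.2.2.2 * 343) * f (g * XX i) := by ring
        _ ≤ 343 ^ i * f (g * XX i) := mul_le_mul_of_nonneg_right hpow hXn

theorem hm_mul_hinv : hm * hinv = 1 := mul_eq_one_comm.1 hinv_mul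

theorem hm_pow_mul_hinv_pow (N : ℕ) : hm ^ N * hinv ^ N = 1 := by
  induction N with
  | zero => simp
  | succ N ih =>
    rw [pow_succ, pow_succ', mul_assoc, ← mul_assoc hm, hm_mul_hinv, one_mul, ih]

/-- the growth of positive harmonic functions along `h^N` -/
theorem cert : ∃ c : ℝ, 0 < c ∧ ∀ f : M3 → ℝ, (∀ g, 0 ≤ f g) →
    (∀ g, f g = (1 / 7) * ∑ k : Fin 7, f (g * Am k)) → (∀ g, f (g * Rm) = f g) →
    ∀ N : ℕ, c * f (hm ^ N) ≤ (421 / 50 : ℝ) ^ N * f 1 := by
  obtain ⟨K, hK0, hK⟩ : ∃ K : ℝ, 0 < K ∧ ∀ i < 520, (343 : ℝ) ^ i ≤ K :=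
    ⟨(343 : ℝ) ^ 520, pow_pos (by norm_num) _,
      fun i hi => pow_le_pow_right₀ (by norm_num) (le_of_lt hi)⟩
  refine ⟨vv 0 / (K * 2 ^ 30), div_pos (vv_pos (by norm_num)) (by positivity), ?_⟩
  intro f h1 h2 h3 N
  have hf : PosHarm f := ⟨h1, h2, h3⟩
  rcases (h1 (hm ^ N)).eq_or_lt with h0 | h0
  · rw [← h0, mul_zero]
    have := h1 1
    positivity
  · set θ := f (hm ^ N) / (K * 2 ^ 30) with hθ
    have hθ0 : 0 < θ := div_pos h0 (by positivity)
    have hbd : ∀ i < 520, θ * vv i ≤ Fv f N 0 i := by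
      intro i hi
      have h4 := hf.harnack_row i hi (hm ^ N)
      have h5 : Fv f N 0 i = f (hm ^ N * XX i) := by
        unfold Fv
        rw [pow_zero, mul_one]
      rw [h5]
      have h6 : (343 : ℝ) ^ i ≤ K := hK i hi
      have h7 : f (hm ^ N) ≤ K * f (hm ^ N * XX i) :=
        h4.trans (mul_le_mul_of_nonneg_right h6 (h1 _))
      have h8 := vv_le i
      rw [hθ, div_mul_eq_mul_div, div_le_iff₀ (by positivity)]
      have h9 : f (hm ^ N) * vv i ≤ (K * f (hm ^ N * XX i)) * 2 ^ 30 :=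
        mul_le_mul h7 h8 (vv_pos hi).le (by have := h1 (hm ^ N * XX i); positivity)
      linarith
    have h4 := hf.comparison N hθ0 hbd N 0 (by norm_num)
    have h5 : Fv f N N 0 = f 1 := by
      unfold Fv
      rw [XX_zero, mul_one, hm_pow_mul_hinv_pow]
    rw [h5] at h4
    have h6 : vv 0 / (K * 2 ^ 30) * f (hm ^ N)
        = (421 / 50 : ℝ) ^ N * (θ * ((50 / 421 : ℝ) ^ N * vv 0)) := by
      have h7 : (421 / 50 : ℝ) ^ N * (50 / 421 : ℝ) ^ N = 1 := by
        rw [← mul_pow]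
        norm_num
      rw [hθ]
      calc vv 0 / (K * 2 ^ 30) * f (hm ^ N)
          = ((421 / 50 : ℝ) ^ N * (50 / 421 : ℝ) ^ N)
            * (vv 0 / (K * 2 ^ 30) * f (hm ^ N)) := by rw [h7, one_mul]
        _ = _ := by ring
    rw [h6]
    exact mul_le_mul_of_nonneg_left h4 (by positivity)

/-! ### growth of `NN (h^N)` -/

namespace C

/-- multiplication of a column by a number -/
def cz (t : ZR) (u : Col) : Col := (zmul t u.1, zmul t u.2.1, zmul t u.2.2)

theorem h_cubic_dec : (fmul hF (fmul hF hF)).1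
    = cadd (cz (3, 4, 1) (csub (fmul hF hF).1 hF.1)) idF.1 := by decide

theorem pos_toM (F : Flag) : pos (toM F) = ![ev F.1.1, ev F.1.2.1, ev F.1.2.2] := by
  unfold pos
  rw [mulVec3]
  simp [toM, p0]

theorem pos_hm : pos hm = ![2 + 4 * rho + rho ^ 2, -1 - rho - rho ^ 2, rho] := by
  rw [← toM_hF, pos_toM]
  have h1 : hF.1 = ((2, 4, 1), (-1, -1, -1), (0, 1, 0)) := by decide
  rw [h1]
  simp only [ev]
  funext i
  fin_cases i
  · simp
  · simp
    ring
  · simp

theorem pos_hm_sq : pos (hm ^ 2) = ![11 + 31 * rho + 14 * rho ^ 2, -6 - 14 * rho - 6 * rho ^ 2,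
    2 + 5 * rho + 2 * rho ^ 2] := by
  rw [pow_two, ← toM_hF, ← toM_fmul, pos_toM]
  have h1 : (fmul hF hF).1 = ((11, 31, 14), (-6, -14, -6), (2, 5, 2)) := by decide
  rw [h1]
  simp only [ev]
  funext i
  fin_cases i
  · simp
  · simp
    ring
  · simp

theorem pos_hm_cube : pos (hm ^ 3) = (3 + 4 * rho + rho ^ 2) • (pos (hm ^ 2) - pos hm) + p0 := by
  have h1 : pos (hm ^ 3) = pos (toM (fmul hF (fmul hF hF))) := by
    rw [toM_fmul, toM_fmul, toM_hF]
    congr 1
    rw [pow_succ, pow_two, mul_assoc]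
  have h2 : pos (hm ^ 2) = pos (toM (fmul hF hF)) := by
    rw [toM_fmul, toM_hF, pow_two]
  rw [h1, h2, ← toM_hF, pos_toM, pos_toM, pos_toM, h_cubic_dec]
  have h3 : ev ((3, 4, 1) : ZR) = 3 + 4 * rho + rho ^ 2 := by
    simp [ev]
  funext i
  fin_cases i <;>
    simp [cadd, cz, csub, idF, ev_zadd, ev_zsub, ev_zmul, h3, p0] <;> simp [ev]

end C

theorem growth_rec (n : ℕ) : NN (hm ^ (n + 3)) = (3 + 4 * rho + rho ^ 2)
    * (NN (hm ^ (n + 2)) - NN (hm ^ (n + 1))) + NN (hm ^ n) := by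
  have h1 : pos (hm ^ (n + 3)) = (hm ^ n).mulVec (pos (hm ^ 3)) := by rw [pow_add, pos_mul]
  have h2 : pos (hm ^ (n + 2)) = (hm ^ n).mulVec (pos (hm ^ 2)) := by rw [pow_add, pos_mul]
  have h3 : pos (hm ^ (n + 1)) = (hm ^ n).mulVec (pos hm) := by rw [pow_add, pos_mul, pow_one]
  have h4 : pos (hm ^ n) = (hm ^ n).mulVec p0 := rfl
  unfold NN
  rw [h1, h2, h3, h4, C.pos_hm_cube, Matrix.mulVec_add, Matrix.mulVec_smul, Matrix.mulVec_sub,
    Zf_add, Zf_smul, Zf_sub]

theorem NN_hm_zero : NN (hm ^ 0) = 1 := by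
  unfold NN
  rw [pow_zero, pos_one, Zf_p0]

theorem growth_base : 33 / 10 ≤ NN (hm ^ 1) - NN (hm ^ 0) ∧
    (4211 / 500) * (NN (hm ^ 1) - NN (hm ^ 0)) ≤ NN (hm ^ 2) - NN (hm ^ 1) := by
  rw [NN_hm_zero]
  unfold NN
  rw [pow_one, C.pos_hm, C.pos_hm_sq]
  simp only [Zf, Matrix.cons_val_zero, Matrix.cons_val_one, Matrix.cons_val]
  have h1 := rho_gt
  have h2 := rho_lt
  have h3 := cc_gt
  have h4 := cc_lt
  constructor
  · nlinarith [mul_pos (sub_pos.2 h1) (sub_pos.2 h3)]
  · nlinarith [mul_pos (sub_pos.2 h1) (sub_pos.2 h3)]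

theorem growth_d (n : ℕ) : 33 / 10 * (4211 / 500 : ℝ) ^ n ≤ NN (hm ^ (n + 1)) - NN (hm ^ n) ∧
    (4211 / 500) * (NN (hm ^ (n + 1)) - NN (hm ^ n)) ≤ NN (hm ^ (n + 2)) - NN (hm ^ (n + 1)) := by
  induction n with
  | zero =>
    have := growth_base
    rw [pow_zero, mul_one]
    exact this
  | succ n ih =>
    obtain ⟨h1, h2⟩ := ih
    have h3 := growth_rec n
    have h0 : (0 : ℝ) < (4211 / 500 : ℝ) ^ n := by positivity
    constructor
    · rw [pow_succ]
      have : NN (hm ^ (n + 1 + 1)) = NN (hm ^ (n + 2)) := rfl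
      rw [this]
      nlinarith
    · have e1 : NN (hm ^ (n + 1 + 2)) = NN (hm ^ (n + 3)) := rfl
      have e2 : NN (hm ^ (n + 1 + 1)) = NN (hm ^ (n + 2)) := rfl
      rw [e1, e2, h3]
      have hT : (8.5423 : ℝ) ≤ 2 + 4 * rho + rho ^ 2 := by nlinarith [rho_gt]
      set d := NN (hm ^ (n + 1)) - NN (hm ^ n)
      set d' := NN (hm ^ (n + 2)) - NN (hm ^ (n + 1))
      have hd : 0 < d := by nlinarith
      have hd' : 0 < d' := by nlinarith
      have h5 : (8.5423 : ℝ) * d' ≤ (2 + 4 * rho + rho ^ 2) * d' :=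
        mul_le_mul_of_nonneg_right hT hd'.le
      have h6 : (3 + 4 * rho + rho ^ 2) * d' + NN (hm ^ n) - NN (hm ^ (n + 2))
          = (2 + 4 * rho + rho ^ 2) * d' - d := by
        simp only [d, d']
        ring
      have h7 : d ≤ (500 / 4211) * d' := by
        linarith
      have h8 : (4211 / 500 : ℝ) * d' ≤ (3 + 4 * rho + rho ^ 2) * d' + NN (hm ^ n) - NN (hm ^ (n + 2)) := by
        rw [h6]
        nlinarith
      exact h8

theorem growth : ∃ c : ℝ, 0 < c ∧ ∀ N : ℕ, c * (4211 / 500 : ℝ) ^ N ≤ NN (hm ^ N) := by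
  refine ⟨3 / 10, by norm_num, fun N => ?_⟩
  cases N with
  | zero =>
    rw [NN_hm_zero, pow_zero]
    norm_num
  | succ n =>
    have h1 := (growth_d n).1
    have h2 : IsLor hm := (isLor_Am 3).mul (isLor_Am 4)
    have h3 := (h2.pow n).one_le_NN
    have h4 : (0 : ℝ) < (4211 / 500 : ℝ) ^ n := by positivity
    rw [pow_succ]
    nlinarith

end Pool.Agent.K7
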