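import Mathlib

/-!
# The degree-7 triangulation: definitions (Minkowski space R^{2,1})

Vectors `v : Fin 3 → ℝ` are coordinates with respect to three vertices `p0, p1, p2` of a base
triangle of the `{3,7}` tiling, viewed as points of the hyperboloid in Minkowski space.
`Zf` is the height (time coordinate), `Wf` the space coordinate, `Bf` the Minkowski form
(positive on timelike vectors).  The ideal boundary point `ζ` (`‖ζ‖ = 1`) is represented by the
null vector `nn ζ` with `Wf = ζ`, `Zf = 1`.
-/

namespace Pool.Agent.K7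

open MeasureTheory
open scoped ComplexConjugate

/-- `ρ = 2 cos (2π/7)` -/
noncomputable def rho : ℝ := 2 * Real.cos (2 * Real.pi / 7)

/-- hyperbolic cosine of the edge length of the `{3,7}` tiling -/
noncomputable def cc : ℝ := rho / (2 - rho)

/-- hyperbolic sine of the edge length -/
noncomputable def sh : ℝ := Real.sqrt (cc ^ 2 - 1)

/-- the primitive seventh root of unity `e^{2πi/7}` -/
noncomputable def om : ℂ := Complex.exp (((2 * Real.pi / 7 : ℝ) : ℂ) * Complex.I)

abbrev E := Fin 3 → ℝ
abbrev M3 := Matrix (Fin 3) (Fin 3) ℝ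

/-- height (time coordinate) -/
noncomputable def Zf (v : E) : ℝ := v 0 + cc * (v 1 + v 2)

/-- space coordinate -/
noncomputable def Wf (v : E) : ℂ := (sh : ℂ) * ((v 1 : ℂ) + om * (v 2 : ℂ))

/-- the Minkowski form (`1` on the hyperboloid) -/
noncomputable def Bf (u v : E) : ℝ := Zf u * Zf v - (Wf u * conj (Wf v)).re

/-- the vector with space coordinate `w` and height `z` -/
noncomputable def vec (w : ℂ) (z : ℝ) : E :=
  ![z - cc * ((w.re / sh - w.im / (sh * om.im) * om.re) + w.im / (sh * om.im)),
    w.re / sh - w.im / (sh * om.im) * om.re, w.im / (sh * om.im)]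

/-- the null vector of the boundary point `ζ` -/
noncomputable def nn (ζ : ℂ) : E := vec ζ 1

/-- the base vertex -/
def p0 : E := ![1, 0, 0]

/-- rotation by `2π/7` about `p0`, as a matrix in the basis `p0, p1, p2` -/
noncomputable def Rm : M3 := !![1, 0, rho; 0, 0, -1; 0, 1, rho]

/-- half-turn about the midpoint of the edge `p0 p1` -/
noncomputable def Hm : M3 := !![0, 1, rho; 1, 0, rho; 0, 0, -1]

/-- the seven steps `R^k H`; `R^k H p0` are the seven neighbours of `p0` -/
noncomputable def Am (k : Fin 7) : M3 := Rm ^ (k : ℕ) * Hm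

/-- position of the base vertex under `g` -/
def pos (g : M3) : E := g.mulVec p0

/-- `cosh` of the distance of `g p0` from `p0` -/
noncomputable def NN (g : M3) : ℝ := Zf (pos g)

/-- conformal factor -/
noncomputable def lam (g : M3) (ζ : ℂ) : ℝ := Zf (g.mulVec (nn ζ))

/-- action on the boundary circle -/
noncomputable def act (g : M3) (ζ : ℂ) : ℂ := Wf (g.mulVec (nn ζ)) / (Zf (g.mulVec (nn ζ)) : ℂ)

/-- Lorentz matrices preserving the future cone -/
structure IsLor (g : M3) : Prop where
  form : ∀ u v, Bf (g.mulVec u) (g.mulVec v) = Bf u v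
  fut : 0 < NN g

/-- the triangle group (rotation part) -/
noncomputable def Gam : Submonoid M3 := Submonoid.closure {Rm, Hm}

/-- direction of a timelike vector -/
noncomputable def dir (p : E) : ℂ := Wf p / (‖Wf p‖ : ℂ)

/-- horizontal half-plane coordinate with pole `ζ` -/
noncomputable def xx (ζ : ℂ) (p : E) : ℝ := (Wf p * conj (Complex.I * ζ)).re / Bf p (nn ζ)

/-- vertical half-plane coordinate with pole `ζ` (Poisson kernel) -/
noncomputable def yy (ζ : ℂ) (p : E) : ℝ := 1 / Bf p (nn ζ)

/-- stationary probability measures on the circle for the seven steps -/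
structure Stat (ν : Measure ℂ) : Prop where
  prob : IsProbabilityMeasure ν
  circ : ∀ᵐ ζ ∂ν, ‖ζ‖ = 1
  stat : ∀ B : Set ℂ, MeasurableSet B →
    ν.real B = (1 / 7) * ∑ k : Fin 7, ν.real ((act (Am k)) ⁻¹' B)

/-- the harmonic function `g ↦ (g_* ν)(B)` -/
noncomputable def fB (ν : Measure ℂ) (B : Set ℂ) (g : M3) : ℝ := ν.real ((act g) ⁻¹' B)

open Classical in
/-- averaging over the walk stopped when `S` holds, at most `n` steps -/
noncomputable def TT (S : M3 → Prop) : ℕ → (M3 → ℝ) → M3 → ℝ
  | 0, f, g => f g
  | n + 1, f, g => if S g then f g else (1 / 7) * ∑ k : Fin 7, TT S n f (g * Am k)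

end Pool.Agent.K7
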