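import Pool.Agent.Work.MP_7596a5_pr.Harm
import Pool.Agent.Work.MP_7596a5_pr.Cert

/-!
# Shadows, and balls of large density for a stationary measure
-/

namespace Pool.Agent.K7

open MeasureTheory Metric
open scoped ComplexConjugate

/-- the average of the conformal factor over a rotation orbit -/
theorem sum_lam (x : M3) (ξ : ℂ) : ∑ k : Fin 7, lam x (om ^ (k : ℕ) * ξ) = 7 * NN x := by
  have hmul : ∀ (v : Fin 7 → E), ∑ k : Fin 7, Zf (x.mulVec (v k))
      = Zf (x.mulVec (∑ k : Fin 7, v k)) := by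
    intro v
    simp only [Fin.sum_univ_seven, Matrix.mulVec_add, Zf_add]
  unfold lam
  rw [hmul fun k => nn (om ^ (k : ℕ) * ξ)]
  have h1 : ∑ k : Fin 7, nn (om ^ (k : ℕ) * ξ) = (7 : ℝ) • p0 := by
    apply ext_WZ
    · have hW : ∀ (v : Fin 7 → E), Wf (∑ k : Fin 7, v k) = ∑ k : Fin 7, Wf (v k) := by
        intro v
        simp only [Fin.sum_univ_seven, Wf_add]
      rw [hW, Wf_smul, Wf_p0, mul_zero]
      simp only [Wf_nn]
      rw [← Finset.sum_mul, sum_om_pow, zero_mul]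
    · have hZ : ∀ (v : Fin 7 → E), Zf (∑ k : Fin 7, v k) = ∑ k : Fin 7, Zf (v k) := by
        intro v
        simp only [Fin.sum_univ_seven, Zf_add]
      rw [hZ, Zf_smul, Zf_p0]
      simp [Zf_nn]
  rw [h1, Matrix.mulVec_smul, Zf_smul]
  rfl

theorem exists_lam (x : M3) (ξ : ℂ) : ∃ k : Fin 7, NN x ≤ lam x (om ^ (k : ℕ) * ξ) := by
  by_contra hcon
  push Not at hcon
  have h1 : ∑ k : Fin 7, lam x (om ^ (k : ℕ) * ξ) < ∑ _k : Fin 7, NN x :=
    Finset.sum_lt_sum_of_nonempty Finset.univ_nonempty fun k _ => hcon k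
  rw [sum_lam] at h1
  simp at h1

theorem norm_om_pow_mul (n : ℕ) {ξ : ℂ} (hξ : ‖ξ‖ = 1) : ‖om ^ n * ξ‖ = 1 := by
  rw [norm_mul, norm_pow, norm_om, one_pow, one_mul, hξ]

/-- the space part is at least half the height -/
theorem half_NN_le {p : E} (hp : Bf p p = 1) (hZ : 2 ≤ Zf p) : Zf p / 2 ≤ ‖Wf p‖ := by
  rw [Bf_self] at hp
  by_contra hcon
  push Not at hcon
  nlinarith [norm_nonneg (Wf p)]

/-- the shadow lemma -/
theorem IsLor.shadow {x : M3} (hx : IsLor x) (hN : 2 ≤ NN x) {ξ : ℂ} (hξ : ‖ξ‖ = 1)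
    (hl : NN x ≤ lam x ξ) : ‖act x ξ - dir (pos x)‖ ≤ 2 / NN x := by
  have h1 := hx.Bf_pos_nn hξ
  have h2 := Bf_nn_dir hx.pos_self hx.fut (hx.norm_act hξ)
  have h3 : NN x / 2 ≤ ‖Wf (pos x)‖ := half_NN_le hx.pos_self hN
  have hN0 : 0 < NN x := hx.fut
  have hB : 0 < Bf (pos x) (nn (act x ξ)) := Bf_nn_pos hx.pos_self hx.fut (hx.norm_act hξ)
  have h4 : Bf (pos x) (nn (act x ξ)) * NN x ≤ 1 := by
    rw [← h1]
    exact mul_le_mul_of_nonneg_left hl hB.le
  have h5 : (NN x * ‖act x ξ - dir (pos x)‖) ^ 2 ≤ 2 ^ 2 := by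
    have h6 : NN x / 2 * ‖act x ξ - dir (pos x)‖ ^ 2 / 2 ≤ Bf (pos x) (nn (act x ξ)) := by
      refine le_trans ?_ h2
      have := mul_le_mul_of_nonneg_right h3 (sq_nonneg ‖act x ξ - dir (pos x)‖)
      linarith
    have h7 := mul_le_mul_of_nonneg_right h6 hN0.le
    nlinarith
  have h6 := (abs_le_of_sq_le_sq' h5 (by norm_num)).2
  rw [le_div_iff₀ hN0]
  linarith

variable {ν : Measure ℂ}

/-- the harmonic measure of the shadow from the point itself is at least `1/7` -/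
theorem Stat.shadow_le (h : Stat ν) {x : M3} (hx : IsLor x) (hN : 2 ≤ NN x) {z : ℂ} {R : ℝ}
    (hR : ‖dir (pos x) - z‖ + 2 / NN x ≤ R) : 1 / 7 ≤ fB ν (closedBall z R) x := by
  apply h.seventh_le (measurable_act x measurableSet_closedBall)
  intro ξ hξ
  obtain ⟨k, hk⟩ := exists_lam x ξ
  refine ⟨k, ?_⟩
  have h1 := hx.shadow hN (norm_om_pow_mul k hξ) hk
  rw [Set.mem_preimage, mem_closedBall, dist_eq_norm]
  have h2 : act x (om ^ (k : ℕ) * ξ) - z
      = (act x (om ^ (k : ℕ) * ξ) - dir (pos x)) + (dir (pos x) - z) := by ring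
  rw [h2]
  have h3 := norm_add_le (act x (om ^ (k : ℕ) * ξ) - dir (pos x)) (dir (pos x) - z)
  linarith

theorem norm_dir {p : E} (h : Wf p ≠ 0) : ‖dir p‖ = 1 := by
  have hn : (0 : ℝ) < ‖Wf p‖ := norm_pos_iff.2 h
  unfold dir
  rw [norm_div, Complex.norm_real, norm_norm, div_self hn.ne']

/-- a stationary measure has balls of arbitrarily large density -/
theorem Stat.dense_balls (h : Stat ν) (A : ℝ) : ∃ η : ℂ, ‖η‖ = 1 ∧ ∃ δ : ℝ, 0 < δ ∧ δ ≤ 1 / 2 ∧
    A * δ ≤ ν.real (closedBall η δ) := by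
  obtain ⟨c, hc0, hc⟩ := cert
  obtain ⟨c2, hc20, hc2⟩ := growth
  have hLor : IsLor hm := (isLor_Am 3).mul (isLor_Am 4)
  -- choose N
  have h1 : Filter.Tendsto (fun N : ℕ => c * c2 / 14 * (4211 / 4210 : ℝ) ^ N) Filter.atTop
      Filter.atTop :=
    (tendsto_pow_atTop_atTop_of_one_lt (by norm_num)).const_mul_atTop (by positivity)
  have h2 : Filter.Tendsto (fun N : ℕ => c2 * (4211 / 500 : ℝ) ^ N) Filter.atTop
      Filter.atTop :=
    (tendsto_pow_atTop_atTop_of_one_lt (by norm_num)).const_mul_atTop (by positivity)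
  obtain ⟨N, hN1, hN2⟩ := ((h1.eventually_ge_atTop A).and (h2.eventually_ge_atTop 4)).exists
  have hx : IsLor (hm ^ N) := hLor.pow N
  have hNN : 4 ≤ NN (hm ^ N) := hN2.trans (hc2 N)
  set x := hm ^ N with hxdef
  set δ := 2 / NN x with hδ
  have hNpos : 0 < NN x := by linarith
  have hδ0 : 0 < δ := by positivity
  have hδ1 : δ ≤ 1 / 2 := by
    rw [hδ, div_le_iff₀ hNpos]
    linarith
  have hW : Wf (pos x) ≠ 0 := by
    have h3 : NN x / 2 ≤ ‖Wf (pos x)‖ := half_NN_le hx.pos_self (by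
      show 2 ≤ NN x
      linarith)
    have : 0 < ‖Wf (pos x)‖ := by linarith
    exact norm_pos_iff.1 this
  refine ⟨dir (pos x), norm_dir hW, δ, hδ0, hδ1, ?_⟩
  have hmeas : MeasurableSet (closedBall (dir (pos x)) δ) := measurableSet_closedBall
  have h3 := hc (fB ν (closedBall (dir (pos x)) δ)) (fB_nonneg _) (h.fB_harm hmeas)
    (h.fB_Rm hmeas) N
  rw [fB_one] at h3
  have h4 : 1 / 7 ≤ fB ν (closedBall (dir (pos x)) δ) x := by
    apply h.shadow_le hx (by linarith)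
    rw [sub_self, norm_zero, zero_add]
  have h5 : c / 7 ≤ (421 / 50 : ℝ) ^ N * ν.real (closedBall (dir (pos x)) δ) := by
    have := mul_le_mul_of_nonneg_left h4 hc0.le
    linarith
  have h6 : δ * (c2 * (4211 / 500 : ℝ) ^ N) ≤ 2 := by
    have := mul_le_mul_of_nonneg_left (hc2 N) hδ0.le
    have h7 : δ * NN x = 2 := by
      rw [hδ]
      field_simp
    linarith
  have hpow : (4211 / 500 : ℝ) ^ N = (4211 / 4210 : ℝ) ^ N * (421 / 50 : ℝ) ^ N := by
    rw [← mul_pow]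
    norm_num
  -- A δ (421/50)^N ≤ c/7
  have hP : (0 : ℝ) < (421 / 50 : ℝ) ^ N := by positivity
  have h7 : A * δ * (421 / 50 : ℝ) ^ N ≤ c / 7 := by
    have h8 : A * (δ * (421 / 50 : ℝ) ^ N)
        ≤ (c * c2 / 14 * (4211 / 4210 : ℝ) ^ N) * (δ * (421 / 50 : ℝ) ^ N) :=
      mul_le_mul_of_nonneg_right hN1 (by positivity)
    have h9 : (c * c2 / 14 * (4211 / 4210 : ℝ) ^ N) * (δ * (421 / 50 : ℝ) ^ N)
        = c / 14 * (δ * (c2 * (4211 / 500 : ℝ) ^ N)) := by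
      rw [hpow]
      ring
    have h10 : c / 14 * (δ * (c2 * (4211 / 500 : ℝ) ^ N)) ≤ c / 14 * 2 :=
      mul_le_mul_of_nonneg_left h6 (by positivity)
    linarith
  have h8 : A * δ * (421 / 50 : ℝ) ^ N
      ≤ ν.real (closedBall (dir (pos x)) δ) * (421 / 50 : ℝ) ^ N := by linarith
  exact le_of_mul_le_mul_right h8 hP

end Pool.Agent.K7
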