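import Pool.Agent.Work.MP_7596a5_pr.Basic

namespace Pool.Agent.K7

open MeasureTheory Filter Topology
open scoped ComplexConjugate ENNReal

/-- normalised arc length on the unit circle -/
noncomputable def arcLen : Measure ℂ :=
  ENNReal.ofReal (1 / (2 * Real.pi)) •
    (volume.restrict (Set.Ioc (-Real.pi) Real.pi)).map (fun θ : ℝ => Complex.exp (θ * Complex.I))

namespace DiffAux

lemma arg_exp {s : ℝ} (h : s ∈ Set.Ioc (-Real.pi) Real.pi) :
    Complex.arg (Complex.exp (s * Complex.I)) = s := by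
  rw [Complex.arg_exp_mul_I, toIocMod_eq_self]
  refine ⟨h.1, ?_⟩
  have := h.2
  linarith

lemma exp_meas : Measurable (fun θ : ℝ => Complex.exp (θ * Complex.I)) := by
  fun_prop

lemma norm_exp_eq (s : ℝ) : ‖Complex.exp (s * Complex.I)‖ = 1 :=
  Complex.norm_exp_ofReal_mul_I s

lemma exp_arg {z : ℂ} (hz : ‖z‖ = 1) : Complex.exp (Complex.arg z * Complex.I) = z := by
  have := Complex.norm_mul_exp_arg_mul_I z
  rw [hz] at this
  simpa using this

lemma norm_exp_sub_le (a b : ℝ) :
    ‖Complex.exp (a * Complex.I) - Complex.exp (b * Complex.I)‖ ≤ |a - b| := by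
  have h1 : Complex.exp (a * Complex.I) - Complex.exp (b * Complex.I)
      = Complex.exp (b * Complex.I) * (Complex.exp (Complex.I * ((a - b : ℝ) : ℂ)) - 1) := by
    rw [mul_sub, ← Complex.exp_add, mul_one]
    congr 2
    push_cast
    ring
  rw [h1, norm_mul, norm_exp_eq, one_mul]
  exact Real.norm_exp_I_mul_ofReal_sub_one_le

/-- every point of the circle near `exp (i s)` has an angle near `s` -/
lemma exists_angle {ξ : ℂ} (hξ : ‖ξ‖ = 1) (s : ℝ) :
    ∃ s' : ℝ, Complex.exp (s' * Complex.I) = ξ ∧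
      |s' - s| ≤ Real.pi / 2 * ‖ξ - Complex.exp (s * Complex.I)‖ := by
  have hE : Complex.exp (s * Complex.I) ≠ 0 := Complex.exp_ne_zero _
  have hξ0 : ξ ≠ 0 := by
    rintro rfl
    simp at hξ
  have hq : ‖ξ / Complex.exp (s * Complex.I)‖ = 1 := by
    rw [norm_div, hξ, norm_exp_eq, div_one]
  refine ⟨s + Complex.arg (ξ / Complex.exp (s * Complex.I)), ?_, ?_⟩
  · have : (((s + Complex.arg (ξ / Complex.exp (s * Complex.I)) : ℝ) : ℂ) * Complex.I)
        = s * Complex.I + Complex.arg (ξ / Complex.exp (s * Complex.I)) * Complex.I := by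
      push_cast
      ring
    rw [this, Complex.exp_add, exp_arg hq]
    field_simp
  · rw [add_sub_cancel_left, ← Complex.angle_eq_abs_arg hξ0 hE]
    exact Complex.angle_le_mul_norm_sub hξ (norm_exp_eq s)

/-- the image on the line -/
noncomputable def line (μ : Measure ℂ) : Measure ℝ := μ.map Complex.arg

instance (μ : Measure ℂ) [IsFiniteMeasure μ] : IsFiniteMeasure (line μ) := by
  unfold line
  infer_instance

lemma line_apply (μ : Measure ℂ) {A : Set ℝ} (hA : MeasurableSet A) :
    line μ A = μ (Complex.arg ⁻¹' A) := by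
  unfold line
  rw [Measure.map_apply Complex.measurable_arg hA]

lemma sing_of_line {μ : Measure ℂ} (h : line μ ⟂ₘ (volume : Measure ℝ)) : μ ⟂ₘ arcLen := by
  obtain ⟨S, hS, h1, h2⟩ := h
  refine ⟨Complex.arg ⁻¹' S, Complex.measurable_arg hS, ?_, ?_⟩
  · rw [← line_apply μ hS, h1]
  · unfold arcLen
    rw [Measure.smul_apply, Measure.map_apply exp_meas (Complex.measurable_arg hS).compl,
      Measure.restrict_apply (exp_meas (Complex.measurable_arg hS).compl)]
    have : volume ((fun θ : ℝ => Complex.exp (θ * Complex.I)) ⁻¹' (Complex.arg ⁻¹' S)ᶜ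
        ∩ Set.Ioc (-Real.pi) Real.pi) = 0 := by
      refine measure_mono_null ?_ h2
      rintro t ⟨ht1, ht2⟩
      simp only [Set.mem_preimage, Set.mem_compl_iff] at ht1 ⊢
      rwa [arg_exp ht2] at ht1
    rw [this, smul_zero]

lemma exists_good (m : Measure ℝ) [IsFiniteMeasure m] (hm : m (Set.Ioc (-Real.pi) Real.pi)ᶜ = 0)
    (h : ¬ m ⟂ₘ (volume : Measure ℝ)) :
    ∃ t ∈ Set.Ioo (-Real.pi) Real.pi, 0 < m.rnDeriv volume t ∧ m.rnDeriv volume t < ∞ ∧
      ∀ K : ℕ, Tendsto (fun a => m a / volume a)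
        ((IsUnifLocDoublingMeasure.vitaliFamily (volume : Measure ℝ) K).filterAt t)
        (𝓝 (m.rnDeriv volume t)) := by
  by_contra hcon
  push Not at hcon
  apply h
  rw [← Measure.rnDeriv_eq_zero]
  have h1 : ∀ᵐ t ∂(volume : Measure ℝ), ∀ K : ℕ, Tendsto (fun a => m a / volume a)
        ((IsUnifLocDoublingMeasure.vitaliFamily (volume : Measure ℝ) K).filterAt t)
        (𝓝 (m.rnDeriv volume t)) := by
    rw [ae_all_iff]
    intro K
    exact (IsUnifLocDoublingMeasure.vitaliFamily (volume : Measure ℝ) K).ae_tendsto_rnDeriv m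
  have h2 : ∀ᵐ t ∂(volume : Measure ℝ), m.rnDeriv volume t < ∞ := Measure.rnDeriv_lt_top m volume
  have h3 : ∀ᵐ t ∂(volume : Measure ℝ), t ∈ (Set.Ioc (-Real.pi) Real.pi)ᶜ →
      m.rnDeriv volume t = 0 := by
    have h4 : ∫⁻ t in (Set.Ioc (-Real.pi) Real.pi)ᶜ, m.rnDeriv volume t = 0 := by
      rw [← withDensity_apply _ measurableSet_Ioc.compl]
      exact le_antisymm ((Measure.withDensity_rnDeriv_le m volume _).trans_eq hm) zero_le
    rw [lintegral_eq_zero_iff (Measure.measurable_rnDeriv m volume)] at h4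
    exact (ae_restrict_iff' measurableSet_Ioc.compl).1 h4
  have h5 : ∀ᵐ t ∂(volume : Measure ℝ), t ≠ Real.pi := by
    rw [ae_iff]
    simp
  filter_upwards [h1, h2, h3, h5] with t a1 a2 a3 a4
  by_contra hne
  have hpos : 0 < m.rnDeriv volume t := pos_iff_ne_zero.2 hne
  have hmem : t ∈ Set.Ioo (-Real.pi) Real.pi := by
    by_contra hc
    apply hne
    apply a3
    intro hc2
    apply hc
    exact ⟨hc2.1, lt_of_le_of_ne hc2.2 a4⟩
  obtain ⟨K, hK⟩ := hcon t hmem hpos a2
  exact hK (a1 K)

end DiffAux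

open DiffAux

theorem diff_circle (μ : Measure ℂ) [IsFiniteMeasure μ] (hc : ∀ᵐ ζ ∂μ, ‖ζ‖ = 1)
    (h : ¬ μ ⟂ₘ arcLen) : ∃ ζ : ℂ, ‖ζ‖ = 1 ∧ ∃ φ : ℝ, 0 < φ ∧ ∀ K : ℕ, ∀ᶠ r in 𝓝[>] (0 : ℝ),
      ∀ w : ℂ, ‖w‖ = 1 → ‖w - ζ‖ ≤ K * r →
        φ * r ≤ μ.real (Metric.closedBall w r) ∧ μ.real (Metric.closedBall w r) ≤ 8 * φ * r := by
  have hm : line μ (Set.Ioc (-Real.pi) Real.pi)ᶜ = 0 := by
    rw [line_apply μ measurableSet_Ioc.compl]
    have : Complex.arg ⁻¹' (Set.Ioc (-Real.pi) Real.pi)ᶜ = ∅ := by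
      ext z
      simp only [Set.mem_preimage, Set.mem_compl_iff, Set.mem_empty_iff_false, iff_false, not_not]
      exact Complex.arg_mem_Ioc z
    rw [this, measure_empty]
  obtain ⟨t, ht, hd0, hd1, hlim⟩ := exists_good (line μ) hm (fun hh => h (sing_of_line hh))
  set d := (line μ).rnDeriv volume t with hd
  refine ⟨Complex.exp (t * Complex.I), norm_exp_eq t, d.toReal,
    ENNReal.toReal_pos hd0.ne' hd1.ne, ?_⟩
  intro K
  have hpi := Real.pi_pos
  have hpi2 : Real.pi < 3.15 := Real.pi_lt_d2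
  have hpi3 : 3.14 < Real.pi := Real.pi_gt_d2
  have hφ : 0 < d.toReal := ENNReal.toReal_pos hd0.ne' hd1.ne
  have hev : ∀ᶠ a in (IsUnifLocDoublingMeasure.vitaliFamily (volume : Measure ℝ)
      ((2 * K : ℕ) : ℝ)).filterAt t,
      ENNReal.ofReal (d.toReal / 2) < line μ a / volume a ∧
        line μ a / volume a < ENNReal.ofReal (d.toReal * 2) := by
    have e1 : ENNReal.ofReal (d.toReal / 2) < d := by
      conv_rhs => rw [← ENNReal.ofReal_toReal hd1.ne]
      rw [ENNReal.ofReal_lt_ofReal_iff hφ]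
      linarith
    have e2 : d < ENNReal.ofReal (d.toReal * 2) := by
      conv_lhs => rw [← ENNReal.ofReal_toReal hd1.ne]
      rw [ENNReal.ofReal_lt_ofReal_iff (by linarith)]
      linarith
    exact ((hlim (2 * K)).eventually_const_lt e1).and ((hlim (2 * K)).eventually_lt_const e2)
  rw [VitaliFamily.eventually_filterAt_iff] at hev
  obtain ⟨ε, hε, hball⟩ := hev
  have htabs : |t| < Real.pi := abs_lt.2 ht
  have hr0 : 0 < min ε (Real.pi - |t|) / (2 * K + 2) := by
    apply div_pos (lt_min hε (by linarith))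
    positivity
  filter_upwards [Ioo_mem_nhdsGT hr0] with r hr w hw hwr
  obtain ⟨hr1, hr2⟩ := hr
  have hKpos : (0 : ℝ) < 2 * K + 2 := by positivity
  rw [lt_div_iff₀ hKpos] at hr2
  have hr3 : r * (2 * K + 2) < ε := lt_of_lt_of_le hr2 (min_le_left _ _)
  have hr4 : r * (2 * K + 2) < Real.pi - |t| := lt_of_lt_of_le hr2 (min_le_right _ _)
  have hKr : 0 ≤ (K : ℝ) * r := by positivity
  obtain ⟨s, hs1, hs2⟩ := exists_angle hw t
  have hs3 : |s - t| ≤ 2 * K * r := by
    refine hs2.trans ?_
    calc Real.pi / 2 * ‖w - Complex.exp (t * Complex.I)‖ ≤ Real.pi / 2 * (K * r) := by gcongr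
      _ ≤ 2 * (K * r) := by
        apply mul_le_mul_of_nonneg_right _ hKr
        linarith
      _ = 2 * K * r := by ring
  -- lower bound
  have hmem1 : Metric.closedBall s r ∈ (IsUnifLocDoublingMeasure.vitaliFamily (volume : Measure ℝ)
      ((2 * K : ℕ) : ℝ)).setsAt t := by
    apply IsUnifLocDoublingMeasure.closedBall_mem_vitaliFamily_of_dist_le_mul _ _ hr1
    rw [dist_comm, Real.dist_eq]
    push_cast
    exact hs3
  have hsub1 : Metric.closedBall s r ⊆ Metric.closedBall t ε := by
    apply Metric.closedBall_subset_closedBall'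
    rw [Real.dist_eq]
    nlinarith
  have hb1 := (hball _ hmem1 hsub1).1
  have hpr : 0 < Real.pi / 2 * r := by positivity
  have hmem2 : Metric.closedBall s (Real.pi / 2 * r) ∈
      (IsUnifLocDoublingMeasure.vitaliFamily (volume : Measure ℝ)
      ((2 * K : ℕ) : ℝ)).setsAt t := by
    apply IsUnifLocDoublingMeasure.closedBall_mem_vitaliFamily_of_dist_le_mul _ _ hpr
    rw [dist_comm, Real.dist_eq]
    push_cast
    refine hs3.trans ?_
    have : r ≤ Real.pi / 2 * r := by nlinarith
    have h2K : (0 : ℝ) ≤ 2 * K := by positivity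
    exact mul_le_mul_of_nonneg_left this h2K
  have hsub2 : Metric.closedBall s (Real.pi / 2 * r) ⊆ Metric.closedBall t ε := by
    apply Metric.closedBall_subset_closedBall'
    rw [Real.dist_eq]
    nlinarith
  have hb2 := (hball _ hmem2 hsub2).2
  have hL : (line μ).real (Metric.closedBall s r) ≤ μ.real (Metric.closedBall w r) := by
    unfold Measure.real
    rw [line_apply μ measurableSet_closedBall]
    refine ENNReal.toReal_mono (measure_ne_top _ _) ?_
    apply measure_mono_ae
    filter_upwards [hc] with ξ hξ hin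
    change ξ ∈ Metric.closedBall w r
    have hin' : |Complex.arg ξ - s| ≤ r := by
      have : Complex.arg ξ ∈ Metric.closedBall s r := hin
      rwa [Metric.mem_closedBall, Real.dist_eq] at this
    rw [Metric.mem_closedBall, dist_eq_norm, ← exp_arg hξ, ← hs1]
    exact (norm_exp_sub_le _ _).trans hin'
  have hU : μ.real (Metric.closedBall w r) ≤
      (line μ).real (Metric.closedBall s (Real.pi / 2 * r)) := by
    unfold Measure.real
    rw [line_apply μ measurableSet_closedBall]
    refine ENNReal.toReal_mono (measure_ne_top _ _) ?_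
    apply measure_mono_ae
    filter_upwards [hc] with ξ hξ hin
    have hin' : ‖ξ - w‖ ≤ r := by
      have : ξ ∈ Metric.closedBall w r := hin
      rwa [Metric.mem_closedBall, dist_eq_norm] at this
    change Complex.arg ξ ∈ Metric.closedBall s (Real.pi / 2 * r)
    obtain ⟨s', h1, h2⟩ := exists_angle hξ s
    rw [hs1] at h2
    have h3 : |s' - s| ≤ Real.pi / 2 * r := h2.trans (by gcongr)
    have h4 : |s'| < Real.pi := by
      have e1 : |s'| ≤ |s' - s| + |s - t| + |t| := by
        have := abs_add_three (s' - s) (s - t) t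
        calc |s'| = |s' - s + (s - t) + t| := by ring_nf
          _ ≤ _ := this
      nlinarith
    have h5 : s' ∈ Set.Ioc (-Real.pi) Real.pi := ⟨(abs_lt.1 h4).1, (abs_lt.1 h4).2.le⟩
    rw [← h1, arg_exp h5, Metric.mem_closedBall, Real.dist_eq]
    exact h3
  constructor
  · refine le_trans ?_ hL
    have hv : volume (Metric.closedBall s r) = ENNReal.ofReal (2 * r) := Real.volume_closedBall s r
    rw [hv, ENNReal.lt_div_iff_mul_lt (Or.inl (by simpa using hr1)) (Or.inl ENNReal.ofReal_ne_top),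
      ← ENNReal.ofReal_mul (by positivity)] at hb1
    have := ENNReal.toReal_mono (measure_ne_top _ _) hb1.le
    rw [ENNReal.toReal_ofReal (by positivity)] at this
    calc d.toReal * r = d.toReal / 2 * (2 * r) := by ring
      _ ≤ _ := this
  · refine hU.trans ?_
    have hv : volume (Metric.closedBall s (Real.pi / 2 * r)) = ENNReal.ofReal (Real.pi * r) := by
      rw [Real.volume_closedBall]
      congr 1
      ring
    have hprr : 0 < Real.pi * r := by positivity
    rw [hv, ENNReal.div_lt_iff (Or.inl (by simpa using hprr)) (Or.inl ENNReal.ofReal_ne_top),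
      ← ENNReal.ofReal_mul (by positivity)] at hb2
    have := ENNReal.toReal_mono ENNReal.ofReal_ne_top hb2.le
    rw [ENNReal.toReal_ofReal (by positivity)] at this
    calc (line μ).real (Metric.closedBall s (Real.pi / 2 * r)) ≤ d.toReal * 2 * (Real.pi * r) := this
      _ ≤ 8 * d.toReal * r := by
        have : Real.pi * (d.toReal * r) ≤ 4 * (d.toReal * r) := by
          apply mul_le_mul_of_nonneg_right _ (by positivity)
          linarith
        nlinarith

end Pool.Agent.K7
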