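import Pool.Agent.Work.MP_7596a5_pr.Basic

/-!
# K6: finitely many elements of the triangle group in a ball
-/

namespace Pool.Agent.K7

theorem exists_inv_Gam {g : M3} (hg : g ∈ Gam) : ∃ h ∈ Gam, h * g = 1 ∧ g * h = 1 := by
  unfold Gam at hg
  induction hg using Submonoid.closure_induction with
  | mem x hx =>
    rcases hx with rfl | rfl
    · refine ⟨Rm ^ 6, Gam.pow_mem Rm_mem 6, ?_, ?_⟩
      · rw [← pow_succ, Rm_pow_seven]
      · rw [← pow_succ', Rm_pow_seven]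
    · exact ⟨Hm, Hm_mem, Hm_sq, Hm_sq⟩
  | one => exact ⟨1, Gam.one_mem, by simp, by simp⟩
  | mul x y _ _ hx hy =>
    obtain ⟨a, ha, ha1, ha2⟩ := hx
    obtain ⟨b, hb, hb1, hb2⟩ := hy
    refine ⟨b * a, Gam.mul_mem hb ha, ?_, ?_⟩
    · calc b * a * (x * y) = b * (a * x) * y := by simp only [mul_assoc]
        _ = 1 := by rw [ha1, mul_one, hb1]
    · calc x * y * (b * a) = x * (y * b) * a := by simp only [mul_assoc]
        _ = 1 := by rw [hb2, mul_one, ha2]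

/-- the second root of the cubic -/
noncomputable def rr2 : ℝ := rho ^ 2 - 2
/-- the third root of the cubic -/
noncomputable def rr3 : ℝ := 1 - rho - rho ^ 2

theorem rr2_cubic : rr2 ^ 3 = 1 + 2 * rr2 - rr2 ^ 2 := by
  unfold rr2
  linear_combination (1 - 2 * rho - rho ^ 2 + rho ^ 3) * rho_cubic

theorem rr3_cubic : rr3 ^ 3 = 1 + 2 * rr3 - rr3 ^ 2 := by
  unfold rr3
  linear_combination (1 + rho - 2 * rho ^ 2 - rho ^ 3) * rho_cubic

theorem vdm : (rho - rr2) * (rho - rr3) * (rr2 - rr3) = 7 := by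
  unfold rr2 rr3
  linear_combination (1 + 9 * rho - rho ^ 2 - 2 * rho ^ 3) * rho_cubic

theorem rr2_bounds : -1 < rr2 ∧ rr2 < 0 := by
  unfold rr2
  have h1 := rho_gt
  have h2 := rho_lt
  constructor <;> nlinarith

theorem rr3_bounds : -1.81 < rr3 ∧ rr3 < 0 := by
  unfold rr3
  have h1 := rho_gt
  have h2 := rho_lt
  constructor <;> nlinarith

/-- the lattice of conjugate triples -/
def Ltc (x y z : ℝ) : Prop := ∃ a b c : ℤ, x = a + b * rho + c * rho ^ 2 ∧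
  y = a + b * rr2 + c * rr2 ^ 2 ∧ z = a + b * rr3 + c * rr3 ^ 2

theorem Ltc.add {x y z x' y' z' : ℝ} (h : Ltc x y z) (h' : Ltc x' y' z') :
    Ltc (x + x') (y + y') (z + z') := by
  obtain ⟨a, b, c, rfl, rfl, rfl⟩ := h
  obtain ⟨a', b', c', rfl, rfl, rfl⟩ := h'
  exact ⟨a + a', b + b', c + c', by push_cast; ring, by push_cast; ring, by push_cast; ring⟩

theorem Ltc.mul {x y z x' y' z' : ℝ} (h : Ltc x y z) (h' : Ltc x' y' z') :
    Ltc (x * x') (y * y') (z * z') := by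
  obtain ⟨a, b, c, rfl, rfl, rfl⟩ := h
  obtain ⟨a', b', c', rfl, rfl, rfl⟩ := h'
  -- r^3 = 1 + 2 r - r^2, r^4 = r + 2 r^2 - r^3 = -1 - r + 3 r^2
  have key : ∀ r : ℝ, r ^ 3 = 1 + 2 * r - r ^ 2 →
      (a + b * r + c * r ^ 2) * (a' + b' * r + c' * r ^ 2) =
      ((a * a' + (b * c' + c * b') - c * c' : ℤ) : ℝ) +
      ((a * b' + b * a' + 2 * (b * c' + c * b') - c * c' : ℤ) : ℝ) * r +
      ((a * c' + c * a' + b * b' - (b * c' + c * b') + 3 * (c * c') : ℤ) : ℝ) * r ^ 2 := by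
    intro r hr
    push_cast
    linear_combination ((b : ℝ) * c' + c * b' + c * c' * (r - 1)) * hr
  exact ⟨_, _, _, key _ rho_cubic, key _ rr2_cubic, key _ rr3_cubic⟩

theorem Ltc.zero : Ltc 0 0 0 := ⟨0, 0, 0, by simp, by simp, by simp⟩
theorem Ltc.one : Ltc 1 1 1 := ⟨1, 0, 0, by simp, by simp, by simp⟩
theorem Ltc.neg_one : Ltc (-1) (-1) (-1) := ⟨-1, 0, 0, by simp, by simp, by simp⟩
theorem Ltc.root : Ltc rho rr2 rr3 := ⟨0, 1, 0, by simp, by simp, by simp⟩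

/-- the conjugate quadratic form -/
noncomputable def Qf (r : ℝ) (v : E) : ℝ := (2 - r) * (v 0 ^ 2 + v 1 ^ 2 + v 2 ^ 2) +
  2 * r * (v 0 * v 1 + v 0 * v 2 + v 1 * v 2)

/-- conjugate of the rotation -/
def RmC (r : ℝ) : M3 := !![1, 0, r; 0, 0, -1; 0, 1, r]
/-- conjugate of the half-turn -/
def HmC (r : ℝ) : M3 := !![0, 1, r; 1, 0, r; 0, 0, -1]

theorem Qf_RmC (r : ℝ) (v : E) : Qf r ((RmC r).mulVec v) = Qf r v := by
  rw [mulVec3]
  simp [Qf, RmC]
  ring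

theorem Qf_HmC (r : ℝ) (v : E) : Qf r ((HmC r).mulVec v) = Qf r v := by
  rw [mulVec3]
  simp [Qf, HmC]
  ring

theorem Gam_conj {g : M3} (hg : g ∈ Gam) : ∃ g2 g3 : M3,
    (∀ i j, Ltc (g i j) (g2 i j) (g3 i j)) ∧ (∀ v, Qf rr2 (g2.mulVec v) = Qf rr2 v) ∧
    ∀ v, Qf rr3 (g3.mulVec v) = Qf rr3 v := by
  unfold Gam at hg
  induction hg using Submonoid.closure_induction with
  | mem x hx =>
    rcases hx with rfl | rfl
    · refine ⟨RmC rr2, RmC rr3, ?_, Qf_RmC _, Qf_RmC _⟩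
      intro i j
      fin_cases i <;> fin_cases j <;> simp only [Rm, RmC] <;>
        first | exact Ltc.zero | exact Ltc.one | exact Ltc.neg_one | exact Ltc.root
    · refine ⟨HmC rr2, HmC rr3, ?_, Qf_HmC _, Qf_HmC _⟩
      intro i j
      fin_cases i <;> fin_cases j <;> simp only [Hm, HmC] <;>
        first | exact Ltc.zero | exact Ltc.one | exact Ltc.neg_one | exact Ltc.root
  | one =>
    refine ⟨1, 1, ?_, by simp, by simp⟩
    intro i j
    rcases eq_or_ne i j with rfl | h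
    · simp only [Matrix.one_apply_eq]; exact Ltc.one
    · simp only [Matrix.one_apply_ne h]; exact Ltc.zero
  | mul x y _ _ hx hy =>
    obtain ⟨x2, x3, hx1, hx2, hx3⟩ := hx
    obtain ⟨y2, y3, hy1, hy2, hy3⟩ := hy
    refine ⟨x2 * y2, x3 * y3, ?_, ?_, ?_⟩
    · intro i j
      simp only [Matrix.mul_apply, Fin.sum_univ_three]
      exact (((hx1 i 0).mul (hy1 0 j)).add ((hx1 i 1).mul (hy1 1 j))).add
        ((hx1 i 2).mul (hy1 2 j))
    · intro v
      rw [← Matrix.mulVec_mulVec, hx2, hy2]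
    · intro v
      rw [← Matrix.mulVec_mulVec, hx3, hy3]

/-- entries of a matrix preserving a definite form are bounded -/
theorem entry_bound {r : ℝ} (h1 : -1.81 < r) (h2 : r < 0) {g : M3}
    (hg : ∀ v, Qf r (g.mulVec v) = Qf r v) (i j : Fin 3) : |g i j| ≤ 5 := by
  have hcol : ∀ i, g.mulVec (Pi.single j 1) i = g i j := by intro i; simp
  have h := hg (Pi.single j 1)
  have hQ : Qf r (Pi.single j 1) = 2 - r := by
    fin_cases j <;> simp [Qf]
  rw [hQ] at h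
  unfold Qf at h
  simp only [hcol] at h
  have h3 : (g 0 j) ^ 2 + (g 1 j) ^ 2 + (g 2 j) ^ 2 ≤ 25 := by
    have e1 : (2 + r) * ((g 0 j) ^ 2 + (g 1 j) ^ 2 + (g 2 j) ^ 2) ≤ 2 - r := by
      nlinarith [sq_nonneg (g 0 j - g 1 j), sq_nonneg (g 0 j - g 2 j), sq_nonneg (g 1 j - g 2 j)]
    by_contra hlt
    push Not at hlt
    nlinarith
  apply abs_le_of_sq_le_sq _ (by norm_num)
  fin_cases i <;> simp <;> nlinarith [sq_nonneg (g 0 j), sq_nonneg (g 1 j), sq_nonneg (g 2 j)]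

theorem abs_mul_le_ten {x X k : ℝ} (hx : |x| ≤ X) (hk : |k| ≤ 10) : |x * k| ≤ 10 * X := by
  rw [abs_mul]
  have h0 : 0 ≤ |x| := abs_nonneg x
  have h1 : 0 ≤ |k| := abs_nonneg k
  nlinarith

/-- the triples of the lattice in a box give finitely many first coordinates -/
theorem Ltc_finite (X : ℝ) :
    {x : ℝ | |x| ≤ X ∧ ∃ y z, Ltc x y z ∧ |y| ≤ 5 ∧ |z| ≤ 5}.Finite := by
  set N : ℤ := ⌈2 * X + 20⌉ with hN
  have hfin : ((Set.Icc (-N) N) ×ˢ ((Set.Icc (-N) N) ×ˢ (Set.Icc (-N) N))).Finite :=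
    (Set.finite_Icc _ _).prod ((Set.finite_Icc _ _).prod (Set.finite_Icc _ _))
  refine (hfin.image (fun t : ℤ × ℤ × ℤ => (t.1 : ℝ) + t.2.1 * rho + t.2.2 * rho ^ 2)).subset ?_
  rintro x ⟨hx, y, z, ⟨a, b, c, h1, h2, h3⟩, hy, hz⟩
  have b1 := rho_gt
  have b2 := rho_lt
  have b3 := rr2_bounds
  have b4 := rr3_bounds
  have hX : 0 ≤ X := (abs_nonneg x).trans hx
  have e1 : x * (rr2 - rr3) - y * (rho - rr3) + z * (rho - rr2) = 7 * c := by
    rw [h1, h2, h3]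
    linear_combination (c : ℝ) * vdm
  have e2 : -(x * (rr2 ^ 2 - rr3 ^ 2)) + y * (rho ^ 2 - rr3 ^ 2) - z * (rho ^ 2 - rr2 ^ 2) =
      7 * b := by
    rw [h1, h2, h3]
    linear_combination (b : ℝ) * vdm
  have e3 : x * (rr2 * rr3 * (rr2 - rr3)) - y * (rho * rr3 * (rho - rr3)) +
      z * (rho * rr2 * (rho - rr2)) = 7 * a := by
    rw [h1, h2, h3]
    linear_combination (a : ℝ) * vdm
  have key : ∀ (n : ℤ) (k1 k2 k3 : ℝ), |k1| ≤ 10 → |k2| ≤ 10 → |k3| ≤ 10 →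
      x * k1 + y * k2 + z * k3 = 7 * n → n ∈ Set.Icc (-N) N := by
    intro n k1 k2 k3 g1 g2 g3 e
    have f1 := abs_le.1 (abs_mul_le_ten hx g1)
    have f2 := abs_le.1 (abs_mul_le_ten hy g2)
    have f3 := abs_le.1 (abs_mul_le_ten hz g3)
    have hup : (n : ℝ) ≤ 2 * X + 20 := by linarith [f1.2, f2.2, f3.2]
    have hlo : -(2 * X + 20) ≤ (n : ℝ) := by linarith [f1.1, f2.1, f3.1]
    constructor
    · have : ((-n : ℤ) : ℝ) ≤ 2 * X + 20 := by push_cast; linarith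
      have h5 : -n ≤ N := Int.cast_le.1 ((this.trans (Int.le_ceil _)))
      omega
    · exact Int.cast_le.1 (hup.trans (Int.le_ceil _))
  have ha : a ∈ Set.Icc (-N) N := by
    refine key a (rr2 * rr3 * (rr2 - rr3)) (-(rho * rr3 * (rho - rr3)))
      (rho * rr2 * (rho - rr2)) ?_ ?_ ?_ (by linarith)
    · rw [abs_mul, abs_mul]
      have u1 : |rr2| ≤ 1 := abs_le.2 ⟨by linarith, by linarith⟩
      have u2 : |rr3| ≤ 2 := abs_le.2 ⟨by linarith, by linarith⟩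
      have u3 : |rr2 - rr3| ≤ 2 := abs_le.2 ⟨by linarith, by linarith⟩
      calc |rr2| * |rr3| * |rr2 - rr3| ≤ 1 * 2 * 2 := by gcongr
        _ ≤ 10 := by norm_num
    · rw [abs_neg, abs_mul, abs_mul]
      have u1 : |rho| ≤ 1.25 := abs_le.2 ⟨by linarith, by linarith⟩
      have u2 : |rr3| ≤ 2 := abs_le.2 ⟨by linarith, by linarith⟩
      have u3 : |rho - rr3| ≤ 3.1 := abs_le.2 ⟨by linarith, by linarith⟩
      calc |rho| * |rr3| * |rho - rr3| ≤ 1.25 * 2 * 3.1 := by gcongr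
        _ ≤ 10 := by norm_num
    · rw [abs_mul, abs_mul]
      have u1 : |rho| ≤ 1.25 := abs_le.2 ⟨by linarith, by linarith⟩
      have u2 : |rr2| ≤ 1 := abs_le.2 ⟨by linarith, by linarith⟩
      have u3 : |rho - rr2| ≤ 2.3 := abs_le.2 ⟨by linarith, by linarith⟩
      calc |rho| * |rr2| * |rho - rr2| ≤ 1.25 * 1 * 2.3 := by gcongr
        _ ≤ 10 := by norm_num
  have hb : b ∈ Set.Icc (-N) N := by
    refine key b (-(rr2 ^ 2 - rr3 ^ 2)) (rho ^ 2 - rr3 ^ 2) (-(rho ^ 2 - rr2 ^ 2)) ?_ ?_ ?_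
      (by linarith)
    · rw [abs_le]; constructor <;> nlinarith
    · rw [abs_le]; constructor <;> nlinarith
    · rw [abs_le]; constructor <;> nlinarith
  have hc : c ∈ Set.Icc (-N) N := by
    refine key c (rr2 - rr3) (-(rho - rr3)) (rho - rr2) ?_ ?_ ?_ (by linarith)
    · rw [abs_le]; constructor <;> linarith
    · rw [abs_le]; constructor <;> linarith
    · rw [abs_le]; constructor <;> linarith
  exact ⟨(a, b, c), ⟨ha, hb, hc⟩, h1.symm⟩

/-- coordinates are bounded by the height -/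
theorem coord_bound {v : E} (h : Bf v v = 1) (hZ : 0 < Zf v) (i : Fin 3) :
    |v i| ≤ (1 + 2 / sh + 4 / (sh * om.im)) * Zf v := by
  have hs := sh_pos
  have hi := om_im_pos
  have hW := norm_Wf_lt h hZ
  have hre := (Complex.abs_re_le_norm (Wf v)).trans hW.le
  have him := (Complex.abs_im_le_norm (Wf v)).trans hW.le
  rw [Wf_re] at hre
  rw [Wf_im] at him
  have hr := rho_lt
  have hr1 := rho_gt
  have hc := cc_lt
  have hc1 := cc_gt
  have h2 : |v 2| ≤ 1 / (sh * om.im) * Zf v := by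
    rw [← mul_assoc, abs_mul, abs_of_pos (by positivity : 0 < sh * om.im)] at him
    rw [div_mul_eq_mul_div, one_mul, le_div_iff₀ (by positivity)]
    linarith
  have h1 : |v 1 + rho / 2 * v 2| ≤ 1 / sh * Zf v := by
    rw [abs_mul, abs_of_pos hs] at hre
    have e : 1 / sh * Zf v = Zf v / sh := by ring
    rw [e, le_div_iff₀ hs]
    linarith
  set A := 1 / (sh * om.im) * Zf v with hA
  set D := 1 / sh * Zf v with hD
  have hA0 : 0 ≤ A := by positivity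
  have hD0 : 0 ≤ D := by positivity
  have hgoal : (1 + 2 / sh + 4 / (sh * om.im)) * Zf v = Zf v + 2 * D + 4 * A := by
    rw [hA, hD]; ring
  rw [hgoal]
  rw [abs_le] at h1 h2
  have h1' : |v 1| ≤ D + A := by
    rw [abs_le]; constructor <;> nlinarith [h1.1, h1.2, h2.1, h2.2]
  have h0' : |v 0| ≤ Zf v + 2 * D + 4 * A := by
    have e : v 0 = Zf v - cc * (v 1 + v 2) := by unfold Zf; ring
    rw [abs_le] at h1'
    have h3 : |v 1 + v 2| ≤ D + 2 * A := abs_le.2 ⟨by linarith [h1'.1, h2.1], by linarith [h1'.2,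
      h2.2]⟩
    have h4 : |cc * (v 1 + v 2)| ≤ 2 * (D + 2 * A) := by
      rw [abs_mul, abs_of_pos cc_pos]
      have := abs_nonneg (v 1 + v 2)
      nlinarith
    rw [abs_le] at h4
    rw [e, abs_le]
    constructor <;> linarith [h4.1, h4.2]
  fin_cases i
  · exact h0'
  · show |v 1| ≤ _
    linarith
  · show |v 2| ≤ _
    rw [abs_le]
    constructor <;> linarith [h2.1, h2.2]

/-- heights of neighbouring unit vectors -/
theorem Zf_le_of_Bf {p q : E} (hp : Bf p p = 1) (hpZ : 0 < Zf p) (hq : Bf q q = 1)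
    (hqZ : 0 < Zf q) : Zf q ≤ 2 * Zf p * Bf p q := by
  have hWp := norm_Wf_lt hp hpZ
  have hWq := norm_Wf_lt hq hqZ
  have h1 := Bf_ge p q
  rw [Bf_self] at hp
  have h3 : (Zf p - ‖Wf p‖) * (Zf p + ‖Wf p‖) = 1 := by linarith
  have h4 : 1 ≤ (Zf p - ‖Wf p‖) * (2 * Zf p) := by
    rw [← h3]
    exact mul_le_mul_of_nonneg_left (by linarith) (by linarith)
  have h5 : Zf q * (Zf p - ‖Wf p‖) ≤ Bf p q := by
    nlinarith [norm_nonneg (Wf p), norm_nonneg (Wf q)]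
  calc Zf q ≤ Zf q * ((Zf p - ‖Wf p‖) * (2 * Zf p)) := by nlinarith
    _ = (Zf q * (Zf p - ‖Wf p‖)) * (2 * Zf p) := by ring
    _ ≤ Bf p q * (2 * Zf p) := mul_le_mul_of_nonneg_right h5 (by positivity)
    _ = _ := by ring

theorem Gam_entry_mem (C : ℝ) {g : M3} (hg : g ∈ Gam) (hN : NN g ≤ C) (i j : Fin 3) :
    g i j ∈ {x : ℝ | |x| ≤ (1 + 2 / sh + 4 / (sh * om.im)) * (4 * C) ∧
      ∃ y z, Ltc x y z ∧ |y| ≤ 5 ∧ |z| ≤ 5} := by
  set K0 : ℝ := 1 + 2 / sh + 4 / (sh * om.im) with hK0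
  have hs := sh_pos
  have hi := om_im_pos
  have hK0p : 0 < K0 := by positivity
  have hL := isLor_of_mem_Gam hg
  have hN1 := hL.one_le_NN
  have hC : 1 ≤ C := hN1.trans hN
  obtain ⟨g2, g3, h1, h2, h3⟩ := Gam_conj hg
  refine ⟨?_, g2 i j, g3 i j, h1 i j, entry_bound (by linarith [rr2_bounds.1]) rr2_bounds.2 h2 i j,
    entry_bound rr3_bounds.1 rr3_bounds.2 h3 i j⟩
  -- the columns
  have hcol : ∀ i, g.mulVec (Pi.single j 1) i = g i j := by intro i; simp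
  have hunit : Bf (Pi.single j 1) (Pi.single j 1) = 1 ∧ 0 < Zf (Pi.single j 1) ∧
      Zf (Pi.single j 1) ≤ 2 := by
    have hc := cc_lt
    have hc1 := cc_gt
    refine ⟨?_, ?_, ?_⟩ <;> fin_cases j <;> simp [Bf_explicit, Zf] <;> linarith
  have hv1 : Bf (g.mulVec (Pi.single j 1)) (g.mulVec (Pi.single j 1)) = 1 := by
    rw [hL.form]; exact hunit.1
  have hv2 : 0 < Zf (g.mulVec (Pi.single j 1)) := hL.time_pos hunit.1 hunit.2.1
  have hB : Bf (pos g) (g.mulVec (Pi.single j 1)) ≤ 2 := by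
    unfold pos
    rw [hL.form, Bf_p0_left]; exact hunit.2.2
  have hB0 := one_le_Bf hL.pos_self hL.fut hv1 hv2
  have hZ := Zf_le_of_Bf hL.pos_self hL.fut hv1 hv2
  have hZ2 : Zf (g.mulVec (Pi.single j 1)) ≤ 4 * C := by
    have : NN g = Zf (pos g) := rfl
    rw [← this] at hZ
    nlinarith
  have := coord_bound hv1 hv2 i
  rw [hcol] at this
  exact this.trans (mul_le_mul_of_nonneg_left hZ2 hK0p.le)

theorem finite_Gam (C : ℝ) : {g : M3 | g ∈ Gam ∧ NN g ≤ C}.Finite := by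
  have hfin := Ltc_finite ((1 + 2 / sh + 4 / (sh * om.im)) * (4 * C))
  have hfin2 : {g : Fin 3 → Fin 3 → ℝ | ∀ i, g i ∈ {v : Fin 3 → ℝ | ∀ j, v j ∈
      {x : ℝ | |x| ≤ (1 + 2 / sh + 4 / (sh * om.im)) * (4 * C) ∧
      ∃ y z, Ltc x y z ∧ |y| ≤ 5 ∧ |z| ≤ 5}}}.Finite :=
    Set.Finite.pi' (fun i => Set.Finite.pi' (fun j => hfin))
  exact hfin2.subset (fun g hg i j => Gam_entry_mem C hg.1 hg.2 i j)

end Pool.Agent.K7
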