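import Pool.Agent.Work.MP_7596a5_pr.Basic

/-!
# Frames of a degree-7 circle packing (item K10a)
-/

namespace Pool.Agent.K7

open MeasureTheory Filter Topology
open scoped ComplexConjugate ENNReal

/-- A circle packing in the open unit disc of a triangulation all of whose vertices have degree
`7`, all circles having the same hyperbolic radius. `c`: euclidean centres, `r`: euclidean radii. -/
structure IsPacking7 {V : Type*} (G : SimpleGraph V) (c : V → ℂ) (r : V → ℝ) : Prop where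
  conn : G.Connected
  flower : ∀ v, ∃ u : ZMod 7 → V, Function.Injective u ∧ (∀ w, G.Adj v w ↔ ∃ i, u i = w) ∧
    ∀ i, G.Adj (u i) (u (i + 1))
  rpos : ∀ v, 0 < r v
  disc : ∀ v, ‖c v‖ + r v < 1
  tangent : ∀ v w, G.Adj v w → ‖c v - c w‖ = r v + r w
  univalent : ∀ v w, v ≠ w → r v + r w ≤ ‖c v - c w‖
  hyp : ∃ K : ℝ, ∀ v, 1 - ‖c v‖ ^ 2 + r v ^ 2 = 2 * K * r v

/-- `g` is a frame at the vertex `v`: the seven neighbours of `v` sit at `g A_k p0` -/
structure Fr {V : Type*} (G : SimpleGraph V) (p : V → E) (v : V) (g : M3) : Prop where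
  lor : IsLor g
  pos_eq : pos g = p v
  nb : ∀ k : Fin 7, ∃ w, G.Adj v w ∧ p w = pos (g * Am k)
  nb' : ∀ w, G.Adj v w → ∃ k : Fin 7, p w = pos (g * Am k)

namespace Frm

/-! ### linear algebra -/

/-- the matrix with columns `a, b, c` -/
noncomputable def mat (a b c : E) : M3 := !![a 0, b 0, c 0; a 1, b 1, c 1; a 2, b 2, c 2]

theorem mat_mulVec (a b c v : E) : (mat a b c).mulVec v = v 0 • a + v 1 • b + v 2 • c := by
  rw [mulVec3]
  funext i
  fin_cases i <;> simp [mat] <;> ring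

theorem eq_mat (M : M3) : M = mat (M.mulVec p0) (M.mulVec ![0, 1, 0]) (M.mulVec ![0, 0, 1]) := by
  rw [mulVec3, mulVec3, mulVec3]
  ext i j
  fin_cases i <;> fin_cases j <;> simp [mat, p0]

/-- a vector orthogonal to a timelike unit vector and isotropic is zero -/
theorem eq_zero_of_orth {P d : E} (hP : Bf P P = 1) (h1 : Bf P d = 0) (h2 : Bf d d = 0) :
    d = 0 := by
  rw [Bf_self] at hP h2
  have h3 : Zf P * Zf d = (Wf P * conj (Wf d)).re := by
    unfold Bf at h1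
    linarith
  have h4 : |(Wf P * conj (Wf d)).re| ≤ ‖Wf P‖ * ‖Wf d‖ := by
    have := Complex.abs_re_le_norm (Wf P * conj (Wf d))
    rwa [norm_mul, Complex.norm_conj] at this
  have h5 : (Zf P * Zf d) ^ 2 ≤ (‖Wf P‖ * ‖Wf d‖) ^ 2 := by
    rw [h3, ← sq_abs]
    exact pow_le_pow_left₀ (abs_nonneg _) h4 2
  have h6 : ‖Wf d‖ ^ 2 = 0 := by
    have e1 : Zf d ^ 2 = ‖Wf d‖ ^ 2 := by linarith
    have e2 : Zf P ^ 2 = 1 + ‖Wf P‖ ^ 2 := by linarith
    rw [mul_pow, mul_pow, e1, e2] at h5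
    nlinarith [sq_nonneg ‖Wf d‖]
  have h7 : Zf d ^ 2 = 0 := by linarith
  refine ext_WZ ?_ ?_
  · rw [Wf_zero]
    exact norm_eq_zero.1 (pow_eq_zero_iff two_ne_zero |>.1 h6)
  · rw [Zf_zero]
    exact pow_eq_zero_iff two_ne_zero |>.1 h7

/-- the two points at given distance from two points -/
theorem two_sol {P Q x y : E} {a κ : ℝ} (ha : 1 < a) (hκ : κ * (1 + a) = 2 * a)
    (hP : Bf P P = 1) (hQ : Bf Q Q = 1) (hPQ : Bf P Q = a) (hx : Bf x x = 1) (hy : Bf y y = 1)
    (hPx : Bf P x = a) (hQx : Bf Q x = a) (hPy : Bf P y = a) (hQy : Bf Q y = a) :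
    x = y ∨ x + y = κ • (P + Q) := by
  have hd1 : Bf P (x - y) = 0 := by rw [Bf_sub_right]; linarith
  have hd2 : Bf Q (x - y) = 0 := by rw [Bf_sub_right]; linarith
  have hs1 : Bf P (x + y - κ • (P + Q)) = 0 := by
    rw [Bf_sub_right, Bf_add_right, Bf_smul_right, Bf_add_right, hP, hPQ]; linarith
  have hs2 : Bf Q (x + y - κ • (P + Q)) = 0 := by
    rw [Bf_sub_right, Bf_add_right, Bf_smul_right, Bf_add_right, hQ, Bf_comm Q P, hPQ]; linarith
  have hds : Bf (x - y) (x + y - κ • (P + Q)) = 0 := by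
    rw [Bf_sub_right, Bf_smul_right, Bf_add_right (x - y) P Q, Bf_comm (x - y) P,
      Bf_comm (x - y) Q, hd1, hd2, Bf_add_right, Bf_sub_left, Bf_sub_left, Bf_comm y x]
    linarith
  set d := x - y with hd
  set s := x + y - κ • (P + Q) with hs
  by_cases hdd : Bf d d = 0
  · left
    exact sub_eq_zero.1 (eq_zero_of_orth hP hd1 hdd)
  by_cases hss : Bf s s = 0
  · right
    exact sub_eq_zero.1 (eq_zero_of_orth hP hs1 hss)
  exfalso
  have hdep : ¬ LinearIndependent ℝ ![P, Q, d, s] := by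
    intro h
    have := h.fintype_card_le_finrank
    simp at this
  rw [Fintype.not_linearIndependent_iff] at hdep
  obtain ⟨g, hg, i, hi⟩ := hdep
  rw [Fin.sum_univ_four] at hg
  simp only [Matrix.cons_val_zero, Matrix.cons_val_one, Matrix.cons_val] at hg
  have key : ∀ v : E, g 0 * Bf v P + g 1 * Bf v Q + g 2 * Bf v d + g 3 * Bf v s = 0 := by
    intro v
    have h0 : Bf v (g 0 • P + g 1 • Q + g 2 • d + g 3 • s) = 0 := by
      rw [hg]; simp [Bf_explicit]
    rw [Bf_add_right, Bf_add_right, Bf_add_right, Bf_smul_right, Bf_smul_right, Bf_smul_right,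
      Bf_smul_right] at h0
    exact h0
  have k2 := key d
  rw [Bf_comm d P, Bf_comm d Q, hd1, hd2, hds] at k2
  have k3 := key s
  rw [Bf_comm s P, Bf_comm s Q, Bf_comm s d, hs1, hs2, hds] at k3
  have g2 : g 2 = 0 := by
    have : g 2 * Bf d d = 0 := by linarith
    rcases mul_eq_zero.1 this with h | h
    · exact h
    · exact absurd h hdd
  have g3 : g 3 = 0 := by
    have : g 3 * Bf s s = 0 := by linarith
    rcases mul_eq_zero.1 this with h | h
    · exact h
    · exact absurd h hss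
  have k0 := key P
  rw [hP, hPQ, hd1, hs1] at k0
  have k1 := key Q
  rw [hQ, Bf_comm Q P, hPQ, hd2, hs2] at k1
  have g0 : g 0 = 0 := by
    have : g 0 * (1 - a ^ 2) = 0 := by linear_combination k0 - a * k1
    rcases mul_eq_zero.1 this with h | h
    · exact h
    · nlinarith
  have g1 : g 1 = 0 := by
    have : g 1 * (1 - a ^ 2) = 0 := by linear_combination k1 - a * k0
    rcases mul_eq_zero.1 this with h | h
    · exact h
    · nlinarith
  apply hi
  fin_cases i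
  · exact g0
  · exact g1
  · exact g2
  · exact g3

/-! ### the flower fixes the edge length -/

theorem kappa_eq_rho {κ : ℝ} (h1 : 1 < κ) (h2 : κ < 2)
    (h6 : κ ^ 6 - 5 * κ ^ 4 + 6 * κ ^ 2 - 1 = 0) (h5 : κ ^ 5 - 4 * κ ^ 3 + 3 * κ = -1) :
    κ = rho := by
  have hm : κ ^ 3 + κ ^ 2 - 2 * κ - 1 = 0 := by
    by_contra hne
    have e1 : (κ ^ 3 + κ ^ 2 - 2 * κ - 1) * (κ ^ 2 - κ - 1) = 0 := by
      linear_combination h5
    have e2 : (κ ^ 3 + κ ^ 2 - 2 * κ - 1) * (κ ^ 3 - κ ^ 2 - 2 * κ + 1) = 0 := by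
      linear_combination h6
    have e3 : κ ^ 2 - κ - 1 = 0 := (mul_eq_zero.1 e1).resolve_left hne
    have e4 : κ ^ 3 - κ ^ 2 - 2 * κ + 1 = 0 := (mul_eq_zero.1 e2).resolve_left hne
    have e5 : κ = 1 := by linear_combination κ * e3 - e4
    linarith
  have hr := rho_cubic
  have hr1 := one_lt_rho
  have e : (κ - rho) * (κ ^ 2 + κ * rho + rho ^ 2 + κ + rho - 2) = 0 := by
    linear_combination hm - hr
  rcases mul_eq_zero.1 e with h | h
  · linarith
  · nlinarith

theorem kappa_of_period {P : E} {q : ZMod 7 → E} {a κ : ℝ} (ha : 1 < a) (hP : Bf P P = 1) (hq : ∀ i, Bf (q i) (q i) = 1)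
    (hPq : ∀ i, Bf P (q i) = a) (hqq : ∀ i, Bf (q i) (q (i + 1)) = a)
    (hrec : ∀ i, q i + q (i + 2) = κ • (P + q (i + 1))) :
    κ ^ 6 - 5 * κ ^ 4 + 6 * κ ^ 2 - 1 = 0 ∧ κ ^ 5 - 4 * κ ^ 3 + 3 * κ = -1 := by
  -- take products with `q 0 - a P` and `q 1 - a P`
  have hy : ∀ w : E, Bf w P = 0 →
      (κ ^ 6 - 5 * κ ^ 4 + 6 * κ ^ 2 - 1) * Bf w (q 1) =
        (κ ^ 5 - 4 * κ ^ 3 + 3 * κ + 1) * Bf w (q 0) := by
    intro w hw
    have hs : ∀ i, Bf w (q (i + 2)) = κ * Bf w (q (i + 1)) - Bf w (q i) := by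
      intro i
      have h := congrArg (Bf w) (hrec i)
      rw [Bf_add_right, Bf_smul_right, Bf_add_right, hw] at h
      linarith
    have s0 : Bf w (q 2) = κ * Bf w (q 1) - Bf w (q 0) := by simpa using hs 0
    have s1 : Bf w (q 3) = κ * Bf w (q 2) - Bf w (q 1) := by
      have := hs 1
      rwa [show (1 : ZMod 7) + 2 = 3 by decide, show (1 : ZMod 7) + 1 = 2 by decide] at this
    have s2 : Bf w (q 4) = κ * Bf w (q 3) - Bf w (q 2) := by
      have := hs 2
      rwa [show (2 : ZMod 7) + 2 = 4 by decide, show (2 : ZMod 7) + 1 = 3 by decide] at this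
    have s3 : Bf w (q 5) = κ * Bf w (q 4) - Bf w (q 3) := by
      have := hs 3
      rwa [show (3 : ZMod 7) + 2 = 5 by decide, show (3 : ZMod 7) + 1 = 4 by decide] at this
    have s4 : Bf w (q 6) = κ * Bf w (q 5) - Bf w (q 4) := by
      have := hs 4
      rwa [show (4 : ZMod 7) + 2 = 6 by decide, show (4 : ZMod 7) + 1 = 5 by decide] at this
    have s5 : Bf w (q 0) = κ * Bf w (q 6) - Bf w (q 5) := by
      have := hs 5
      rwa [show (5 : ZMod 7) + 2 = 0 by decide, show (5 : ZMod 7) + 1 = 6 by decide] at this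
    rw [s4, s3, s2, s1, s0] at s5
    linear_combination -s5
  have hPc : ∀ i, Bf (q i) P = a := fun i => by rw [Bf_comm]; exact hPq i
  have w0 : Bf (q 0 - a • P) P = 0 := by
    rw [Bf_sub_left, Bf_smul_left, hP, hPc]; ring
  have w1 : Bf (q 1 - a • P) P = 0 := by
    rw [Bf_sub_left, Bf_smul_left, hP, hPc]; ring
  have q01 : Bf (q 0) (q 1) = a := by simpa using hqq 0
  have e0 := hy _ w0
  have e1 := hy _ w1
  rw [Bf_sub_left, Bf_sub_left, Bf_smul_left, Bf_smul_left, hPq, hPq, hq 0, q01] at e0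
  rw [Bf_sub_left, Bf_sub_left, Bf_smul_left, Bf_smul_left, hPq, hPq, hq 1, Bf_comm (q 1) (q 0),
    q01] at e1
  set U := κ ^ 6 - 5 * κ ^ 4 + 6 * κ ^ 2 - 1 with hU
  set T := κ ^ 5 - 4 * κ ^ 3 + 3 * κ + 1 with hT
  -- e0 : U * (a - a * a) = T * (1 - a * a);  e1 : U * (1 - a * a) = T * (a - a * a)
  have h1 : (1 - a) * (U * a - T * (1 + a)) = 0 := by linear_combination e0
  have h2 : (1 - a) * (U * (1 + a) - T * a) = 0 := by linear_combination e1
  have hne : (1 - a) ≠ 0 := by linarith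
  have h3 := (mul_eq_zero.1 h1).resolve_left hne
  have h4 := (mul_eq_zero.1 h2).resolve_left hne
  have hU0 : U * (1 + 2 * a) = 0 := by linear_combination (1 + a) * h4 - a * h3
  have hU' : U = 0 := (mul_eq_zero.1 hU0).resolve_right (by linarith)
  have hT' : T = 0 := by
    rw [hU'] at h4
    have : T * a = 0 := by linarith
    exact (mul_eq_zero.1 this).resolve_right (by linarith)
  exact ⟨hU', by rw [hT] at hT'; linarith⟩

/-! ### flowers -/

/-- the cyclic order of the neighbours -/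
def Flower {V : Type*} (G : SimpleGraph V) (v : V) (u : ZMod 7 → V) : Prop :=
  Function.Injective u ∧ (∀ w, G.Adj v w ↔ ∃ i, u i = w) ∧ ∀ i, G.Adj (u i) (u (i + 1))

theorem Flower.shift {V : Type*} {G : SimpleGraph V} {v : V} {u : ZMod 7 → V}
    (h : Flower G v u) (j : ZMod 7) : Flower G v (fun i => u (i + j)) := by
  obtain ⟨h1, h2, h3⟩ := h
  refine ⟨fun x y hxy => add_right_cancel (h1 hxy), ?_, ?_⟩
  · intro w
    rw [h2]
    constructor
    · rintro ⟨i, rfl⟩
      exact ⟨i - j, by simp⟩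
    · rintro ⟨i, rfl⟩
      exact ⟨i + j, rfl⟩
  · intro i
    have := h3 (i + j)
    rwa [show i + j + 1 = i + 1 + j by ring] at this

theorem Flower.neg {V : Type*} {G : SimpleGraph V} {v : V} {u : ZMod 7 → V}
    (h : Flower G v u) : Flower G v (fun i => u (-i)) := by
  obtain ⟨h1, h2, h3⟩ := h
  refine ⟨fun x y hxy => neg_injective (h1 hxy), ?_, ?_⟩
  · intro w
    rw [h2]
    constructor
    · rintro ⟨i, rfl⟩
      exact ⟨-i, by simp⟩
    · rintro ⟨i, rfl⟩
      exact ⟨-i, rfl⟩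
  · intro i
    have := (h3 (-(i + 1))).symm
    rwa [show -(i + 1) + 1 = -i by ring] at this

/-- positions on the hyperboloid: the data extracted from a packing -/
structure Posn {V : Type*} (G : SimpleGraph V) (p : V → E) (a : ℝ) : Prop where
  inj : Function.Injective p
  fut : ∀ v, 0 < Zf (p v)
  unit : ∀ v, Bf (p v) (p v) = 1
  edge : ∀ v w, G.Adj v w → Bf (p v) (p w) = a

theorem Posn.recur {V : Type*} {G : SimpleGraph V} {p : V → E} {a κ : ℝ} (hp : Posn G p a)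
    (ha : 1 < a) (hκ : κ * (1 + a) = 2 * a) {v : V} {u : ZMod 7 → V} (h : Flower G v u)
    (i : ZMod 7) : p (u i) + p (u (i + 2)) = κ • (p v + p (u (i + 1))) := by
  obtain ⟨h1, h2, h3⟩ := h
  have hadj : ∀ i, G.Adj v (u i) := fun i => (h2 _).2 ⟨i, rfl⟩
  rcases two_sol (P := p v) (Q := p (u (i + 1))) (x := p (u i)) (y := p (u (i + 2))) ha hκ
    (hp.unit _) (hp.unit _) (hp.edge _ _ (hadj _)) (hp.unit _) (hp.unit _) (hp.edge _ _ (hadj _))
    (hp.edge _ _ (h3 i).symm) (hp.edge _ _ (hadj _)) (by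
      have := hp.edge _ _ (h3 (i + 1))
      rwa [show i + 1 + 1 = i + 2 by ring] at this) with h | h
  · exfalso
    have := h1 (hp.inj h)
    have h0 : (2 : ZMod 7) = 0 := by
      have e : i + 2 = i + 0 := by rw [← this, add_zero]
      exact add_left_cancel e
    revert h0
    decide
  · exact h

theorem Posn.eq_cc {V : Type*} {G : SimpleGraph V} {p : V → E} {a : ℝ} (hp : Posn G p a)
    (ha : 1 < a) {v : V} {u : ZMod 7 → V} (h : Flower G v u) : a = cc := by
  obtain ⟨κ, hκ⟩ : ∃ κ, κ = 2 * a / (1 + a) := ⟨_, rfl⟩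
  have hpos : 0 < 1 + a := by linarith
  have hκ' : κ * (1 + a) = 2 * a := by
    rw [hκ]; field_simp
  have k1 : 1 < κ := by
    rw [hκ, lt_div_iff₀ hpos]; linarith
  have k2 : κ < 2 := by
    rw [hκ, div_lt_iff₀ hpos]; linarith
  have hadj : ∀ i, G.Adj v (u i) := fun i => (h.2.1 _).2 ⟨i, rfl⟩
  obtain ⟨e6, e5⟩ := kappa_of_period (P := p v) (q := fun i => p (u i)) ha (hp.unit _)
    (fun i => hp.unit _) (fun i => hp.edge _ _ (hadj i)) (fun i => hp.edge _ _ (h.2.2 i))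
    (fun i => hp.recur ha hκ' h i)
  have hr := kappa_eq_rho k1 k2 e6 e5
  rw [hr] at hκ'
  have h1 := rho_cc
  have h2 := two_sub_rho_pos
  have : (2 - rho) * (a - cc) = 0 := by linear_combination h1 - hκ'
  rcases mul_eq_zero.1 this with h | h
  · linarith
  · linarith

theorem Bf_mat {P q0 q1 : E} (hP : Bf P P = 1) (h0 : Bf q0 q0 = 1) (h1 : Bf q1 q1 = 1)
    (hP0 : Bf P q0 = cc) (hP1 : Bf P q1 = cc) (h01 : Bf q0 q1 = cc) (u v : E) :
    Bf ((mat P q0 q1).mulVec u) ((mat P q0 q1).mulVec v) = Bf u v := by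
  rw [mat_mulVec, mat_mulVec]
  simp only [Bf_add_left, Bf_add_right, Bf_smul_left, Bf_smul_right]
  rw [Bf_comm q0 P, Bf_comm q1 P, Bf_comm q1 q0, hP, h0, h1, hP0, hP1, h01, Bf_explicit]
  ring

theorem Rm_p0 : Rm.mulVec p0 = p0 := by
  rw [Rm_mulVec]
  funext i
  fin_cases i <;> simp [p0]

theorem Rm_pow_p0 (n : ℕ) : (Rm ^ n).mulVec p0 = p0 := by
  induction n with
  | zero => rw [pow_zero, Matrix.one_mulVec]
  | succ n ih => rw [pow_succ, ← Matrix.mulVec_mulVec, Rm_p0, ih]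

theorem Hm_p0 : Hm.mulVec p0 = ![0, 1, 0] := by
  rw [Hm_mulVec]
  funext i
  fin_cases i <;> simp [p0]

theorem Hm_p1 : Hm.mulVec ![0, 1, 0] = p0 := by
  rw [Hm_mulVec]
  funext i
  fin_cases i <;> simp [p0]

theorem Rm_p1 : Rm.mulVec ![0, 1, 0] = ![0, 0, 1] := by
  rw [Rm_mulVec]
  funext i
  fin_cases i <;> simp

theorem Rm_rec (n : ℕ) : (Rm ^ n).mulVec ![0, 1, 0] + (Rm ^ (n + 2)).mulVec ![0, 1, 0] =
    rho • (p0 + (Rm ^ (n + 1)).mulVec ![0, 1, 0]) := by
  have e1 : (Rm ^ (n + 1)).mulVec ![0, 1, 0] = (Rm ^ n).mulVec ![0, 0, 1] := by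
    rw [pow_succ, ← Matrix.mulVec_mulVec, Rm_p1]
  have e2 : (Rm ^ (n + 2)).mulVec ![0, 1, 0] = (Rm ^ n).mulVec (Rm.mulVec ![0, 0, 1]) := by
    rw [show n + 2 = n + 1 + 1 from rfl, pow_succ, ← Matrix.mulVec_mulVec, Rm_p1, pow_succ,
      ← Matrix.mulVec_mulVec]
  rw [e1, e2, ← Matrix.mulVec_add, ← Rm_pow_p0 n, ← Matrix.mulVec_add, ← Matrix.mulVec_smul]
  congr 1
  rw [Rm_mulVec]
  funext i
  fin_cases i <;> simp [p0]

theorem Posn.pos_mat {V : Type*} {G : SimpleGraph V} {p : V → E} (hp : Posn G p cc)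
    {v : V} {u : ZMod 7 → V} (h : Flower G v u) (n : ℕ) :
    (mat (p v) (p (u 0)) (p (u 1))).mulVec ((Rm ^ n).mulVec ![0, 1, 0]) = p (u (n : ZMod 7)) ∧
    (mat (p v) (p (u 0)) (p (u 1))).mulVec ((Rm ^ (n + 1)).mulVec ![0, 1, 0]) =
      p (u ((n : ZMod 7) + 1)) := by
  have hcc : (1 : ℝ) < cc := by linarith [cc_gt]
  induction n with
  | zero =>
    constructor
    · rw [pow_zero, Matrix.one_mulVec, mat_mulVec]
      simp
    · rw [zero_add, pow_one, Rm_p1, mat_mulVec]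
      simp
  | succ n ih =>
    obtain ⟨ih1, ih2⟩ := ih
    constructor
    · rw [ih2]
      push_cast
      rfl
    · have h1 := congrArg (mat (p v) (p (u 0)) (p (u 1))).mulVec (Rm_rec n)
      rw [Matrix.mulVec_add, Matrix.mulVec_smul, Matrix.mulVec_add, ih1, ih2] at h1
      have h2 : (mat (p v) (p (u 0)) (p (u 1))).mulVec p0 = p v := by
        rw [mat_mulVec]; simp [p0]
      rw [h2, ← hp.recur hcc rho_cc h (n : ZMod 7)] at h1
      have h3 := add_left_cancel h1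
      rw [show n + 1 + 1 = n + 2 from rfl, h3]
      congr 2
      push_cast
      ring

theorem Posn.frame {V : Type*} {G : SimpleGraph V} {p : V → E} (hp : Posn G p cc)
    {v : V} {u : ZMod 7 → V} (h : Flower G v u) :
    Fr G p v (mat (p v) (p (u 0)) (p (u 1))) := by
  have hadj : ∀ i, G.Adj v (u i) := fun i => (h.2.1 _).2 ⟨i, rfl⟩
  have h2 : (mat (p v) (p (u 0)) (p (u 1))).mulVec p0 = p v := by
    rw [mat_mulVec]; simp [p0]
  have h01 : Bf (p (u 0)) (p (u 1)) = cc := by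
    have := hp.edge _ _ (h.2.2 0)
    rwa [zero_add] at this
  have hpos : ∀ k : Fin 7, pos (mat (p v) (p (u 0)) (p (u 1)) * Am k) = p (u ((k : ℕ) : ZMod 7)) := by
    intro k
    rw [pos_mul]
    unfold Am
    rw [pos_mul]
    unfold pos
    rw [Hm_p0]
    exact (hp.pos_mat h _).1
  refine ⟨⟨?_, ?_⟩, h2, ?_, ?_⟩
  · exact Bf_mat (hp.unit _) (hp.unit _) (hp.unit _) (hp.edge _ _ (hadj _))
      (hp.edge _ _ (hadj _)) h01
  · unfold NN pos
    rw [h2]
    exact hp.fut v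
  · intro k
    exact ⟨u ((k : ℕ) : ZMod 7), hadj _, (hpos k).symm⟩
  · intro w hw
    obtain ⟨i, rfl⟩ := (h.2.1 w).1 hw
    refine ⟨⟨i.val, ZMod.val_lt i⟩, ?_⟩
    rw [hpos]
    simp

theorem Posn.frame_step {V : Type*} {G : SimpleGraph V} {p : V → E} (hp : Posn G p cc)
    {v w : V} {g : M3} (hg : IsLor g) (hgv : pos g = p v) (hvw : G.Adj v w) (k : Fin 7)
    (hw : p w = pos (g * Am k)) {u : ZMod 7 → V} (h : Flower G w u) :
    Fr G p w (g * Am k) := by
  have hcc : (1 : ℝ) < cc := by linarith [cc_gt]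
  obtain ⟨j, hj⟩ := (h.2.1 v).1 hvw.symm
  have h' := h.shift j
  set u' : ZMod 7 → V := fun i => u (i + j) with hu'
  have hu0 : u' 0 = v := by
    show u (0 + j) = v
    rw [zero_add]; exact hj
  have hg1 : IsLor (g * Am k) := hg.mul (isLor_Am k)
  have c0 : (g * Am k).mulVec p0 = p w := hw.symm
  have c1 : (g * Am k).mulVec ![0, 1, 0] = p v := by
    unfold Am
    rw [← Matrix.mulVec_mulVec, ← Matrix.mulVec_mulVec, Hm_p1, Rm_pow_p0]
    exact hgv
  set x := (g * Am k).mulVec ![0, 0, 1] with hx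
  have hxx : Bf x x = 1 := by
    rw [hx, hg1.form, Bf_explicit]; simp
  have hwx : Bf (p w) x = cc := by
    rw [hx, ← c0, hg1.form, Bf_p0_left]; simp [Zf]
  have hvx : Bf (p v) x = cc := by
    rw [hx, ← c1, hg1.form, Bf_explicit]; simp
  have hadj : ∀ i, G.Adj w (u' i) := fun i => (h'.2.1 _).2 ⟨i, rfl⟩
  have hv1 : Bf (p v) (p (u' 1)) = cc := by
    have := hp.edge _ _ (h'.2.2 0)
    rwa [zero_add, hu0] at this
  rcases two_sol (P := p w) (Q := p v) (x := x) (y := p (u' 1)) hcc rho_cc (hp.unit _)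
    (hp.unit _) (hp.edge _ _ hvw.symm) hxx (hp.unit _) hwx hvx (hp.edge _ _ (hadj _)) hv1
    with hc | hc
  · have e : g * Am k = mat (p w) (p (u' 0)) (p (u' 1)) := by
      rw [eq_mat (g * Am k), c0, c1, ← hx, hc, hu0]
    rw [e]
    exact hp.frame h'
  · have hr := hp.recur hcc rho_cc h' (-1)
    have hr' : p (u' (-1)) + p (u' 1) = rho • (p w + p v) := by
      rw [show (-1 : ZMod 7) + 2 = 1 by decide, show (-1 : ZMod 7) + 1 = 0 by decide, hu0] at hr
      exact hr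
    have hxe : x = p (u' (-1)) := by
      rw [← hr'] at hc
      exact add_right_cancel hc
    have e : g * Am k = mat (p w) (p ((fun i => u' (-i)) 0)) (p ((fun i => u' (-i)) 1)) := by
      rw [eq_mat (g * Am k), c0, c1, ← hx, hxe]
      simp only [neg_zero, hu0]
    rw [e]
    exact hp.frame h'.neg

end Frm

/-! ### from the packing to positions -/

open Frm

theorem frames {V : Type*} {G : SimpleGraph V} {c : V → ℂ} {r : V → ℝ} (hP : IsPacking7 G c r) :
    ∃ (C0 : ℝ) (p : V → E), 1 < C0 ∧ Function.Injective p ∧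
      (∀ v, 0 < Zf (p v) ∧ Bf (p v) (p v) = 1 ∧ c v = Wf (p v) / ((Zf (p v) + C0 : ℝ) : ℂ)) ∧
      (∀ v, ∃ g, Fr G p v g) ∧
      (∀ v g w k, Fr G p v g → G.Adj v w → p w = pos (g * Am k) → Fr G p w (g * Am k)) := by
  obtain ⟨K, hK⟩ := hP.hyp
  obtain ⟨v0⟩ := hP.conn.nonempty
  have hK1 : 1 < K := by
    have h1 := hK v0
    have h2 := hP.disc v0
    have h3 := hP.rpos v0
    have h4 := norm_nonneg (c v0)
    have h5 : ‖c v0‖ ^ 2 < (1 - r v0) ^ 2 := by
      apply pow_lt_pow_left₀ _ h4 two_ne_zero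
      linarith
    have h6 : 0 < (K - 1) * r v0 := by nlinarith
    have h7 := (mul_pos_iff_of_pos_right h3).1 h6
    linarith
  have hK2 : 0 < K ^ 2 - 1 := by nlinarith
  obtain ⟨S, hSdef⟩ : ∃ S, S = 1 / Real.sqrt (K ^ 2 - 1) := ⟨_, rfl⟩
  have hsq := Real.sqrt_pos.2 hK2
  have hS : 0 < S := by rw [hSdef]; positivity
  have hS2 : S ^ 2 * (K ^ 2 - 1) = 1 := by
    rw [hSdef, div_pow, Real.sq_sqrt hK2.le]
    field_simp
  obtain ⟨C0, hC0⟩ : ∃ C0, C0 = K * S := ⟨_, rfl⟩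
  have hCS : C0 ^ 2 - S ^ 2 = 1 := by rw [hC0]; linarith [hS2]
  have hC0pos : 0 < C0 := by rw [hC0]; positivity
  have hC01 : 1 < C0 := by nlinarith
  obtain ⟨D, hD⟩ : ∃ D : V → ℝ, ∀ v, D v = S / r v := ⟨_, fun _ => rfl⟩
  have hDr : ∀ v, D v * r v = S := fun v => by
    rw [hD]; exact div_mul_cancel₀ _ (hP.rpos v).ne'
  have hDpos : ∀ v, 0 < D v := fun v => by
    rw [hD]; exact div_pos hS (hP.rpos v)
  obtain ⟨p, hp⟩ : ∃ p : V → E, ∀ v, p v = vec ((D v : ℂ) * c v) (D v - C0) := ⟨_, fun _ => rfl⟩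
  have hZ : ∀ v, Zf (p v) = D v - C0 := fun v => by rw [hp, Zf_vec]
  have hW : ∀ v, Wf (p v) = (D v : ℂ) * c v := fun v => by rw [hp, Wf_vec]
  have hcc : ∀ v, D v ^ 2 * ‖c v‖ ^ 2 = D v ^ 2 - 2 * C0 * D v + S ^ 2 := by
    intro v
    have h1 := hK v
    have h2 := hDr v
    have h3 : ‖c v‖ ^ 2 = 1 + r v ^ 2 - 2 * K * r v := by linarith
    rw [h3, hC0]
    linear_combination (D v * r v + S - 2 * K * D v) * h2
  have hunit : ∀ v, Bf (p v) (p v) = 1 := by
    intro v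
    rw [Bf_self, hZ, hW, norm_mul, mul_pow, Complex.norm_real, Real.norm_eq_abs, sq_abs, hcc]
    linear_combination hCS
  have hfut : ∀ v, 0 < Zf (p v) := by
    intro v
    rw [hZ]
    by_contra hneg
    push Not at hneg
    have h1 := hunit v
    rw [Bf_self, hZ] at h1
    have h2 : 1 ≤ (D v - C0) ^ 2 := by nlinarith [sq_nonneg ‖Wf (p v)‖]
    have h3 : D v - C0 ≤ -1 := by nlinarith
    have h4 : r v < 1 := by
      have := hP.disc v
      linarith [norm_nonneg (c v)]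
    have h5 : S < D v := by
      have := hDr v
      have := hDpos v
      nlinarith
    nlinarith
  have hc : ∀ v, c v = Wf (p v) / ((Zf (p v) + C0 : ℝ) : ℂ) := by
    intro v
    rw [hW, hZ, show D v - C0 + C0 = D v by ring]
    have : (D v : ℂ) ≠ 0 := by exact_mod_cast (hDpos v).ne'
    field_simp
  have hinj : Function.Injective p := by
    intro v w hvw
    by_contra hne
    have h1 : c v = c w := by rw [hc v, hc w, hvw]
    have h2 := hP.univalent v w hne
    rw [h1, sub_self, norm_zero] at h2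
    linarith [hP.rpos v, hP.rpos w]
  have hedge : ∀ v w, G.Adj v w → Bf (p v) (p w) = C0 ^ 2 + S ^ 2 := by
    intro v w hvw
    have h1 := hP.tangent v w hvw
    have h2 : ‖c v - c w‖ ^ 2 = ‖c v‖ ^ 2 + ‖c w‖ ^ 2 - 2 * (c v * conj (c w)).re := by
      rw [← Complex.normSq_eq_norm_sq, ← Complex.normSq_eq_norm_sq, ← Complex.normSq_eq_norm_sq,
        Complex.normSq_sub]
    rw [h1] at h2
    have h3 : (Wf (p v) * conj (Wf (p w))).re = D v * D w * (c v * conj (c w)).re := by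
      rw [hW, hW, map_mul, Complex.conj_ofReal]
      rw [show (D v : ℂ) * c v * ((D w : ℂ) * conj (c w)) =
        ((D v * D w : ℝ) : ℂ) * (c v * conj (c w)) by push_cast; ring, Complex.re_ofReal_mul]
    unfold Bf
    rw [h3, hZ, hZ]
    have e1 := hK v
    have e2 := hK w
    have d1 := hDr v
    have d2 := hDr w
    have h4 : (c v * conj (c w)).re = 1 - K * (r v + r w) - r v * r w := by
      nlinarith
    rw [h4, hC0]
    linear_combination (K * D w + D w * r w) * d1 + (K * D v + S) * d2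
  have hposn : Posn G p (C0 ^ 2 + S ^ 2) := ⟨hinj, hfut, hunit, hedge⟩
  have ha : 1 < C0 ^ 2 + S ^ 2 := by nlinarith
  obtain ⟨u0, hu0⟩ := hP.flower v0
  have hacc : C0 ^ 2 + S ^ 2 = cc := hposn.eq_cc ha (v := v0) (u := u0) hu0
  rw [hacc] at hposn
  refine ⟨C0, p, hC01, hinj, fun v => ⟨hfut v, hunit v, hc v⟩, ?_, ?_⟩
  · intro v
    obtain ⟨u, hu⟩ := hP.flower v
    exact ⟨_, hposn.frame (u := u) hu⟩
  · intro v g w k hfr hadj hpw
    obtain ⟨u, hu⟩ := hP.flower w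
    exact hposn.frame_step hfr.lor hfr.pos_eq hadj k hpw (u := u) hu

end Pool.Agent.K7
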