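import Pool.Agent.Work.MP_7596a5_pr.Basic

/-!
# The contraction inequality
-/

namespace Pool.Agent.K7

open MeasureTheory
open scoped ComplexConjugate

namespace KI

/-- the pointwise inequality -/
theorem pointwise {q : ℝ} (hq : 0.335 ≤ q) :
    q ^ (2 / 3 : ℝ) ≤ 1 / 3 + 2 / 3 * q - 1 / 20 * (q - 2 + 1 / q) := by
  have hq0 : 0 < q := by linarith
  set t : ℝ := q ^ (1 / 3 : ℝ) with ht
  have ht0 : 0 < t := Real.rpow_pos_of_pos hq0 _
  have ht3 : t ^ 3 = q := by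
    rw [ht, ← Real.rpow_natCast, ← Real.rpow_mul hq0.le]
    norm_num
  have ht2 : q ^ (2 / 3 : ℝ) = t ^ 2 := by
    rw [ht, ← Real.rpow_natCast, ← Real.rpow_mul hq0.le]
    norm_num
  have ht69 : 0.69 ≤ t := by
    by_contra h
    push Not at h
    have : t ^ 3 < 0.69 ^ 3 := pow_lt_pow_left₀ h ht0.le (by norm_num)
    rw [ht3] at this
    norm_num at this hq
    linarith
  rw [ht2, ← ht3]
  have h1 : 1 / 3 + 2 / 3 * t ^ 3 - 1 / 20 * (t ^ 3 - 2 + 1 / t ^ 3) - t ^ 2 =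
      (t - 1) ^ 2 * (20 * t ^ 3 * (2 * t + 1) - 3 * (t ^ 2 + t + 1) ^ 2) / (60 * t ^ 3) := by
    field_simp
    ring
  have h2 : 0 ≤ 20 * t ^ 3 * (2 * t + 1) - 3 * (t ^ 2 + t + 1) ^ 2 := by
    obtain ⟨v, hv⟩ : ∃ v, t = 0.69 + v := ⟨t - 0.69, by ring⟩
    have hv0 : 0 ≤ v := by linarith
    rw [hv]
    have : 20 * (0.69 + v) ^ 3 * (2 * (0.69 + v) + 1) - 3 * ((0.69 + v) ^ 2 + (0.69 + v) + 1) ^ 2 =
      37 * v ^ 4 + 116.12 * v ^ 3 + 125.6742 * v ^ 2 + 50.195532 * v + 1.56106077 := by ring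
    rw [this]
    positivity
  have h3 : 0 ≤ 1 / 3 + 2 / 3 * t ^ 3 - 1 / 20 * (t ^ 3 - 2 + 1 / t ^ 3) - t ^ 2 := by
    rw [h1]
    positivity
  linarith

theorem isPrim_om : IsPrimitiveRoot om 7 := by
  have : Fact (Nat.Prime 7) := ⟨by norm_num⟩
  have := orderOf_eq_prime (p := 7) om_pow_seven om_ne_one
  rw [← this]
  exact IsPrimitiveRoot.orderOf om

theorem sum_om (m : ℕ) (hm : m ∈ Finset.range 7) :
    ∑ k ∈ Finset.range 7, (om ^ k) ^ m = if m = 0 then 7 else 0 := by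
  split_ifs with h
  · subst h; simp
  · have hne : om ^ m ≠ 1 :=
      isPrim_om.pow_ne_one_of_pos_of_lt h (Finset.mem_range.mp hm)
    have h1 : ∑ k ∈ Finset.range 7, (om ^ k) ^ m = ∑ k ∈ Finset.range 7, (om ^ m) ^ k := by
      apply Finset.sum_congr rfl
      intro k _
      rw [← pow_mul, ← pow_mul, mul_comm]
    rw [h1, geom_sum_eq hne, ← pow_mul, mul_comm, pow_mul, om_pow_seven, one_pow, sub_self,
      zero_div]

theorem sum_inv (u : ℂ) (hu : ‖u‖ < 1) :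
    ∑ k : Fin 7, 1 / (1 - u * om ^ (k : ℕ)) = 7 / (1 - u ^ 7) := by
  have hu7 : 1 - u ^ 7 ≠ 0 := by
    intro h
    have : ‖u ^ 7‖ = 1 := by
      rw [← sub_eq_zero.mp h, norm_one]
    rw [norm_pow] at this
    have h2 : ‖u‖ ^ 7 < 1 := pow_lt_one₀ (norm_nonneg _) hu (by norm_num)
    linarith
  have h1 : ∀ k : ℕ, 1 / (1 - u * om ^ k) = (∑ m ∈ Finset.range 7, (u * om ^ k) ^ m) / (1 - u ^ 7) := by
    intro k
    have hne : u * om ^ k ≠ 1 := by
      intro h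
      have : ‖u * om ^ k‖ = 1 := by rw [h, norm_one]
      rw [norm_mul, norm_pow, norm_om, one_pow, mul_one] at this
      linarith
    have h7 : (u * om ^ k) ^ 7 = u ^ 7 := by
      rw [mul_pow, ← pow_mul, mul_comm k 7, pow_mul, om_pow_seven, one_pow, mul_one]
    have hne' : 1 - u * om ^ k ≠ 0 := fun h => hne (sub_eq_zero.mp h).symm
    rw [div_eq_div_iff hne' hu7]
    have := mul_neg_geom_sum (u * om ^ k) 7
    rw [h7] at this
    rw [one_mul, ← this, mul_comm]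
  rw [Finset.sum_congr rfl (fun (k : Fin 7) _ => h1 (k : ℕ)), ← Finset.sum_div]
  congr 1
  rw [Fin.sum_univ_eq_sum_range (fun k => ∑ m ∈ Finset.range 7, (u * om ^ k) ^ m) 7,
    Finset.sum_comm]
  have h2 : ∀ m ∈ Finset.range 7, ∑ k ∈ Finset.range 7, (u * om ^ k) ^ m =
      u ^ m * (if m = 0 then 7 else 0) := by
    intro m hm
    rw [← sum_om m hm, Finset.mul_sum]
    apply Finset.sum_congr rfl
    intro k _
    rw [mul_pow]
  rw [Finset.sum_congr rfl h2]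
  simp

theorem re_cayley (v : ℂ) (hv : ‖v‖ < 1) :
    (2 * (1 / (1 - v)) - 1).re = (1 - ‖v‖ ^ 2) / ‖1 - v‖ ^ 2 := by
  have hne : 1 - v ≠ 0 := by
    intro h
    rw [← sub_eq_zero.mp h, norm_one] at hv
    exact lt_irrefl _ hv
  have hn : ‖1 - v‖ ^ 2 ≠ 0 := by
    have := norm_pos_iff.mpr hne
    positivity
  have h1 : (2 * (1 / (1 - v)) - 1) = (1 + v) * conj (1 - v) / ((‖1 - v‖ ^ 2 : ℝ) : ℂ) := by
    rw [← Complex.normSq_eq_norm_sq, ← Complex.mul_conj]
    have : conj (1 - v) ≠ 0 := by rwa [map_ne_zero]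
    field_simp
    ring
  rw [h1, Complex.div_ofReal_re]
  congr 1
  rw [← Complex.normSq_eq_norm_sq, Complex.normSq_apply]
  simp
  ring

theorem re_le (v : ℂ) (hv : ‖v‖ < 1) :
    (2 * (1 / (1 - v)) - 1).re ≤ (1 + ‖v‖) / (1 - ‖v‖) := by
  have hne : 1 - v ≠ 0 := by
    intro h
    rw [← sub_eq_zero.mp h, norm_one] at hv
    exact lt_irrefl _ hv
  have h1 : (2 * (1 / (1 - v)) - 1) = (1 + v) / (1 - v) := by
    field_simp
    ring
  rw [h1]
  refine (Complex.re_le_norm _).trans ?_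
  rw [norm_div]
  have h2 : ‖1 + v‖ ≤ 1 + ‖v‖ := by
    have := norm_add_le 1 v
    rwa [norm_one] at this
  have h3 : 1 - ‖v‖ ≤ ‖1 - v‖ := by
    have := norm_sub_norm_le 1 v
    rwa [norm_one] at this
  apply div_le_div₀ (by positivity) h2 (by linarith) h3

end KI

theorem k_ineq {ζ : ℂ} (hζ : ‖ζ‖ = 1) :
    (1 / 7) * ∑ k : Fin 7, (1 / Bf (pos (Am k)) (nn ζ)) ^ (2 / 3 : ℝ) ≤ 98 / 100 := by
  have hc1 := cc_gt
  have hc2 := cc_lt
  have hsh := sh_pos
  have hsq := sh_sq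
  set s : ℝ := (cc - 1) / sh with hs
  have hs0 : 0 < s := by
    rw [hs]; apply div_pos (by linarith) hsh
  have hs2 : s ^ 2 * (cc + 1) = cc - 1 := by
    rw [hs, div_pow, hsq]
    have : cc ^ 2 - 1 ≠ 0 := by nlinarith
    field_simp
    ring
  have hssh : s * sh = cc - 1 := by
    rw [hs]; field_simp
  have hs2' : s ^ 2 < 0.2473 := by
    by_contra h
    push Not at h
    nlinarith
  have hs1 : s < 0.4973 := by
    by_contra h
    push Not at h
    nlinarith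
  set u : ℂ := (s : ℂ) * conj ζ with hu
  have hun : ‖u‖ = s := by
    rw [hu, norm_mul, Complex.norm_conj, hζ, mul_one, Complex.norm_real, Real.norm_of_nonneg hs0.le]
  have hu1 : ‖u‖ < 1 := by rw [hun]; linarith
  set D : Fin 7 → ℝ := fun k => Bf (pos (Am k)) (nn ζ) with hD
  have hDe : ∀ k, D k = cc - sh * (om ^ (k : ℕ) * conj ζ).re := fun k => Bf_Am_nn k ζ
  have hre : ∀ k : Fin 7, |(om ^ (k : ℕ) * conj ζ).re| ≤ 1 := by
    intro k
    refine (Complex.abs_re_le_norm _).trans ?_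
    rw [norm_mul, norm_pow, norm_om, one_pow, one_mul, Complex.norm_conj, hζ]
  have hsh2 : sh < 1.3213 := by
    by_contra h
    push Not at h
    nlinarith
  have hDpos : ∀ k, 0 < D k := by
    intro k
    rw [hDe]
    have h1 := (abs_le.mp (hre k)).2
    have h2 : sh < cc := by
      by_contra h
      push Not at h
      nlinarith
    nlinarith
  have hDle : ∀ k, D k ≤ 2.98 := by
    intro k
    rw [hDe]
    have h1 := (abs_le.mp (hre k)).1
    nlinarith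
  -- each reciprocal as a real part
  have hq : ∀ k : Fin 7, 1 / D k = (2 * (1 / (1 - u * om ^ (k : ℕ))) - 1).re := by
    intro k
    have hn : ‖u * om ^ (k : ℕ)‖ = s := by
      rw [norm_mul, norm_pow, norm_om, one_pow, mul_one, hun]
    rw [KI.re_cayley _ (by rw [hn]; linarith), hn]
    have h1 : ‖1 - u * om ^ (k : ℕ)‖ ^ 2 = 1 - 2 * s * (om ^ (k : ℕ) * conj ζ).re + s ^ 2 := by
      rw [← Complex.normSq_eq_norm_sq, Complex.normSq_sub, Complex.normSq_eq_norm_sq,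
        Complex.normSq_eq_norm_sq, hn, norm_one]
      have : (1 * conj (u * om ^ (k : ℕ))).re = s * (om ^ (k : ℕ) * conj ζ).re := by
        rw [one_mul, Complex.conj_re, hu, mul_assoc, Complex.re_ofReal_mul, mul_comm (conj ζ)]
      rw [this]
      ring
    have h2 : (1 - 2 * s * (om ^ (k : ℕ) * conj ζ).re + s ^ 2) * (cc + 1) = 2 * D k := by
      rw [hDe]
      have h3 : s * (cc + 1) = sh := by
        have : sh * (s * (cc + 1)) = sh * sh := by
          calc sh * (s * (cc + 1)) = (s * sh) * (cc + 1) := by ring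
            _ = (cc - 1) * (cc + 1) := by rw [hssh]
            _ = sh * sh := by rw [← sq sh, hsq]; ring
        exact mul_left_cancel₀ hsh.ne' this
      linear_combination hs2 - 2 * (om ^ (k : ℕ) * conj ζ).re * h3
    have h4 : (1 - s ^ 2) * (cc + 1) = 2 := by linear_combination -hs2
    have h5 : ‖1 - u * om ^ (k : ℕ)‖ ^ 2 = 2 * D k / (cc + 1) := by
      rw [h1]
      rw [eq_div_iff (by linarith)]
      exact h2
    have h6 : 1 - s ^ 2 = 2 / (cc + 1) := by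
      rw [eq_div_iff (by linarith)]
      exact h4
    rw [h5, h6]
    have := (hDpos k).ne'
    have : cc + 1 ≠ 0 := by linarith
    field_simp
  have hsumq : ∑ k, 1 / D k = 7 * (2 * (1 / (1 - u ^ 7)) - 1).re := by
    rw [Finset.sum_congr rfl (fun k _ => hq k), ← Complex.re_sum, Finset.sum_sub_distrib,
      ← Finset.mul_sum, KI.sum_inv u hu1]
    have : (2 * (7 / (1 - u ^ 7)) - ∑ _k : Fin 7, (1 : ℂ)) =
        ((7 : ℝ) : ℂ) * (2 * (1 / (1 - u ^ 7)) - 1) := by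
      simp
      ring
    rw [this, Complex.re_ofReal_mul]
  have hs7 : s ^ 7 ≤ 0.0079 := by
    have h1 : s ^ 7 = (s ^ 2) ^ 3 * s := by ring
    rw [h1]
    have h2 : (s ^ 2) ^ 3 ≤ 0.2473 ^ 3 := pow_le_pow_left₀ (by positivity) hs2'.le 3
    calc (s ^ 2) ^ 3 * s ≤ 0.2473 ^ 3 * 0.4973 := mul_le_mul h2 hs1.le hs0.le (by norm_num)
      _ ≤ 0.0079 := by norm_num
  have hsumq' : ∑ k, 1 / D k ≤ 7 * 1.016 := by
    rw [hsumq]
    have h1 := KI.re_le (u ^ 7) (by rw [norm_pow, hun]; linarith)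
    rw [norm_pow, hun] at h1
    have h2 : (1 + s ^ 7) / (1 - s ^ 7) ≤ 1.016 := by
      rw [div_le_iff₀ (by linarith)]
      linarith
    linarith
  have hsumD : ∑ k, D k = 7 * cc := by
    have h1 : ∑ k : Fin 7, (om ^ (k : ℕ) * conj ζ).re = 0 := by
      rw [← Complex.re_sum, ← Finset.sum_mul, Fin.sum_univ_eq_sum_range (fun k => om ^ k) 7]
      have := KI.sum_om 1 (by simp)
      simp only [pow_one] at this
      rw [this]
      simp
    rw [Finset.sum_congr rfl (fun k _ => hDe k), Finset.sum_sub_distrib, ← Finset.mul_sum, h1]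
    simp
  have hpt : ∀ k, (1 / D k) ^ (2 / 3 : ℝ) ≤
      1 / 3 + 2 / 3 * (1 / D k) - 1 / 20 * (1 / D k - 2 + D k) := by
    intro k
    have h1 : 0.335 ≤ 1 / D k := by
      rw [le_div_iff₀ (hDpos k)]
      have := hDle k
      linarith
    have h2 := KI.pointwise h1
    rwa [one_div_one_div] at h2
  have hsum : ∑ k, (1 / D k) ^ (2 / 3 : ℝ) ≤
      ∑ k, (1 / 3 + 2 / 3 * (1 / D k) - 1 / 20 * (1 / D k - 2 + D k)) :=
    Finset.sum_le_sum (fun k _ => hpt k)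
  have hsum2 : ∑ k, (1 / 3 + 2 / 3 * (1 / D k) - 1 / 20 * (1 / D k - 2 + D k)) =
      7 * (1 / 3 + 1 / 10) + (2 / 3 - 1 / 20) * ∑ k, 1 / D k - 1 / 20 * ∑ k, D k := by
    rw [Fin.sum_univ_seven, Fin.sum_univ_seven, Fin.sum_univ_seven]
    ring
  rw [hsum2, hsumD] at hsum
  change (1 / 7) * ∑ k : Fin 7, (1 / D k) ^ (2 / 3 : ℝ) ≤ 98 / 100
  norm_num at hsumq' hc1 hsum ⊢
  linarith

theorem k_ineq_g {g : M3} (hg : IsLor g) {ζ : ℂ} (hζ : ‖ζ‖ = 1) :
    (1 / 7) * ∑ k : Fin 7, (yy ζ (pos (g * Am k))) ^ (2 / 3 : ℝ)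
      ≤ 98 / 100 * (yy ζ (pos g)) ^ (2 / 3 : ℝ) := by
  obtain ⟨ξ, hξ, rfl⟩ := hg.exists_act hζ
  have hl := hg.lam_pos hξ
  have h1 : ∀ k, yy (act g ξ) (pos (g * Am k)) =
      yy (act g ξ) (pos g) * (1 / Bf (pos (Am k)) (nn ξ)) := by
    intro k
    have h2 := hg.Bf_pos_mul (Am k) hξ
    have h3 := hg.Bf_pos_nn hξ
    unfold yy
    rw [← h2]
    have h4 : Bf (pos g) (nn (act g ξ)) ≠ 0 := by
      intro h; rw [h, zero_mul] at h3; exact zero_ne_one h3
    rw [one_div_mul_one_div, ← mul_assoc, mul_comm (Bf (pos g) _), mul_assoc, h3, mul_one]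
  have hy : 0 ≤ yy (act g ξ) (pos g) := by
    unfold yy
    have h3 := hg.Bf_pos_nn hξ
    have : 0 < Bf (pos g) (nn (act g ξ)) := by
      by_contra h
      push Not at h
      nlinarith
    positivity
  have hb : ∀ k, 0 ≤ 1 / Bf (pos (Am k)) (nn ξ) := by
    intro k
    have := Bf_nn_pos (isLor_Am k).pos_self (isLor_Am k).fut hξ
    positivity
  have h5 : ∑ k : Fin 7, (yy (act g ξ) (pos (g * Am k))) ^ (2 / 3 : ℝ) =
      (yy (act g ξ) (pos g)) ^ (2 / 3 : ℝ) *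
        ∑ k : Fin 7, (1 / Bf (pos (Am k)) (nn ξ)) ^ (2 / 3 : ℝ) := by
    rw [Finset.mul_sum]
    apply Finset.sum_congr rfl
    intro k _
    rw [h1, Real.mul_rpow hy (hb k)]
  rw [h5]
  have h6 := k_ineq hξ
  have h7 : 0 ≤ (yy (act g ξ) (pos g)) ^ (2 / 3 : ℝ) := Real.rpow_nonneg hy _
  nlinarith

end Pool.Agent.K7
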