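import Pool.Agent.Work.MP_7596a5_pr.NoAtomsOf
import Pool.Agent.Work.MP_7596a5_pr.KIneq

/-!
# Stationary measures have no atoms
-/

namespace Pool.Agent.K7

open MeasureTheory

theorem Stat.no_atoms {ν : Measure ℂ} (h : Stat ν) (ζ : ℂ) : ν {ζ} = 0 :=
  h.no_atoms_of (fun _ hζ => k_ineq hζ) ζ

end Pool.Agent.K7
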