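import Pool.Agent.Work.MP_7596a5_pr.Harm
import Pool.Agent.Work.MP_7596a5_pr.KIneq
import Pool.Agent.Work.MP_7596a5_pr.NoAtoms

/-!
# Hölder continuity of stationary measures (exponent `2/3`)
-/

namespace Pool.Agent.K7

open MeasureTheory Metric
open scoped ComplexConjugate

/-! ### supermartingales for the stopped average -/

section Super

variable (S : M3 → Prop)

theorem TT_super {V : M3 → ℝ} (hV : ∀ g, IsLor g → ¬ S g → (1 / 7) * ∑ k : Fin 7, V (g * Am k) ≤ V g)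
    (n : ℕ) {g : M3} (hg : IsLor g) : TT S n V g ≤ V g := by
  induction n generalizing g with
  | zero => exact le_rfl
  | succ n ih =>
    by_cases hS : S g
    · rw [TT_succ_of S n V hS]
    · rw [TT_succ_not S n V hS]
      refine le_trans ?_ (hV g hg hS)
      apply mul_le_mul_of_nonneg_left _ (by norm_num)
      exact Finset.sum_le_sum fun k _ => ih (hg.mul (isLor_Am k))

open Classical in
/-- the unstopped part decays -/
theorem TT_decay {f : M3 → ℝ} {a : ℝ} (ha : 0 ≤ a) (hf0 : ∀ g, IsLor g → 0 ≤ f g)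
    (hf : ∀ g, IsLor g → (1 / 7) * ∑ k : Fin 7, f (g * Am k) ≤ a * f g)
    (n : ℕ) {g : M3} (hg : IsLor g) : TT S n (fun x => if S x then 0 else f x) g ≤ a ^ n * f g := by
  induction n generalizing g with
  | zero =>
    rw [TT_zero, pow_zero, one_mul]
    split_ifs
    · exact hf0 g hg
    · exact le_rfl
  | succ n ih =>
    by_cases hS : S g
    · rw [TT_succ_of S n _ hS, if_pos hS]
      have := hf0 g hg
      positivity
    · rw [TT_succ_not S n _ hS]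
      have h1 : (1 / 7) * ∑ k : Fin 7, TT S n (fun x => if S x then 0 else f x) (g * Am k)
          ≤ (1 / 7) * ∑ k : Fin 7, a ^ n * f (g * Am k) := by
        apply mul_le_mul_of_nonneg_left _ (by norm_num)
        exact Finset.sum_le_sum fun k _ => ih (hg.mul (isLor_Am k))
      refine h1.trans ?_
      rw [← Finset.mul_sum]
      have h2 := mul_le_mul_of_nonneg_left (hf g hg) (pow_nonneg ha n)
      rw [pow_succ]
      linarith

end Super

/-! ### half-plane coordinates -/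

/-- normal form of a point with respect to the pole `ζ` -/
theorem pole_coords {p : E} (hp : Bf p p = 1) (hZ : 0 < Zf p) {ζ : ℂ} (hζ : ‖ζ‖ = 1) :
    (Wf p * conj (Complex.I * ζ)).re = (Wf p * conj ζ).im ∧
    Bf p (nn ζ) = Zf p - (Wf p * conj ζ).re ∧
    Zf p ^ 2 = 1 + (Wf p * conj ζ).re ^ 2 + (Wf p * conj ζ).im ^ 2 ∧
    0 < Zf p - (Wf p * conj ζ).re := by
  have h1 : Bf p (nn ζ) = Zf p - (Wf p * conj ζ).re := by
    unfold Bf
    rw [Zf_nn, Wf_nn, mul_one]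
  refine ⟨?_, h1, ?_, ?_⟩
  · rw [map_mul, Complex.conj_I]
    have : Wf p * (-Complex.I * conj ζ) = (Wf p * conj ζ) * (-Complex.I) := by ring
    rw [this, Complex.mul_re]
    simp
  · rw [Bf_self] at hp
    have h2 : ‖Wf p * conj ζ‖ ^ 2 = (Wf p * conj ζ).re ^ 2 + (Wf p * conj ζ).im ^ 2 := by
      rw [← Complex.normSq_eq_norm_sq, Complex.normSq_apply]
      ring
    rw [norm_mul, Complex.norm_conj, hζ, mul_one] at h2
    linarith
  · rw [← h1]
    exact Bf_nn_pos hp hZ hζ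

theorem yy_pos {p : E} (hp : Bf p p = 1) (hZ : 0 < Zf p) {ζ : ℂ} (hζ : ‖ζ‖ = 1) : 0 < yy ζ p := by
  unfold yy
  exact one_div_pos.2 (Bf_nn_pos hp hZ hζ)

theorem yy_p0 (ζ : ℂ) : yy ζ p0 = 1 := by
  unfold yy
  rw [Bf_p0_left, Zf_nn]
  norm_num

theorem xx_p0 (ζ : ℂ) : xx ζ p0 = 0 := by
  unfold xx
  rw [Wf_p0]
  simp

/-- the distance formula of the half-plane -/
theorem half_dist {p q : E} (hp : Bf p p = 1) (hpZ : 0 < Zf p) (hq : Bf q q = 1) (hqZ : 0 < Zf q)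
    {ζ : ℂ} (hζ : ‖ζ‖ = 1) :
    2 * Bf p q * (yy ζ p * yy ζ q) = (xx ζ p - xx ζ q) ^ 2 + yy ζ p ^ 2 + yy ζ q ^ 2 := by
  obtain ⟨a1, a2, a3, a4⟩ := pole_coords hp hpZ hζ
  obtain ⟨b1, b2, b3, b4⟩ := pole_coords hq hqZ hζ
  have hB : Bf p q = Zf p * Zf q - ((Wf p * conj ζ).re * (Wf q * conj ζ).re
      + (Wf p * conj ζ).im * (Wf q * conj ζ).im) := by
    unfold Bf
    have h1 : Wf p * conj (Wf q) = (Wf p * conj ζ) * conj (Wf q * conj ζ) := by
      rw [map_mul, Complex.conj_conj]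
      have h2 : conj ζ * ζ = 1 := by
        rw [mul_comm, Complex.mul_conj, Complex.normSq_eq_norm_sq, hζ]
        simp
      linear_combination (-(Wf p * conj (Wf q))) * h2
    rw [h1, Complex.mul_re, Complex.conj_re, Complex.conj_im]
    ring
  unfold xx yy
  rw [a1, b1, a2, b2, hB]
  set a := (Wf p * conj ζ).re
  set b := (Wf p * conj ζ).im
  set a' := (Wf q * conj ζ).re
  set b' := (Wf q * conj ζ).im
  have e1 := a4.ne'
  have e2 := b4.ne'
  field_simp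
  -- D = Z - a, D' = Z' - a'
  have k1 : (Zf p - a) * (Zf p + a) = 1 + b ^ 2 := by linarith
  have k2 : (Zf q - a') * (Zf q + a') = 1 + b' ^ 2 := by linarith
  linear_combination ((Zf q - a') ^ 2) * k1 + ((Zf p - a) ^ 2) * k2

/-- one step moves the horizontal coordinate by at most `2 cc y` and multiplies the height by at
most `2 cc` -/
theorem IsLor.step_coords {g : M3} (hg : IsLor g) (k : Fin 7) {ζ : ℂ} (hζ : ‖ζ‖ = 1) :
    |xx ζ (pos (g * Am k)) - xx ζ (pos g)| ≤ 2 * cc * yy ζ (pos g) ∧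
    yy ζ (pos (g * Am k)) ≤ 2 * cc * yy ζ (pos g) := by
  have hg' := hg.mul (isLor_Am k)
  have h1 := half_dist hg.pos_self hg.fut hg'.pos_self hg'.fut hζ
  rw [hg.Bf_step k] at h1
  have hy := yy_pos hg.pos_self hg.fut hζ
  have hy' := yy_pos hg'.pos_self hg'.fut hζ
  set x := xx ζ (pos g)
  set y := yy ζ (pos g)
  set x' := xx ζ (pos (g * Am k))
  set y' := yy ζ (pos (g * Am k))
  have hc := cc_pos
  have h2 : y' ≤ 2 * cc * y := by
    by_contra hcon
    push Not at hcon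
    nlinarith [sq_nonneg (x - x'), sq_nonneg y]
  refine ⟨?_, h2⟩
  have h3 : (x' - x) ^ 2 ≤ (2 * cc * y) ^ 2 := by
    have h4 : 2 * cc * (y * y') ≤ 2 * cc * (y * (2 * cc * y)) :=
      mul_le_mul_of_nonneg_left (mul_le_mul_of_nonneg_left h2 hy.le) (by positivity)
    nlinarith [sq_nonneg y, sq_nonneg y']
  exact abs_le_of_sq_le_sq h3 (by positivity)

/-- the Poisson kernel near the pole: if `|x| ≤ 1/(2δ)` and `‖η - ζ‖ ≤ δ ≤ 1` -/
theorem Bf_near_pole {p : E} (hp : Bf p p = 1) (hZ : 0 < Zf p) {ζ η : ℂ} (hζ : ‖ζ‖ = 1)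
    (hη : ‖η‖ = 1) {δ : ℝ} (hδ : 0 < δ) (hδ1 : δ ≤ 1) (hx : |xx ζ p| < 1 / (2 * δ))
    (hd : ‖η - ζ‖ ≤ δ) : 1 / (4 * yy ζ p) ≤ Bf p (nn η) := by
  obtain ⟨a1, a2, a3, a4⟩ := pole_coords hp hZ hζ
  have hB : Bf p (nn η) = Zf p - ((Wf p * conj ζ).re * (η * conj ζ).re
      + (Wf p * conj ζ).im * (η * conj ζ).im) := by
    unfold Bf
    rw [Zf_nn, Wf_nn, mul_one]
    have h1 : Wf p * conj η = (Wf p * conj ζ) * conj (η * conj ζ) := by
      rw [map_mul, Complex.conj_conj]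
      have h2 : conj ζ * ζ = 1 := by
        rw [mul_comm, Complex.mul_conj, Complex.normSq_eq_norm_sq, hζ]
        simp
      linear_combination (-(Wf p * conj η)) * h2
    rw [h1, Complex.mul_re, Complex.conj_re, Complex.conj_im]
    ring
  have hxe : xx ζ p = (Wf p * conj ζ).im / (Zf p - (Wf p * conj ζ).re) := by
    unfold xx
    rw [a1, a2]
  have hye : 1 / (4 * yy ζ p) = (Zf p - (Wf p * conj ζ).re) / 4 := by
    unfold yy
    rw [a2]
    have := a4.ne'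
    field_simp
  rw [hye, hB]
  set a := (Wf p * conj ζ).re
  set b := (Wf p * conj ζ).im
  set α := (η * conj ζ).re
  set β := (η * conj ζ).im
  set D := Zf p - a with hD
  have hαβ : α ^ 2 + β ^ 2 = 1 := by
    have h2 : ‖η * conj ζ‖ ^ 2 = α ^ 2 + β ^ 2 := by
      rw [← Complex.normSq_eq_norm_sq, Complex.normSq_apply]
      ring
    rw [norm_mul, Complex.norm_conj, hζ, hη] at h2
    linarith
  have hα : ‖η - ζ‖ ^ 2 = 2 - 2 * α := by
    rw [← Complex.normSq_eq_norm_sq, Complex.normSq_sub, Complex.normSq_eq_norm_sq,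
      Complex.normSq_eq_norm_sq, hη, hζ]
    ring
  have hα2 : 2 - 2 * α ≤ δ ^ 2 := by
    rw [← hα]
    exact pow_le_pow_left₀ (norm_nonneg _) hd 2
  have hα3 : 1 / 2 ≤ α := by nlinarith
  have hα4 : α ≤ 1 := by nlinarith [sq_nonneg β]
  have hβ : β ^ 2 ≤ δ ^ 2 := by nlinarith
  have hβ' : |β| ≤ δ := abs_le_of_sq_le_sq hβ hδ.le
  have hb : |b| * (2 * δ) ≤ D := by
    rw [hxe, abs_div, abs_of_pos a4, div_lt_div_iff₀ a4 (by positivity)] at hx
    linarith
  have hbβ : 2 * (b * β) ≤ D := by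
    have h1 : b * β ≤ |b| * |β| := by
      rw [← abs_mul]
      exact le_abs_self _
    have h2 : |b| * |β| ≤ |b| * δ := mul_le_mul_of_nonneg_left hβ' (abs_nonneg _)
    linarith
  -- Z = (D + (1+b²)/D)/2
  have hZa : D * (Zf p + a) = 1 + b ^ 2 := by
    rw [hD]
    linarith
  have hkey : 2 * D * (Zf p - (a * α + b * β))
      = D ^ 2 * (1 + α) + b ^ 2 * (1 - α) - 2 * D * (b * β) + (1 - α) := by
    have hZ2 : Zf p = D + a := by rw [hD]; ring
    have h1 : D * (D + 2 * a) = 1 + b ^ 2 := by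
      rw [hZ2] at hZa
      linarith
    rw [hZ2]
    linear_combination (1 - α) * h1
  have h5 : D ^ 2 / 2 ≤ 2 * D * (Zf p - (a * α + b * β)) := by
    rw [hkey]
    have h6 : 2 * D * (b * β) ≤ D * D := by nlinarith
    have h7 : 0 ≤ b ^ 2 * (1 - α) := mul_nonneg (sq_nonneg b) (by linarith)
    nlinarith [sq_nonneg D]
  have h8 : D * (D / 4) ≤ D * (Zf p - (a * α + b * β)) := by nlinarith
  exact le_of_mul_le_mul_left h8 a4

/-! ### small sets have small measure -/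

theorem Stat.small {ν : Measure ℂ} (h : Stat ν) {ε : ℝ} (hε : 0 < ε) :
    ∃ t : ℝ, 0 < t ∧ ∀ ξ : ℂ, ‖ξ‖ = 1 → ν.real (ball ξ t) ≤ ε := by
  have := h.prob
  have h1 : ∀ ξ : ℂ, ∃ r : ℝ, 0 < r ∧ ν.real (ball ξ r) ≤ ε := by
    intro ξ
    have h2 : Filter.Tendsto (fun n : ℕ => ν (ball ξ (1 / ((n : ℝ) + 1)))) Filter.atTop
        (nhds (ν (⋂ n : ℕ, ball ξ (1 / ((n : ℝ) + 1))))) := by
      apply tendsto_measure_iInter_atTop
      · intro n
        exact measurableSet_ball.nullMeasurableSet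
      · intro m n hmn
        apply ball_subset_ball
        exact Nat.one_div_le_one_div hmn
      · exact ⟨0, measure_ne_top _ _⟩
    have h3 : (⋂ n : ℕ, ball ξ (1 / ((n : ℝ) + 1))) = {ξ} := by
      ext z
      simp only [Set.mem_iInter, mem_ball, Set.mem_singleton_iff]
      constructor
      · intro hz
        by_contra hne
        obtain ⟨n, hn⟩ := exists_nat_one_div_lt (dist_pos.2 hne)
        exact absurd (hz n) (not_lt.2 hn.le)
      · rintro rfl n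
        rw [dist_self]
        positivity
    rw [h3, h.no_atoms ξ] at h2
    have h4 : ∀ᶠ n : ℕ in Filter.atTop, ν (ball ξ (1 / ((n : ℝ) + 1))) < ENNReal.ofReal ε :=
      h2.eventually_lt_const (by simpa using hε)
    obtain ⟨n, hn⟩ := h4.exists
    refine ⟨1 / ((n : ℝ) + 1), by positivity, ?_⟩
    unfold Measure.real
    exact ENNReal.toReal_le_of_le_ofReal hε.le hn.le
  choose r hr0 hr using h1
  obtain ⟨t, ht0, ht⟩ := lebesgue_number_lemma_of_metric (isCompact_sphere (0 : ℂ) 1)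
    (c := fun ξ : ℂ => ball ξ (r ξ)) (fun ξ => isOpen_ball)
    (fun ξ _ => Set.mem_iUnion.2 ⟨ξ, mem_ball_self (hr0 ξ)⟩)
  refine ⟨t, ht0, fun ξ hξ => ?_⟩
  obtain ⟨i, hi⟩ := ht ξ (by simpa using hξ)
  exact (measureReal_mono hi).trans (hr i)

/-- a set whose trace on the circle has small diameter -/
theorem Stat.real_le_ball {ν : Measure ℂ} (h : Stat ν) {A : Set ℂ} {t : ℝ} {M : ℝ} (hM : 0 ≤ M)
    (hA : ∀ ξ ξ' : ℂ, ‖ξ‖ = 1 → ‖ξ'‖ = 1 → ξ ∈ A → ξ' ∈ A → ‖ξ - ξ'‖ < t)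
    (hball : ∀ ξ : ℂ, ‖ξ‖ = 1 → ν.real (ball ξ t) ≤ M) : ν.real A ≤ M := by
  have := h.prob
  by_cases hne : ∃ ξ : ℂ, ‖ξ‖ = 1 ∧ ξ ∈ A
  · obtain ⟨ξ, hξ, hξA⟩ := hne
    refine le_trans ?_ (hball ξ hξ)
    unfold Measure.real
    apply ENNReal.toReal_mono (measure_ne_top _ _)
    apply measure_mono_ae
    filter_upwards [h.circ] with z hz hzA
    change dist z ξ < t
    rw [dist_eq_norm]
    exact hA z ξ hz hξ hzA hξA
  · push Not at hne
    have h0 : ν A = 0 := by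
      apply measure_mono_null _ (ae_iff.1 h.circ)
      intro z hz
      exact fun hz1 => hne z hz1 hz
    unfold Measure.real
    rw [h0]
    simpa using hM

/-- the trace of the preimage of a ball under a Lorentz matrix: diameter bound from the bound
of the Poisson kernel -/
theorem IsLor.preimage_diam {g : M3} (hg : IsLor g) {I : Set ℂ} {m d : ℝ} (hm : 0 < m)
    (hB : ∀ η : ℂ, ‖η‖ = 1 → η ∈ I → m ≤ Bf (pos g) (nn η))
    (hd : ∀ η η' : ℂ, ‖η‖ = 1 → ‖η'‖ = 1 → η ∈ I → η' ∈ I → ‖η - η'‖ ≤ d) {ξ ξ' : ℂ}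
    (hξ : ‖ξ‖ = 1) (hξ' : ‖ξ'‖ = 1) (h1 : ξ ∈ (act g) ⁻¹' I) (h2 : ξ' ∈ (act g) ⁻¹' I) :
    ‖ξ - ξ'‖ ≤ d / m := by
  have hd0 : 0 ≤ d := (norm_nonneg _).trans
    (hd _ _ (hg.norm_act hξ) (hg.norm_act hξ') h1 h2)
  have hl : ∀ ξ : ℂ, ‖ξ‖ = 1 → ξ ∈ (act g) ⁻¹' I → lam g ξ ≤ 1 / m := by
    intro ξ hξ hm1
    have h3 := hg.Bf_pos_nn hξ
    have h4 := hB _ (hg.norm_act hξ) hm1
    have h5 := hg.lam_pos hξ
    rw [le_div_iff₀ hm]
    nlinarith
  have h3 := hg.chord hξ hξ'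
  have h4 := hd _ _ (hg.norm_act hξ) (hg.norm_act hξ') h1 h2
  have h5 : ‖ξ - ξ'‖ ^ 2 ≤ (d / m) ^ 2 := by
    rw [← h3, div_pow, div_eq_mul_one_div (d ^ 2)]
    apply mul_le_mul (pow_le_pow_left₀ (norm_nonneg _) h4 2) _ _ (by positivity)
    · rw [← one_div_pow, pow_two]
      exact mul_le_mul (hl ξ hξ h1) (hl ξ' hξ' h2) (hg.lam_pos hξ').le (by positivity)
    · exact mul_nonneg (hg.lam_pos hξ).le (hg.lam_pos hξ').le
  exact (abs_le_of_sq_le_sq' h5 (by positivity)).2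

/-! ### the Hölder bound -/

theorem two_cc_pow : (2 * cc) ^ (2 / 3 : ℝ) ≤ 4 := by
  have h1 : (2 * cc) ^ (2 / 3 : ℝ) ≤ (2 * cc) ^ (1 : ℝ) :=
    Real.rpow_le_rpow_of_exponent_le (by linarith [cc_gt]) (by norm_num)
  rw [Real.rpow_one] at h1
  linarith [cc_lt]

theorem rpow_add_le {a b : ℝ} (ha : 0 ≤ a) (hb : 0 ≤ b) :
    (a + b) ^ (2 / 3 : ℝ) ≤ a ^ (2 / 3 : ℝ) + b ^ (2 / 3 : ℝ) :=
  Real.rpow_add_le_add_rpow ha hb (by norm_num) (by norm_num)

/-- the height to the power `2/3` contracts -/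
theorem yy_contract (ζ : ℂ) (hζ : ‖ζ‖ = 1) (g : M3) (hg : IsLor g) :
    (1 / 7) * ∑ k : Fin 7, (yy ζ (pos (g * Am k))) ^ (2 / 3 : ℝ)
      ≤ (98 / 100) * (yy ζ (pos g)) ^ (2 / 3 : ℝ) := k_ineq_g hg hζ

/-- the superharmonic function `|x|^{2/3} + 200 y^{2/3}` -/
theorem V_super (ζ : ℂ) (hζ : ‖ζ‖ = 1) (g : M3) (hg : IsLor g) :
    (1 / 7) * ∑ k : Fin 7, (|xx ζ (pos (g * Am k))| ^ (2 / 3 : ℝ)
        + 200 * (yy ζ (pos (g * Am k))) ^ (2 / 3 : ℝ))
      ≤ |xx ζ (pos g)| ^ (2 / 3 : ℝ) + 200 * (yy ζ (pos g)) ^ (2 / 3 : ℝ) := by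
  rw [Finset.sum_add_distrib, ← Finset.mul_sum]
  have h1 := yy_contract ζ hζ g hg
  have hy := yy_pos hg.pos_self hg.fut hζ
  have h2 : ∑ k : Fin 7, |xx ζ (pos (g * Am k))| ^ (2 / 3 : ℝ)
      ≤ ∑ k : Fin 7, (|xx ζ (pos g)| ^ (2 / 3 : ℝ) + 4 * (yy ζ (pos g)) ^ (2 / 3 : ℝ)) := by
    apply Finset.sum_le_sum
    intro k _
    have h3 := (hg.step_coords k hζ).1
    have h4 : |xx ζ (pos (g * Am k))| ≤ |xx ζ (pos g)| + 2 * cc * yy ζ (pos g) := by
      have := abs_sub_abs_le_abs_sub (xx ζ (pos (g * Am k))) (xx ζ (pos g))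
      linarith
    have hc := cc_pos
    calc |xx ζ (pos (g * Am k))| ^ (2 / 3 : ℝ)
        ≤ (|xx ζ (pos g)| + 2 * cc * yy ζ (pos g)) ^ (2 / 3 : ℝ) :=
          Real.rpow_le_rpow (abs_nonneg _) h4 (by norm_num)
      _ ≤ |xx ζ (pos g)| ^ (2 / 3 : ℝ) + (2 * cc * yy ζ (pos g)) ^ (2 / 3 : ℝ) :=
          rpow_add_le (abs_nonneg _) (by positivity)
      _ ≤ _ := by
          rw [Real.mul_rpow (by positivity) hy.le]
          have := mul_le_mul_of_nonneg_right two_cc_pow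
            (Real.rpow_nonneg hy.le (2 / 3 : ℝ))
          linarith
  rw [Finset.sum_const, Finset.card_univ, Fintype.card_fin, nsmul_eq_mul] at h2
  push_cast at h2
  linarith

/-- Hölder bound at a boundary point, small radius -/
theorem Stat.holder_aux {ν : Measure ℂ} (h : Stat ν) {ζ : ℂ} (hζ : ‖ζ‖ = 1) {δ : ℝ} (hδ : 0 < δ)
    (hδ1 : δ ≤ 1) : ν.real (closedBall ζ δ) ≤ 200 * (2 * δ) ^ (2 / 3 : ℝ) := by
  have := h.prob
  apply le_of_forall_pos_le_add
  intro ε hε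
  obtain ⟨t, ht0, ht⟩ := h.small (half_pos hε)
  have hmeas : MeasurableSet (closedBall ζ δ) := measurableSet_closedBall
  -- pointwise bound
  have hpt : ∀ g : M3, IsLor g → fB ν (closedBall ζ δ) g ≤
      (2 * δ) ^ (2 / 3 : ℝ) * (|xx ζ (pos g)| ^ (2 / 3 : ℝ) + 200 * (yy ζ (pos g)) ^ (2 / 3 : ℝ))
      + (ε / 2 + (16 * δ / t) ^ (2 / 3 : ℝ) * (yy ζ (pos g)) ^ (2 / 3 : ℝ)) := by
    intro g hg
    have hy := yy_pos hg.pos_self hg.fut hζ
    have hV : 0 ≤ |xx ζ (pos g)| ^ (2 / 3 : ℝ) + 200 * (yy ζ (pos g)) ^ (2 / 3 : ℝ) := by positivity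
    have hY : 0 ≤ (16 * δ / t) ^ (2 / 3 : ℝ) * (yy ζ (pos g)) ^ (2 / 3 : ℝ) := by positivity
    have hP : 0 ≤ (2 * δ) ^ (2 / 3 : ℝ) := by positivity
    by_cases hx : |xx ζ (pos g)| < 1 / (2 * δ)
    · by_cases hyt : 16 * δ * yy ζ (pos g) < t
      · have h1 : fB ν (closedBall ζ δ) g ≤ ε / 2 := by
          apply h.real_le_ball (half_pos hε).le _ ht
          intro ξ ξ' hξ hξ' h1 h2
          have h3 := hg.preimage_diam (I := closedBall ζ δ) (m := 1 / (4 * yy ζ (pos g)))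
            (d := 2 * δ) (by positivity)
            (fun η hη hηI => Bf_near_pole hg.pos_self hg.fut hζ hη hδ hδ1 hx (by
              rw [← dist_eq_norm]; exact hηI))
            (fun η η' hη hη' h3 h4 => by
              rw [← dist_eq_norm]
              have := dist_triangle_right η η' ζ
              rw [mem_closedBall] at h3 h4
              linarith) hξ hξ' h1 h2
          have h4 : 2 * δ / (1 / (4 * yy ζ (pos g))) = 8 * δ * yy ζ (pos g) := by
            field_simp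
            ring
          rw [h4] at h3
          have : 0 < δ * yy ζ (pos g) := by positivity
          linarith
        have := mul_nonneg hP hV
        linarith
      · have h1 : fB ν (closedBall ζ δ) g ≤ (16 * δ / t) ^ (2 / 3 : ℝ)
            * (yy ζ (pos g)) ^ (2 / 3 : ℝ) := by
          refine (h.fB_le_one _ _).trans ?_
          rw [← Real.mul_rpow (by positivity) hy.le]
          apply Real.one_le_rpow _ (by norm_num)
          push Not at hyt
          rw [div_mul_eq_mul_div, le_div_iff₀ ht0]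
          linarith
        have := mul_nonneg hP hV
        linarith
    · push Not at hx
      have h1 : fB ν (closedBall ζ δ) g ≤ (2 * δ) ^ (2 / 3 : ℝ) * |xx ζ (pos g)| ^ (2 / 3 : ℝ) := by
        refine (h.fB_le_one _ _).trans ?_
        rw [← Real.mul_rpow (by positivity) (abs_nonneg _)]
        apply Real.one_le_rpow _ (by norm_num)
        rw [div_le_iff₀ (by positivity)] at hx
        linarith
      have h2 : 0 ≤ (2 * δ) ^ (2 / 3 : ℝ) * (200 * (yy ζ (pos g)) ^ (2 / 3 : ℝ)) := by positivity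
      linarith
  -- average
  have hmain : ∀ n : ℕ, ν.real (closedBall ζ δ) ≤ 200 * (2 * δ) ^ (2 / 3 : ℝ)
      + (ε / 2 + (16 * δ / t) ^ (2 / 3 : ℝ) * (98 / 100) ^ n) := by
    intro n
    have e1 : ν.real (closedBall ζ δ) = TT (fun _ => False) n (fB ν (closedBall ζ δ)) 1 := by
      rw [TT_of_harm _ _ (h.fB_harm hmeas), fB_one]
    have e2 := TT_mono (fun _ => False) (P := IsLor) (fun g hg _ k => hg.mul (isLor_Am k)) hpt n
      IsLor.one
    rw [TT_add _ (fun g => (2 * δ) ^ (2 / 3 : ℝ) * (|xx ζ (pos g)| ^ (2 / 3 : ℝ)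
        + 200 * (yy ζ (pos g)) ^ (2 / 3 : ℝ)))
        (fun g => ε / 2 + (16 * δ / t) ^ (2 / 3 : ℝ) * (yy ζ (pos g)) ^ (2 / 3 : ℝ)),
      TT_smul _ _ (fun g => |xx ζ (pos g)| ^ (2 / 3 : ℝ) + 200 * (yy ζ (pos g)) ^ (2 / 3 : ℝ)),
      TT_add _ (fun _ => ε / 2) (fun g => (16 * δ / t) ^ (2 / 3 : ℝ) * (yy ζ (pos g)) ^ (2 / 3 : ℝ)),
      TT_const, TT_smul _ _ (fun g => (yy ζ (pos g)) ^ (2 / 3 : ℝ))] at e2
    have e3 := TT_super (fun _ => False)
      (V := fun g => |xx ζ (pos g)| ^ (2 / 3 : ℝ) + 200 * (yy ζ (pos g)) ^ (2 / 3 : ℝ))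
      (fun g hg _ => V_super ζ hζ g hg) n IsLor.one
    have e4 := TT_decay (fun _ => False) (f := fun g => (yy ζ (pos g)) ^ (2 / 3 : ℝ))
      (a := 98 / 100) (by norm_num)
      (fun g hg => Real.rpow_nonneg (yy_pos hg.pos_self hg.fut hζ).le _)
      (fun g hg => yy_contract ζ hζ g hg) n IsLor.one
    simp only [if_false, pos_one, yy_p0, xx_p0, abs_zero, Real.one_rpow] at e3 e4
    rw [Real.zero_rpow (by norm_num)] at e3
    have hP : 0 ≤ (2 * δ) ^ (2 / 3 : ℝ) := by positivity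
    have hQ : 0 ≤ (16 * δ / t) ^ (2 / 3 : ℝ) := by positivity
    have e5 := mul_le_mul_of_nonneg_left e3 hP
    have e6 := mul_le_mul_of_nonneg_left e4 hQ
    rw [e1]
    linarith
  have hlim : Filter.Tendsto (fun n : ℕ => (16 * δ / t) ^ (2 / 3 : ℝ) * (98 / 100 : ℝ) ^ n)
      Filter.atTop (nhds 0) := by
    rw [← mul_zero ((16 * δ / t) ^ (2 / 3 : ℝ))]
    exact (tendsto_pow_atTop_nhds_zero_of_lt_one (by norm_num) (by norm_num)).const_mul _
  obtain ⟨n, hn⟩ := (hlim.eventually_lt_const (half_pos hε)).exists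
  have := hmain n
  linarith

theorem Stat.holder {ν : Measure ℂ} (h : Stat ν) : ∃ C : ℝ, 0 < C ∧ ∀ ζ : ℂ, ∀ δ : ℝ, 0 < δ →
    ν.real (closedBall ζ δ) ≤ C * δ ^ (2 / 3 : ℝ) := by
  have := h.prob
  refine ⟨200 * 4 ^ (2 / 3 : ℝ), by positivity, fun ζ δ hδ => ?_⟩
  rw [mul_assoc, ← Real.mul_rpow (by norm_num) hδ.le]
  by_cases hδ1 : 2 * δ ≤ 1
  · by_cases hne : ∃ ξ : ℂ, ‖ξ‖ = 1 ∧ ξ ∈ closedBall ζ δ
    · obtain ⟨ξ, hξ, hξB⟩ := hne
      have h1 : closedBall ζ δ ⊆ closedBall ξ (2 * δ) := by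
        intro z hz
        rw [mem_closedBall] at hz hξB ⊢
        have := dist_triangle_right z ξ ζ
        linarith
      refine (measureReal_mono h1).trans ?_
      have h2 := h.holder_aux hξ (δ := 2 * δ) (by positivity) hδ1
      have e : 2 * (2 * δ) = 4 * δ := by ring
      rwa [e] at h2
    · push Not at hne
      have h0 : ν (closedBall ζ δ) = 0 := by
        apply measure_mono_null _ (ae_iff.1 h.circ)
        intro z hz hz1
        exact hne z hz1 hz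
      unfold Measure.real
      rw [h0]
      simp only [ENNReal.toReal_zero]
      positivity
  · push Not at hδ1
    refine measureReal_le_one.trans ?_
    have h1 : (1 : ℝ) ≤ (4 * δ) ^ (2 / 3 : ℝ) := Real.one_le_rpow (by linarith) (by norm_num)
    linarith

end Pool.Agent.K7
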