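import Pool.Agent.Work.MP_7596a5_pr.LimitCore
import Pool.Agent.Work.MP_7596a5_pr.KIneq

/-!
K9: the random walk converges to the circle and its limit law is stationary.
-/

namespace Pool.Agent.K7

open MeasureTheory Filter Topology
open scoped ComplexConjugate ENNReal

theorem limit_exists : ∃ X : (ℕ → Fin 7) → ℂ, Measurable X ∧
    (∀ᵐ s ∂steps, ‖X s‖ = 1 ∧
      Tendsto (fun n => Wf (pos (walk s n)) / (Zf (pos (walk s n)) : ℂ)) atTop (𝓝 (X s)) ∧
      Tendsto (fun n => NN (walk s n)) atTop atTop) ∧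
    Stat (steps.map X) :=
  limit_exists_of fun hg _ hζ => k_ineq_g hg hζ

end Pool.Agent.K7
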