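import Pool.Agent.Work.MP_7596a5_pr.Basic

/-!
K9: the random walk converges to the circle and its limit law is stationary.
-/

namespace Pool.Agent.K7

open MeasureTheory Filter Topology
open scoped ComplexConjugate ENNReal

/-- the contraction inequality (item K1), as a hypothesis -/
def KIneqG : Prop := ∀ {g : M3}, IsLor g → ∀ {ζ : ℂ}, ‖ζ‖ = 1 →
    (1 / 7) * ∑ k : Fin 7, (yy ζ (pos (g * Am k))) ^ (2 / 3 : ℝ)
      ≤ 98 / 100 * (yy ζ (pos g)) ^ (2 / 3 : ℝ)

noncomputable def walk (s : ℕ → Fin 7) : ℕ → M3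
  | 0 => 1
  | n + 1 => walk s n * Am (s n)

/-- the law of i.i.d. uniform steps -/
noncomputable def steps : Measure (ℕ → Fin 7) :=
  Measure.infinitePi (fun _ => (PMF.uniformOfFintype (Fin 7)).toMeasure)

/-! ### splitting off the first step -/

/-- put `k` in front -/
def consq (q : Fin 7 × (ℕ → Fin 7)) : ℕ → Fin 7
  | 0 => q.1
  | n + 1 => q.2 n

theorem measurable_consq : Measurable consq := by
  rw [measurable_pi_iff]
  intro n
  cases n with
  | zero => exact measurable_fst
  | succ n => exact (measurable_pi_apply n).comp measurable_snd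

theorem walk_consq (k : Fin 7) (s : ℕ → Fin 7) (n : ℕ) :
    walk (consq (k, s)) (n + 1) = Am k * walk s n := by
  induction n with
  | zero => simp [walk, consq]
  | succ n ih =>
    rw [walk, ih, walk, ← mul_assoc]
    rfl

instance : IsProbabilityMeasure steps := by
  unfold steps; infer_instance

theorem steps_consq :
    ((PMF.uniformOfFintype (Fin 7)).toMeasure.prod steps).map consq = steps := by
  classical
  refine Measure.eq_infinitePi _ ?_
  intro S t ht
  rw [Measure.map_apply measurable_consq (MeasurableSet.pi S.countable_toSet fun i _ => ht i)]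
  -- the preimage is a box
  have hpre : consq ⁻¹' (Set.pi S t) = (if 0 ∈ S then t 0 else Set.univ) ×ˢ
      (Set.pi (S.preimage (· + 1) (add_left_injective 1).injOn : Finset ℕ)
        (fun i => t (i + 1))) := by
    ext ⟨k, s⟩
    simp only [Set.mem_preimage, Set.mem_pi, Set.mem_prod, Finset.mem_coe, Finset.mem_preimage]
    constructor
    · intro h
      refine ⟨?_, fun i hi => h (i + 1) hi⟩
      split_ifs with h0
      · exact h 0 h0
      · trivial
    · rintro ⟨h0, h1⟩ i hi
      cases i with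
      | zero => rw [if_pos hi] at h0; exact h0
      | succ i => exact h1 i hi
  rw [hpre, Measure.prod_prod]
  rw [steps, Measure.infinitePi_pi _ (fun i _ => ht (i + 1))]
  by_cases h0 : 0 ∈ S
  · rw [if_pos h0]
    have hS : S = insert 0 ((S.preimage (· + 1) (add_left_injective 1).injOn).image (· + 1)) := by
      ext i
      simp only [Finset.mem_insert, Finset.mem_image, Finset.mem_preimage]
      constructor
      · intro hi
        cases i with
        | zero => exact Or.inl rfl
        | succ i => exact Or.inr ⟨i, hi, rfl⟩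
      · rintro (rfl | ⟨j, hj, rfl⟩)
        · exact h0
        · exact hj
    conv_rhs => rw [hS]
    rw [Finset.prod_insert (by simp), Finset.prod_image (fun _ _ _ _ h => by simpa using h)]
  · rw [if_neg h0, measure_univ, one_mul]
    have hS : S = (S.preimage (· + 1) (add_left_injective 1).injOn).image (· + 1) := by
      ext i
      simp only [Finset.mem_image, Finset.mem_preimage]
      constructor
      · intro hi
        cases i with
        | zero => exact absurd hi h0
        | succ i => exact ⟨i, hi, rfl⟩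
      · rintro ⟨j, hj, rfl⟩
        exact hj
    conv_rhs => rw [hS]
    rw [Finset.prod_image (fun _ _ _ _ h => by simpa using h)]

theorem lintegral_steps (F : (ℕ → Fin 7) → ℝ≥0∞) (hF : Measurable F) :
    ∫⁻ s, F s ∂steps = (7 : ℝ≥0∞)⁻¹ * ∑ k : Fin 7, ∫⁻ s, F (consq (k, s)) ∂steps := by
  conv_lhs => rw [← steps_consq]
  have hm : AEMeasurable (fun q => F (consq q))
      ((PMF.uniformOfFintype (Fin 7)).toMeasure.prod steps) :=
    (hF.comp measurable_consq).aemeasurable
  rw [lintegral_map hF measurable_consq, lintegral_prod _ hm, lintegral_fintype, Finset.mul_sum]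
  refine Finset.sum_congr rfl fun k _ => ?_
  rw [PMF.toMeasure_apply_singleton _ _ (measurableSet_singleton k), PMF.uniformOfFintype_apply,
    mul_comm]
  simp

/-- functions of the walk are measurable -/
theorem measurable_walk {β : Type*} [MeasurableSpace β] (n : ℕ) :
    ∀ F : M3 → β, Measurable fun s : ℕ → Fin 7 => F (walk s n) := by
  induction n with
  | zero => intro F; simp only [walk]; exact measurable_const
  | succ n ih =>
    intro F
    have h1 : Measurable fun q : (ℕ → Fin 7) × Fin 7 => F (walk q.1 n * Am q.2) := by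
      apply measurable_from_prod_countable_left
      intro k
      exact ih fun g => F (g * Am k)
    exact h1.comp (measurable_id.prodMk (measurable_pi_apply n))

theorem isLor_walk (s : ℕ → Fin 7) (n : ℕ) : IsLor (walk s n) := by
  induction n with
  | zero => exact IsLor.one
  | succ n ih => exact ih.mul (isLor_Am _)

/-! ### the moments decay -/

theorem yy_nonneg {g : M3} (hg : IsLor g) {ζ : ℂ} (hζ : ‖ζ‖ = 1) : 0 ≤ yy ζ (pos g) :=
  (one_div_pos.2 (Bf_nn_pos hg.pos_self hg.fut hζ)).le

theorem moment (k_ineq_g : KIneqG) (n : ℕ) : ∀ g : M3, IsLor g →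
    ∫⁻ s, ENNReal.ofReal ((yy 1 (pos (g * walk s n))) ^ (2 / 3 : ℝ)) ∂steps ≤
      ENNReal.ofReal ((98 / 100) ^ n * (yy 1 (pos g)) ^ (2 / 3 : ℝ)) := by
  induction n with
  | zero =>
    intro g hg
    simp [walk]
  | succ n ih =>
    intro g hg
    rw [lintegral_steps _ (measurable_walk (n + 1)
      fun h => ENNReal.ofReal ((yy 1 (pos (g * h))) ^ (2 / 3 : ℝ)))]
    have h1 : ∀ k : Fin 7, ∫⁻ s, ENNReal.ofReal ((yy 1 (pos (g * walk (consq (k, s)) (n + 1)))) ^
        (2 / 3 : ℝ)) ∂steps ≤
        ENNReal.ofReal ((98 / 100) ^ n * (yy 1 (pos (g * Am k))) ^ (2 / 3 : ℝ)) := by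
      intro k
      refine le_trans (le_of_eq ?_) (ih (g * Am k) (hg.mul (isLor_Am k)))
      refine lintegral_congr fun s => ?_
      rw [walk_consq, mul_assoc]
    have h7 : (7 : ℝ≥0∞)⁻¹ = ENNReal.ofReal (1 / 7) := by
      rw [one_div, ENNReal.ofReal_inv_of_pos (by norm_num)]
      simp
    refine (mul_le_mul_right (Finset.sum_le_sum fun k _ => h1 k) _).trans ?_
    rw [← ENNReal.ofReal_sum_of_nonneg (fun k _ => mul_nonneg (by positivity)
      (Real.rpow_nonneg (yy_nonneg (hg.mul (isLor_Am k)) (by simp)) _)), h7,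
      ← ENNReal.ofReal_mul (by norm_num)]
    apply ENNReal.ofReal_le_ofReal
    have h2 := k_ineq_g hg (ζ := 1) (by simp)
    rw [← Finset.mul_sum]
    calc (1 / 7 : ℝ) * ((98 / 100) ^ n * ∑ k : Fin 7, (yy 1 (pos (g * Am k))) ^ (2 / 3 : ℝ))
        = (98 / 100) ^ n * ((1 / 7) * ∑ k : Fin 7, (yy 1 (pos (g * Am k))) ^ (2 / 3 : ℝ)) := by
          ring
      _ ≤ (98 / 100) ^ n * (98 / 100 * (yy 1 (pos g)) ^ (2 / 3 : ℝ)) := by gcongr
      _ = _ := by ring

/-- almost surely the two thirds powers of `1 / (2 NN)` are summable -/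
theorem ae_summable (k_ineq_g : KIneqG) : ∀ᵐ s ∂steps,
    Summable fun n => (1 / (2 * NN (walk s n))) ^ (2 / 3 : ℝ) := by
  have h1 : ∫⁻ s, ∑' n, ENNReal.ofReal ((yy 1 (pos (walk s n))) ^ (2 / 3 : ℝ)) ∂steps ≠ ⊤ := by
    rw [lintegral_tsum fun n => (measurable_walk n fun h =>
      ENNReal.ofReal ((yy 1 (pos h)) ^ (2 / 3 : ℝ))).aemeasurable]
    have h2 : ∀ n, ∫⁻ s, ENNReal.ofReal ((yy 1 (pos (walk s n))) ^ (2 / 3 : ℝ)) ∂steps ≤
        ENNReal.ofReal ((98 / 100) ^ n * (yy 1 (pos 1)) ^ (2 / 3 : ℝ)) := by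
      intro n
      have := moment k_ineq_g n 1 IsLor.one
      simpa using this
    refine ne_top_of_le_ne_top ?_ (ENNReal.tsum_le_tsum h2)
    refine Summable.tsum_ofReal_ne_top ?_
    exact (summable_geometric_of_lt_one (by norm_num) (by norm_num)).mul_right _
  have h3 := ae_lt_top' (Measurable.aemeasurable (Measurable.tsum fun n =>
    measurable_walk n fun h => ENNReal.ofReal ((yy 1 (pos h)) ^ (2 / 3 : ℝ)))) h1
  filter_upwards [h3] with s hs
  have h4 : Summable fun n => (yy 1 (pos (walk s n))) ^ (2 / 3 : ℝ) := by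
    have h5 : ∀ n, 0 ≤ (yy 1 (pos (walk s n))) ^ (2 / 3 : ℝ) := fun n =>
      Real.rpow_nonneg (yy_nonneg (isLor_walk s n) (by simp)) _
    have := ENNReal.summable_toReal hs.ne
    refine this.congr fun n => ?_
    rw [ENNReal.toReal_ofReal (h5 n)]
  refine Summable.of_nonneg_of_le (fun n => ?_) (fun n => ?_) h4
  · have := (isLor_walk s n).one_le_NN
    positivity
  · have hL := isLor_walk s n
    have h6 := hL.one_le_NN
    refine Real.rpow_le_rpow (by positivity) ?_ (by norm_num)
    rw [yy]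
    exact one_div_le_one_div_of_le (Bf_nn_pos hL.pos_self hL.fut (by simp))
      (Bf_nn_bounds hL.pos_self hL.fut (by simp)).2

/-! ### Klein points -/

/-- the Klein point -/
noncomputable def kl (g : M3) : ℂ := Wf (pos g) / (Zf (pos g) : ℂ)

theorem pos_eq_nn {g : M3} (hg : IsLor g) : pos g = NN g • nn (kl g) := by
  have h0 : (Zf (pos g) : ℂ) ≠ 0 := by
    have := hg.fut
    exact_mod_cast (this.ne' : Zf (pos g) ≠ 0)
  apply ext_WZ
  · rw [Wf_smul, Wf_nn, kl, NN]
    field_simp
  · rw [Zf_smul, Zf_nn, NN, mul_one]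

theorem kl_mul (A : M3) {g : M3} (hg : IsLor g) : kl (A * g) = act A (kl g) := by
  have h0 : (NN g : ℂ) ≠ 0 := by exact_mod_cast hg.fut.ne'
  rw [kl, pos_mul, pos_eq_nn hg, Matrix.mulVec_smul, Wf_smul, Zf_smul, act]
  push_cast
  rw [mul_div_mul_left _ _ h0]

theorem normSq_kl {g : M3} (hg : IsLor g) : ‖kl g‖ ^ 2 = 1 - 1 / NN g ^ 2 := by
  have h1 := Bf_self (pos g)
  rw [hg.pos_self] at h1
  have h0 : Zf (pos g) ≠ 0 := hg.fut.ne'
  rw [kl, norm_div, Complex.norm_real, Real.norm_eq_abs, div_pow, sq_abs, NN]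
  field_simp
  linarith

theorem kl_step {g : M3} (hg : IsLor g) (k : Fin 7) :
    ‖kl g - kl (g * Am k)‖ ≤ 2 * cc / NN g := by
  have hh := hg.mul (isLor_Am k)
  have hB := hg.Bf_step k
  have hp := hg.pos_self
  have hq := hh.pos_self
  set p := pos g with hpdef
  set q := pos (g * Am k) with hqdef
  have hZp : 0 < Zf p := hg.fut
  have hZq : 0 < Zf q := hh.fut
  have hN : NN g = Zf p := rfl
  have hc := cc_pos
  -- `Zf p ≤ 2 cc Zf q`
  have hZ : Zf p ≤ 2 * cc * Zf q := by
    -- `cc = Bf p q >= Zf p Zf q - |Wf p| |Wf q|`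
    have h1 := Bf_ge p q
    rw [hB] at h1
    have h2 := Bf_self p
    have h3 := Bf_self q
    rw [hp] at h2
    rw [hq] at h3
    have h4 : 0 ≤ ‖Wf p‖ := norm_nonneg _
    have h5 : 0 ≤ ‖Wf q‖ := norm_nonneg _
    have h6 : ‖Wf p‖ ≤ Zf p := (norm_Wf_lt hp hZp).le
    have h7 : ‖Wf q‖ ≤ Zf q := (norm_Wf_lt hq hZq).le
    -- `Zf p Zf q - |Wf p||Wf q| >= Zf p (Zf q - |Wf q|) = Zf p / (Zf q + |Wf q|) >= Zf p / (2 Zf q)`
    have h8 : Zf p * (Zf q - ‖Wf q‖) ≤ cc := by nlinarith
    have h9 : (Zf q - ‖Wf q‖) * (Zf q + ‖Wf q‖) = 1 := by nlinarith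
    have h10 : Zf p = Zf p * (Zf q - ‖Wf q‖) * (Zf q + ‖Wf q‖) := by
      rw [mul_assoc, h9, mul_one]
    rw [h10]
    have h11 : 0 ≤ Zf p * (Zf q - ‖Wf q‖) := mul_nonneg hZp.le (by linarith)
    nlinarith
  have key : ‖kl g - kl (g * Am k)‖ ^ 2 ≤ (2 * cc / NN g) ^ 2 := by
    have e1 : ‖kl g - kl (g * Am k)‖ ^ 2 =
        ‖kl g‖ ^ 2 + ‖kl (g * Am k)‖ ^ 2 - 2 * (kl g * conj (kl (g * Am k))).re := by
      rw [← Complex.normSq_eq_norm_sq, ← Complex.normSq_eq_norm_sq, ← Complex.normSq_eq_norm_sq,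
        Complex.normSq_sub]
    have e2 : (kl g * conj (kl (g * Am k))).re = (Wf p * conj (Wf q)).re / (Zf p * Zf q) := by
      have : kl g * conj (kl (g * Am k)) = (Wf p * conj (Wf q)) / ((Zf p * Zf q : ℝ) : ℂ) := by
        rw [kl, kl, map_div₀, Complex.conj_ofReal]
        push_cast
        rw [div_mul_div_comm]
      rw [this, Complex.div_ofReal_re]
    have e3 : (Wf p * conj (Wf q)).re = Zf p * Zf q - cc := by
      have := hB
      unfold Bf at this
      linarith
    rw [e1, normSq_kl hg, normSq_kl hh, e2, e3, hN]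
    have hN' : NN (g * Am k) = Zf q := rfl
    rw [hN']
    have e4 : 1 - 1 / Zf p ^ 2 + (1 - 1 / Zf q ^ 2) - 2 * ((Zf p * Zf q - cc) / (Zf p * Zf q)) =
        2 * cc / (Zf p * Zf q) - 1 / Zf p ^ 2 - 1 / Zf q ^ 2 := by
      field_simp
      ring
    rw [e4]
    have e5 : 2 * cc / (Zf p * Zf q) ≤ (2 * cc / Zf p) ^ 2 := by
      rw [div_pow, div_le_div_iff₀ (by positivity) (by positivity)]
      have : Zf p * (2 * cc * Zf p) ≤ (2 * cc * Zf q) * (2 * cc * Zf p) :=
        mul_le_mul_of_nonneg_right hZ (by positivity)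
      nlinarith
    have e6 : 0 ≤ 1 / Zf p ^ 2 := by positivity
    have e7 : 0 ≤ 1 / Zf q ^ 2 := by positivity
    linarith
  have hr : 0 ≤ 2 * cc / NN g := by rw [hN]; positivity
  exact le_of_sq_le_sq key hr

theorem tendsto_NN {s : ℕ → Fin 7}
    (h : Summable fun n => (1 / (2 * NN (walk s n))) ^ (2 / 3 : ℝ)) :
    Tendsto (fun n => NN (walk s n)) atTop atTop := by
  have h1 := h.tendsto_atTop_zero
  have hN : ∀ n, 0 < NN (walk s n) := fun n => (isLor_walk s n).fut
  have h2 : Tendsto (fun n => ((1 / (2 * NN (walk s n))) ^ (2 / 3 : ℝ)) ^ (3 / 2 : ℝ)) atTop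
      (𝓝 0) := by
    have := h1.rpow_const (p := 3 / 2) (Or.inr (by norm_num))
    rwa [Real.zero_rpow (by norm_num)] at this
  have h3 : Tendsto (fun n => 1 / (2 * NN (walk s n))) atTop (𝓝 0) := by
    refine h2.congr fun n => ?_
    rw [← Real.rpow_mul (by have := hN n; positivity)]
    norm_num
  have h4 : Tendsto (fun n => (1 / (2 * NN (walk s n)))⁻¹) atTop atTop :=
    Tendsto.comp tendsto_inv_nhdsGT_zero (tendsto_nhdsWithin_iff.2 ⟨h3,
      Eventually.of_forall fun n => by have := hN n; exact Set.mem_Ioi.2 (by positivity)⟩)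
  have h5 : Tendsto (fun n => (1 / (2 * NN (walk s n)))⁻¹ * (1 / 2)) atTop atTop :=
    h4.atTop_mul_const (by norm_num)
  refine h5.congr fun n => ?_
  have := (hN n).ne'
  field_simp

theorem tendsto_kl {s : ℕ → Fin 7}
    (h : Summable fun n => (1 / (2 * NN (walk s n))) ^ (2 / 3 : ℝ)) :
    ∃ ζ : ℂ, ‖ζ‖ = 1 ∧ Tendsto (fun n => kl (walk s n)) atTop (𝓝 ζ) := by
  have hN : ∀ n, 1 ≤ NN (walk s n) := fun n => (isLor_walk s n).one_le_NN
  have hsum : Summable fun n => dist (kl (walk s n)) (kl (walk s (n + 1))) := by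
    refine Summable.of_nonneg_of_le (fun _ => dist_nonneg) (fun n => ?_) (h.mul_left (4 * cc))
    rw [dist_eq_norm]
    refine (kl_step (isLor_walk s n) (s n)).trans ?_
    have h1 := hN n
    have h2 : (1 / (2 * NN (walk s n))) ≤ (1 / (2 * NN (walk s n))) ^ (2 / 3 : ℝ) := by
      apply Real.self_le_rpow_of_le_one
      · positivity
      · rw [div_le_one (by positivity)]; linarith
      · norm_num
    have h3 : 2 * cc / NN (walk s n) = 4 * cc * (1 / (2 * NN (walk s n))) := by
      field_simp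
      ring
    rw [h3]
    exact mul_le_mul_of_nonneg_left h2 (by have := cc_pos; positivity)
  obtain ⟨ζ, hζ⟩ := cauchySeq_tendsto_of_complete (cauchySeq_of_summable_dist hsum)
  refine ⟨ζ, ?_, hζ⟩
  have h1 : Tendsto (fun n => ‖kl (walk s n)‖ ^ 2) atTop (𝓝 (‖ζ‖ ^ 2)) := (hζ.norm).pow 2
  have h2 : Tendsto (fun n => ‖kl (walk s n)‖ ^ 2) atTop (𝓝 1) := by
    have h3 : Tendsto (fun n => 1 - 1 / NN (walk s n) ^ 2) atTop (𝓝 (1 - 0)) := by
      apply Tendsto.const_sub
      have h4 : Tendsto (fun n => NN (walk s n) ^ 2) atTop atTop :=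
        (tendsto_pow_atTop (by norm_num)).comp (tendsto_NN h)
      refine h4.inv_tendsto_atTop.congr fun n => ?_
      rw [Pi.inv_apply, one_div]
    rw [sub_zero] at h3
    exact h3.congr fun n => (normSq_kl (isLor_walk s n)).symm
  have h5 := tendsto_nhds_unique h1 h2
  have h6 : (‖ζ‖ - 1) * (‖ζ‖ + 1) = 0 := by linear_combination h5
  rcases mul_eq_zero.1 h6 with h7 | h7
  · linarith
  · have := norm_nonneg ζ
    linarith

/-! ### the action is measurable and continuous where it is defined -/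

theorem continuous_nn : Continuous nn := by
  unfold nn vec
  refine continuous_pi fun i => ?_
  fin_cases i <;> simp <;> fun_prop

theorem continuous_Zf_act (g : M3) : Continuous fun ζ => Zf (g.mulVec (nn ζ)) := by
  have h1 : Continuous fun ζ => g.mulVec (nn ζ) := by
    exact (Continuous.matrix_mulVec continuous_const continuous_nn)
  have h2 : Continuous Zf := by unfold Zf; fun_prop
  exact h2.comp h1

theorem continuous_Wf_act (g : M3) : Continuous fun ζ => Wf (g.mulVec (nn ζ)) := by
  have h1 : Continuous fun ζ => g.mulVec (nn ζ) := by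
    exact (Continuous.matrix_mulVec continuous_const continuous_nn)
  have h2 : Continuous Wf := by unfold Wf; fun_prop
  exact h2.comp h1

theorem measurable_act' (g : M3) : Measurable (act g) := by
  unfold act
  exact (continuous_Wf_act g).measurable.div
    (Complex.measurable_ofReal.comp (continuous_Zf_act g).measurable)

theorem continuousAt_act {g : M3} (hg : IsLor g) {ζ : ℂ} (hζ : ‖ζ‖ = 1) :
    ContinuousAt (act g) ζ := by
  unfold act
  refine (continuous_Wf_act g).continuousAt.div
    (Complex.continuous_ofReal.continuousAt.comp (continuous_Zf_act g).continuousAt) ?_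
  have : (lam g ζ : ℂ) ≠ 0 := by exact_mod_cast (hg.lam_pos hζ).ne'
  exact this

theorem limit_exists_of (k_ineq_g : KIneqG) : ∃ X : (ℕ → Fin 7) → ℂ, Measurable X ∧
    (∀ᵐ s ∂steps, ‖X s‖ = 1 ∧
      Tendsto (fun n => Wf (pos (walk s n)) / (Zf (pos (walk s n)) : ℂ)) atTop (𝓝 (X s)) ∧
      Tendsto (fun n => NN (walk s n)) atTop atTop) ∧
    Stat (steps.map X) := by
  classical
  let X : (ℕ → Fin 7) → ℂ := fun s => limUnder atTop fun n => kl (walk s n)
  have hX : Measurable X := by
    have h1 : ∀ n, StronglyMeasurable fun s : ℕ → Fin 7 => kl (walk s n) := fun n =>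
      (measurable_walk n kl).stronglyMeasurable
    exact (StronglyMeasurable.limUnder h1).measurable
  have hlim : ∀ {s : ℕ → Fin 7} {ζ : ℂ}, Tendsto (fun n => kl (walk s n)) atTop (𝓝 ζ) →
      X s = ζ := fun h => h.limUnder_eq
  have hae : ∀ᵐ s ∂steps, ‖X s‖ = 1 ∧ Tendsto (fun n => kl (walk s n)) atTop (𝓝 (X s)) ∧
      Tendsto (fun n => NN (walk s n)) atTop atTop := by
    filter_upwards [ae_summable k_ineq_g] with s hs
    obtain ⟨ζ, hζ, hζ'⟩ := tendsto_kl hs
    rw [hlim hζ']
    exact ⟨hζ, hζ', tendsto_NN hs⟩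
  refine ⟨X, hX, hae, ?_, ?_, ?_⟩
  · exact Measure.isProbabilityMeasure_map hX.aemeasurable
  · rw [ae_map_iff hX.aemeasurable
      (measurableSet_eq_fun continuous_norm.measurable measurable_const)]
    exact hae.mono fun s h => h.1
  · intro B hB
    have hcons : ∀ k : Fin 7, ∀ᵐ s ∂steps, X (consq (k, s)) = act (Am k) (X s) := by
      intro k
      filter_upwards [hae] with s hs
      apply hlim
      rw [← tendsto_add_atTop_iff_nat 1]
      refine ((continuousAt_act (isLor_Am k) hs.1).tendsto.comp hs.2.1).congr fun n => ?_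
      rw [Function.comp_apply, walk_consq, kl_mul _ (isLor_walk s n)]
    have h1 : (steps.map X) B = (7 : ℝ≥0∞)⁻¹ * ∑ k : Fin 7,
        (steps.map X) ((act (Am k)) ⁻¹' B) := by
      rw [Measure.map_apply hX hB, ← lintegral_indicator_one (hX hB),
        lintegral_steps _ (measurable_one.indicator (hX hB))]
      congr 1
      refine Finset.sum_congr rfl fun k _ => ?_
      have hm := measurable_act' (Am k) hB
      rw [Measure.map_apply hX hm, ← lintegral_indicator_one (hX hm)]
      refine lintegral_congr_ae ?_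
      filter_upwards [hcons k] with s hs
      simp only [Set.indicator, Set.mem_preimage, hs, Pi.one_apply]
    rw [measureReal_def, h1, ENNReal.toReal_mul, ENNReal.toReal_sum (fun k _ => measure_ne_top _ _)]
    · simp [measureReal_def]

end Pool.Agent.K7
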