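import Pool.Agent.Work.MP_7596a5_pr.Holder
import Pool.Agent.Work.MP_7596a5_pr.Dense
import Pool.Agent.Work.MP_7596a5_pr.FinGam
import Pool.Agent.Work.MP_7596a5_pr.Diff

/-!
# Singularity of the stationary measures
-/

namespace Pool.Agent.K7

open MeasureTheory Metric Filter Topology
open scoped ComplexConjugate

/-! ### geometry near a point -/

/-- the conformal factor is at least `NN x / 2` on the `1/2`-ball around a point where it is at
least `NN x` -/
theorem IsLor.lam_near {x : M3} (hx : IsLor x) {ξ η : ℂ} (hl : NN x ≤ lam x η) {δ : ℝ}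
    (hδ : δ ≤ 1 / 2) (hd : ‖ξ - η‖ ≤ δ) : NN x / 2 ≤ lam x ξ := by
  obtain ⟨y, hy, hyx, hxy⟩ := hx.exists_inv
  have e1 : ∀ v : E, Zf (x.mulVec v) = Bf (pos y) v := by
    intro v
    have h1 := hx.form (pos y) v
    have h2 : x.mulVec (pos y) = p0 := by
      rw [← pos_mul, hxy, pos_one]
    rw [h2, Bf_p0_left] at h1
    exact h1
  have e2 : Zf (pos y) = NN x := by
    have h1 := e1 p0
    rw [Bf_p0_right] at h1
    exact h1.symm
  have e3 : lam x ξ = Zf (pos y) - (Wf (pos y) * conj ξ).re := by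
    unfold lam
    rw [e1]
    unfold Bf
    rw [Zf_nn, Wf_nn, mul_one]
  have e4 : lam x η = Zf (pos y) - (Wf (pos y) * conj η).re := by
    unfold lam
    rw [e1]
    unfold Bf
    rw [Zf_nn, Wf_nn, mul_one]
  have h1 : (Wf (pos y) * conj (ξ - η)).re ≤ NN x * δ := by
    refine (Complex.re_le_norm _).trans ?_
    rw [norm_mul, Complex.norm_conj]
    have h2 := norm_Wf_lt hy.pos_self hy.fut
    rw [e2] at h2
    exact mul_le_mul h2.le hd (norm_nonneg _) hx.fut.le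
  have h3 : (Wf (pos y) * conj (ξ - η)).re = (Wf (pos y) * conj ξ).re - (Wf (pos y) * conj η).re := by
    rw [map_sub, mul_sub, Complex.sub_re]
  have h4 : NN x * δ ≤ NN x * (1 / 2) := mul_le_mul_of_nonneg_left hδ hx.fut.le
  linarith

variable {ν : Measure ℂ}

/-- a small ball seen from `x` -/
theorem Stat.near_mass (h : Stat ν) {x : M3} (hx : IsLor x) (hN : 2 ≤ NN x) {η : ℂ}
    (hη : ‖η‖ = 1) {δ : ℝ} (hδ0 : 0 < δ) (hδ : δ ≤ 1 / 2) {r : ℝ} (hr : 1 / NN x ≤ r) :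
    ∃ w : ℂ, ‖w‖ = 1 ∧ ‖w - dir (pos x)‖ ≤ 2 * r ∧
      ν.real (closedBall η δ) ≤ fB ν (closedBall w (2 * δ * r)) x := by
  have := h.prob
  obtain ⟨k, hk⟩ := exists_lam x η
  have hη' := norm_om_pow_mul k hη
  have hN0 : 0 < NN x := hx.fut
  have hr0 : 0 < r := lt_of_lt_of_le (by positivity) hr
  refine ⟨act x (om ^ (k : ℕ) * η), hx.norm_act hη', ?_, ?_⟩
  · refine (hx.shadow hN hη' hk).trans ?_
    rw [show 2 / NN x = 2 * (1 / NN x) by ring]
    linarith
  · have h1 : ν.real (closedBall η δ) = ν.real (closedBall (om ^ (k : ℕ) * η) δ) := by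
      rw [← h.rot (B := closedBall (om ^ (k : ℕ) * η) δ) measurableSet_closedBall k]
      congr 1
      ext z
      simp only [mem_closedBall, Set.mem_preimage, dist_eq_norm]
      rw [← mul_sub, norm_mul, norm_pow, norm_om, one_pow, one_mul]
    rw [h1]
    unfold fB Measure.real
    apply ENNReal.toReal_mono (measure_ne_top _ _)
    apply measure_mono_ae
    filter_upwards [h.circ] with ξ hξ hξB
    have hξB' : ‖ξ - om ^ (k : ℕ) * η‖ ≤ δ := by
      rw [← dist_eq_norm]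
      exact hξB
    change dist (act x ξ) (act x (om ^ (k : ℕ) * η)) ≤ 2 * δ * r
    rw [dist_eq_norm]
    have h2 := hx.chord hξ hη'
    have h3 := hx.lam_near hk hδ hξB'
    have h4 : NN x / 2 * NN x ≤ lam x ξ * lam x (om ^ (k : ℕ) * η) :=
      mul_le_mul h3 hk hN0.le (hx.lam_pos hξ).le
    have h5 : (‖act x ξ - act x (om ^ (k : ℕ) * η)‖ * NN x) ^ 2 ≤ (2 * δ) ^ 2 := by
      have h6 := mul_le_mul_of_nonneg_left h4
        (sq_nonneg ‖act x ξ - act x (om ^ (k : ℕ) * η)‖)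
      rw [h2] at h6
      have h7 : ‖ξ - om ^ (k : ℕ) * η‖ ^ 2 ≤ δ ^ 2 := pow_le_pow_left₀ (norm_nonneg _) hξB' 2
      nlinarith
    have h6 := (abs_le_of_sq_le_sq' h5 (by positivity)).2
    have h7 : 1 ≤ NN x * r := by
      rw [div_le_iff₀ hN0] at hr
      linarith
    have h8 : 0 ≤ ‖act x ξ - act x (om ^ (k : ℕ) * η)‖ := norm_nonneg _
    calc ‖act x ξ - act x (om ^ (k : ℕ) * η)‖
        ≤ ‖act x ξ - act x (om ^ (k : ℕ) * η)‖ * (NN x * r) := le_mul_of_one_le_right h8 h7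
      _ = (‖act x ξ - act x (om ^ (k : ℕ) * η)‖ * NN x) * r := by ring
      _ ≤ 2 * δ * r := mul_le_mul_of_nonneg_right h6 hr0.le

/-- far endpoints -/
theorem Stat.far_bound (h : Stat ν) {C : ℝ} (hC : 0 < C)
    (hCb : ∀ ζ : ℂ, ∀ δ : ℝ, 0 < δ → ν.real (closedBall ζ δ) ≤ C * δ ^ (2 / 3 : ℝ))
    {x : M3} (hx : IsLor x) (hN : 2 ≤ NN x) {r : ℝ} (hr : 1 / NN x ≤ r) {ζ : ℂ} {j : ℕ}
    (hj : 1 ≤ j) (hD : 8 ^ j * r < ‖dir (pos x) - ζ‖) :
    fB ν (closedBall ζ r) x ≤ 16 * C * (1 / 16) ^ j := by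
  have hN0 : 0 < NN x := hx.fut
  have hr0 : 0 < r := lt_of_lt_of_le (by positivity) hr
  set D := ‖dir (pos x) - ζ‖ with hDdef
  have h8 : (8 : ℝ) ≤ 8 ^ j := by
    calc (8 : ℝ) = 8 ^ 1 := by norm_num
      _ ≤ 8 ^ j := pow_le_pow_right₀ (by norm_num) hj
  have hD8 : 8 * r < D := lt_of_le_of_lt (mul_le_mul_of_nonneg_right h8 hr0.le) hD
  have hD0 : 0 < D := by linarith
  have h1 : ∀ η : ℂ, ‖η‖ = 1 → η ∈ closedBall ζ r → D ^ 2 / (16 * r) ≤ Bf (pos x) (nn η) := by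
    intro η hη hηI
    have h2 := Bf_nn_dir hx.pos_self hx.fut hη
    have h3 : NN x / 2 ≤ ‖Wf (pos x)‖ := half_NN_le hx.pos_self hN
    have h4 : D / 2 ≤ ‖η - dir (pos x)‖ := by
      have h5 : dir (pos x) - ζ = (η - ζ) - (η - dir (pos x)) := by ring
      have h6 := norm_sub_le (η - ζ) (η - dir (pos x))
      rw [← h5, ← hDdef] at h6
      have h7 : ‖η - ζ‖ ≤ r := by
        rw [← dist_eq_norm]
        exact hηI
      linarith
    have h5 : (D / 2) ^ 2 ≤ ‖η - dir (pos x)‖ ^ 2 := pow_le_pow_left₀ (by positivity) h4 2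
    have h6 : NN x / 2 * (D / 2) ^ 2 ≤ ‖Wf (pos x)‖ * ‖η - dir (pos x)‖ ^ 2 :=
      mul_le_mul h3 h5 (by positivity) (norm_nonneg _)
    have h7 : D ^ 2 / (16 * r) ≤ NN x / 2 * (D / 2) ^ 2 / 2 := by
      rw [div_le_iff₀ (by positivity)]
      have h9 : 1 ≤ NN x * r := by
        rw [div_le_iff₀ hN0] at hr
        linarith
      nlinarith [sq_nonneg D]
    linarith
  have h2 := fun ξ ξ' (hξ : ‖ξ‖ = 1) (hξ' : ‖ξ'‖ = 1) h3 h4 =>
    hx.preimage_diam (I := closedBall ζ r) (m := D ^ 2 / (16 * r)) (d := 2 * r) (by positivity)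
      h1 (fun η η' _ _ h3 h4 => by
        rw [← dist_eq_norm]
        have := dist_triangle_right η η' ζ
        rw [mem_closedBall] at h3 h4
        linarith) hξ hξ' h3 h4 (ξ := ξ) (ξ' := ξ')
  have h3 : fB ν (closedBall ζ r) x ≤ C * (64 * r ^ 2 / D ^ 2) ^ (2 / 3 : ℝ) := by
    apply h.real_le_ball (t := 64 * r ^ 2 / D ^ 2) (by positivity)
    · intro ξ ξ' hξ hξ' h3 h4
      refine (h2 ξ ξ' hξ hξ' h3 h4).trans_lt ?_
      have : 2 * r / (D ^ 2 / (16 * r)) = 32 * r ^ 2 / D ^ 2 := by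
        field_simp
        ring
      rw [this]
      apply div_lt_div_of_pos_right _ (by positivity)
      nlinarith [sq_pos_of_pos hr0]
    · intro ξ _
      have := h.prob
      exact (measureReal_mono ball_subset_closedBall).trans (hCb ξ _ (by positivity))
  refine h3.trans ?_
  have h4 : (64 * r ^ 2 / D ^ 2) ≤ 64 * ((1 / 8) ^ j) ^ 2 := by
    rw [div_le_iff₀ (by positivity)]
    have h5 : (8 ^ j * r) ^ 2 ≤ D ^ 2 := pow_le_pow_left₀ (by positivity) hD.le 2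
    have h6 : ((1 / 8 : ℝ) ^ j) ^ 2 * (8 ^ j * r) ^ 2 = r ^ 2 := by
      rw [← mul_pow, ← mul_assoc, ← mul_pow]
      norm_num
    have h7 := mul_le_mul_of_nonneg_left h5 (sq_nonneg ((1 / 8 : ℝ) ^ j))
    rw [h6] at h7
    linarith
  have h5 : (64 * r ^ 2 / D ^ 2) ^ (2 / 3 : ℝ) ≤ 16 * (1 / 16) ^ j := by
    refine (Real.rpow_le_rpow (by positivity) h4 (by norm_num)).trans (le_of_eq ?_)
    have h6 : (64 : ℝ) * ((1 / 8) ^ j) ^ 2 = (4 * (1 / 4) ^ j) ^ 3 := by
      rw [mul_pow, ← pow_mul, ← pow_mul, mul_comm j 2, mul_comm j 3, pow_mul, pow_mul]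
      norm_num
    have h7 : ((4 * (1 / 4 : ℝ) ^ j) ^ 3) ^ (2 / 3 : ℝ) = (4 * (1 / 4 : ℝ) ^ j) ^ 2 := by
      have hb : (0 : ℝ) ≤ 4 * (1 / 4 : ℝ) ^ j := by positivity
      rw [← Real.rpow_natCast (4 * (1 / 4 : ℝ) ^ j) 3, ← Real.rpow_mul hb, ← Real.rpow_natCast]
      norm_num
    rw [h6, h7, mul_pow, ← pow_mul, mul_comm j 2, pow_mul]
    norm_num
  calc C * (64 * r ^ 2 / D ^ 2) ^ (2 / 3 : ℝ) ≤ C * (16 * (1 / 16) ^ j) :=
        mul_le_mul_of_nonneg_left h5 hC.le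
    _ = 16 * C * (1 / 16) ^ j := by ring

/-! ### the number of near endpoints -/

/-- two points at height about `1/r` over the same arc of length about `K r` are close -/
theorem near_Bf {p q : E} (hp : Bf p p = 1) (hq : Bf q q = 1) {r K a : ℝ} (hr : 0 < r)
    (hp1 : 1 / r ≤ Zf p) (hp2 : Zf p ≤ a / r) (hq1 : 1 / r ≤ Zf q) (hq2 : Zf q ≤ a / r)
    (hp2' : 2 ≤ Zf p) (hq2' : 2 ≤ Zf q) (hd : ‖dir p - dir q‖ ≤ K * r) :
    Bf p q ≤ 2 * a ^ 2 + a ^ 2 * K ^ 2 / 2 := by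
  have hWp := half_NN_le hp hp2'
  have hWq := half_NN_le hq hq2'
  have hWp0 : 0 < ‖Wf p‖ := by linarith
  have hWq0 : 0 < ‖Wf q‖ := by linarith
  have hdp := norm_dir (norm_pos_iff.1 hWp0)
  have hdq := norm_dir (norm_pos_iff.1 hWq0)
  have ep : (‖Wf p‖ : ℂ) * dir p = Wf p := by
    unfold dir
    rw [mul_div_cancel₀]
    exact_mod_cast hWp0.ne'
  have eq : (‖Wf q‖ : ℂ) * dir q = Wf q := by
    unfold dir
    rw [mul_div_cancel₀]
    exact_mod_cast hWq0.ne'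
  have h1 : ‖dir p - dir q‖ ^ 2 = 2 - 2 * (dir p * conj (dir q)).re := by
    rw [← Complex.normSq_eq_norm_sq, Complex.normSq_sub, Complex.normSq_eq_norm_sq,
      Complex.normSq_eq_norm_sq, hdp, hdq]
    ring
  have h2 : (Wf p * conj (Wf q)).re = ‖Wf p‖ * ‖Wf q‖ * (dir p * conj (dir q)).re := by
    have : Wf p * conj (Wf q) = ((‖Wf p‖ * ‖Wf q‖ : ℝ) : ℂ) * (dir p * conj (dir q)) := by
      conv_lhs => rw [← ep, ← eq]
      rw [map_mul, Complex.conj_ofReal]
      push_cast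
      ring
    rw [this, Complex.re_ofReal_mul]
  have h3 : Bf p q = (Zf p * Zf q - ‖Wf p‖ * ‖Wf q‖) + ‖Wf p‖ * ‖Wf q‖ * ‖dir p - dir q‖ ^ 2 / 2 := by
    rw [h1]
    unfold Bf
    rw [h2]
    ring
  have hp' := hp
  have hq' := hq
  rw [Bf_self] at hp' hq'
  have hWpZ : ‖Wf p‖ ≤ Zf p := (norm_Wf_lt hp (by linarith)).le
  have hWqZ : ‖Wf q‖ ≤ Zf q := (norm_Wf_lt hq (by linarith)).le
  have hZp : 0 < Zf p := by linarith
  have hZq : 0 < Zf q := by linarith
  have ha : 1 ≤ a := by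
    have := hp1.trans hp2
    rw [div_le_div_iff_of_pos_right hr] at this
    exact this
  have hp3 : 1 ≤ Zf p * r := by rwa [div_le_iff₀ hr] at hp1
  have hq3 : 1 ≤ Zf q * r := by rwa [div_le_iff₀ hr] at hq1
  have hp4 : Zf p * r ≤ a := by rwa [le_div_iff₀ hr] at hp2
  have hq4 : Zf q * r ≤ a := by rwa [le_div_iff₀ hr] at hq2
  -- first part
  have h4 : Zf p * Zf q - ‖Wf p‖ * ‖Wf q‖ ≤ 2 * a ^ 2 := by
    have h5 : (Zf p * Zf q - ‖Wf p‖ * ‖Wf q‖) * (Zf p * Zf q + ‖Wf p‖ * ‖Wf q‖)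
        ≤ Zf p ^ 2 + Zf q ^ 2 := by
      have h6 : (Zf p * Zf q - ‖Wf p‖ * ‖Wf q‖) * (Zf p * Zf q + ‖Wf p‖ * ‖Wf q‖)
          = Zf p ^ 2 * Zf q ^ 2 - ‖Wf p‖ ^ 2 * ‖Wf q‖ ^ 2 := by ring
      have e1 : ‖Wf p‖ ^ 2 = Zf p ^ 2 - 1 := by linarith
      have e2 : ‖Wf q‖ ^ 2 = Zf q ^ 2 - 1 := by linarith
      rw [h6, e1, e2]
      nlinarith
    have h7 : 0 ≤ Zf p * Zf q - ‖Wf p‖ * ‖Wf q‖ := by
      have := mul_le_mul hWpZ hWqZ (norm_nonneg _) hZp.le
      linarith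
    have h8 : (Zf p * Zf q - ‖Wf p‖ * ‖Wf q‖) * (Zf p * Zf q) ≤ Zf p ^ 2 + Zf q ^ 2 := by
      have h9 : 0 ≤ (Zf p * Zf q - ‖Wf p‖ * ‖Wf q‖) * (‖Wf p‖ * ‖Wf q‖) := by positivity
      nlinarith
    have h9 : 1 ≤ (Zf p * r) * (Zf q * r) := by nlinarith
    have h10 : (Zf p * Zf q - ‖Wf p‖ * ‖Wf q‖) * ((Zf p * r) * (Zf q * r))
        ≤ (Zf p * r) ^ 2 + (Zf q * r) ^ 2 := by
      have := mul_le_mul_of_nonneg_right h8 (sq_nonneg r)
      nlinarith
    have h11 : (Zf p * r) ^ 2 ≤ a ^ 2 := pow_le_pow_left₀ (by positivity) hp4 2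
    have h12 : (Zf q * r) ^ 2 ≤ a ^ 2 := pow_le_pow_left₀ (by positivity) hq4 2
    have h13 : (Zf p * Zf q - ‖Wf p‖ * ‖Wf q‖)
        ≤ (Zf p * Zf q - ‖Wf p‖ * ‖Wf q‖) * ((Zf p * r) * (Zf q * r)) :=
      le_mul_of_one_le_right h7 h9
    linarith
  -- second part
  have h5 : ‖Wf p‖ * ‖Wf q‖ * ‖dir p - dir q‖ ^ 2 / 2 ≤ a ^ 2 * K ^ 2 / 2 := by
    have h6 : ‖dir p - dir q‖ ^ 2 ≤ (K * r) ^ 2 := pow_le_pow_left₀ (norm_nonneg _) hd 2
    have h7 : ‖Wf p‖ * ‖Wf q‖ ≤ Zf p * Zf q := mul_le_mul hWpZ hWqZ (norm_nonneg _) hZp.le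
    have h8 : ‖Wf p‖ * ‖Wf q‖ * ‖dir p - dir q‖ ^ 2 ≤ Zf p * Zf q * (K * r) ^ 2 :=
      mul_le_mul h7 h6 (sq_nonneg _) (by positivity)
    have h9 : Zf p * Zf q * (K * r) ^ 2 = ((Zf p * r) * (Zf q * r)) * K ^ 2 := by ring
    have h10 : (Zf p * r) * (Zf q * r) ≤ a * a :=
      mul_le_mul hp4 hq4 (by positivity) (by linarith)
    have h11 : ((Zf p * r) * (Zf q * r)) * K ^ 2 ≤ a * a * K ^ 2 :=
      mul_le_mul_of_nonneg_right h10 (sq_nonneg K)
    linarith
  linarith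

/-- one step multiplies the height by at most `2 cc` -/
theorem IsLor.NN_step {x : M3} (hx : IsLor x) (k : Fin 7) : NN (x * Am k) ≤ 2 * cc * NN x := by
  have hy := hx.mul (isLor_Am k)
  have h1 := hx.Bf_step k
  have h2 := Zf_le_of_Bf hx.pos_self hx.fut hy.pos_self hy.fut
  rw [h1] at h2
  unfold NN
  linarith

theorem geom_half (j0 J : ℕ) : ∑ j ∈ Finset.Ico j0 J, (1 / 2 : ℝ) ^ j ≤ 2 * (1 / 2) ^ j0 := by
  by_cases h : j0 ≤ J
  · have h1 : ∑ j ∈ Finset.Ico j0 J, (1 / 2 : ℝ) ^ j = 2 * (1 / 2) ^ j0 - 2 * (1 / 2) ^ J := by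
      induction J, h using Nat.le_induction with
      | base => simp
      | succ J hJ ih =>
        rw [Finset.sum_Ico_succ_top hJ, ih, pow_succ]
        ring
    rw [h1]
    have : (0 : ℝ) ≤ (1 / 2 : ℝ) ^ J := by positivity
    linarith
  · push Not at h
    rw [Finset.Ico_eq_empty_of_le h.le, Finset.sum_empty]
    positivity

section Main

/-- the reachable states -/
def Reach (g : M3) (r : ℝ) (x : M3) : Prop :=
  IsLor x ∧ (∃ γ ∈ Gam, x = g * γ) ∧ NN x ≤ 2 * cc / r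

/-- stopping rule -/
def Stp (r : ℝ) (x : M3) : Prop := 1 / r ≤ NN x

theorem Reach.step {g : M3} {r : ℝ} (x : M3) (hx : Reach g r x) (hS : ¬ Stp r x)
    (k : Fin 7) : Reach g r (x * Am k) := by
  obtain ⟨h1, ⟨γ, hγ, h2⟩, h3⟩ := hx
  refine ⟨h1.mul (isLor_Am k), ⟨γ * Am k, Gam.mul_mem hγ (Am_mem k), by rw [h2, mul_assoc]⟩, ?_⟩
  refine (h1.NN_step k).trans ?_
  unfold Stp at hS
  push Not at hS
  rw [show 2 * cc / r = 2 * cc * (1 / r) by ring]
  exact mul_le_mul_of_nonneg_left hS.le (by linarith [cc_pos])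

/-- near endpoints -/
def Nr (g : M3) (r : ℝ) (ζ : ℂ) (K : ℝ) (x : M3) : Prop :=
  Reach g r x ∧ Stp r x ∧ ‖dir (pos x) - ζ‖ ≤ K * r

/-- the finite set of differences of near endpoints -/
noncomputable def FK (K : ℝ) : Finset M3 :=
  (finite_Gam (2 * (2 * cc) ^ 2 + (2 * cc) ^ 2 * (2 * K) ^ 2 / 2)).toFinset

theorem two_le_of_stp {r : ℝ} (hr0 : 0 < r) (hr2 : r ≤ 1 / 2) {x : M3} (h : Stp r x) :
    2 ≤ NN x := by
  unfold Stp at h
  refine le_trans ?_ h
  rw [le_div_iff₀ hr0]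
  linarith

theorem Nr.diff {g : M3} {r : ℝ} (hr0 : 0 < r) (hr2 : r ≤ 1 / 2) {ζ : ℂ} {K : ℝ}
    {x y : M3} (hx : Nr g r ζ K x) (hy : Nr g r ζ K y) : ∃ γ ∈ FK K, y = x * γ := by
  obtain ⟨⟨hx1, ⟨γ, hγ, hx2⟩, hx3⟩, hx4, hx5⟩ := hx
  obtain ⟨⟨hy1, ⟨γ', hγ', hy2⟩, hy3⟩, hy4, hy5⟩ := hy
  obtain ⟨h, hh, h1, h2⟩ := exists_inv_Gam hγ
  have hxy : y = x * (h * γ') := by
    rw [hx2, hy2, mul_assoc, ← mul_assoc γ, h2, one_mul]
  refine ⟨h * γ', ?_, hxy⟩
  unfold FK
  rw [Set.Finite.mem_toFinset]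
  refine ⟨Gam.mul_mem hh hγ', ?_⟩
  have h3 : NN (h * γ') = Bf (pos x) (pos y) := by
    rw [hxy, pos_mul]
    unfold pos
    rw [hx1.form, Bf_p0_left]
    rfl
  rw [h3]
  apply near_Bf hx1.pos_self hy1.pos_self hr0 hx4 hx3 hy4 hy3 (two_le_of_stp hr0 hr2 hx4)
    (two_le_of_stp hr0 hr2 hy4)
  have h4 : dir (pos x) - dir (pos y) = (dir (pos x) - ζ) - (dir (pos y) - ζ) := by ring
  rw [h4]
  refine (norm_sub_le _ _).trans ?_
  linarith

open Classical in
/-- the probability of a near endpoint -/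
theorem Stat.near_part (h : Stat ν) {g : M3} (hg : IsLor g) {r : ℝ} (hr0 : 0 < r)
    (hr2 : r ≤ 1 / 2) (hgr : NN g ≤ 2 * cc / r) {ζ : ℂ} {K : ℝ}
    {η : ℂ} (hη : ‖η‖ = 1) {δ : ℝ} (hδ0 : 0 < δ) (hδ : δ ≤ 1 / 2)
    (hb : 0 < ν.real (closedBall η δ)) {Q : ℝ} (hQ0 : 0 ≤ Q)
    (hQ : ∀ w, ‖w‖ = 1 → ‖w - ζ‖ ≤ (K + 2) * r → fB ν (closedBall w (2 * δ * r)) g ≤ Q) (n : ℕ) :
    TT (Stp r) n (fun x => if Nr g r ζ K x then 1 else 0) g
      ≤ (FK K).card * (Q / ν.real (closedBall η δ)) := by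
  have hreach : Reach g r g := ⟨hg, ⟨1, Gam.one_mem, by rw [mul_one]⟩, hgr⟩
  set b := ν.real (closedBall η δ) with hbdef
  by_cases hne : ∃ x0, Nr g r ζ K x0
  · obtain ⟨x0, hx0⟩ := hne
    have h1 : TT (Stp r) n (fun x => if Nr g r ζ K x then (1 : ℝ) else 0) g ≤
        TT (Stp r) n (fun x => ∑ γ ∈ FK K,
          (fun y => if y = x0 * γ ∧ Nr g r ζ K (x0 * γ) then (1 : ℝ) else 0) x) g := by
      apply TT_mono (Stp r) (P := Reach g r) Reach.step _ n hreach
      intro x hx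
      by_cases hN : Nr g r ζ K x
      · obtain ⟨γ, hγ, hxγ⟩ := hx0.diff hr0 hr2 hN
        rw [if_pos hN]
        have h2 : (fun y => if y = x0 * γ ∧ Nr g r ζ K (x0 * γ) then (1 : ℝ) else 0) x = 1 := by
          simp only
          rw [if_pos]
          rw [← hxγ]
          exact ⟨rfl, hN⟩
        refine h2.symm.le.trans ?_
        apply Finset.single_le_sum
          (f := fun γ => (fun y => if y = x0 * γ ∧ Nr g r ζ K (x0 * γ) then (1 : ℝ) else 0) x) _ hγ
        intro γ' _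
        simp only
        split_ifs <;> norm_num
      · rw [if_neg hN]
        apply Finset.sum_nonneg
        intro γ' _
        simp only
        split_ifs <;> norm_num
    refine h1.trans ?_
    rw [TT_sum (Stp r) (FK K)
      (fun γ y => if y = x0 * γ ∧ Nr g r ζ K (x0 * γ) then (1 : ℝ) else 0)]
    rw [← nsmul_eq_mul, ← Finset.sum_const]
    apply Finset.sum_le_sum
    intro γ _
    by_cases hN : Nr g r ζ K (x0 * γ)
    · set x := x0 * γ with hx
      obtain ⟨⟨hx1, hx2, hx3⟩, hx4, hx5⟩ := hN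
      have h2N := two_le_of_stp hr0 hr2 hx4
      have hxr : 1 / NN x ≤ r := by
        have hx4' : 1 / r ≤ NN x := hx4
        rw [div_le_iff₀ (by linarith)]
        rw [div_le_iff₀ hr0] at hx4'
        linarith
      obtain ⟨w, hw1, hw2, hw3⟩ := h.near_mass hx1 h2N hη hδ0 hδ hxr
      have hwζ : ‖w - ζ‖ ≤ (K + 2) * r := by
        have h4 : w - ζ = (w - dir (pos x)) + (dir (pos x) - ζ) := by ring
        rw [h4]
        refine (norm_add_le _ _).trans ?_
        linarith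
      have h5 := hQ w hw1 hwζ
      have h6 : TT (Stp r) n (fun y => b * (if y = x ∧ Nr g r ζ K x then (1 : ℝ) else 0)) g
          ≤ TT (Stp r) n (fB ν (closedBall w (2 * δ * r))) g := by
        apply TT_mono (Stp r) (P := fun _ => True) (fun _ _ _ _ => trivial) _ n trivial
        intro y _
        by_cases hy : y = x ∧ Nr g r ζ K x
        · rw [if_pos hy, mul_one, hy.1]
          exact hw3
        · rw [if_neg hy, mul_zero]
          exact fB_nonneg _ _
      rw [TT_smul (Stp r) b (fun y => if y = x ∧ Nr g r ζ K x then (1 : ℝ) else 0),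
        TT_of_harm _ _ (h.fB_harm measurableSet_closedBall)] at h6
      rw [le_div_iff₀ hb]
      linarith
    · have h2 : (fun y => if y = x0 * γ ∧ Nr g r ζ K (x0 * γ) then (1 : ℝ) else 0) = fun _ => 0 := by
        funext y
        rw [if_neg]
        exact fun hc => hN hc.2
      rw [h2, TT_const]
      positivity
  · push Not at hne
    have h2 : (fun x => if Nr g r ζ K x then (1 : ℝ) else 0) = fun _ => 0 := by
      funext y
      rw [if_neg (hne y)]
    rw [h2, TT_const]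
    positivity

open Classical in
/-- the fundamental estimate at a fixed scale -/
theorem Stat.main_ineq (h : Stat ν) {g : M3} (hg : IsLor g) {C : ℝ} (hC : 0 < C)
    (hCb : ∀ ζ : ℂ, ∀ δ : ℝ, 0 < δ → ν.real (closedBall ζ δ) ≤ C * δ ^ (2 / 3 : ℝ))
    {r : ℝ} (hr0 : 0 < r) (hr2 : r ≤ 1 / 2) (hgr : NN g ≤ 2 * cc / r) {ζ : ℂ} (hζ : ‖ζ‖ = 1)
    {M : ℝ} (hM : ∀ ρ : ℝ, 0 < ρ → fB ν (closedBall ζ ρ) g ≤ M * ρ) {j0 : ℕ} (hj0 : 1 ≤ j0)
    {η : ℂ} (hη : ‖η‖ = 1) {δ : ℝ} (hδ0 : 0 < δ) (hδ : δ ≤ 1 / 2)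
    (hb : 0 < ν.real (closedBall η δ)) {Q : ℝ} (hQ0 : 0 ≤ Q)
    (hQ : ∀ w, ‖w‖ = 1 → ‖w - ζ‖ ≤ (8 ^ j0 + 2) * r → fB ν (closedBall w (2 * δ * r)) g ≤ Q) :
    fB ν (closedBall ζ r) g ≤ 2240 * C * M * (1 / 2) ^ j0 * r
      + (FK (8 ^ j0)).card * (Q / ν.real (closedBall η δ)) := by
  have := h.prob
  have hM0 : 0 ≤ M := by
    have := hM 1 one_pos
    rw [mul_one] at this
    exact (fB_nonneg _ _).trans this
  have hreach : Reach g r g := ⟨hg, ⟨1, Gam.one_mem, by rw [mul_one]⟩, hgr⟩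
  have hmeas : MeasurableSet (closedBall ζ r) := measurableSet_closedBall
  -- number of scales
  obtain ⟨J, hJ⟩ : ∃ J : ℕ, 2 ≤ 8 ^ J * r := by
    obtain ⟨J, hJ⟩ := pow_unbounded_of_one_lt (2 / r) (by norm_num : (1 : ℝ) < 8)
    refine ⟨J, ?_⟩
    rw [div_lt_iff₀ hr0] at hJ
    exact hJ.le
  set U : M3 → ℝ := fun x => if Stp r x then 0 else
    ((2 / r) ^ (2 / 3 : ℝ) * (yy ζ (pos x)) ^ (2 / 3 : ℝ)) with hU
  set Far : M3 → ℝ := fun x => ∑ j ∈ Finset.Ico j0 J,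
    (fun y => 112 * C * (1 / 16) ^ j * fB ν (closedBall ζ (8 ^ (j + 1) * r + 2 * r)) y) x with hFar
  set Nf : M3 → ℝ := fun x => if Nr g r ζ (8 ^ j0) x then 1 else 0 with hNf
  -- pointwise bound
  have hpt : ∀ x, Reach g r x → fB ν (closedBall ζ r) x ≤ U x + (Far x + Nf x) := by
    intro x hx
    have hU0 : 0 ≤ U x := by
      rw [hU]
      simp only
      split_ifs
      · exact le_rfl
      · have := (yy_pos hx.1.pos_self hx.1.fut hζ).le
        positivity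
    have hterm : ∀ j : ℕ, 0 ≤ 112 * C * (1 / 16) ^ j
        * fB ν (closedBall ζ (8 ^ (j + 1) * r + 2 * r)) x := by
      intro j
      have := fB_nonneg (ν := ν) (closedBall ζ (8 ^ (j + 1) * r + 2 * r)) x
      positivity
    have hFar0 : 0 ≤ Far x := Finset.sum_nonneg fun j _ => hterm j
    have hNf0 : 0 ≤ Nf x := by
      rw [hNf]
      simp only
      split_ifs <;> norm_num
    by_cases hS : Stp r x
    · have h2N := two_le_of_stp hr0 hr2 hS
      have hxr : 1 / NN x ≤ r := by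
        have hx4' : 1 / r ≤ NN x := hS
        rw [div_le_iff₀ (by linarith)]
        rw [div_le_iff₀ hr0] at hx4'
        linarith
      by_cases hD : ‖dir (pos x) - ζ‖ ≤ 8 ^ j0 * r
      · have h1 : Nf x = 1 := by
          rw [hNf]
          simp only
          rw [if_pos]
          exact ⟨hx, hS, hD⟩
        have h2 := h.fB_le_one (closedBall ζ r) x
        linarith
      · push Not at hD
        have hD2 : ‖dir (pos x) - ζ‖ ≤ 2 := by
          have h3 : NN x / 2 ≤ ‖Wf (pos x)‖ := half_NN_le hx.1.pos_self h2N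
          have h4 : 0 < ‖Wf (pos x)‖ := by linarith
          have h5 := norm_sub_le (dir (pos x)) ζ
          rw [norm_dir (norm_pos_iff.1 h4), hζ] at h5
          linarith
        have hex : ∃ n : ℕ, ‖dir (pos x) - ζ‖ ≤ 8 ^ n * r := ⟨J, hD2.trans hJ⟩
        set m := Nat.find hex with hm
        have hm1 : ‖dir (pos x) - ζ‖ ≤ 8 ^ m * r := Nat.find_spec hex
        have hmJ : m ≤ J := Nat.find_min' hex (hD2.trans hJ)
        have hmj : j0 < m := by
          by_contra hcon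
          push Not at hcon
          have h3 : (8 : ℝ) ^ m ≤ 8 ^ j0 := pow_le_pow_right₀ (by norm_num) hcon
          have h4 := mul_le_mul_of_nonneg_right h3 hr0.le
          linarith
        obtain ⟨j, hj⟩ : ∃ j, m = j + 1 := ⟨m - 1, by omega⟩
        have hlow : 8 ^ j * r < ‖dir (pos x) - ζ‖ := by
          have h3 := Nat.find_min hex (m := j) (by omega)
          push Not at h3
          exact h3
        have h4 := h.far_bound hC hCb hx.1 h2N hxr (j := j) (by omega) hlow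
        have h5 : 1 / 7 ≤ fB ν (closedBall ζ (8 ^ (j + 1) * r + 2 * r)) x := by
          apply h.shadow_le hx.1 h2N
          rw [← hj]
          have h6 : 2 / NN x = 2 * (1 / NN x) := by ring
          rw [h6]
          linarith
        have h6 : 16 * C * (1 / 16) ^ j ≤ 112 * C * (1 / 16) ^ j
            * fB ν (closedBall ζ (8 ^ (j + 1) * r + 2 * r)) x := by
          have h7 : (0 : ℝ) ≤ 112 * C * (1 / 16) ^ j := by positivity
          have h8 := mul_le_mul_of_nonneg_left h5 h7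
          linarith
        have h7 : 112 * C * (1 / 16) ^ j
            * fB ν (closedBall ζ (8 ^ (j + 1) * r + 2 * r)) x ≤ Far x := by
          rw [hFar]
          exact Finset.single_le_sum (f := fun j => 112 * C * (1 / 16) ^ j
            * fB ν (closedBall ζ (8 ^ (j + 1) * r + 2 * r)) x) (fun j _ => hterm j)
            (Finset.mem_Ico.2 ⟨by omega, by omega⟩)
        linarith
    · have h1 : (1 : ℝ) ≤ U x := by
        rw [hU]
        simp only
        rw [if_neg hS]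
        have hy := yy_pos hx.1.pos_self hx.1.fut hζ
        rw [← Real.mul_rpow (by positivity) hy.le]
        apply Real.one_le_rpow _ (by norm_num)
        have h2 := (Bf_nn_bounds hx.1.pos_self hx.1.fut hζ).2
        have h3 : 1 / (2 * NN x) ≤ yy ζ (pos x) := by
          unfold yy
          exact one_div_le_one_div_of_le (Bf_nn_pos hx.1.pos_self hx.1.fut hζ) h2
        unfold Stp at hS
        push Not at hS
        have hN0 : 0 < NN x := hx.1.fut
        have h4 : r / 2 ≤ 1 / (2 * NN x) := by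
          rw [div_le_div_iff₀ (by norm_num) (by positivity)]
          rw [lt_div_iff₀ hr0] at hS
          linarith
        have h5 : 2 / r * (r / 2) = 1 := by field_simp
        rw [← h5]
        exact mul_le_mul_of_nonneg_left (h4.trans h3) (by positivity)
      have h2 := h.fB_le_one (closedBall ζ r) x
      linarith
  -- average
  have hmain : ∀ n : ℕ, fB ν (closedBall ζ r) g ≤
      (98 / 100 : ℝ) ^ n * ((2 / r) ^ (2 / 3 : ℝ) * (yy ζ (pos g)) ^ (2 / 3 : ℝ))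
      + (2240 * C * M * (1 / 2) ^ j0 * r
      + (FK (8 ^ j0)).card * (Q / ν.real (closedBall η δ))) := by
    intro n
    have e1 : fB ν (closedBall ζ r) g = TT (Stp r) n (fB ν (closedBall ζ r)) g :=
      (TT_of_harm _ _ (h.fB_harm hmeas) n g).symm
    have e2 := TT_mono (Stp r) (P := Reach g r) Reach.step hpt n hreach
    rw [TT_add _ U (fun x => Far x + Nf x), TT_add _ Far Nf] at e2
    have e3 : TT (Stp r) n U g ≤ (98 / 100 : ℝ) ^ n
        * ((2 / r) ^ (2 / 3 : ℝ) * (yy ζ (pos g)) ^ (2 / 3 : ℝ)) := by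
      apply TT_decay (Stp r) (f := fun x => (2 / r) ^ (2 / 3 : ℝ) * (yy ζ (pos x)) ^ (2 / 3 : ℝ))
        (by norm_num) _ _ n hg
      · intro x hx
        have := (yy_pos hx.pos_self hx.fut hζ).le
        positivity
      · intro x hx
        rw [← Finset.mul_sum]
        have h3 := yy_contract ζ hζ x hx
        have h4 : (0 : ℝ) ≤ (2 / r) ^ (2 / 3 : ℝ) := by positivity
        have h5 := mul_le_mul_of_nonneg_left h3 h4
        linarith
    have e4 : TT (Stp r) n Far g ≤ 2240 * C * M * (1 / 2) ^ j0 * r := by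
      rw [hFar, TT_sum (Stp r) (Finset.Ico j0 J)
        (fun j y => 112 * C * (1 / 16) ^ j * fB ν (closedBall ζ (8 ^ (j + 1) * r + 2 * r)) y)]
      have h3 : ∀ j ∈ Finset.Ico j0 J, TT (Stp r) n
          (fun y => 112 * C * (1 / 16) ^ j * fB ν (closedBall ζ (8 ^ (j + 1) * r + 2 * r)) y) g
          ≤ (1120 * C * M * r) * (1 / 2) ^ j := by
        intro j _
        rw [TT_smul (Stp r) (112 * C * (1 / 16) ^ j)
          (fB ν (closedBall ζ (8 ^ (j + 1) * r + 2 * r))),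
          TT_of_harm _ _ (h.fB_harm measurableSet_closedBall)]
        have h4 := hM (8 ^ (j + 1) * r + 2 * r) (by positivity)
        have h5 : 8 ^ (j + 1) * r + 2 * r ≤ 10 * 8 ^ j * r := by
          have h6 : (1 : ℝ) ≤ 8 ^ j := one_le_pow₀ (by norm_num)
          rw [pow_succ]
          nlinarith
        have h6 : M * (8 ^ (j + 1) * r + 2 * r) ≤ M * (10 * 8 ^ j * r) :=
          mul_le_mul_of_nonneg_left h5 hM0
        have h7 : (0 : ℝ) ≤ 112 * C * (1 / 16) ^ j := by positivity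
        have h8 := mul_le_mul_of_nonneg_left (h4.trans h6) h7
        refine h8.trans (le_of_eq ?_)
        have h9 : (1 / 16 : ℝ) ^ j * 8 ^ j = (1 / 2) ^ j := by
          rw [← mul_pow]
          norm_num
        rw [← h9]
        ring
      refine (Finset.sum_le_sum h3).trans ?_
      rw [← Finset.mul_sum]
      have h4 := geom_half j0 J
      have h5 : (0 : ℝ) ≤ 1120 * C * M * r := by positivity
      have h6 := mul_le_mul_of_nonneg_left h4 h5
      linarith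
    have e5 := h.near_part hg hr0 hr2 hgr (ζ := ζ) (K := 8 ^ j0) hη hδ0 hδ hb hQ0 hQ n
    rw [e1]
    linarith
  have hlim : Tendsto (fun n : ℕ =>
      (98 / 100 : ℝ) ^ n * ((2 / r) ^ (2 / 3 : ℝ) * (yy ζ (pos g)) ^ (2 / 3 : ℝ))
      + (2240 * C * M * (1 / 2) ^ j0 * r
      + (FK (8 ^ j0)).card * (Q / ν.real (closedBall η δ)))) atTop
      (𝓝 (0 * ((2 / r) ^ (2 / 3 : ℝ) * (yy ζ (pos g)) ^ (2 / 3 : ℝ))
      + (2240 * C * M * (1 / 2) ^ j0 * r
      + (FK (8 ^ j0)).card * (Q / ν.real (closedBall η δ))))) :=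
    ((tendsto_pow_atTop_nhds_zero_of_lt_one (by norm_num) (by norm_num)).mul_const _).add_const _
  rw [zero_mul, zero_add] at hlim
  exact ge_of_tendsto' hlim hmain

theorem Stat.singular (h : Stat ν) {g : M3} (hg : IsLor g) : (ν.map (act g)) ⟂ₘ arcLen := by
  have := h.prob
  have hmap : ∀ B : Set ℂ, MeasurableSet B → (ν.map (act g)).real B = fB ν B g := by
    intro B hB
    unfold fB Measure.real
    rw [Measure.map_apply (measurable_act g) hB]
  have hprob : IsProbabilityMeasure (ν.map (act g)) :=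
    Measure.isProbabilityMeasure_map (measurable_act g).aemeasurable
  have hcirc : ∀ᵐ ζ ∂(ν.map (act g)), ‖ζ‖ = 1 := by
    rw [ae_map_iff (measurable_act g).aemeasurable (measurableSet_eq_fun (by fun_prop) (by fun_prop))]
    filter_upwards [h.circ] with ζ hζ
    exact hg.norm_act hζ
  by_contra hcon
  obtain ⟨ζ, hζ, φ, hφ, hev⟩ := diff_circle (ν.map (act g)) hcirc hcon
  obtain ⟨C, hC, hCb⟩ := h.holder
  -- upper bound at all scales
  obtain ⟨M, hM⟩ : ∃ M : ℝ, ∀ ρ : ℝ, 0 < ρ → fB ν (closedBall ζ ρ) g ≤ M * ρ := by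
    have h1 := hev 0
    rw [eventually_nhdsWithin_iff, Metric.eventually_nhds_iff] at h1
    obtain ⟨ρ0, hρ0, h1⟩ := h1
    refine ⟨max (8 * φ) (1 / ρ0), fun ρ hρ => ?_⟩
    by_cases hlt : ρ < ρ0
    · have h2 := (h1 (y := ρ) (by rw [Real.dist_eq, sub_zero, abs_of_pos hρ]; exact hlt) hρ ζ hζ
        (by simp)).2
      rw [hmap _ measurableSet_closedBall] at h2
      refine h2.trans ?_
      exact mul_le_mul_of_nonneg_right (le_max_left _ _) hρ.le
    · push Not at hlt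
      refine (h.fB_le_one _ _).trans ?_
      have h2 : 1 ≤ 1 / ρ0 * ρ := by
        rw [one_div, inv_mul_eq_div, le_div_iff₀ hρ0]
        linarith
      exact h2.trans (mul_le_mul_of_nonneg_right (le_max_right _ _) hρ.le)
  -- number of scales
  obtain ⟨j0, hj0, hj1⟩ : ∃ j0 : ℕ, 1 ≤ j0 ∧ 2240 * C * M * (1 / 2) ^ j0 ≤ φ / 4 := by
    have h1 : Tendsto (fun j : ℕ => 2240 * C * M * (1 / 2 : ℝ) ^ j) atTop
        (𝓝 (2240 * C * M * 0)) :=
      (tendsto_pow_atTop_nhds_zero_of_lt_one (by norm_num) (by norm_num)).const_mul _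
    rw [mul_zero] at h1
    have h2 := (h1.eventually_le_const (show (0 : ℝ) < φ / 4 by positivity)).and
      (eventually_ge_atTop 1)
    obtain ⟨j, hj⟩ := h2.exists
    exact ⟨j, hj.2, hj.1⟩
  set F : ℝ := ((FK (8 ^ j0)).card : ℝ) with hF
  have hF0 : 0 ≤ F := Nat.cast_nonneg _
  obtain ⟨η, hη, δ, hδ0, hδ, hdense⟩ := h.dense_balls (64 * (F + 1))
  have hb : 0 < ν.real (closedBall η δ) := lt_of_lt_of_le (by positivity) hdense
  obtain ⟨K', hK'⟩ := exists_nat_ge ((8 ^ j0 + 2) / (2 * δ) : ℝ)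
  -- the scale
  have ev1 := hev 0
  have ev2 : ∀ᶠ r in 𝓝[>] (0 : ℝ), ∀ w : ℂ, ‖w‖ = 1 → ‖w - ζ‖ ≤ K' * (2 * δ * r) →
      φ * (2 * δ * r) ≤ (ν.map (act g)).real (closedBall w (2 * δ * r)) ∧
      (ν.map (act g)).real (closedBall w (2 * δ * r)) ≤ 8 * φ * (2 * δ * r) := by
    have ht : Tendsto (fun r : ℝ => 2 * δ * r) (𝓝[>] 0) (𝓝[>] 0) := by
      apply tendsto_nhdsWithin_of_tendsto_nhds_of_eventually_within
      · have : Tendsto (fun r : ℝ => 2 * δ * r) (𝓝 0) (𝓝 (2 * δ * 0)) :=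
          (continuous_const.mul continuous_id).tendsto 0
        rw [mul_zero] at this
        exact this.mono_left nhdsWithin_le_nhds
      · filter_upwards [self_mem_nhdsWithin] with r hr
        have hr' : 0 < r := hr
        exact mul_pos (by positivity) hr'
    exact ht.eventually (hev K')
  have ev3 : ∀ᶠ r in 𝓝[>] (0 : ℝ), r < min (1 / 2) (2 * cc / NN g) := by
    apply eventually_nhdsWithin_of_eventually_nhds
    apply eventually_lt_nhds
    have := hg.fut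
    have := cc_pos
    positivity
  obtain ⟨r, ⟨⟨⟨h1, h2⟩, h3⟩, h4⟩⟩ := (((ev1.and ev2).and ev3).and
    (eventually_mem_nhdsWithin (a := (0 : ℝ)) (s := Set.Ioi 0))).exists
  have hr0 : 0 < r := h4
  have hr2 : r ≤ 1 / 2 := h3.le.trans (min_le_left _ _)
  have hgr : NN g ≤ 2 * cc / r := by
    have h5 : r ≤ 2 * cc / NN g := h3.le.trans (min_le_right _ _)
    rw [le_div_iff₀ hg.fut] at h5
    rw [le_div_iff₀ hr0]
    linarith
  have hlow := (h1 ζ hζ (by simp)).1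
  rw [hmap _ measurableSet_closedBall] at hlow
  have hQ : ∀ w, ‖w‖ = 1 → ‖w - ζ‖ ≤ (8 ^ j0 + 2) * r →
      fB ν (closedBall w (2 * δ * r)) g ≤ 8 * φ * (2 * δ * r) := by
    intro w hw hwζ
    have h5 : ‖w - ζ‖ ≤ K' * (2 * δ * r) := by
      refine hwζ.trans ?_
      rw [div_le_iff₀ (by positivity)] at hK'
      have := mul_le_mul_of_nonneg_right hK' hr0.le
      linarith
    have h6 := (h2 w hw h5).2
    rwa [hmap _ measurableSet_closedBall] at h6
  have hfin := h.main_ineq hg hC hCb hr0 hr2 hgr hζ hM hj0 hη hδ0 hδ hb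
    (Q := 8 * φ * (2 * δ * r)) (by positivity) hQ
  rw [← hF] at hfin
  -- the near part is small
  have h5 : F * (8 * φ * (2 * δ * r) / ν.real (closedBall η δ)) ≤ φ * r / 4 := by
    rw [← mul_div_assoc, div_le_iff₀ hb]
    have h6 := mul_le_mul_of_nonneg_left hdense (show 0 ≤ φ * r / 4 by positivity)
    have h7 : F * (8 * φ * (2 * δ * r)) ≤ φ * r / 4 * (64 * (F + 1) * δ) := by
      have : 0 ≤ φ * r * δ := by positivity
      nlinarith
    linarith
  have h6 : 2240 * C * M * (1 / 2) ^ j0 * r ≤ φ / 4 * r := mul_le_mul_of_nonneg_right hj1 hr0.le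
  have h7 : 0 < φ * r := by positivity
  linarith

end Main

end Pool.Agent.K7
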