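import Pool.Agent.Work.MP_7596a5_pr.Harm

/-!
# Stationary measures have no atoms, given the contraction inequality K1
-/

namespace Pool.Agent.K7

open MeasureTheory
open scoped ComplexConjugate

section NoAtoms

variable {ν : Measure ℂ}

theorem lam_Am (k : Fin 7) {ξ : ℂ} (hξ : ‖ξ‖ = 1) : lam (Am k) ξ = lam Hm ξ := by
  unfold Am
  rw [lam_mul _ (isLor_Hm.lam_pos hξ).ne', lam_Rm_pow, one_mul]

theorem act_Am_zero : act (Am 0) = act Hm := by
  unfold Am
  simp

theorem Stat.norm_of_pos (h : Stat ν) {ξ : ℂ} (hξ : 0 < ν.real {ξ}) : ‖ξ‖ = 1 := by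
  by_contra hne
  have h1 : ν {ξ} = 0 := by
    apply measure_mono_null _ h.circ
    intro η hη
    rw [Set.mem_singleton_iff] at hη
    subst hη
    exact hne
  have h2 : ν.real {ξ} = 0 := by
    unfold Measure.real
    rw [h1]
    rfl
  linarith

/-- the preimage of a boundary point is a boundary point up to a null set -/
theorem Stat.real_preimage_singleton (h : Stat ν) {g : M3} (hg : IsLor g) {η : ℂ} (hη : ‖η‖ = 1) :
    ν.real ((act g) ⁻¹' {act g η}) = ν.real {η} := by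
  apply measureReal_congr
  filter_upwards [h.circ] with ζ hζ
  change (act g ζ ∈ ({act g η} : Set ℂ)) = (ζ ∈ ({η} : Set ℂ))
  rw [eq_iff_iff, Set.mem_singleton_iff, Set.mem_singleton_iff]
  constructor
  · intro h1
    exact hg.act_inj hζ hη h1
  · intro h1
    rw [h1]

theorem Stat.no_atoms_of (h : Stat ν)
    (hk : ∀ ζ : ℂ, ‖ζ‖ = 1 →
      (1 / 7) * ∑ k : Fin 7, (1 / Bf (pos (Am k)) (nn ζ)) ^ (2 / 3 : ℝ) ≤ 98 / 100)
    (ζ : ℂ) : ν {ζ} = 0 := by
  classical
  have hprob := h.prob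
  by_contra hζ
  set m : ℂ → ℝ := fun ξ => ν.real {ξ} with hm
  have hm0 : 0 < m ζ := by
    apply lt_of_le_of_ne measureReal_nonneg
    intro h0
    apply hζ
    rcases (ENNReal.toReal_eq_zero_iff _).1 h0.symm with h1 | h1
    · exact h1
    · exact absurd h1 (measure_ne_top ν _)
  -- finitely many atoms of mass at least `a`
  have hfin : ∀ a : ℝ, 0 < a → {ξ : ℂ | a ≤ m ξ}.Finite := by
    intro a ha
    have h1 := Measure.finite_const_le_meas_of_disjoint_iUnion (μ := ν) (ε := ENNReal.ofReal a)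
      (ENNReal.ofReal_pos.2 ha) (As := fun ξ : ℂ => ({ξ} : Set ℂ))
      (fun ξ => measurableSet_singleton ξ)
      (fun x y hxy => by
        change Disjoint ({x} : Set ℂ) {y}
        exact Set.disjoint_singleton.2 hxy)
      (measure_ne_top ν _)
    apply h1.subset
    intro ξ hξ
    rw [Set.mem_ofPred_eq] at hξ ⊢
    exact (ENNReal.ofReal_le_iff_le_toReal (measure_ne_top ν _)).2 hξ
  -- the largest mass
  obtain ⟨ξ₁, hξ₁, hmax⟩ : ∃ ξ₁ ∈ (hfin _ hm0).toFinset, ∀ ξ ∈ (hfin _ hm0).toFinset,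
      m ξ ≤ m ξ₁ := by
    apply Finset.exists_max_image
    exact ⟨ζ, by rw [Set.Finite.mem_toFinset]; exact le_refl (m ζ)⟩
  rw [Set.Finite.mem_toFinset, Set.mem_ofPred_eq] at hξ₁
  have ha : 0 < m ξ₁ := lt_of_lt_of_le hm0 hξ₁
  have hle : ∀ ξ, m ξ ≤ m ξ₁ := by
    intro ξ
    by_cases hξ : m ζ ≤ m ξ
    · exact hmax ξ (by rw [Set.Finite.mem_toFinset]; exact hξ)
    · exact le_trans (not_le.1 hξ).le hξ₁
  set F : Finset ℂ := (hfin _ ha).toFinset with hF
  have hmem : ∀ ξ, ξ ∈ F ↔ m ξ = m ξ₁ := by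
    intro ξ
    rw [hF, Set.Finite.mem_toFinset, Set.mem_ofPred_eq]
    exact ⟨fun h1 => le_antisymm (hle ξ) h1, fun h1 => h1.ge⟩
  have hcirc : ∀ ξ ∈ F, ‖ξ‖ = 1 := by
    intro ξ hξ
    apply h.norm_of_pos
    have := (hmem ξ).1 hξ
    change 0 < m ξ
    rw [this]
    exact ha
  have hne : 0 < (F.card : ℝ) := by
    have : ξ₁ ∈ F := (hmem ξ₁).2 rfl
    exact_mod_cast Finset.card_pos.2 ⟨ξ₁, this⟩
  -- every step permutes `F`
  have hsub : ∀ k : Fin 7, F ⊆ F.image (act (Am k)) := by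
    intro k ξ hξ
    have hξ1 := hcirc ξ hξ
    choose η hη1 hη2 using fun j : Fin 7 => (isLor_Am j).exists_act hξ1
    have hsum : m ξ = (1 / 7) * ∑ j : Fin 7, m (η j) := by
      rw [hm]
      simp only
      rw [h.stat _ (measurableSet_singleton ξ)]
      congr 1
      apply Finset.sum_congr rfl
      intro j _
      have := h.real_preimage_singleton (isLor_Am j) (hη1 j)
      rw [hη2 j] at this
      exact this
    have hall : m (η k) = m ξ₁ := by
      apply le_antisymm (hle _)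
      by_contra hlt
      push Not at hlt
      have h1 : ∑ j : Fin 7, m (η j) < ∑ _j : Fin 7, m ξ₁ :=
        Finset.sum_lt_sum (fun j _ => hle (η j)) ⟨k, Finset.mem_univ k, hlt⟩
      rw [Finset.sum_const, Finset.card_univ, Fintype.card_fin] at h1
      have h2 := (hmem ξ).1 hξ
      rw [h2] at hsum
      simp only [nsmul_eq_mul] at h1
      push_cast at h1
      linarith
    rw [Finset.mem_image]
    exact ⟨η k, (hmem _).2 hall, hη2 k⟩
  have himg : ∀ k : Fin 7, F.image (act (Am k)) = F := by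
    intro k
    exact (Finset.eq_of_subset_of_card_le (hsub k) Finset.card_image_le).symm
  have hsumF : ∀ (k : Fin 7) (f : ℂ → ℝ), ∑ ξ ∈ F, f (act (Am k) ξ) = ∑ ξ ∈ F, f ξ := by
    intro k f
    conv_rhs => rw [← himg k]
    rw [Finset.sum_image]
    intro x hx y hy hxy
    exact (isLor_Am k).act_inj (hcirc x hx) (hcirc y hy) hxy
  -- the product of the conformal factors is one
  have hlog0 : ∑ ξ ∈ F, Real.log (lam Hm ξ) = 0 := by
    have h1 := hsumF 0 (fun ξ => Real.log (lam Hm ξ))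
    rw [act_Am_zero] at h1
    have h2 : ∑ ξ ∈ F, (Real.log (lam Hm (act Hm ξ)) + Real.log (lam Hm ξ)) = 0 := by
      apply Finset.sum_eq_zero
      intro ξ hξ
      have hp := isLor_Hm.lam_pos (hcirc ξ hξ)
      rw [← Real.log_mul (isLor_Hm.lam_pos (isLor_Hm.norm_act (hcirc ξ hξ))).ne' hp.ne',
        ← lam_mul Hm hp.ne', Hm_sq]
      have : lam 1 ξ = 1 := by
        have := lam_Rm_pow 0 ξ
        rwa [pow_zero] at this
      rw [this, Real.log_one]
    rw [Finset.sum_add_distrib] at h2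
    linarith
  have hlogk : ∀ k : Fin 7, ∑ ξ ∈ F, Real.log (1 / Bf (pos (Am k)) (nn ξ)) = 0 := by
    intro k
    rw [← hsumF k (fun ξ => Real.log (1 / Bf (pos (Am k)) (nn ξ))), ← hlog0]
    apply Finset.sum_congr rfl
    intro ξ hξ
    have h1 := (isLor_Am k).Bf_pos_nn (hcirc ξ hξ)
    rw [← lam_Am k (hcirc ξ hξ)]
    congr 1
    rw [one_div]
    exact (eq_inv_of_mul_eq_one_right h1).symm
  have hlow : ∀ k : Fin 7, (F.card : ℝ) ≤ ∑ ξ ∈ F, (1 / Bf (pos (Am k)) (nn ξ)) ^ (2 / 3 : ℝ) := by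
    intro k
    have h1 : ∑ ξ ∈ F, (1 + (2 / 3) * Real.log (1 / Bf (pos (Am k)) (nn ξ)))
        ≤ ∑ ξ ∈ F, (1 / Bf (pos (Am k)) (nn ξ)) ^ (2 / 3 : ℝ) := by
      apply Finset.sum_le_sum
      intro ξ hξ
      have hp : 0 < Bf (pos (Am k)) (nn ξ) :=
        Bf_nn_pos (isLor_Am k).pos_self (isLor_Am k).fut (hcirc ξ hξ)
      rw [Real.rpow_def_of_pos (by positivity)]
      have := Real.add_one_le_exp (Real.log (1 / Bf (pos (Am k)) (nn ξ)) * (2 / 3))
      linarith
    rw [Finset.sum_add_distrib, ← Finset.mul_sum, hlogk k, mul_zero, add_zero, Finset.sum_const,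
      nsmul_eq_mul, mul_one] at h1
    exact h1
  have hup : ∑ ξ ∈ F, (1 / 7) * ∑ k : Fin 7, (1 / Bf (pos (Am k)) (nn ξ)) ^ (2 / 3 : ℝ)
      ≤ ∑ _ξ ∈ F, (98 / 100 : ℝ) :=
    Finset.sum_le_sum fun ξ hξ => hk ξ (hcirc ξ hξ)
  rw [← Finset.mul_sum, Finset.sum_comm, Finset.sum_const, nsmul_eq_mul] at hup
  have hlow' : ∑ _k : Fin 7, (F.card : ℝ)
      ≤ ∑ k : Fin 7, ∑ ξ ∈ F, (1 / Bf (pos (Am k)) (nn ξ)) ^ (2 / 3 : ℝ) :=
    Finset.sum_le_sum fun k _ => hlow k
  rw [Finset.sum_const, Finset.card_univ, Fintype.card_fin, nsmul_eq_mul] at hlow'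
  push_cast at hlow'
  linarith

end NoAtoms

end Pool.Agent.K7
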