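import Pool.Agent.Work.MP_7596a5_pr.Frames
import Pool.Agent.Work.MP_7596a5_pr.Limit
import Pool.Agent.Work.MP_7596a5_pr.Main

/-!
# Transfer to an arbitrary simple random walk on the packing
-/

namespace Pool.Agent.K7

open MeasureTheory Filter Topology
open scoped ComplexConjugate ENNReal

theorem om_pow_inj {i j : Fin 7} (h : om ^ (i : ℕ) = om ^ (j : ℕ)) : i = j := by
  have hp : IsPrimitiveRoot om 7 := by
    have h7 := Complex.isPrimitiveRoot_exp 7 (by norm_num)
    have e : om = Complex.exp (2 * Real.pi * Complex.I / (7 : ℕ)) := by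
      unfold om
      congr 1
      push_cast
      ring
    rw [e]
    exact h7
  exact Fin.ext (hp.pow_inj i.2 j.2 h)

theorem Am_pos_inj {g : M3} (hg : IsLor g) {i j : Fin 7} (h : pos (g * Am i) = pos (g * Am j)) :
    i = j := by
  obtain ⟨g', _, h1, _⟩ := hg.exists_inv
  have h2 : pos (Am i) = pos (Am j) := by
    have := congrArg g'.mulVec h
    rw [pos_mul, pos_mul, Matrix.mulVec_mulVec, Matrix.mulVec_mulVec, h1, Matrix.one_mulVec,
      Matrix.one_mulVec] at this
    exact this
  have h3 := congrArg Wf h2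
  rw [Wf_Am, Wf_Am] at h3
  have h4 : (sh : ℂ) ≠ 0 := by exact_mod_cast sh_pos.ne'
  exact om_pow_inj (mul_right_cancel₀ h4 h3)

section path

variable {V : Type*} {G : SimpleGraph V} {p : V → E}

open Classical in
/-- the neighbour of `v` in direction `k` of the frame `g` -/
noncomputable def nxtV (G : SimpleGraph V) (p : V → E) (v : V) (g : M3) (k : Fin 7) : V :=
  if h : ∃ w, G.Adj v w ∧ p w = pos (g * Am k) then h.choose else v

theorem nxt_spec {v : V} {g : M3} (h : Fr G p v g) (k : Fin 7) :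
    G.Adj v (nxtV G p v g k) ∧ p (nxtV G p v g k) = pos (g * Am k) := by
  have h1 := h.nb k
  unfold nxtV
  rw [dif_pos h1]
  exact h1.choose_spec

/-- the vertex path driven by the steps `s` -/
noncomputable def YY (G : SimpleGraph V) (p : V → E) (α : V) (g0 : M3) (s : ℕ → Fin 7) : ℕ → V
  | 0 => α
  | n + 1 => nxtV G p (YY G p α g0 s n) (g0 * walk s n) (s n)

theorem YY_zero (α : V) (g0 : M3) (s : ℕ → Fin 7) : YY G p α g0 s 0 = α := rfl

theorem YY_succ (α : V) (g0 : M3) (s : ℕ → Fin 7) (n : ℕ) : YY G p α g0 s (n + 1) =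
    nxtV G p (YY G p α g0 s n) (g0 * walk s n) (s n) := rfl

theorem YY_fr (hstep : ∀ v g w k, Fr G p v g → G.Adj v w → p w = pos (g * Am k) →
    Fr G p w (g * Am k)) {α : V} {g0 : M3} (h0 : Fr G p α g0) (s : ℕ → Fin 7) (n : ℕ) :
    Fr G p (YY G p α g0 s n) (g0 * walk s n) := by
  induction n with
  | zero => rw [YY_zero]; show Fr G p α (g0 * 1); rw [mul_one]; exact h0
  | succ n ih =>
    rw [YY_succ]
    show Fr G p _ (g0 * (walk s n * Am (s n)))
    rw [← mul_assoc]
    exact hstep _ _ _ _ ih (nxt_spec ih (s n)).1 (nxt_spec ih (s n)).2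

theorem walk_congr {s t : ℕ → Fin 7} {n : ℕ} (h : ∀ i < n, s i = t i) : walk s n = walk t n := by
  induction n with
  | zero => rfl
  | succ n ih =>
    show walk s n * Am (s n) = walk t n * Am (t n)
    rw [ih (fun i hi => h i (by omega)), h n (by omega)]

theorem YY_congr (α : V) (g0 : M3) {s t : ℕ → Fin 7} {n : ℕ} (h : ∀ i < n, s i = t i) :
    YY G p α g0 s n = YY G p α g0 t n := by
  induction n with
  | zero => rfl
  | succ n ih =>
    rw [YY_succ, YY_succ, ih (fun i hi => h i (by omega)), h n (by omega),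
      walk_congr (fun i hi => h i (by omega))]

/-- the steps realising a given walk -/
theorem exists_word (hinj : Function.Injective p)
    (hstep : ∀ v g w k, Fr G p v g → G.Adj v w → p w = pos (g * Am k) → Fr G p w (g * Am k))
    {α : V} {g0 : M3} (h0 : Fr G p α g0) (n : ℕ) (w : ℕ → V) (hw0 : w 0 = α)
    (hw : ∀ i < n, G.Adj (w i) (w (i + 1))) :
    ∃ k : ℕ → Fin 7, ∀ s, (∀ i ≤ n, YY G p α g0 s i = w i) ↔ (∀ i < n, s i = k i) := by
  induction n with
  | zero =>
    refine ⟨fun _ => 0, fun s => ⟨fun _ i hi => absurd hi (by omega), fun _ i hi => ?_⟩⟩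
    obtain rfl : i = 0 := by omega
    rw [YY_zero, hw0]
  | succ n ih =>
    obtain ⟨k, hk⟩ := ih (fun i hi => hw i (by omega))
    have hfr := YY_fr hstep h0 k n
    have hYn : YY G p α g0 k n = w n := (hk k).2 (fun _ _ => rfl) n le_rfl
    obtain ⟨k', hk'⟩ := hfr.nb' (w (n + 1)) (by rw [hYn]; exact hw n (by omega))
    refine ⟨Function.update k n k', fun s => ⟨fun h i hi => ?_, fun h i hi => ?_⟩⟩
    · have h1 := (hk s).1 (fun i hi => h i (by omega))
      rcases Nat.lt_succ_iff_lt_or_eq.1 hi with hi' | rfl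
      · rw [Function.update_of_ne hi'.ne]
        exact h1 i hi'
      · rw [Function.update_self]
        have h2 := h (i + 1) le_rfl
        have h3 := (nxt_spec (YY_fr hstep h0 s i) (s i)).2
        rw [← YY_succ, h2, hk', walk_congr h1] at h3
        exact (Am_pos_inj hfr.lor h3).symm
    · have h1 : ∀ i < n, s i = k i := fun i hi => by
        have := h i (by omega)
        rwa [Function.update_of_ne hi.ne] at this
      have h2 := (hk s).2 h1
      rcases Nat.lt_succ_iff_lt_or_eq.1 (Nat.lt_succ_iff.2 hi) with hi' | rfl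
      · exact h2 i (by omega)
      · have h3 := h n (by omega)
        rw [Function.update_self] at h3
        apply hinj
        have h4 := (nxt_spec (YY_fr hstep h0 s n) (s n)).2
        rw [YY_succ, h4, h3, walk_congr h1, hk']

end path

/-! ### the law of the first steps -/

theorem steps_cyl (n : ℕ) (k : ℕ → Fin 7) : steps {s | ∀ i < n, s i = k i} = (1 / 7) ^ n := by
  have h1 : {s : ℕ → Fin 7 | ∀ i < n, s i = k i} =
      Set.pi (Finset.range n : Set ℕ) (fun i => {k i}) := by
    ext s
    simp [Set.mem_pi]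
  rw [h1]
  unfold steps
  rw [Measure.infinitePi_pi _ (fun i _ => measurableSet_singleton _)]
  simp [PMF.uniformOfFintype_apply]

instance : IsProbabilityMeasure steps := by unfold steps; infer_instance

section law

variable {V : Type*} [Countable V] [MeasurableSpace V] [DiscreteMeasurableSpace V]

/-- cylinder sets -/
def cyl (n : ℕ) (w : ℕ → V) : Set (ℕ → V) := {x | ∀ i ≤ n, x i = w i}

theorem measurableSet_cyl (n : ℕ) (w : ℕ → V) : MeasurableSet (cyl n w) := by
  have : cyl n w = ⋂ i ∈ Set.Iic n, (fun x : ℕ → V => x i) ⁻¹' {w i} := by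
    ext x
    simp [cyl]
  rw [this]
  exact MeasurableSet.biInter (Set.to_countable _)
    (fun i _ => measurable_pi_apply i (measurableSet_singleton _))

/-- two finite measures on paths which agree on cylinders are equal -/
theorem ext_cyl {μ ν : Measure (ℕ → V)} [IsFiniteMeasure μ] (huniv : μ Set.univ = ν Set.univ)
    (h : ∀ n w, μ (cyl n w) = ν (cyl n w)) : μ = ν := by
  have hpi : IsPiSystem ({s | ∃ n w, s = cyl n w} : Set (Set (ℕ → V))) := by
    rintro _ ⟨n, w, rfl⟩ _ ⟨m, u, rfl⟩ ⟨x, hx, hx'⟩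
    refine ⟨max n m, x, ?_⟩
    ext y
    constructor
    · rintro ⟨h1, h2⟩ i hi
      rcases le_max_iff.1 hi with h3 | h3
      · rw [h1 i h3, hx i h3]
      · rw [h2 i h3, hx' i h3]
    · intro hy
      exact ⟨fun i hi => by rw [hy i (le_max_of_le_left hi), hx i hi],
        fun i hi => by rw [hy i (le_max_of_le_right hi), hx' i hi]⟩
  refine ext_of_generate_finite _ ?_ hpi ?_ huniv
  · apply le_antisymm
    · refine iSup_le fun i => ?_
      rintro _ ⟨A, _, rfl⟩
      have : (fun x : ℕ → V => x i) ⁻¹' A = ⋃ u ∈ {u : Fin (i + 1) → V | u ⟨i, by omega⟩ ∈ A},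
          cyl i (fun j => if hj : j < i + 1 then u ⟨j, hj⟩ else u ⟨0, by omega⟩) := by
        ext x
        simp only [Set.mem_preimage, Set.mem_iUnion, exists_prop]
        constructor
        · intro hx
          refine ⟨fun j => x j, hx, fun j hj => ?_⟩
          simp only []
          rw [dif_pos (by omega)]
        · rintro ⟨u, hu, hx⟩
          have h5 := hx i le_rfl
          simp only [] at h5
          rw [dif_pos (by omega)] at h5
          rw [h5]
          exact hu
      rw [this]
      refine MeasurableSet.biUnion (Set.to_countable _) fun u _ => ?_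
      exact MeasurableSpace.measurableSet_generateFrom ⟨_, _, rfl⟩
    · apply MeasurableSpace.generateFrom_le
      rintro _ ⟨n, w, rfl⟩
      exact measurableSet_cyl n w
  · rintro _ ⟨n, w, rfl⟩
    exact h n w

/-- if the mass of the walks is known then the law is determined -/
theorem law_unique {μ ν : Measure (ℕ → V)} [IsProbabilityMeasure μ] [IsProbabilityMeasure ν]
    (W : ℕ → (ℕ → V) → Prop)
    (hW : ∀ n w w', (∀ i ≤ n, w i = w' i) → W n w → W n w')
    (hWν : ∀ᵐ x ∂ν, ∀ n, W n x)
    (h : ∀ n w, W n w → μ (cyl n w) = ν (cyl n w)) : μ = ν := by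
  refine ext_cyl (by rw [measure_univ, measure_univ]) ?_
  intro n w
  by_cases hw : W n w
  · exact h n w hw
  -- the total mass of the walks is one for both measures
  have hcount : Countable (Fin (n + 1) → V) := inferInstance
  let ext : (Fin (n + 1) → V) → (ℕ → V) :=
    fun u j => if hj : j < n + 1 then u ⟨j, hj⟩ else u ⟨0, by omega⟩
  let S : Set (Fin (n + 1) → V) := {u | W n (ext u)}
  have hdisj : ∀ u u' : Fin (n + 1) → V, u ≠ u' → Disjoint (cyl n (ext u)) (cyl n (ext u')) := by
    intro u u' hne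
    rw [Set.disjoint_left]
    intro x hx hx'
    apply hne
    funext j
    have h1 := hx j (by omega)
    have h2 := hx' j (by omega)
    simp only [ext, dif_pos j.2] at h1 h2
    rw [← h1, ← h2]
  have hsum : ∀ m : Measure (ℕ → V), m (⋃ u ∈ S, cyl n (ext u)) =
      ∑' u : S, m (cyl n (ext u)) := by
    intro m
    exact measure_biUnion (Set.to_countable _) (fun u _ u' _ hne => hdisj u u' hne)
      (fun u _ => measurableSet_cyl _ _)
  have hν1 : ν (⋃ u ∈ S, cyl n (ext u)) = 1 := by
    rw [← measure_univ (μ := ν)]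
    apply measure_congr
    filter_upwards [hWν] with x hx
    apply propext
    refine ⟨fun _ => trivial, fun _ => ?_⟩
    have hx1 : ∀ i ≤ n, x i = ext (fun j => x j) i := by
      intro i hi
      simp only [ext]
      rw [dif_pos (by omega)]
    exact Set.mem_biUnion (x := fun j : Fin (n + 1) => x j) (hW n x _ hx1 (hx n)) hx1
  have hμ1 : μ (⋃ u ∈ S, cyl n (ext u)) = 1 := by
    rw [← hν1, hsum, hsum]
    exact tsum_congr fun u => h n _ u.2
  have hzero : ∀ m : Measure (ℕ → V), IsProbabilityMeasure m →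
      m (⋃ u ∈ S, cyl n (ext u)) = 1 → m (cyl n w) = 0 := by
    intro m _ hm
    have hms : MeasurableSet (⋃ u ∈ S, cyl n (ext u)) :=
      MeasurableSet.biUnion (Set.to_countable _) fun u _ => measurableSet_cyl _ _
    have hc : m (⋃ u ∈ S, cyl n (ext u))ᶜ = 0 := by
      rw [prob_compl_eq_zero_iff hms]
      exact hm
    refine measure_mono_null ?_ hc
    intro x hx
    simp only [Set.mem_compl_iff, Set.mem_iUnion, not_exists]
    intro u hu hxu
    apply hw
    apply hW n (ext u) w _ hu
    intro i hi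
    rw [← hxu i hi, hx i hi]
  rw [hzero μ inferInstance hμ1, hzero ν inferInstance hν1]

end law

/-! ### convergence of the centres -/

theorem continuous_vec : Continuous (fun w : ℂ => vec w 1) := by
  refine continuous_pi fun i => ?_
  fin_cases i
  · show Continuous fun w : ℂ => 1 - cc * ((w.re / sh - w.im / (sh * om.im) * om.re)
      + w.im / (sh * om.im))
    fun_prop
  · show Continuous fun w : ℂ => w.re / sh - w.im / (sh * om.im) * om.re
    fun_prop
  · show Continuous fun w : ℂ => w.im / (sh * om.im)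
    fun_prop

theorem tendsto_centre {g : M3} (hg : IsLor g) {C0 : ℝ} {v : ℕ → E} {ξ : ℂ} (hξ : ‖ξ‖ = 1)
    (hv : ∀ n, 0 < Zf (v n)) (h1 : Tendsto (fun n => Wf (v n) / (Zf (v n) : ℂ)) atTop (𝓝 ξ))
    (h2 : Tendsto (fun n => Zf (v n)) atTop atTop) :
    Tendsto (fun n => Wf (g.mulVec (v n)) / ((Zf (g.mulVec (v n)) + C0 : ℝ) : ℂ)) atTop
      (𝓝 (act g ξ)) := by
  have hn : ∀ n, v n = Zf (v n) • vec (Wf (v n) / (Zf (v n) : ℂ)) 1 := by
    intro n
    have h0 : (Zf (v n) : ℂ) ≠ 0 := by exact_mod_cast (hv n).ne'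
    apply ext_WZ
    · rw [Wf_smul, Wf_vec, mul_div_cancel₀ _ h0]
    · rw [Zf_smul, Zf_vec, mul_one]
  have h3 : Tendsto (fun n => g.mulVec (vec (Wf (v n) / (Zf (v n) : ℂ)) 1)) atTop
      (𝓝 (g.mulVec (nn ξ))) := by
    have hc : Continuous (fun w : ℂ => g.mulVec (vec w 1)) :=
      Continuous.matrix_mulVec continuous_const continuous_vec
    exact (hc.tendsto ξ).comp h1
  have h4 : Tendsto (fun n => C0 / Zf (v n)) atTop (𝓝 0) := h2.const_div_atTop C0
  have h5 : Tendsto (fun n => Wf (g.mulVec (vec (Wf (v n) / (Zf (v n) : ℂ)) 1)) /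
      ((Zf (g.mulVec (vec (Wf (v n) / (Zf (v n) : ℂ)) 1)) + C0 / Zf (v n) : ℝ) : ℂ)) atTop
      (𝓝 (Wf (g.mulVec (nn ξ)) / ((Zf (g.mulVec (nn ξ)) + 0 : ℝ) : ℂ))) := by
    refine Tendsto.div ((continuous_Wf.tendsto _).comp h3) ?_ ?_
    · exact (Complex.continuous_ofReal.tendsto _).comp
        (((continuous_Zf.tendsto _).comp h3).add h4)
    · rw [add_zero]
      exact_mod_cast (hg.lam_pos hξ).ne'
  rw [add_zero] at h5
  refine h5.congr fun n => ?_
  set w := vec (Wf (v n) / (Zf (v n) : ℂ)) 1 with hw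
  have h0 : (Zf (v n) : ℂ) ≠ 0 := by exact_mod_cast (hv n).ne'
  have h6 : g.mulVec (v n) = Zf (v n) • g.mulVec w := by
    conv_lhs => rw [hn n]
    rw [Matrix.mulVec_smul]
  rw [h6, Wf_smul, Zf_smul]
  have h7 : ((Zf (v n) * Zf (g.mulVec w) + C0 : ℝ) : ℂ) =
      (Zf (v n) : ℂ) * ((Zf (g.mulVec w) + C0 / Zf (v n) : ℝ) : ℂ) := by
    push_cast
    field_simp
  rw [h7, mul_div_mul_left _ _ h0]

theorem arcLen_univ : arcLen Set.univ = 1 := by
  unfold arcLen
  rw [Measure.smul_apply, Measure.map_apply (by fun_prop) MeasurableSet.univ, Set.preimage_univ,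
    Measure.restrict_apply_univ, Real.volume_Ioc, smul_eq_mul, ← ENNReal.ofReal_mul (by positivity)]
  have : 1 / (2 * Real.pi) * (Real.pi - -Real.pi) = 1 := by
    have := Real.pi_pos
    field_simp
    ring
  rw [this, ENNReal.ofReal_one]

theorem main_packing {V : Type*} [Countable V] [MeasurableSpace V] [DiscreteMeasurableSpace V]
    {G : SimpleGraph V} {c : V → ℂ} {r : V → ℝ} (hP : IsPacking7 G c r) {α : V}
    {Ω : Type*} [MeasurableSpace Ω] (P : Measure Ω) [IsProbabilityMeasure P] (X : ℕ → Ω → V)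
    (hX : ∀ n, Measurable (X n))
    (hwalk : ∀ (n : ℕ) (w : ℕ → V), w 0 = α → (∀ i < n, G.Adj (w i) (w (i + 1))) →
      P {ω | ∀ i ≤ n, X i ω = w i} = (1 / 7) ^ n) :
    ∃ L : Ω → ℂ, Measurable L ∧
      (∀ᵐ ω ∂P, ‖L ω‖ = 1 ∧ Tendsto (fun n => c (X n ω)) atTop (𝓝 (L ω))) ∧
      (P.map L) ⟂ₘ arcLen ∧ (∀ ζ, P.map L {ζ} = 0) ∧ P.map L ≠ arcLen := by
  obtain ⟨C0, p, hC0, hinj, hp, hfr, hstep⟩ := frames hP
  obtain ⟨g0, hg0⟩ := hfr α
  obtain ⟨X0, hX0m, hX0, hstat⟩ := limit_exists
  -- the path of the driven walk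
  set YP : (ℕ → Fin 7) → (ℕ → V) := fun s n => YY G p α g0 s n with hYP
  have hYPm : Measurable YP := by
    refine measurable_pi_lambda _ fun n => ?_
    have e : (fun s => YY G p α g0 s n) = (fun u : Fin n → Fin 7 =>
        YY G p α g0 (fun j => if hj : j < n then u ⟨j, hj⟩ else 0) n) ∘
        (fun s j => s (j : ℕ)) := by
      funext s
      apply YY_congr
      intro i hi
      rw [dif_pos hi]
    show Measurable (fun s => YY G p α g0 s n)
    rw [e]
    exact (measurable_of_countable _).comp (by fun_prop)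
  set XP : Ω → (ℕ → V) := fun ω n => X n ω with hXP
  have hXPm : Measurable XP := measurable_pi_lambda _ hX
  have : IsProbabilityMeasure (P.map XP) := Measure.isProbabilityMeasure_map hXPm.aemeasurable
  have : IsProbabilityMeasure (steps.map YP) := Measure.isProbabilityMeasure_map hYPm.aemeasurable
  have hlaw : P.map XP = steps.map YP := by
    refine law_unique (fun n w => w 0 = α ∧ ∀ i < n, G.Adj (w i) (w (i + 1))) ?_ ?_ ?_
    · rintro n w w' h ⟨h1, h2⟩
      refine ⟨by rw [← h 0 (by omega)]; exact h1, fun i hi => ?_⟩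
      rw [← h i (by omega), ← h (i + 1) (by omega)]
      exact h2 i hi
    · rw [ae_map_iff hYPm.aemeasurable]
      · refine ae_of_all _ fun s n => ⟨rfl, fun i _ => ?_⟩
        exact (nxt_spec (YY_fr hstep hg0 s i) (s i)).1
      · have : {x : ℕ → V | ∀ n, x 0 = α ∧ ∀ i < n, G.Adj (x i) (x (i + 1))} =
            (fun x : ℕ → V => x 0) ⁻¹' {α} ∩
              ⋂ i : ℕ, (fun x : ℕ → V => (x i, x (i + 1))) ⁻¹' {q | G.Adj q.1 q.2} := by
          ext x
          simp only [Set.mem_inter_iff, Set.mem_preimage, Set.mem_singleton_iff, Set.mem_iInter]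
          constructor
          · intro h
            exact ⟨(h 0).1, fun i => (h (i + 1)).2 i (by omega)⟩
          · rintro ⟨h1, h2⟩ n
            exact ⟨h1, fun i _ => h2 i⟩
        rw [this]
        refine MeasurableSet.inter (measurable_pi_apply 0 (measurableSet_singleton _)) ?_
        refine MeasurableSet.iInter fun i => ?_
        exact (by fun_prop : Measurable (fun x : ℕ → V => (x i, x (i + 1)))) (MeasurableSet.of_discrete)
    · rintro n w ⟨h1, h2⟩
      rw [Measure.map_apply hXPm (measurableSet_cyl n w), Measure.map_apply hYPm (measurableSet_cyl n w)]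
      obtain ⟨k, hk⟩ := exists_word hinj hstep hg0 n w h1 h2
      have e1 : XP ⁻¹' cyl n w = {ω | ∀ i ≤ n, X i ω = w i} := rfl
      have e2 : YP ⁻¹' cyl n w = {s | ∀ i < n, s i = k i} := by
        ext s
        exact hk s
      rw [e1, e2, hwalk n w h1 h2, steps_cyl]
  -- convergence along the driven walk
  have hconv : ∀ᵐ s ∂steps, ‖act g0 (X0 s)‖ = 1 ∧
      Tendsto (fun n => c (YP s n)) atTop (𝓝 (act g0 (X0 s))) := by
    filter_upwards [hX0] with s hs
    obtain ⟨hs1, hs2, hs3⟩ := hs
    refine ⟨hg0.lor.norm_act hs1, ?_⟩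
    have h1 : ∀ n, 0 < Zf (pos (walk s n)) := by
      intro n
      have hl : IsLor (walk s n) := by
        induction n with
        | zero => exact IsLor.one
        | succ n ih => exact ih.mul (isLor_Am _)
      exact hl.fut
    have h2 := tendsto_centre (C0 := C0) hg0.lor hs1 h1 hs2 hs3
    refine h2.congr fun n => ?_
    have h3 := YY_fr hstep hg0 s n
    rw [(hp (YP s n)).2.2, ← h3.pos_eq, pos_mul]
  have hex : ∀ᵐ x ∂(steps.map YP), ∃ l, Tendsto (fun n => c (x n)) atTop (𝓝 l) := by
    have hms : MeasurableSet {x : ℕ → V | ∃ l, Tendsto (fun n => c (x n)) atTop (𝓝 l)} :=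
      measurableSet_exists_tendsto (fun n => (Measurable.of_discrete (f := c)).comp
        (measurable_pi_apply n))
    rw [ae_map_iff hYPm.aemeasurable hms]
    filter_upwards [hconv] with s hs
    exact ⟨_, hs.2⟩
  obtain ⟨F, hFm, hF⟩ := measurable_limit_of_tendsto_metrizable_ae
    (fun n => ((Measurable.of_discrete (f := c)).comp (measurable_pi_apply n)).aemeasurable) hex
  have hFY : ∀ᵐ s ∂steps, F (YP s) = act g0 (X0 s) := by
    filter_upwards [hconv, ae_of_ae_map hYPm.aemeasurable hF] with s hs hs'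
    exact tendsto_nhds_unique hs' hs.2
  have hmapL : P.map (F ∘ XP) = (steps.map X0).map (act g0) := by
    rw [← Measure.map_map hFm hXPm, hlaw, Measure.map_map hFm hYPm,
      Measure.map_map (measurable_act g0) hX0m]
    exact Measure.map_congr hFY
  refine ⟨F ∘ XP, hFm.comp hXPm, ?_, ?_, ?_, ?_⟩
  · have h1 : ∀ᵐ x ∂(steps.map YP), ‖F x‖ = 1 := by
      rw [ae_map_iff hYPm.aemeasurable (measurableSet_eq_fun (by fun_prop) measurable_const)]
      filter_upwards [hFY, hconv] with s hs hs'
      rw [hs]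
      exact hs'.1
    rw [← hlaw] at h1 hF
    filter_upwards [ae_of_ae_map hXPm.aemeasurable h1, ae_of_ae_map hXPm.aemeasurable hF] with ω h2 h3
    exact ⟨h2, h3⟩
  · rw [hmapL]
    exact hstat.singular hg0.lor
  · intro ζ
    rw [hmapL, Measure.map_apply (measurable_act g0) (measurableSet_singleton ζ)]
    have h1 := hstat.circ
    by_cases hz : ∃ ξ : ℂ, ‖ξ‖ = 1 ∧ act g0 ξ = ζ
    · obtain ⟨ξ, hξ1, hξ2⟩ := hz
      refine measure_mono_null (t := {ξ} ∪ {x | ¬ ‖x‖ = 1}) ?_ ?_
      · intro x hx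
        by_cases hx1 : ‖x‖ = 1
        · left
          exact hg0.lor.act_inj hx1 hξ1 (by rw [hξ2]; exact hx)
        · right
          exact hx1
      · rw [measure_union_null_iff]
        exact ⟨hstat.no_atoms ξ, h1⟩
    · refine measure_mono_null (t := {x | ¬ ‖x‖ = 1}) ?_ h1
      intro x hx hx1
      exact hz ⟨x, hx1, hx⟩
  · intro heq
    have h1 := hstat.singular hg0.lor
    rw [← hmapL, heq, Measure.MutuallySingular.self_iff] at h1
    have h2 := arcLen_univ
    rw [h1] at h2
    simp at h2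

end Pool.Agent.K7
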